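import Pool.Agent.RCE.St

/-!
# RCE: ALM

Almost similarities.
-/

set_option autoImplicit false

namespace RCE

open Metric

private theorem ALM_core {T : Set ℂ} {f : ℂ → ℂ} {x : ℂ} {R₀ ε R Λ : ℝ}
    (hs : AlmSim T f x R₀ ε) (hx : x ∈ T) (hε : 0 < ε) (hε1 : ε ≤ 1 / 100) (hR : 0 < R)
    (hRR : R < R₀) (hΛ : 0 < Λ)
    (h1 : ∀ p ∈ T, ‖p - x‖ < R →
      |‖f p - f x‖ - Λ * ‖p - x‖| ≤ 3 * ε * (Λ * R) ∧ ‖f p - f x‖ ≤ 2 * (Λ * R))
    (p q : ℂ) (hp : p ∈ T) (hq : q ∈ T) (hpR : ‖p - x‖ < R) (hqR : ‖q - x‖ < R)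
    (hle : ‖q - x‖ ≤ ‖p - x‖) :
    |‖f p - f q‖ - Λ * ‖p - q‖| ≤ 40 * ε * (Λ * R) := by
  have hΛR : 0 < Λ * R := mul_pos hΛ hR
  obtain ⟨hF, hF2⟩ := h1 p hp hpR
  have hD2 : ‖p - q‖ ≤ 2 * ‖p - x‖ := by
    have : ‖p - q‖ ≤ ‖p - x‖ + ‖q - x‖ := by
      have := norm_sub_le (p - x) (q - x)
      simpa using this
    linarith
  have hG0 : 0 ≤ ‖f p - f q‖ := norm_nonneg _
  have hD0 : 0 ≤ ‖p - q‖ := norm_nonneg _
  have hF0 : 0 ≤ ‖f p - f x‖ := norm_nonneg _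
  rcases (norm_nonneg (p - x)).eq_or_lt with h0 | h0
  · have hpx : p = x := by
      have := norm_eq_zero.mp h0.symm
      exact sub_eq_zero.mp this
    have hqx : q = x := by
      have : ‖q - x‖ = 0 := le_antisymm (by rw [h0]; exact hle) (norm_nonneg _)
      exact sub_eq_zero.mp (norm_eq_zero.mp this)
    subst hpx
    subst hqx
    simp
    positivity
  · -- the basic estimate
    have key : ∀ B : ℝ, |‖f p - f q‖ * ‖p - x‖ - ‖f p - f x‖ * ‖p - q‖| ≤ B * ‖p - x‖ →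
        |‖f p - f q‖ - Λ * ‖p - q‖| ≤ B + 6 * ε * (Λ * R) := by
      intro B hB
      have e1 : ‖p - x‖ * |‖f p - f q‖ - Λ * ‖p - q‖| ≤
          ‖p - x‖ * (B + 6 * ε * (Λ * R)) := by
        calc ‖p - x‖ * |‖f p - f q‖ - Λ * ‖p - q‖|
            = |‖p - x‖ * (‖f p - f q‖ - Λ * ‖p - q‖)| := by
              rw [abs_mul, abs_of_pos h0]
          _ = |(‖f p - f q‖ * ‖p - x‖ - ‖f p - f x‖ * ‖p - q‖) +
                (‖f p - f x‖ - Λ * ‖p - x‖) * ‖p - q‖| := by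
              congr 1; ring
          _ ≤ |‖f p - f q‖ * ‖p - x‖ - ‖f p - f x‖ * ‖p - q‖| +
                |(‖f p - f x‖ - Λ * ‖p - x‖) * ‖p - q‖| := abs_add_le _ _
          _ ≤ B * ‖p - x‖ + (3 * ε * (Λ * R)) * (2 * ‖p - x‖) := by
              refine add_le_add hB ?_
              rw [abs_mul, abs_of_nonneg hD0]
              exact mul_le_mul hF hD2 hD0 (by positivity)
          _ = ‖p - x‖ * (B + 6 * ε * (Λ * R)) := by ring
      exact le_of_mul_le_mul_left e1 h0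
    have hpR0 : ‖p - x‖ < R₀ := hpR.trans hRR
    have hqR0 : ‖q - x‖ < R₀ := hqR.trans hRR
    have hxR0 : ‖x - x‖ < R₀ := by
      rw [sub_self, norm_zero]; linarith
    rcases le_total ‖p - q‖ ‖p - x‖ with hc | hc
    · have h := hs p hp q hq x hx hpR0 hqR0 hxR0 hc
      have h' := key (ε * ‖f p - f x‖) (by
        calc _ ≤ _ := h
          _ = ε * ‖f p - f x‖ * ‖p - x‖ := by ring)
      have : ε * ‖f p - f x‖ ≤ ε * (2 * (Λ * R)) := mul_le_mul_of_nonneg_left hF2 hε.le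
      nlinarith [mul_pos hε hΛR]
    · have h := hs p hp x hx q hq hpR0 hxR0 hqR0 hc
      have h' := key (2 * ε * ‖f p - f q‖) (by
        rw [abs_sub_comm]
        calc _ ≤ _ := h
          _ = ε * ‖f p - f q‖ * ‖p - q‖ := by ring
          _ ≤ ε * ‖f p - f q‖ * (2 * ‖p - x‖) :=
            mul_le_mul_of_nonneg_left hD2 (by positivity)
          _ = 2 * ε * ‖f p - f q‖ * ‖p - x‖ := by ring)
      have hG : ‖f p - f q‖ ≤ 3 * (Λ * R) := by
        have e2 := (abs_le.mp h').2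
        have e3 : Λ * ‖p - q‖ ≤ Λ * (2 * R) :=
          mul_le_mul_of_nonneg_left (by linarith) hΛ.le
        have e4 : ε * ‖f p - f q‖ ≤ 1 / 100 * ‖f p - f q‖ :=
          mul_le_mul_of_nonneg_right hε1 hG0
        have e5 : ε * (Λ * R) ≤ 1 / 100 * (Λ * R) :=
          mul_le_mul_of_nonneg_right hε1 hΛR.le
        nlinarith
      have : ε * ‖f p - f q‖ ≤ ε * (3 * (Λ * R)) := mul_le_mul_of_nonneg_left hG hε.le
      nlinarith [mul_pos hε hΛR]

/-- [ALM] almost similarities -/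
theorem thm_ALM (hSPH : St_SPH) : St_ALM := by
  intro K x f R₀ ε R hx hε hε1 hs hinj hR hRR hRK
  obtain ⟨p₁, hp₁, hp₁x⟩ := hSPH K x (R / 2) hx (by linarith) (by linarith)
  have hp₁R0 : ‖p₁ - x‖ < R₀ := by rw [hp₁x]; linarith
  have hxR0 : ‖x - x‖ < R₀ := by rw [sub_self, norm_zero]; linarith
  have hne : f p₁ ≠ f x := by
    intro h
    have : p₁ = x := hinj ⟨hp₁, by rw [mem_ball, dist_eq_norm]; exact hp₁R0⟩
      ⟨hx, by rw [mem_ball, dist_eq_norm]; exact hxR0⟩ h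
    rw [this, sub_self, norm_zero] at hp₁x
    linarith
  have hF₁ : 0 < ‖f p₁ - f x‖ := norm_pos_iff.mpr (sub_ne_zero.mpr hne)
  set Λ : ℝ := 2 * ‖f p₁ - f x‖ / R with hΛdef
  have hΛ : 0 < Λ := by positivity
  have hF₁' : ‖f p₁ - f x‖ = Λ * R / 2 := by
    rw [hΛdef]; field_simp
  have hΛR : 0 < Λ * R := mul_pos hΛ hR
  have h1 : ∀ p ∈ K.T, ‖p - x‖ < R →
      |‖f p - f x‖ - Λ * ‖p - x‖| ≤ 3 * ε * (Λ * R) ∧ ‖f p - f x‖ ≤ 2 * (Λ * R) := by
    intro p hp hpR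
    have hp0 : 0 ≤ ‖p - x‖ := norm_nonneg _
    have hF0 : 0 ≤ ‖f p - f x‖ := norm_nonneg _
    have hpR0 : ‖p - x‖ < R₀ := hpR.trans hRR
    have main : |‖f p - f x‖ - Λ * ‖p - x‖| ≤ 3 * ε * (Λ * R) := by
      rcases le_total ‖p - x‖ (R / 2) with hc | hc
      · have h := hs x hx p hp p₁ hp₁ hxR0 hpR0 hp₁R0 (by
          rw [norm_sub_rev x p, norm_sub_rev x p₁, hp₁x]; exact hc)
        rw [norm_sub_rev (f x) (f p), norm_sub_rev (f x) (f p₁), norm_sub_rev x p,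
          norm_sub_rev x p₁, hp₁x, hF₁'] at h
        have e : (R / 2) * |‖f p - f x‖ - Λ * ‖p - x‖| ≤ (R / 2) * (ε * (Λ * R / 2)) := by
          calc (R / 2) * |‖f p - f x‖ - Λ * ‖p - x‖|
              = |(R / 2) * (‖f p - f x‖ - Λ * ‖p - x‖)| := by
                rw [abs_mul, abs_of_pos (by linarith : 0 < R / 2)]
            _ = |‖f p - f x‖ * (R / 2) - Λ * R / 2 * ‖p - x‖| := by congr 1; ring
            _ ≤ ε * (R / 2 * (Λ * R / 2)) := h
            _ = (R / 2) * (ε * (Λ * R / 2)) := by ring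
        have e' := le_of_mul_le_mul_left e (by linarith : 0 < R / 2)
        nlinarith [mul_pos hε hΛR]
      · have h := hs x hx p₁ hp₁ p hp hxR0 hp₁R0 hpR0 (by
          rw [norm_sub_rev x p, norm_sub_rev x p₁, hp₁x]; exact hc)
        rw [norm_sub_rev (f x) (f p), norm_sub_rev (f x) (f p₁), norm_sub_rev x p,
          norm_sub_rev x p₁, hp₁x, hF₁'] at h
        have e : (R / 2) * |‖f p - f x‖ - Λ * ‖p - x‖| ≤ (R / 2) * (2 * ε * ‖f p - f x‖) := by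
          calc (R / 2) * |‖f p - f x‖ - Λ * ‖p - x‖|
              = |(R / 2) * (‖f p - f x‖ - Λ * ‖p - x‖)| := by
                rw [abs_mul, abs_of_pos (by linarith : 0 < R / 2)]
            _ = |Λ * R / 2 * ‖p - x‖ - ‖f p - f x‖ * (R / 2)| := by
                rw [abs_sub_comm]; congr 1; ring
            _ ≤ ε * (‖p - x‖ * ‖f p - f x‖) := h
            _ ≤ ε * (R * ‖f p - f x‖) :=
                mul_le_mul_of_nonneg_left (mul_le_mul_of_nonneg_right hpR.le hF0) hε.le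
            _ = (R / 2) * (2 * ε * ‖f p - f x‖) := by ring
        have e' := le_of_mul_le_mul_left e (by linarith : 0 < R / 2)
        have e2 := (abs_le.mp e').2
        have e3 : Λ * ‖p - x‖ ≤ Λ * R := mul_le_mul_of_nonneg_left hpR.le hΛ.le
        have e4 : ε * ‖f p - f x‖ ≤ 1 / 100 * ‖f p - f x‖ :=
          mul_le_mul_of_nonneg_right hε1 hF0
        have e5 : ‖f p - f x‖ ≤ 3 / 2 * (Λ * R) := by nlinarith
        have e6 : ε * ‖f p - f x‖ ≤ ε * (3 / 2 * (Λ * R)) :=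
          mul_le_mul_of_nonneg_left e5 hε.le
        nlinarith
    refine ⟨main, ?_⟩
    have e2 := (abs_le.mp main).2
    have e3 : Λ * ‖p - x‖ ≤ Λ * R := mul_le_mul_of_nonneg_left hpR.le hΛ.le
    have e5 : ε * (Λ * R) ≤ 1 / 100 * (Λ * R) := mul_le_mul_of_nonneg_right hε1 hΛR.le
    nlinarith
  refine ⟨p₁, hp₁, hp₁x, Λ, hΛ, ?_⟩
  intro p hp q hq hpR hqR
  rcases le_total ‖q - x‖ ‖p - x‖ with hle | hle
  · exact ALM_core hs hx hε hε1 hR hRR hΛ h1 p q hp hq hpR hqR hle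
  · rw [norm_sub_rev (f p) (f q), norm_sub_rev p q]
    exact ALM_core hs hx hε hε1 hR hRR hΛ h1 q p hq hp hqR hpR hle

end RCE
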