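import Pool.Agent.RCE.St

/-!
# RCE, module ARC: the shorter arc of a circle
-/

set_option autoImplicit false

namespace RCE

open Metric

private theorem ARC_sq (h n : ℂ) (a b : ℝ) (h0 : inner ℝ h n = 0) (hn : ‖n‖ = 1) :
    ‖a • h + b • n‖ ^ 2 = a ^ 2 * ‖h‖ ^ 2 + b ^ 2 := by
  rw [norm_add_sq_real, inner_smul_left, inner_smul_right, h0, norm_smul, norm_smul, hn,
    mul_pow, mul_one, Real.norm_eq_abs, Real.norm_eq_abs, sq_abs, sq_abs]
  simp

theorem thm_ARC : St_ARC := by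
  intro c r s e hr hs he
  by_cases hse : s = e
  · refine ⟨{s}, isPreconnected_singleton, rfl, ?_, ?_⟩
    · rw [hse]
      rfl
    · intro w hw
      rw [Set.mem_singleton_iff] at hw
      rw [hw]
      refine ⟨hs, ?_⟩
      rw [← hse]
      simp
  obtain ⟨m, hm⟩ : ∃ m : ℂ, m = (s + e) / 2 := ⟨_, rfl⟩
  obtain ⟨h, hh⟩ : ∃ h : ℂ, h = (e - s) / 2 := ⟨_, rfl⟩
  have hs' : s = m - h := by
    rw [hm, hh]
    ring
  have he' : e = m + h := by
    rw [hm, hh]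
    ring
  have hh0 : h ≠ 0 := by
    intro h0
    apply hse
    rw [hs', he', h0]
    simp
  have hl : 0 < ‖h‖ := norm_pos_iff.2 hh0
  have hnorm : ‖s - e‖ / 2 = ‖h‖ := by
    have e1 : s - e = -((2 : ℝ) • h) := by
      rw [hs', he', Complex.real_smul]
      push_cast
      ring
    rw [e1, norm_neg, norm_smul]
    norm_num
  have h1 : ‖(m - c) - h‖ ^ 2 = r ^ 2 := by
    rw [← hs, hs']
    congr 2
    ring
  have h2 : ‖(m - c) + h‖ ^ 2 = r ^ 2 := by
    rw [← he, he']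
    congr 2
    ring
  rw [norm_sub_sq_real] at h1
  rw [norm_add_sq_real] at h2
  have h3 : inner ℝ (m - c) h = 0 := by linarith
  have hD : ‖m - c‖ ^ 2 = r ^ 2 - ‖h‖ ^ 2 := by
    rw [h3] at h1
    linarith
  obtain ⟨n, hn1, hn2, hn3⟩ : ∃ n : ℂ, ‖n‖ = 1 ∧ inner ℝ h n = 0 ∧ m - c = ‖m - c‖ • n := by
    by_cases hmc : m - c = 0
    · refine ⟨‖h‖⁻¹ • (Complex.I * h), ?_, ?_, ?_⟩
      · rw [norm_smul, norm_mul, Complex.norm_I, one_mul, norm_inv, norm_norm]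
        exact inv_mul_cancel₀ hl.ne'
      · rw [inner_smul_right, Complex.inner]
        have e1 : (Complex.I * h * (starRingEnd ℂ) h).re = 0 := by
          simp [Complex.mul_re, Complex.mul_im]
          ring
        rw [e1, mul_zero]
      · rw [hmc]
        simp
    · have hp : 0 < ‖m - c‖ := norm_pos_iff.2 hmc
      refine ⟨‖m - c‖⁻¹ • (m - c), ?_, ?_, ?_⟩
      · rw [norm_smul, norm_inv, norm_norm]
        exact inv_mul_cancel₀ hp.ne'
      · rw [inner_smul_right, real_inner_comm, h3, mul_zero]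
      · rw [smul_smul, mul_inv_cancel₀ hp.ne', one_smul]
  obtain ⟨q, hq⟩ : ∃ q : ℝ → ℝ, ∀ t, q t = √(r ^ 2 - t ^ 2 * ‖h‖ ^ 2) := ⟨_, fun t => rfl⟩
  have hqc : Continuous q := by
    have e1 : q = fun t : ℝ => √(r ^ 2 - t ^ 2 * ‖h‖ ^ 2) := funext hq
    rw [e1]
    fun_prop
  have hqe : ∀ t : ℝ, t ^ 2 = 1 → q t = ‖m - c‖ := by
    intro t ht
    rw [hq t, ht, one_mul, ← hD]
    exact Real.sqrt_sq (norm_nonneg _)
  refine ⟨(fun t : ℝ => m + (t • h + (q t - ‖m - c‖) • n)) '' Set.Icc (-1) 1, ?_, ?_, ?_, ?_⟩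
  · apply isPreconnected_Icc.image
    apply Continuous.continuousOn
    fun_prop
  · refine ⟨-1, ⟨le_refl _, by norm_num⟩, ?_⟩
    show m + ((-1 : ℝ) • h + (q (-1) - ‖m - c‖) • n) = s
    rw [hqe (-1) (by norm_num), sub_self, zero_smul, add_zero, hs', neg_one_smul]
    ring
  · refine ⟨1, ⟨by norm_num, le_refl _⟩, ?_⟩
    show m + ((1 : ℝ) • h + (q 1 - ‖m - c‖) • n) = e
    rw [hqe 1 (by norm_num), sub_self, zero_smul, add_zero, he', one_smul]
  · rintro w ⟨t, ht, rfl⟩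
    have ht2 : t ^ 2 ≤ 1 := by
      rw [sq_le_one_iff_abs_le_one]
      exact abs_le.2 ht
    have hle : t ^ 2 * ‖h‖ ^ 2 ≤ ‖h‖ ^ 2 := by
      have := mul_le_mul_of_nonneg_right ht2 (sq_nonneg ‖h‖)
      linarith
    have hnn : 0 ≤ r ^ 2 - t ^ 2 * ‖h‖ ^ 2 := by
      have := sq_nonneg ‖m - c‖
      linarith
    have hq2 : q t ^ 2 = r ^ 2 - t ^ 2 * ‖h‖ ^ 2 := by
      rw [hq t]
      exact Real.sq_sqrt hnn
    have hq0 : 0 ≤ q t := by
      rw [hq t]
      exact Real.sqrt_nonneg _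
    constructor
    · show ‖m + (t • h + (q t - ‖m - c‖) • n) - c‖ = r
      have e1 : m + (t • h + (q t - ‖m - c‖) • n) - c = t • h + q t • n := by
        rw [sub_smul, ← hn3]
        ring
      rw [e1]
      have e2 := ARC_sq h n t (q t) hn2 hn1
      rw [hq2] at e2
      have e3 : ‖t • h + q t • n‖ ^ 2 = r ^ 2 := by
        rw [e2]
        ring
      exact (pow_left_inj₀ (norm_nonneg _) hr.le two_ne_zero).1 e3
    · show ‖m + (t • h + (q t - ‖m - c‖) • n) - (s + e) / 2‖ ≤ ‖s - e‖ / 2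
      rw [← hm, hnorm, add_sub_cancel_left]
      have e2 := ARC_sq h n t (q t - ‖m - c‖) hn2 hn1
      have hDq : ‖m - c‖ ≤ q t := by
        apply le_of_sq_le_sq _ hq0
        rw [hD, hq2]
        linarith
      have e4 : (q t - ‖m - c‖) ^ 2 ≤ (1 - t ^ 2) * ‖h‖ ^ 2 := by
        have e5 : (q t - ‖m - c‖) ^ 2 ≤ q t ^ 2 - ‖m - c‖ ^ 2 := by
          nlinarith [norm_nonneg (m - c)]
        rw [hq2, hD] at e5
        linarith
      have e6 : ‖t • h + (q t - ‖m - c‖) • n‖ ^ 2 ≤ ‖h‖ ^ 2 := by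
        rw [e2]
        linarith
      exact le_of_sq_le_sq e6 hl.le

end RCE
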