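import Pool.Agent.RCE.St

/-!
# RCE, module BL: Moebius maps are bi-Lipschitz (MP_d2bd1a_an)
-/

set_option autoImplicit false

namespace RCE

open Metric

private theorem BL_aux (T : Set ℂ) (hT : IsCompact T) (g : Equiv.Perm T) (φ : ℂ → ℂ)
    (hφ : Continuous φ) (hφ2 : ∀ p q, ‖φ p - φ q‖ = ‖p - q‖) (a b c d : ℂ)
    (hdet : a * d - b * c = 1)
    (h : ∀ z : T, c * φ z + d ≠ 0 ∧ (g z : ℂ) = (a * φ z + b) / (c * φ z + d)) :
    ∃ L : ℝ, 1 ≤ L ∧ ∀ p q : T,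
      ‖(p : ℂ) - q‖ ≤ L * ‖(g p : ℂ) - g q‖ ∧ ‖(g p : ℂ) - g q‖ ≤ L * ‖(p : ℂ) - q‖ := by
  have hw : Continuous fun z => c * φ z + d := (continuous_const.mul hφ).add continuous_const
  obtain ⟨M, hM⟩ := hT.exists_bound_of_continuousOn hw.continuousOn
  obtain ⟨M', hM'⟩ := hT.exists_bound_of_continuousOn
    (hw.continuousOn.inv₀ fun z hz => (h ⟨z, hz⟩).1)
  refine ⟨max 1 (max (M * M) (M' * M')), le_max_left _ _, fun p q => ?_⟩
  have e : (g p : ℂ) - g q = (φ p - φ q) * ((c * φ p + d)⁻¹ * (c * φ q + d)⁻¹) := by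
    have h1 := (h p).1
    have h2 := (h q).1
    rw [(h p).2, (h q).2, div_sub_div _ _ h1 h2, ← mul_inv, ← div_eq_mul_inv]
    congr 1
    linear_combination (φ p - φ q) * hdet
  have e' : φ p - φ q = ((g p : ℂ) - g q) * ((c * φ p + d) * (c * φ q + d)) := by
    have h1 := (h p).1
    have h2 := (h q).1
    have h3 : (c * φ p + d)⁻¹ * (c * φ q + d)⁻¹ * ((c * φ p + d) * (c * φ q + d)) = 1 := by
      rw [← mul_inv]
      exact inv_mul_cancel₀ (mul_ne_zero h1 h2)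
    rw [e, mul_assoc, h3, mul_one]
  have n1 : ‖(g p : ℂ) - g q‖ = ‖(p : ℂ) - q‖ *
      (‖(c * φ p + d)⁻¹‖ * ‖(c * φ q + d)⁻¹‖) := by
    rw [e, norm_mul, norm_mul, hφ2]
  have n2 : ‖(p : ℂ) - q‖ = ‖(g p : ℂ) - g q‖ * (‖c * φ p + d‖ * ‖c * φ q + d‖) := by
    rw [← hφ2, e', norm_mul, norm_mul]
  have hp1 := hM p p.2
  have hq1 := hM q q.2
  have hp2 := hM' p p.2
  have hq2 := hM' q q.2
  constructor
  · have h5 : ‖c * φ p + d‖ * ‖c * φ q + d‖ ≤ M * M :=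
      mul_le_mul hp1 hq1 (norm_nonneg _) ((norm_nonneg _).trans hp1)
    have h6 : ‖c * φ p + d‖ * ‖c * φ q + d‖ ≤ max 1 (max (M * M) (M' * M')) :=
      h5.trans ((le_max_left _ _).trans (le_max_right _ _))
    calc ‖(p : ℂ) - q‖ = ‖(g p : ℂ) - g q‖ * (‖c * φ p + d‖ * ‖c * φ q + d‖) := n2
      _ ≤ ‖(g p : ℂ) - g q‖ * max 1 (max (M * M) (M' * M')) :=
        mul_le_mul_of_nonneg_left h6 (norm_nonneg _)
      _ = max 1 (max (M * M) (M' * M')) * ‖(g p : ℂ) - g q‖ := mul_comm _ _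
  · have h5 : ‖(c * φ p + d)⁻¹‖ * ‖(c * φ q + d)⁻¹‖ ≤ M' * M' :=
      mul_le_mul hp2 hq2 (norm_nonneg _) ((norm_nonneg _).trans hp2)
    have h6 : ‖(c * φ p + d)⁻¹‖ * ‖(c * φ q + d)⁻¹‖ ≤ max 1 (max (M * M) (M' * M')) :=
      h5.trans ((le_max_right _ _).trans (le_max_right _ _))
    calc ‖(g p : ℂ) - g q‖ = ‖(p : ℂ) - q‖ *
        (‖(c * φ p + d)⁻¹‖ * ‖(c * φ q + d)⁻¹‖) := n1
      _ ≤ ‖(p : ℂ) - q‖ * max 1 (max (M * M) (M' * M')) :=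
        mul_le_mul_of_nonneg_left h6 (norm_nonneg _)
      _ = max 1 (max (M * M) (M' * M')) * ‖(p : ℂ) - q‖ := mul_comm _ _

theorem thm_BL (hTF : St_TF) : St_BL := by
  intro K g hg
  obtain ⟨a, b, c, d, hdet, h | h⟩ := hg
  · exact BL_aux K.T (hTF K).1 g id continuous_id (fun _ _ => rfl) a b c d hdet h
  · refine BL_aux K.T (hTF K).1 g (starRingEnd ℂ) Complex.continuous_conj (fun p q => ?_)
      a b c d hdet h
    rw [← map_sub, RCLike.norm_conj]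

end RCE
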