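import Pool.Agent.RCE.St

set_option autoImplicit false

namespace RCE

open Metric

theorem thm_BS (hBSA : St_BSA) (hBL : St_BL) (hNNB : St_NNB) (hDBL : St_DBL) (hTF : St_TF) : St_BS := by
  classical
  intro K Γ hG η hη
  obtain ⟨B, hB, hcov⟩ := hBSA K Γ hG η hη
  have hL : ∀ g ∈ B, ∃ L : ℝ, 1 ≤ L ∧ ∀ p q : K.T,
      ‖(p : ℂ) - q‖ ≤ L * ‖(g p : ℂ) - g q‖ ∧ ‖(g p : ℂ) - g q‖ ≤ L * ‖(p : ℂ) - q‖ :=
    fun g hg => hBL K g (hG.mob g (hB g hg))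
  choose! L hL1 hL2 using hL
  have hsum : 0 ≤ ∑ g ∈ B, |L g| := Finset.sum_nonneg fun g _ => abs_nonneg _
  obtain ⟨M, hMdef⟩ : ∃ M : ℝ, M = 1 + ∑ g ∈ B, |L g| := ⟨_, rfl⟩
  have hM : 1 ≤ M := by rw [hMdef]; linarith
  have hLM : ∀ g ∈ B, L g ≤ M := by
    intro g hg
    have h1 : |L g| ≤ ∑ g ∈ B, |L g| := Finset.single_le_sum (f := fun g => |L g|) (fun g _ => abs_nonneg _) hg
    have h2 := le_abs_self (L g)
    rw [hMdef]; linarith
  have hM0 : 0 < M := by linarith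
  obtain ⟨C₁, hC₁, hD⟩ := hDBL M hM
  have hcB : (0 : ℝ) ≤ B.card := Nat.cast_nonneg _
  refine ⟨1 + B.card * C₁, by nlinarith [mul_nonneg hcB (le_trans zero_le_one hC₁)], ?_⟩
  intro z s hz hs
  have hbdT : Bornology.IsBounded K.T := (hTF K).1.isBounded
  have hbd : Bornology.IsBounded (K.T ∩ ball z η) := hbdT.subset Set.inter_subset_left
  obtain ⟨F, hF, hsep, hcard, -⟩ := (hNNB K.T s hbdT hs).2
  have hsM : 0 < s / M := div_pos hs hM0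
  let φ : Equiv.Perm K.T → ℂ → ℂ := fun g p => if hp : p ∈ K.T then (g ⟨p, hp⟩ : ℂ) else 0
  have hφ : ∀ (g : Equiv.Perm K.T) (p : ℂ) (hp : p ∈ K.T), φ g p = (g ⟨p, hp⟩ : ℂ) := by
    intro g p hp
    simp only [φ, dif_pos hp]
  let Fg : Equiv.Perm K.T → Finset ℂ := fun g => F.filter fun p => ‖φ g p - z‖ < η
  have hFT : ∀ p ∈ F, p ∈ K.T := fun p hp => hF (by exact_mod_cast hp)
  have hcovF : F ⊆ B.biUnion Fg := by
    intro p hp
    obtain ⟨g, hg, hlt⟩ := hcov ⟨z, hz⟩ ⟨p, hFT p hp⟩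
    rw [Finset.mem_biUnion]
    refine ⟨g, hg, ?_⟩
    simp only [Fg, Finset.mem_filter]
    refine ⟨hp, ?_⟩
    rw [hφ g p (hFT p hp)]
    exact hlt
  have hone : ∀ g ∈ B, (Fg g).card ≤ NN (K.T ∩ ball z η) (s / M) := by
    intro g hg
    have hinj : Set.InjOn (φ g) (Fg g : Set ℂ) := by
      intro p hp q hq hpq
      have hp' : p ∈ Fg g := by exact_mod_cast hp
      have hq' : q ∈ Fg g := by exact_mod_cast hq
      have hpF : p ∈ K.T := hFT p (Finset.mem_filter.1 hp').1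
      have hqF : q ∈ K.T := hFT q (Finset.mem_filter.1 hq').1
      rw [hφ g p hpF, hφ g q hqF] at hpq
      have h1 : g ⟨p, hpF⟩ = g ⟨q, hqF⟩ := Subtype.ext hpq
      have h2 := g.injective h1
      exact congrArg Subtype.val h2
    rw [← Finset.card_image_of_injOn hinj]
    refine (hNNB (K.T ∩ ball z η) (s / M) hbd hsM).1 _ ?_ ?_
    · intro w hw
      have hw' : w ∈ (Fg g).image (φ g) := by exact_mod_cast hw
      obtain ⟨p, hp, rfl⟩ := Finset.mem_image.1 hw'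
      have hp2 := Finset.mem_filter.1 hp
      have hpF : p ∈ K.T := hFT p hp2.1
      refine ⟨?_, ?_⟩
      · rw [hφ g p hpF]; exact (g ⟨p, hpF⟩).2
      · rw [mem_ball, dist_eq_norm]; exact hp2.2
    · intro w hw w' hw' hne
      obtain ⟨p, hp, rfl⟩ := Finset.mem_image.1 hw
      obtain ⟨q, hq, rfl⟩ := Finset.mem_image.1 hw'
      have hpq : p ≠ q := fun e => hne (by rw [e])
      have hp2 := Finset.mem_filter.1 hp
      have hq2 := Finset.mem_filter.1 hq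
      have hpF : p ∈ K.T := hFT p hp2.1
      have hqF : q ∈ K.T := hFT q hq2.1
      have h1 : s ≤ ‖p - q‖ := hsep p hp2.1 q hq2.1 hpq
      have h2 := (hL2 g hg ⟨p, hpF⟩ ⟨q, hqF⟩).1
      rw [hφ g p hpF, hφ g q hqF, div_le_iff₀ hM0]
      have h3 : L g * ‖(g ⟨p, hpF⟩ : ℂ) - g ⟨q, hqF⟩‖ ≤ M * ‖(g ⟨p, hpF⟩ : ℂ) - g ⟨q, hqF⟩‖ :=
        mul_le_mul_of_nonneg_right (hLM g hg) (norm_nonneg _)
      calc s ≤ ‖p - q‖ := h1
        _ ≤ L g * ‖(g ⟨p, hpF⟩ : ℂ) - g ⟨q, hqF⟩‖ := h2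
        _ ≤ M * ‖(g ⟨p, hpF⟩ : ℂ) - g ⟨q, hqF⟩‖ := h3
        _ = ‖(g ⟨p, hpF⟩ : ℂ) - g ⟨q, hqF⟩‖ * M := mul_comm _ _
  have hN : F.card ≤ B.card * NN (K.T ∩ ball z η) (s / M) := by
    calc F.card ≤ (B.biUnion Fg).card := Finset.card_le_card hcovF
      _ ≤ ∑ g ∈ B, (Fg g).card := Finset.card_biUnion_le
      _ ≤ ∑ _g ∈ B, NN (K.T ∩ ball z η) (s / M) := Finset.sum_le_sum hone
      _ = B.card * NN (K.T ∩ ball z η) (s / M) := by rw [Finset.sum_const, smul_eq_mul]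
  have hD2 := hD (K.T ∩ ball z η) (s / M) hbd hsM
  rw [show M * (s / M) = s from by field_simp] at hD2
  rw [← hcard]
  have hN' : (F.card : ℝ) ≤ B.card * (NN (K.T ∩ ball z η) (s / M) : ℝ) := by exact_mod_cast hN
  have hn0 : (0 : ℝ) ≤ NN (K.T ∩ ball z η) s := Nat.cast_nonneg _
  calc (F.card : ℝ) ≤ B.card * (NN (K.T ∩ ball z η) (s / M) : ℝ) := hN'
    _ ≤ B.card * (C₁ * NN (K.T ∩ ball z η) s) := mul_le_mul_of_nonneg_left hD2 hcB
    _ ≤ (1 + B.card * C₁) * NN (K.T ∩ ball z η) s := by nlinarith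

end RCE
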