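import Pool.Agent.RCE.St

/-!
# RCE, module BSA: finitely many group elements reach every ball (offer 16408, helper81)
-/

set_option autoImplicit false

namespace RCE

open Metric

theorem thm_BSA (hNF : St_NF) (hEX : St_EX) (hTF : St_TF) : St_BSA := by
  classical
  intro K Γ hG η hη
  obtain ⟨η₁, hη₁, B₁, hB₁, hB₁'⟩ := hNF K Γ hG
  have hcomp : CompactSpace K.T := isCompact_iff_compactSpace.1 (hTF K).1
  obtain ⟨t, -, htf, htc⟩ := (isCompact_univ : IsCompact (Set.univ : Set K.T)).finite_cover_balls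
    (half_pos hη)
  choose g hgΓ e hge using fun z : K.T => hEX K Γ hG (η / 2) (η₁ / 3) z (half_pos hη) (by linarith)
  refine ⟨htf.toFinset.image g ∪ (htf.toFinset ×ˢ B₁).image (fun q => g q.1 * q.2), ?_, ?_⟩
  · intro h hh
    rcases Finset.mem_union.1 hh with h1 | h1
    · obtain ⟨z, -, rfl⟩ := Finset.mem_image.1 h1
      exact hgΓ z
    · obtain ⟨q, hq, rfl⟩ := Finset.mem_image.1 h1
      exact Γ.mul_mem (hgΓ q.1) (hB₁ q.2 (Finset.mem_product.1 hq).2)
  · intro z p
    obtain ⟨k, hk, hzk⟩ := Set.mem_iUnion₂.1 (htc (Set.mem_univ z))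
    rw [mem_ball, Subtype.dist_eq, dist_eq_norm] at hzk
    have htri : ∀ w : ℂ, ‖w - k‖ < η / 2 → ‖w - z‖ < η := by
      intro w hw
      have h1 : w - z = (w - k) - ((z : ℂ) - k) := by ring
      rw [h1]
      have h2 := norm_sub_le (w - k) ((z : ℂ) - k)
      linarith
    by_cases h : η₁ / 3 < ‖(p : ℂ) - e k‖
    · refine ⟨g k, Finset.mem_union_left _ (Finset.mem_image_of_mem _ (htf.mem_toFinset.2 hk)), ?_⟩
      exact htri _ (hge k p h)
    · obtain ⟨β, hβ, hβp⟩ := hB₁' p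
      refine ⟨g k * β, Finset.mem_union_right _ (Finset.mem_image.2
        ⟨(k, β), Finset.mem_product.2 ⟨htf.mem_toFinset.2 hk, hβ⟩, rfl⟩), ?_⟩
      refine htri _ (hge k (β p) ?_)
      have h1 : (β p : ℂ) - p = ((β p : ℂ) - e k) - ((p : ℂ) - e k) := by ring
      have h2 := norm_sub_le ((β p : ℂ) - e k) ((p : ℂ) - e k)
      rw [← h1] at h2
      have h3 := not_lt.1 h
      linarith

end RCE
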