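import Pool.Agent.RCE.St

/-!
# RCE: complementary components (module CC)
-/

set_option autoImplicit false

namespace RCE

open Metric

theorem thm_CC : St_CC := by
  intro K S hS hne hT
  obtain ⟨p, hp⟩ := hne
  have hcov : ∀ q ∈ S, q ∉ closedBall K.c₀ K.r₀ ∨ ∃ i, q ∈ ball (K.c i) (K.r i) := by
    intro q hq
    by_contra h
    push Not at h
    apply hT q hq
    refine ⟨h.1, ?_⟩
    intro h2
    rw [Set.mem_iUnion] at h2
    obtain ⟨i, hi⟩ := h2
    exact h.2 i hi
  have hin : ∀ i q, q ∈ ball (K.c i) (K.r i) → q ∈ closedBall K.c₀ K.r₀ := fun i q hq =>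
    Metric.ball_subset_closedBall (K.sub i (Metric.ball_subset_closedBall hq))
  rcases hcov p hp with h | ⟨i, hi⟩
  · right
    have h1 : S ⊆ (closedBall K.c₀ K.r₀)ᶜ := by
      refine hS.subset_left_of_subset_union (v := ⋃ i, ball (K.c i) (K.r i))
        Metric.isClosed_closedBall.isOpen_compl (isOpen_iUnion fun i => Metric.isOpen_ball) ?_ ?_ ⟨p, hp, h⟩
      · rw [Set.disjoint_left]
        intro q hq hq2
        rw [Set.mem_iUnion] at hq2
        obtain ⟨i, hi⟩ := hq2
        exact hq (hin i q hi)
      · intro q hq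
        rcases hcov q hq with h2 | h2
        · exact Or.inl h2
        · exact Or.inr (Set.mem_iUnion.mpr h2)
    intro q hq
    have h2 := h1 hq
    rw [Set.mem_compl_iff, Metric.mem_closedBall, dist_eq_norm] at h2
    exact not_le.mp h2
  · left
    refine ⟨i, ?_⟩
    refine hS.subset_left_of_subset_union (v := (closedBall K.c₀ K.r₀)ᶜ ∪ ⋃ j, ⋃ (_ : j ≠ i), ball (K.c j) (K.r j))
        Metric.isOpen_ball (Metric.isClosed_closedBall.isOpen_compl.union
          (isOpen_iUnion fun j => isOpen_iUnion fun _ => Metric.isOpen_ball)) ?_ ?_ ⟨p, hp, hi⟩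
    · rw [Set.disjoint_left]
      intro q hq hq2
      rcases hq2 with h2 | h2
      · exact h2 (hin i q hq)
      · rw [Set.mem_iUnion] at h2
        obtain ⟨j, hj⟩ := h2
        rw [Set.mem_iUnion] at hj
        obtain ⟨hji, hj⟩ := hj
        exact Set.disjoint_left.mp (K.disj j i hji) (Metric.ball_subset_closedBall hj)
          (Metric.ball_subset_closedBall hq)
    · intro q hq
      rcases hcov q hq with h2 | ⟨j, hj⟩
      · exact Or.inr (Or.inl h2)
      · by_cases hji : j = i
        · subst hji
          exact Or.inl hj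
        · refine Or.inr (Or.inr ?_)
          rw [Set.mem_iUnion]
          exact ⟨j, Set.mem_iUnion.mpr ⟨hji, hj⟩⟩

end RCE
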