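import Pool.Agent.RCE.St

/-!
# RCE, module CH: separated sets seen from a viewpoint
-/

set_option autoImplicit false

namespace RCE

open Metric EuclideanGeometry

private lemma CH_sqrt_ge (a h : ℝ) (_ha : 0 ≤ a) : a ≤ √(a ^ 2 + h ^ 2) := by
  apply Real.le_sqrt_of_sq_le
  nlinarith [sq_nonneg h]

private lemma CH_sqrt_ge' (a h : ℝ) (_hh : 0 ≤ h) : h ≤ √(a ^ 2 + h ^ 2) := by
  apply Real.le_sqrt_of_sq_le
  nlinarith [sq_nonneg a]

private lemma CH_near (u : ℂ) (h : ℝ) (hh : 0 < h) (p q : ℂ) : h * dd u h p q ≤ ‖p - q‖ := by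
  have h1 := CH_sqrt_ge' ‖p - u‖ h hh.le
  have h2 := CH_sqrt_ge' ‖q - u‖ h hh.le
  have h3 : h * h ≤ √(‖p - u‖ ^ 2 + h ^ 2) * √(‖q - u‖ ^ 2 + h ^ 2) :=
    mul_le_mul h1 h2 hh.le (Real.sqrt_nonneg _)
  have h4 : 0 < √(‖p - u‖ ^ 2 + h ^ 2) * √(‖q - u‖ ^ 2 + h ^ 2) := lt_of_lt_of_le (mul_pos hh hh) h3
  unfold dd
  rw [← mul_div_assoc, div_le_iff₀ h4]
  nlinarith [norm_nonneg (p - q)]

private lemma CH_far (u : ℂ) (h : ℝ) (hh : 0 < h) (p q : ℂ) (hp : h < ‖p - u‖) (hq : h < ‖q - u‖) :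
    h * dd u h p q ≤ dist (inversion u h p) (inversion u h q) := by
  have hp0 : 0 < ‖p - u‖ := hh.trans hp
  have hq0 : 0 < ‖q - u‖ := hh.trans hq
  have hpu : p ≠ u := by
    rintro rfl
    simp at hp0
  have hqu : q ≠ u := by
    rintro rfl
    simp at hq0
  rw [dist_inversion_inversion hpu hqu, dist_eq_norm, dist_eq_norm, dist_eq_norm]
  have h1 := CH_sqrt_ge ‖p - u‖ h hp0.le
  have h2 := CH_sqrt_ge ‖q - u‖ h hq0.le
  have h3 : ‖p - u‖ * ‖q - u‖ ≤ √(‖p - u‖ ^ 2 + h ^ 2) * √(‖q - u‖ ^ 2 + h ^ 2) :=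
    mul_le_mul h1 h2 hq0.le (Real.sqrt_nonneg _)
  have h5 : 0 < ‖p - u‖ * ‖q - u‖ := mul_pos hp0 hq0
  unfold dd
  rw [← mul_div_assoc, div_mul_eq_mul_div]
  have e : h * (h * ‖p - q‖) = h ^ 2 * ‖p - q‖ := by ring
  rw [e]
  exact div_le_div_of_nonneg_left (by positivity) h5 h3

theorem thm_CH (hPK : St_PK) : St_CH := by
  intro s hs
  obtain ⟨N, hN⟩ := hPK (1 / s)
  refine ⟨N + N, ?_⟩
  intro u h F hh hF
  have hsh : 0 < s * h := mul_pos hs hh
  have hk : 1 / s * (s * h) = h := by field_simp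
  have hsep : ∀ p ∈ F, ∀ q ∈ F, p ≠ q → s * h ≤ h * dd u h p q := by
    intro p hp q hq hpq
    rw [mul_comm s h]
    exact mul_le_mul_of_nonneg_left (hF p hp q hq hpq) hh.le
  have h1 : (F.filter fun p => ‖p - u‖ ≤ h).card ≤ N := by
    apply hN u (s * h) _ hsh
    · intro p hp q hq hpq
      rw [Finset.mem_filter] at hp hq
      exact (hsep p hp.1 q hq.1 hpq).trans (CH_near u h hh p q)
    · intro q hq
      rw [Finset.mem_filter] at hq
      rw [hk]
      exact hq.2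
  have hfar : ∀ p ∈ F.filter (fun p => ¬ ‖p - u‖ ≤ h), ∀ q ∈ F.filter (fun p => ¬ ‖p - u‖ ≤ h),
      p ≠ q → s * h ≤ dist (inversion u h p) (inversion u h q) := by
    intro p hp q hq hpq
    rw [Finset.mem_filter] at hp hq
    exact (hsep p hp.1 q hq.1 hpq).trans (CH_far u h hh p q (not_le.mp hp.2) (not_le.mp hq.2))
  have hinj : Set.InjOn (inversion u h) (F.filter fun p => ¬ ‖p - u‖ ≤ h : Finset ℂ) := by
    intro p hp q hq hpq
    by_contra hne
    have := hfar p hp q hq hne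
    rw [hpq, dist_self] at this
    linarith
  have h2 : (F.filter fun p => ¬ ‖p - u‖ ≤ h).card ≤ N := by
    rw [← Finset.card_image_of_injOn hinj]
    apply hN u (s * h) _ hsh
    · intro x hx y hy hxy
      rw [Finset.mem_image] at hx hy
      obtain ⟨p, hp, rfl⟩ := hx
      obtain ⟨q, hq, rfl⟩ := hy
      rw [← dist_eq_norm]
      exact hfar p hp q hq (fun e => hxy (by rw [e]))
    · intro x hx
      rw [Finset.mem_image] at hx
      obtain ⟨p, hp, rfl⟩ := hx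
      rw [Finset.mem_filter, not_le] at hp
      rw [hk, ← dist_eq_norm, dist_inversion_center, dist_eq_norm, div_le_iff₀ (hh.trans hp.2), sq]
      exact mul_le_mul_of_nonneg_left hp.2.le hh.le
  have h3 := Finset.card_filter_add_card_filter_not (s := F) (fun p => ‖p - u‖ ≤ h)
  omega

end RCE
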