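import Pool.Agent.RCE.St

/-!
# RCE, CLS: uniform counting of separated points (helper30)
-/

set_option autoImplicit false

namespace RCE

open Metric

/-- transfer of separated sets along a map -/
private theorem CLS_tr (hNNB : St_NNB) (E E' : Set ℂ) (s s' : ℝ) (hE : Bornology.IsBounded E)
    (hE' : Bornology.IsBounded E') (hs : 0 < s) (hs' : 0 < s') (φ : ℂ → ℂ)
    (h1 : ∀ p ∈ E, φ p ∈ E')
    (h2 : ∀ p ∈ E, ∀ q ∈ E, s ≤ ‖p - q‖ → s' ≤ ‖φ p - φ q‖) : NN E s ≤ NN E' s' := by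
  classical
  obtain ⟨-, F, hF, hsep, hcard, -⟩ := hNNB E s hE hs
  have hinj : Set.InjOn φ F := by
    intro p hp q hq hpq
    by_contra hne
    have h3 := h2 p (hF hp) q (hF hq) (hsep p hp q hq hne)
    rw [hpq, sub_self, norm_zero] at h3
    linarith
  rw [← hcard, ← Finset.card_image_of_injOn hinj]
  refine (hNNB E' s' hE' hs').1 _ ?_ ?_
  · intro x hx
    rw [Finset.mem_coe, Finset.mem_image] at hx
    obtain ⟨p, hp, rfl⟩ := hx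
    exact h1 p (hF hp)
  · intro x hx w hw hne
    rw [Finset.mem_image] at hx hw
    obtain ⟨p, hp, rfl⟩ := hx
    obtain ⟨q, hq, rfl⟩ := hw
    refine h2 p (hF hp) q (hF hq) (hsep p hp q hq ?_)
    rintro rfl
    exact hne rfl

open Classical in
/-- a permutation of the carpet as a map of the plane -/
private noncomputable def CLS_ex (K : Cp) (g : Equiv.Perm K.T) (p : ℂ) : ℂ :=
  if h : p ∈ K.T then (g ⟨p, h⟩ : ℂ) else 0

private theorem CLS_ex_mem (K : Cp) (g : Equiv.Perm K.T) {p : ℂ} (h : p ∈ K.T) :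
    CLS_ex K g p = (g ⟨p, h⟩ : ℂ) := by
  unfold CLS_ex
  rw [dif_pos h]

private theorem CLS_low (y : ℂ) (r : ℝ) (p q : ℂ) (hr : 0 < r) (hp : ‖p - y‖ < r)
    (hq : ‖q - y‖ < r) : ‖p - q‖ / (2 * r) ≤ dd y r p q := by
  unfold dd
  have a1 : (0 : ℝ) ≤ ‖p - y‖ := norm_nonneg _
  have a2 : (0 : ℝ) ≤ ‖q - y‖ := norm_nonneg _
  have h0 : 0 < ‖p - y‖ ^ 2 + r ^ 2 := by positivity
  have h0' : 0 < ‖q - y‖ ^ 2 + r ^ 2 := by positivity
  have h1 : ‖p - y‖ ^ 2 + r ^ 2 ≤ 2 * r ^ 2 := by nlinarith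
  have h2 : ‖q - y‖ ^ 2 + r ^ 2 ≤ 2 * r ^ 2 := by nlinarith
  have h3 : √(‖p - y‖ ^ 2 + r ^ 2) * √(‖q - y‖ ^ 2 + r ^ 2) ≤ 2 * r ^ 2 := by
    calc √(‖p - y‖ ^ 2 + r ^ 2) * √(‖q - y‖ ^ 2 + r ^ 2)
        ≤ √(2 * r ^ 2) * √(2 * r ^ 2) :=
          mul_le_mul (Real.sqrt_le_sqrt h1) (Real.sqrt_le_sqrt h2) (Real.sqrt_nonneg _)
            (Real.sqrt_nonneg _)
      _ = 2 * r ^ 2 := Real.mul_self_sqrt (by positivity)
  have h4 : 0 < √(‖p - y‖ ^ 2 + r ^ 2) * √(‖q - y‖ ^ 2 + r ^ 2) :=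
    mul_pos (Real.sqrt_pos.2 h0) (Real.sqrt_pos.2 h0')
  have h5 : ‖p - q‖ / (2 * r) = r * ‖p - q‖ / (2 * r ^ 2) := by
    field_simp
  rw [h5]
  exact div_le_div_of_nonneg_left (by positivity) h4 h3

private theorem CLS_up (y : ℂ) (r : ℝ) (p q : ℂ) (hr : 0 < r) : dd y r p q ≤ ‖p - q‖ / r := by
  unfold dd
  have h1 : r ≤ √(‖p - y‖ ^ 2 + r ^ 2) := by
    apply Real.le_sqrt_of_sq_le
    nlinarith [sq_nonneg ‖p - y‖]
  have h2 : r ≤ √(‖q - y‖ ^ 2 + r ^ 2) := by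
    apply Real.le_sqrt_of_sq_le
    nlinarith [sq_nonneg ‖q - y‖]
  have h3 : r * r ≤ √(‖p - y‖ ^ 2 + r ^ 2) * √(‖q - y‖ ^ 2 + r ^ 2) :=
    mul_le_mul h1 h2 hr.le (hr.le.trans h1)
  have h5 : ‖p - q‖ / r = r * ‖p - q‖ / (r * r) := by
    field_simp
  rw [h5]
  exact div_le_div_of_nonneg_left (by positivity) (by positivity) h3

private theorem CLS_near (z : ℂ) (r : ℝ) (p : ℂ) (hr : 0 < r) (h : dd z r p z < 1 / 2) :
    ‖p - z‖ < r := by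
  by_contra hle
  push Not at hle
  have h0 : √(‖z - z‖ ^ 2 + r ^ 2) = r := by
    rw [sub_self, norm_zero]
    have h1 : (0 : ℝ) ^ 2 + r ^ 2 = r ^ 2 := by ring
    rw [h1, Real.sqrt_sq hr.le]
  unfold dd at h
  rw [h0] at h
  have h2 : √(‖p - z‖ ^ 2 + r ^ 2) < 2 * ‖p - z‖ := by
    rw [Real.sqrt_lt' (by linarith)]
    nlinarith
  have h3 : 0 < √(‖p - z‖ ^ 2 + r ^ 2) := Real.sqrt_pos.2 (by positivity)
  rw [div_lt_iff₀ (by positivity)] at h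
  nlinarith

theorem thm_CLS (hFA : St_FA) (hBS : St_BS) (hNNB : St_NNB) (hDBL : St_DBL) : St_CLS := by
  intro K Γ hΓ
  obtain ⟨κ, hκ, hfa⟩ := hFA K Γ hΓ
  have hκ0 : 0 < κ := by linarith
  have hTb : Bornology.IsBounded K.T :=
    isBounded_closedBall.subset (fun x hx => hx.1 : K.T ⊆ closedBall K.c₀ K.r₀)
  obtain ⟨C₁, hC₁, hbs⟩ := hBS K Γ hΓ (1 / (2 * κ)) (by positivity)
  obtain ⟨C₂, hC₂, hdbl⟩ := hDBL (2 * κ ^ 2) (by nlinarith)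
  refine ⟨C₂ * C₁, one_le_mul_of_one_le_of_one_le hC₂ hC₁, ?_⟩
  intro y z r r' t hy hz hr hr1 hr' hr'1 ht
  -- first part
  have h1 : NN (K.T ∩ ball y r) (t * r) ≤ NN K.T (t / (2 * κ)) := by
    obtain ⟨γ, -, hγ⟩ := hfa ⟨y, hy⟩ r hr hr1
    refine CLS_tr hNNB _ _ _ _ (hTb.subset Set.inter_subset_left) hTb (by positivity)
      (by positivity) (CLS_ex K γ) ?_ ?_
    · intro p hp
      rw [CLS_ex_mem K γ hp.1]
      exact (γ ⟨p, hp.1⟩).2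
    · intro p hp q hq hpq
      rw [CLS_ex_mem K γ hp.1, CLS_ex_mem K γ hq.1]
      have h2 := (hγ ⟨p, hp.1⟩ ⟨q, hq.1⟩).2
      have hp2 : ‖p - y‖ < r := by
        have := hp.2
        rwa [mem_ball, dist_eq_norm] at this
      have hq2 : ‖q - y‖ < r := by
        have := hq.2
        rwa [mem_ball, dist_eq_norm] at this
      have h3 := CLS_low y r p q hr hp2 hq2
      have h4 : t / 2 ≤ ‖p - q‖ / (2 * r) := by
        rw [div_le_div_iff₀ (by norm_num) (by positivity)]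
        nlinarith
      have h5 : t / 2 ≤ κ * ‖(γ ⟨p, hp.1⟩ : ℂ) - γ ⟨q, hq.1⟩‖ := h4.trans (h3.trans h2)
      rw [div_le_iff₀ (by positivity)]
      nlinarith
  -- second part
  obtain ⟨γ, -, hγ⟩ := hfa ⟨z, hz⟩ r' hr' hr'1
  have h2 : NN (K.T ∩ ball (γ ⟨z, hz⟩ : ℂ) (1 / (2 * κ))) (κ * t) ≤
      NN (K.T ∩ ball z r') (t * r') := by
    refine CLS_tr hNNB _ _ _ _ (hTb.subset Set.inter_subset_left)
      (hTb.subset Set.inter_subset_left) (by positivity) (by positivity)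
      (CLS_ex K γ.symm) ?_ ?_
    · intro q hq
      rw [CLS_ex_mem K γ.symm hq.1]
      refine ⟨(γ.symm ⟨q, hq.1⟩).2, ?_⟩
      rw [mem_ball, dist_eq_norm]
      apply CLS_near z r' _ hr'
      have h3 := (hγ (γ.symm ⟨q, hq.1⟩) ⟨z, hz⟩).2
      rw [Equiv.apply_symm_apply] at h3
      have h4 : ‖q - (γ ⟨z, hz⟩ : ℂ)‖ < 1 / (2 * κ) := by
        have := hq.2
        rwa [mem_ball, dist_eq_norm] at this
      rw [lt_div_iff₀ (by positivity)] at h4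
      have h5 : κ * ‖q - (γ ⟨z, hz⟩ : ℂ)‖ < 1 / 2 := by linarith
      exact lt_of_le_of_lt h3 h5
    · intro p hp q hq hpq
      rw [CLS_ex_mem K γ.symm hp.1, CLS_ex_mem K γ.symm hq.1]
      have h3 := (hγ (γ.symm ⟨p, hp.1⟩) (γ.symm ⟨q, hq.1⟩)).1
      rw [Equiv.apply_symm_apply, Equiv.apply_symm_apply] at h3
      have h4 := CLS_up z r' (γ.symm ⟨p, hp.1⟩ : ℂ) (γ.symm ⟨q, hq.1⟩ : ℂ) hr'
      have h5 : κ * t ≤ κ * (‖(γ.symm ⟨p, hp.1⟩ : ℂ) - γ.symm ⟨q, hq.1⟩‖ / r') :=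
        hpq.trans (h3.trans (mul_le_mul_of_nonneg_left h4 hκ0.le))
      have h6 := le_of_mul_le_mul_left h5 hκ0
      rwa [le_div_iff₀ hr'] at h6
  -- third part
  have h3 := hdbl K.T (t / (2 * κ)) hTb (by positivity)
  have e : 2 * κ ^ 2 * (t / (2 * κ)) = κ * t := by
    field_simp
  rw [e] at h3
  have h4 := hbs (γ ⟨z, hz⟩ : ℂ) (κ * t) (γ ⟨z, hz⟩).2 (by positivity)
  have h1' : (NN (K.T ∩ ball y r) (t * r) : ℝ) ≤ NN K.T (t / (2 * κ)) := by exact_mod_cast h1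
  have h2' : (NN (K.T ∩ ball (γ ⟨z, hz⟩ : ℂ) (1 / (2 * κ))) (κ * t) : ℝ) ≤
      NN (K.T ∩ ball z r') (t * r') := by exact_mod_cast h2
  have hC₁0 : 0 ≤ C₁ := by linarith
  have hC₂0 : 0 ≤ C₂ := by linarith
  calc (NN (K.T ∩ ball y r) (t * r) : ℝ) ≤ NN K.T (t / (2 * κ)) := h1'
    _ ≤ C₂ * NN K.T (κ * t) := h3
    _ ≤ C₂ * (C₁ * NN (K.T ∩ ball (γ ⟨z, hz⟩ : ℂ) (1 / (2 * κ))) (κ * t)) :=
        mul_le_mul_of_nonneg_left h4 hC₂0
    _ ≤ C₂ * (C₁ * NN (K.T ∩ ball z r') (t * r')) :=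
        mul_le_mul_of_nonneg_left (mul_le_mul_of_nonneg_left h2' hC₁0) hC₂0
    _ = C₂ * C₁ * NN (K.T ∩ ball z r') (t * r') := by ring

end RCE
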