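import Pool.Agent.RCE.St

/-!
# RCE: module CMP (comparison of distances)
-/

set_option autoImplicit false

namespace RCE

open Metric

private lemma CMP_sqrt_le (a h : ℝ) (ha : 0 ≤ a) (hh : 0 ≤ h) : √(a ^ 2 + h ^ 2) ≤ a + h := by
  apply Real.sqrt_le_iff.mpr
  constructor
  · positivity
  · nlinarith [mul_nonneg ha hh]

private lemma CMP_le_sqrt (a h : ℝ) (hh : 0 ≤ h) : h ≤ √(a ^ 2 + h ^ 2) := by
  apply Real.le_sqrt_of_sq_le
  nlinarith [sq_nonneg a]

theorem thm_CMP (hLA : St_LA) (hTF : St_TF) : St_CMP := by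
  intro K δ b hδ hb
  obtain ⟨-, -, -, hT, -⟩ := hTF K
  have hr := K.r₀pos
  set r := K.r₀ with hrdef
  have hdist : ∀ x ∈ K.T, ∀ y ∈ K.T, ‖x - y‖ ≤ 2 * r := by
    intro x hx y hy
    have h1 := (hT x hx).1
    have h2 := (hT y hy).1
    have h3 : x - y = (x - K.c₀) - (y - K.c₀) := by ring
    rw [h3]
    have h4 := norm_sub_le (x - K.c₀) (y - K.c₀)
    linarith
  set B : ℝ := 2 * r + 4 * r / b with hB
  have hBpos : 0 < B := by positivity
  set m : ℝ := b * δ ^ 2 / (4 * (2 * r)) with hm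
  have hmpos : 0 < m := by positivity
  refine ⟨max 1 (max (B ^ 2 / m) (1 / m)), le_max_left _ _, ?_⟩
  intro u h p₁ p₂ p₃ hh h1 h2 h3 d12 d23 d13 b12 b23 b13 p hp q hq
  obtain ⟨e1, e2, -, -, e5⟩ := hLA u h δ (2 * r) b p₁ p₂ p₃ hh hδ hb d12 d23 d13 (hdist _ h1 _ h2)
    (hdist _ h2 _ h3) (hdist _ h1 _ h3) b12 b23 b13
  have hup : ∀ x ∈ K.T, √(‖x - u‖ ^ 2 + h ^ 2) ≤ B := by
    intro x hx
    have g1 := CMP_sqrt_le ‖x - u‖ h (norm_nonneg _) hh.le
    have g2 : ‖x - u‖ ≤ ‖x - p₁‖ + ‖p₁ - u‖ := by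
      have h5 : x - u = (x - p₁) + (p₁ - u) := by ring
      rw [h5]
      exact norm_add_le _ _
    have g3 := hdist x hx p₁ h1
    have g4 : 4 * r / b = 2 * r / b + 2 * r / b := by ring
    rw [hB, g4]
    linarith
  have hlo : ∀ x : ℂ, h ≤ √(‖x - u‖ ^ 2 + h ^ 2) := fun x => CMP_le_sqrt _ h hh.le
  have hP := hup p hp
  have hQ := hup q hq
  have lP := hlo p
  have lQ := hlo q
  have ddef : dd u h p q = h * ‖p - q‖ / (√(‖p - u‖ ^ 2 + h ^ 2) * √(‖q - u‖ ^ 2 + h ^ 2)) := rfl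
  generalize √(‖p - u‖ ^ 2 + h ^ 2) = P at hP lP ddef
  generalize √(‖q - u‖ ^ 2 + h ^ 2) = Q at hQ lQ ddef
  have hPp : 0 < P := lt_of_lt_of_le hh lP
  have hQp : 0 < Q := lt_of_lt_of_le hh lQ
  have hnn := norm_nonneg (p - q)
  have ddnn : 0 ≤ dd u h p q := by rw [ddef]; positivity
  constructor
  · have k1 : ‖p - q‖ ≤ B ^ 2 / m * dd u h p q := by
      have k2 : h * ‖p - q‖ = dd u h p q * (P * Q) := by
        rw [ddef]; field_simp
      have k3 : P * Q ≤ B ^ 2 := by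
        rw [sq]
        exact mul_le_mul hP hQ hQp.le hBpos.le
      have k4 : m * ‖p - q‖ ≤ h * ‖p - q‖ := mul_le_mul_of_nonneg_right e5 hnn
      have k5 : dd u h p q * (P * Q) ≤ dd u h p q * B ^ 2 := mul_le_mul_of_nonneg_left k3 ddnn
      rw [div_mul_eq_mul_div, le_div_iff₀ hmpos]
      linarith
    exact k1.trans (mul_le_mul_of_nonneg_right ((le_max_left _ _).trans (le_max_right _ _)) ddnn)
  · have k1 : dd u h p q ≤ 1 / m * ‖p - q‖ := by
      rw [ddef, div_le_iff₀ (mul_pos hPp hQp)]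
      have k2 : h * h ≤ P * Q := mul_le_mul lP lQ hh.le hPp.le
      have k3 : m * h ≤ P * Q := by
        have : m * h ≤ h * h := mul_le_mul_of_nonneg_right e5 hh.le
        linarith
      have k4 : h ≤ 1 / m * (P * Q) := by
        rw [one_div, inv_mul_eq_div, le_div_iff₀ hmpos]
        linarith
      have k5 := mul_le_mul_of_nonneg_right k4 hnn
      linarith
    exact k1.trans (mul_le_mul_of_nonneg_right ((le_max_right _ _).trans (le_max_right _ _)) hnn)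

end RCE
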