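import Pool.Agent.RCE.St

/-!
# RCE, CNF: the conformal case (helper72)
-/

set_option autoImplicit false

namespace RCE

open Metric

theorem thm_CNF (hPS : St_PS) (hMOV : St_MOV) (hIMZ : St_IMZ) (hTR3 : St_TR3) (hDT : St_DT) :
    St_CNF := by
  classical
  intro K Γ hG W hW
  by_cases hT : K.T.Nonempty
  swap
  · refine ⟨1, 1, one_pos, one_pos, ?_⟩
    intro x R Λ A f z hx
    exact absurd ⟨x, hx⟩ hT
  obtain ⟨y, hy⟩ := hT
  obtain ⟨κ, hκ, hM⟩ := hMOV K Γ hG (1 / 20) (by norm_num)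
  obtain ⟨a', ha', hI⟩ := hIMZ κ W hκ hW
  obtain ⟨a, ha⟩ : ∃ a, a = min (1 / 10 : ℝ) a' := ⟨_, rfl⟩
  have ha0 : 0 < a := by rw [ha]; exact lt_min (by norm_num) ha'
  have ha1 : a ≤ 1 / 10 := by rw [ha]; exact min_le_left _ _
  have ha2 : a ≤ a' := by rw [ha]; exact min_le_right _ _
  have hr := K.r₀pos
  obtain ⟨hD1, -⟩ := hDT y K.r₀ hr
  -- the first configuration
  have hF0 : ∃ (u : ℂ) (h : ℝ) (F : Finset ℂ), Cfg K u h a (1 / 10) F := by
    obtain ⟨z₁, hz₁, z₂, hz₂, -, -, -, -, -, -, h1, h2, h3⟩ := hTR3 K y K.r₀ hy hr le_rfl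
    have h1' : 1 / 10 ≤ dd y K.r₀ z₁ y := by rw [(hD1 z₁ y).2.1]; exact h1
    have h2' : 1 / 10 ≤ dd y K.r₀ z₂ z₁ := by rw [(hD1 z₂ z₁).2.1]; exact h2
    have h3' : 1 / 10 ≤ dd y K.r₀ z₂ y := by rw [(hD1 z₂ y).2.1]; exact h3
    refine ⟨y, K.r₀, {y, z₁, z₂}, hr, ?_, ?_, y, ?_, z₁, ?_, z₂, ?_, h1, h2, h3⟩
    · intro p hp
      rw [Finset.mem_coe, Finset.mem_insert, Finset.mem_insert, Finset.mem_singleton] at hp
      rcases hp with rfl | rfl | rfl
      · exact hy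
      · exact hz₁
      · exact hz₂
    · intro p hp q hq hpq
      rw [Finset.mem_insert, Finset.mem_insert, Finset.mem_singleton] at hp hq
      refine ha1.trans ?_
      rcases hp with hp | hp | hp <;> rcases hq with hq | hq | hq <;> rw [hp, hq]
      · exact absurd (hp.trans hq.symm) hpq
      · exact h1
      · exact h3
      · exact h1'
      · exact absurd (hp.trans hq.symm) hpq
      · exact h2
      · exact h3'
      · exact h2'
      · exact absurd (hp.trans hq.symm) hpq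
    · simp
    · simp
    · simp
  obtain ⟨t₁, t₂, ht2, ht12, ht1, u, h, F, hF, hmax⟩ := hPS K a (1 / 10) ha0 (by norm_num) hF0
  obtain ⟨δ, hδ⟩ : ∃ δ, δ = (t₁ - t₂) * a := ⟨_, rfl⟩
  have hδ0 : 0 < δ := by rw [hδ]; exact mul_pos (by linarith) ha0
  have hκ0 : 0 < κ := by linarith
  obtain ⟨ε, hε⟩ : ∃ ε, ε = δ / (32 * κ) := ⟨_, rfl⟩
  obtain ⟨θ, hθ⟩ : ∃ θ, θ = δ * ε / (8 * κ) := ⟨_, rfl⟩
  have hε0 : 0 < ε := by rw [hε]; positivity
  have hθ0 : 0 < θ := by rw [hθ]; positivity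
  have e1 : 8 * κ * ε = δ / 4 := by
    rw [hε]
    field_simp
    norm_num
  have e2 : 2 * θ * κ / ε = δ / 4 := by
    rw [hθ]
    field_simp
    norm_num
  have hδ1 : δ ≤ t₁ * a := by
    rw [hδ]
    exact mul_le_mul_of_nonneg_right (by linarith) ha0.le
  have hδb : δ ≤ (t₁ - t₂) * (1 / 10) := by
    rw [hδ]
    exact mul_le_mul_of_nonneg_left ha1 (by linarith)
  have hta : t₁ * a ≤ t₁ * (1 / 10) := mul_le_mul_of_nonneg_left ha1 (by linarith)
  refine ⟨ε, θ, hε0, hθ0, ?_⟩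
  intro x R Λ A f z hx hz hR hRr hΛ hA hf hN h1 h2 h3
  obtain ⟨u', h', F', hcard, hFR, ⟨hh', hF'T, hF's, p₁, hp₁, p₂, hp₂, p₃, hp₃, hb1, hb2, hb3⟩,
    hm1, hm2, hm3⟩ := hM u h (t₁ * a) (t₁ * (1 / 10)) F x R ε (by linarith)
      (mul_pos (by linarith) ha0) hx hR hRr hε0 (by nlinarith) (by rw [e1]; linarith)
      (by rw [e1]; linarith) hF
  rw [e1] at hF's hb1 hb2 hb3
  have hNear : ∀ p ∈ F', ‖f p - f x - A (p - x)‖ ≤ θ * Λ * R := fun p hp =>
    hN p (hF'T (by exact_mod_cast hp)) (hFR p hp)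
  obtain ⟨u'', h'', hh'', hi1, hi2⟩ := hI x R ε θ Λ u' h' A f F' z hR hε0 hθ0.le hΛ hh' hA hNear
    hm1 hm2 hm3 h1 h2 (fun p hp => h3 p (hF'T (by exact_mod_cast hp)) (hFR p hp))
  rw [e2] at hi1
  obtain ⟨hD2, -⟩ := hDT u'' h'' hh''
  have hself : ∀ p : ℂ, dd u'' h'' p p = 0 := by
    intro p
    have h5 := (hD2 p p).1
    have h6 : ¬ 0 < dd u'' h'' p p := fun h => ((hD2 p p).2.2.2.1 h) rfl
    linarith
  have hsep : ∀ p ∈ F', ∀ q ∈ F', p ≠ q → t₂ * a ≤ dd u'' h'' (f p) (f q) := by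
    intro p hp q hq hpq
    have h5 := hi1 p hp q hq
    have h6 := hF's p hp q hq hpq
    have h7 : t₁ * a - t₂ * a = δ := by rw [hδ]; ring
    linarith
  have ht2a : 0 < t₂ * a := mul_pos (by linarith) ha0
  have hinj : Set.InjOn f (F' : Set ℂ) := by
    intro p hp q hq hpq
    by_contra hne
    have h5 := hsep p (by exact_mod_cast hp) q (by exact_mod_cast hq) hne
    rw [hpq, hself] at h5
    linarith
  have hzn : z ∉ F'.image f := by
    intro hzz
    rw [Finset.mem_image] at hzz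
    obtain ⟨p, hp, hpz⟩ := hzz
    have h5 := hi2 p hp
    rw [hpz, hself] at h5
    linarith
  have hcard2 : (insert z (F'.image f)).card = F.card + 1 := by
    rw [Finset.card_insert_of_notMem hzn, Finset.card_image_of_injOn hinj, hcard]
  have ht2a' : t₂ * a ≤ a' := by
    have h5 : t₂ * a ≤ 1 * a := mul_le_mul_of_nonneg_right (by linarith) ha0.le
    linarith
  have hlast := hmax u'' h'' (insert z (F'.image f)) ⟨hh'', ?_, ?_, f p₁, ?_, f p₂, ?_, f p₃, ?_,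
    ?_, ?_, ?_⟩
  · rw [hcard2] at hlast
    omega
  · intro q hq
    rw [Finset.mem_coe, Finset.mem_insert, Finset.mem_image] at hq
    rcases hq with rfl | ⟨p, hp, rfl⟩
    · exact hz
    · exact hf p (hF'T (by exact_mod_cast hp)) (hFR p hp)
  · intro q hq q' hq' hne
    rw [Finset.mem_insert, Finset.mem_image] at hq hq'
    rcases hq with rfl | ⟨p, hp, rfl⟩
    · rcases hq' with rfl | ⟨p', hp', rfl⟩
      · exact absurd rfl hne
      · exact ht2a'.trans (hi2 p' hp')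
    · rcases hq' with rfl | ⟨p', hp', rfl⟩
      · rw [(hD2 _ _).2.1]
        exact ht2a'.trans (hi2 p hp)
      · exact hsep p hp p' hp' (fun h => hne (by rw [h]))
  · exact Finset.mem_insert_of_mem (Finset.mem_image_of_mem f hp₁)
  · exact Finset.mem_insert_of_mem (Finset.mem_image_of_mem f hp₂)
  · exact Finset.mem_insert_of_mem (Finset.mem_image_of_mem f hp₃)
  · have h5 := hi1 p₁ hp₁ p₂ hp₂
    linarith
  · have h5 := hi1 p₂ hp₂ p₃ hp₃
    linarith
  · have h5 := hi1 p₁ hp₁ p₃ hp₃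
    linarith

end RCE
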