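import Pool.Agent.RCE.St

/-!
# RCE: doubling for counting numbers

Proof of the statement `St_DBL`.
-/

set_option autoImplicit false

namespace RCE

open Metric

/-- Doubling for counting numbers. -/
theorem thm_DBL (hNNB : St_NNB) (hPK : St_PK) : St_DBL := by
  classical
  intro k hk
  obtain ⟨N, hN⟩ := hPK k
  refine ⟨max 1 (N : ℝ), le_max_left _ _, fun E s hE hs => ?_⟩
  have hk0 : 0 < k := lt_of_lt_of_le one_pos hk
  obtain ⟨-, F, hFE, hFs, hFc, -⟩ := hNNB E s hE hs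
  obtain ⟨-, G, hGE, hGs, hGc, hG⟩ := hNNB E (k * s) hE (mul_pos hk0 hs)
  have h1 : ∀ p : ℂ, ∃ q : ℂ, p ∈ F → q ∈ G ∧ ‖p - q‖ < k * s := by
    intro p
    by_cases hp : p ∈ F
    · obtain ⟨q, hq, hpq⟩ := hG p (hFE hp)
      exact ⟨q, fun _ => ⟨hq, hpq⟩⟩
    · exact ⟨0, fun h => absurd h hp⟩
  choose g hg using h1
  have h2 : F.card ≤ N * G.card := by
    refine Finset.card_le_mul_card_image_of_maps_to (f := g) (fun p hp => (hg p hp).1) N ?_
    intro b _
    refine hN b s _ hs ?_ ?_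
    · intro p hp q hq hpq
      exact hFs p (Finset.mem_filter.1 hp).1 q (Finset.mem_filter.1 hq).1 hpq
    · intro q hq
      obtain ⟨hq1, hq2⟩ := Finset.mem_filter.1 hq
      rw [← hq2]
      exact (hg q hq1).2.le
  rw [← hFc, ← hGc]
  calc (F.card : ℝ) ≤ (N : ℝ) * G.card := by exact_mod_cast h2
    _ ≤ max 1 (N : ℝ) * G.card := mul_le_mul_of_nonneg_right (le_max_right _ _) (Nat.cast_nonneg _)

end RCE
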