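import Pool.Agent.RCE.St

/-!
# RCE DIF: differentiable maps are almost affine
-/

set_option autoImplicit false

namespace RCE

open Metric

theorem thm_DIF : St_DIF := by
  intro K θ f x A hθ hinj hder
  have hker : LinearMap.ker (A : ℂ →ₗ[ℝ] ℂ) = ⊥ := LinearMap.ker_eq_bot.mpr hinj
  obtain ⟨C, hC0, hC⟩ := (A : ℂ →ₗ[ℝ] ℂ).exists_antilipschitzWith hker
  have hCr : (0 : ℝ) < C := by exact_mod_cast hC0
  have hbd : ∀ v : ℂ, ‖v‖ ≤ C * ‖A v‖ := by
    intro v
    have := hC.le_mul_dist v 0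
    simpa using this
  set l : ℝ := 1 / C with hl
  have hl0 : 0 < l := by positivity
  set M : ℝ := max 1 (‖A‖ / l) with hM
  have hM1 : 1 ≤ M := le_max_left _ _
  have hAM : ‖A‖ ≤ M * l := by
    have h1 : ‖A‖ / l ≤ M := le_max_right _ _
    rwa [div_le_iff₀ hl0] at h1
  have hDist : Dist (A : ℂ →ₗ[ℝ] ℂ) l M := by
    refine ⟨hl0, ?_⟩
    intro v
    constructor
    · show l * ‖v‖ ≤ ‖A v‖
      have h1 := hbd v
      have h2 := mul_le_mul_of_nonneg_left h1 hl0.le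
      have h3 : l * (C * ‖A v‖) = ‖A v‖ := by
        rw [hl]; field_simp
      linarith
    · show ‖A v‖ ≤ M * l * ‖v‖
      exact (A.le_opNorm v).trans (mul_le_mul_of_nonneg_right hAM (norm_nonneg _))
  refine ⟨M, hM1, ?_⟩
  have hc : 0 < θ M * l := mul_pos (hθ M) hl0
  have hev := hder.isLittleO.def hc
  rw [eventually_nhdsWithin_iff, Metric.eventually_nhds_iff] at hev
  obtain ⟨R₀, hR₀, hev⟩ := hev
  refine ⟨R₀, hR₀, ?_⟩
  intro R hR hRR
  refine ⟨(A : ℂ →ₗ[ℝ] ℂ), l, hDist, ?_⟩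
  intro p hp hpx
  have h1 := hev (show dist p x < R₀ by rw [dist_eq_norm]; linarith) hp
  show ‖f p - f x - A (p - x)‖ ≤ θ M * l * R
  refine h1.trans ?_
  exact mul_le_mul_of_nonneg_left hpx.le hc.le

end RCE
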