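import Pool.Agent.RCE.St

/-!
# RCE, module DT: the triangle inequality for `dd` (Ptolemy)
-/

set_option autoImplicit false

namespace RCE

open Metric

/-- the points of the plane in the space of dimension three -/
private noncomputable def DT_pt (z : ℂ) (t : ℝ) : WithLp 2 (ℂ × ℝ) := WithLp.toLp 2 (z, t)

private theorem DT_dist (z w : ℂ) (s t : ℝ) :
    dist (DT_pt z s) (DT_pt w t) = √(‖z - w‖ ^ 2 + (s - t) ^ 2) := by
  rw [dist_eq_norm, WithLp.prod_norm_eq_of_L2]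
  congr 1
  simp only [DT_pt, WithLp.sub_fst, WithLp.sub_snd, Real.norm_eq_abs, sq_abs]
  rfl

private theorem DT_ptol (u : ℂ) (h : ℝ) (p q r : ℂ) :
    ‖p - r‖ * √(‖q - u‖ ^ 2 + h ^ 2) ≤
      ‖p - q‖ * √(‖r - u‖ ^ 2 + h ^ 2) + ‖q - r‖ * √(‖p - u‖ ^ 2 + h ^ 2) := by
  have h1 := EuclideanGeometry.mul_dist_le_mul_dist_add_mul_dist (DT_pt p 0) (DT_pt q 0)
    (DT_pt r 0) (DT_pt u h)
  simp only [DT_dist, sub_self, zero_sub, neg_sq] at h1
  simpa using h1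

private theorem DT_pos (u : ℂ) (h : ℝ) (_hh : 0 < h) (p : ℂ) : h ≤ √(‖p - u‖ ^ 2 + h ^ 2) :=
  Real.le_sqrt_of_sq_le (by nlinarith [sq_nonneg ‖p - u‖])

theorem thm_DT : St_DT := by
  intro u h hh
  have hN : ∀ p : ℂ, 0 < √(‖p - u‖ ^ 2 + h ^ 2) := fun p => hh.trans_le (DT_pos u h hh p)
  refine ⟨fun p q => ⟨?_, ?_, ?_, ?_⟩, fun p q r => ?_⟩
  · unfold dd
    positivity
  · unfold dd
    rw [norm_sub_rev, mul_comm (√(‖p - u‖ ^ 2 + h ^ 2))]
  · unfold dd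
    rw [div_le_div_iff₀ (mul_pos (hN p) (hN q)) hh]
    have h1 : h * h ≤ √(‖p - u‖ ^ 2 + h ^ 2) * √(‖q - u‖ ^ 2 + h ^ 2) :=
      mul_le_mul (DT_pos u h hh p) (DT_pos u h hh q) hh.le (hN p).le
    calc h * ‖p - q‖ * h = ‖p - q‖ * (h * h) := by ring
      _ ≤ ‖p - q‖ * (√(‖p - u‖ ^ 2 + h ^ 2) * √(‖q - u‖ ^ 2 + h ^ 2)) :=
          mul_le_mul_of_nonneg_left h1 (norm_nonneg _)
  · constructor
    · rintro h1 rfl
      unfold dd at h1
      simp at h1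
    · intro hne
      unfold dd
      have h1 : 0 < ‖p - q‖ := norm_pos_iff.2 (sub_ne_zero.2 hne)
      exact div_pos (mul_pos hh h1) (mul_pos (hN p) (hN q))
  · have h1 := DT_ptol u h p q r
    have hp := hN p
    have hq := hN q
    have hr := hN r
    unfold dd
    set a := √(‖p - u‖ ^ 2 + h ^ 2)
    set b := √(‖q - u‖ ^ 2 + h ^ 2)
    set c := √(‖r - u‖ ^ 2 + h ^ 2)
    have h2 : h * ‖p - q‖ / (a * b) + h * ‖q - r‖ / (b * c) =
        h * (‖p - q‖ * c + ‖q - r‖ * a) / (a * b * c) := by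
      field_simp
    have h3 : h * ‖p - r‖ / (a * c) = h * (‖p - r‖ * b) / (a * b * c) := by
      field_simp
    rw [h2, h3]
    exact div_le_div_of_nonneg_right (mul_le_mul_of_nonneg_left h1 hh.le) (by positivity)

end RCE
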