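import Pool.Agent.RCE.St

/-!
# RCE, EX: expanding a ball (helper30)
-/

set_option autoImplicit false

namespace RCE

open Metric

private theorem EX_dd (z : ℂ) (σ η : ℝ) (p q : ℂ) (hσ : 0 < σ) (hη : 0 < η) (hp : η ≤ ‖p - z‖)
    (hq : η ≤ ‖q - z‖) : dd z σ p q ≤ σ * ‖p - q‖ / η ^ 2 := by
  unfold dd
  have h1 : η ≤ √(‖p - z‖ ^ 2 + σ ^ 2) := by
    apply Real.le_sqrt_of_sq_le
    nlinarith [sq_nonneg σ]
  have h2 : η ≤ √(‖q - z‖ ^ 2 + σ ^ 2) := by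
    apply Real.le_sqrt_of_sq_le
    nlinarith [sq_nonneg σ]
  have h3 : η ^ 2 ≤ √(‖p - z‖ ^ 2 + σ ^ 2) * √(‖q - z‖ ^ 2 + σ ^ 2) := by
    rw [sq]
    exact mul_le_mul h1 h2 hη.le (hη.le.trans h1)
  exact div_le_div_of_nonneg_left (by positivity) (by positivity) h3

private theorem EX_diam (K : Cp) (p q : K.T) : ‖(p : ℂ) - q‖ ≤ 2 * K.r₀ := by
  have h1 : dist (p : ℂ) K.c₀ ≤ K.r₀ := p.2.1
  have h2 : dist (q : ℂ) K.c₀ ≤ K.r₀ := q.2.1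
  rw [← dist_eq_norm]
  have h3 := dist_triangle_right (p : ℂ) q K.c₀
  linarith

theorem thm_EX (hFA : St_FA) : St_EX := by
  intro K Γ hΓ η τ z hη hτ
  obtain ⟨κ, hκ, hfa⟩ := hFA K Γ hΓ
  have hκ0 : 0 < κ := by linarith
  have hr := K.r₀pos
  have hσ' : 0 < min K.r₀ (τ * η ^ 2 / (2 * κ * K.r₀)) := lt_min hr (by positivity)
  obtain ⟨σ, hσ0, hσr, hσ⟩ : ∃ σ : ℝ, 0 < σ ∧ σ ≤ K.r₀ ∧ σ * (2 * κ * K.r₀) ≤ τ * η ^ 2 := by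
    refine ⟨_, hσ', min_le_left _ _, ?_⟩
    rw [← le_div_iff₀ (by positivity)]
    exact min_le_right _ _
  obtain ⟨γ, hγ, hfa⟩ := hfa z σ hσ0 hσr
  have key : ∀ p q : K.T, η ≤ ‖(p : ℂ) - z‖ → η ≤ ‖(q : ℂ) - z‖ → ‖(γ p : ℂ) - γ q‖ ≤ τ := by
    intro p q hp hq
    have h1 := (hfa p q).1
    have h2 := EX_dd z σ η p q hσ0 hη hp hq
    have h3 := EX_diam K p q
    have h4 : κ * (σ * ‖(p : ℂ) - q‖ / η ^ 2) ≤ τ := by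
      rw [← mul_div_assoc, div_le_iff₀ (by positivity)]
      calc κ * (σ * ‖(p : ℂ) - q‖) = σ * κ * ‖(p : ℂ) - q‖ := by ring
        _ ≤ σ * κ * (2 * K.r₀) := mul_le_mul_of_nonneg_left h3 (by positivity)
        _ = σ * (2 * κ * K.r₀) := by ring
        _ ≤ τ * η ^ 2 := hσ
    exact h1.trans ((mul_le_mul_of_nonneg_left h2 hκ0.le).trans h4)
  refine ⟨γ⁻¹, Γ.inv_mem hγ, ?_⟩
  by_cases hq : ∃ q₀ : K.T, η ≤ ‖(q₀ : ℂ) - z‖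
  · obtain ⟨q₀, hq₀⟩ := hq
    refine ⟨γ q₀, fun p hp => ?_⟩
    by_contra hle
    push Not at hle
    have h1 := key (γ⁻¹ p) q₀ hle hq₀
    have h2 : γ (γ⁻¹ p) = p := Equiv.apply_symm_apply γ p
    rw [h2] at h1
    linarith
  · push Not at hq
    exact ⟨0, fun p _ => hq _⟩

end RCE
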