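import Pool.Agent.RCE.St

/-!
# RCE: normalisation by the group (`thm_FA`)
-/

set_option autoImplicit false

namespace RCE

open Metric

private theorem FA_ne {T : Set ℂ} {σ : ℝ} {p q : T} (hσ : 0 < σ) (h : σ / 4 ≤ ‖(p : ℂ) - q‖) :
    p ≠ q := by
  rintro rfl
  rw [sub_self, norm_zero] at h
  linarith

theorem thm_FA (hTR3 : St_TR3) (hMI : St_MI) (hCMP : St_CMP) : St_FA := by
  intro K Γ hG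
  obtain ⟨δ, hδ, hcoc⟩ := hG.coc
  obtain ⟨κ, hκ, hcmp⟩ := hCMP K δ (1 / 10) hδ (by norm_num)
  refine ⟨κ, hκ, ?_⟩
  intro y σ hσ hσr
  obtain ⟨z₁, hz₁, z₂, hz₂, a1, a2, a3, -, -, -, b1, b2, b3⟩ := hTR3 K y σ y.2 hσ hσr
  obtain ⟨γ, hγ, c1, c2, c3⟩ := hcoc y ⟨z₁, hz₁⟩ ⟨z₂, hz₂⟩ (FA_ne hσ a1) (FA_ne hσ a2)
    (FA_ne hσ a3)
  obtain ⟨u', h', hh', hdd⟩ := hMI K.T γ (hG.mob γ hγ) y σ hσ
  refine ⟨γ, hγ, ?_⟩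
  have hc := hcmp u' h' (γ y) (γ ⟨z₁, hz₁⟩) (γ ⟨z₂, hz₂⟩) hh' (γ y).2 (γ ⟨z₁, hz₁⟩).2
    (γ ⟨z₂, hz₂⟩).2 c1 c2 c3 (by rw [hdd]; exact b1) (by rw [hdd]; exact b2)
    (by rw [hdd]; exact b3)
  intro p q
  have h1 := hc (γ p) (γ p).2 (γ q) (γ q).2
  rw [hdd p q] at h1
  exact h1

end RCE
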