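import Pool.Agent.RCE.St

set_option autoImplicit false

namespace RCE

open Metric

theorem thm_FB (hFA : St_FA) (hMI : St_MI) (hCMP : St_CMP) (hDT : St_DT) : St_FB := by
  intro K Γ hG b hb
  obtain ⟨δ, hδ, hcoc⟩ := hG.coc
  obtain ⟨κ₁, hκ₁, H1⟩ := hCMP K δ b hδ hb
  obtain ⟨κ₂, hκ₂, H2⟩ := hFA K Γ hG
  refine ⟨κ₂ * κ₁, by nlinarith, ?_⟩
  intro u h p₁ p₂ p₃ hh h12 h23 h13 x σ hσ hσr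
  have hpos : ∀ p q : K.T, b ≤ dd u h p q → p ≠ q := by
    intro p q hpq
    have h0 := ((hDT u h hh).1 p q).2.2.2
    have h1 : (p : ℂ) ≠ q := h0.1 (lt_of_lt_of_le hb hpq)
    exact fun e => h1 (by rw [e])
  obtain ⟨γ₁, hγ₁, d12, d23, d13⟩ := hcoc p₁ p₂ p₃ (hpos _ _ h12) (hpos _ _ h23) (hpos _ _ h13)
  obtain ⟨u₁, h₁, hh₁, e₁⟩ := hMI K.T γ₁ (hG.mob γ₁ hγ₁) u h hh
  obtain ⟨γ₂, hγ₂, f₂⟩ := H2 x σ hσ hσr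
  have hinv : γ₂⁻¹ ∈ Γ := Γ.inv_mem hγ₂
  obtain ⟨u', h', hh', e'⟩ := hMI K.T γ₂⁻¹ (hG.mob _ hinv) u₁ h₁ hh₁
  have hc := H1 u₁ h₁ (γ₁ p₁) (γ₁ p₂) (γ₁ p₃) hh₁ (γ₁ p₁).2 (γ₁ p₂).2 (γ₁ p₃).2 d12 d23 d13
    (by rw [e₁]; exact h12) (by rw [e₁]; exact h23) (by rw [e₁]; exact h13)
  refine ⟨γ₂⁻¹ * γ₁, Γ.mul_mem hinv hγ₁, u', h', hh', ?_, ?_⟩
  · intro p q
    rw [Equiv.Perm.mul_apply, Equiv.Perm.mul_apply, e', e₁]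
  · intro p q
    have h1 := (f₂ p q).2
    have h2 := (hc (γ₂ p) (γ₂ p).2 (γ₂ q) (γ₂ q).2).1
    have h3 := e' (γ₂ p) (γ₂ q)
    have i1 : γ₂⁻¹ (γ₂ p) = p := γ₂.symm_apply_apply p
    have i2 : γ₂⁻¹ (γ₂ q) = q := γ₂.symm_apply_apply q
    rw [i1, i2] at h3
    rw [h3]
    calc dd x σ p q ≤ κ₂ * ‖(γ₂ p : ℂ) - γ₂ q‖ := h1
      _ ≤ κ₂ * (κ₁ * dd u₁ h₁ (γ₂ p) (γ₂ q)) := mul_le_mul_of_nonneg_left h2 (by linarith)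
      _ = κ₂ * κ₁ * dd u₁ h₁ (γ₂ p) (γ₂ q) := by ring

end RCE
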