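import Pool.Agent.RCE.St

/-!
# RCE: module FC

The viewpoint `(u', h')` is close to `(x, σ)` if `dd x σ ≤ κ dd u' h'` on the carpet.
-/

set_option autoImplicit false

namespace RCE

theorem thm_FC (hTR3 : St_TR3) (hLA : St_LA) : St_FC := by
  intro K κ hκ
  refine ⟨1280 * κ, by linarith, ?_⟩
  intro x σ u' h' hx hσ hσr hh hdd
  have hκ0 : 0 < κ := by linarith
  obtain ⟨z₁, hz₁, z₂, hz₂, d1, d2, d3, D1, D2, D3, b1, b2, b3⟩ := hTR3 K x σ hx hσ hσr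
  have key : ∀ p ∈ K.T, ∀ q ∈ K.T, 1 / 10 ≤ dd x σ p q → 1 / (10 * κ) ≤ dd u' h' p q := by
    intro p hp q hq h1
    have h2 := hdd p hp q hq
    rw [div_le_iff₀ (by positivity)]
    nlinarith
  have hb : (0 : ℝ) < 1 / (10 * κ) := by positivity
  obtain ⟨e1, e2, -, -, e5⟩ := hLA u' h' (σ / 4) (2 * σ) (1 / (10 * κ)) x z₁ z₂ hh (by positivity) hb
    d1 d2 d3 D1 D2 D3 (key x hx z₁ hz₁ b1) (key z₁ hz₁ z₂ hz₂ b2) (key x hx z₂ hz₂ b3)
  have hD : 2 * σ / (1 / (10 * κ)) = 20 * κ * σ := by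
    field_simp
    ring
  rw [hD] at e1 e2
  have hL : 1 / (10 * κ) * (σ / 4) ^ 2 / (4 * (2 * σ)) = σ / (1280 * κ) := by
    field_simp
    ring
  rw [hL, div_le_iff₀ (by positivity)] at e5
  have hκσ : 0 < κ * σ := mul_pos hκ0 hσ
  refine ⟨by linarith, by linarith, ?_⟩
  rw [norm_sub_rev]
  linarith

end RCE
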