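import Pool.Agent.RCE.St

/-!
# RCE: assembly (module FIN)
-/

set_option autoImplicit false

namespace RCE

open Metric

private lemma FIN_sub {K : Cp} {V : Set ℂ} (h : ROp K V) : V ⊆ K.T := by
  obtain ⟨O, _, rfl⟩ := h
  exact Set.inter_subset_left

/-- a small ball of the carpet around a point of a relatively open set is in the set -/
private lemma FIN_ball {K : Cp} {V : Set ℂ} (h : ROp K V) {x : ℂ} (hx : x ∈ V) :
    ∃ r : ℝ, 0 < r ∧ K.T ∩ ball x r ⊆ V := by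
  obtain ⟨O, hO, rfl⟩ := h
  obtain ⟨r, hr, hb⟩ := Metric.isOpen_iff.mp hO x hx.2
  exact ⟨r, hr, fun p hp => ⟨hp.1, hb hp.2⟩⟩

private lemma FIN_mono {T : Set ℂ} {f : ℂ → ℂ} {x : ℂ} {R R' ε : ℝ} (hR : R' ≤ R) (h : AlmSim T f x R ε) :
    AlmSim T f x R' ε := fun a ha b hb c hc h1 h2 h3 h4 =>
  h a ha b hb c hc (h1.trans_le hR) (h2.trans_le hR) (h3.trans_le hR) h4

theorem thm_FIN : St_FIN := by
  intro hO hS hD hQ hM hTF K Γ hΓ
  obtain ⟨θ, hθ, hopen⟩ := hO K Γ hΓ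
  have A : ∀ (V : Set ℂ) (f : ℂ → ℂ), ROp K V → ContinuousOn f V → Set.MapsTo f V K.T →
      (∀ x ∈ V, AAff K θ f x) → ROp K (f '' V) ∧ (V = K.T → f '' V = K.T) := by
    intro V f hV hc hm ha
    have h1 := hopen V f hV hc hm ha
    refine ⟨h1, ?_⟩
    rintro rfl
    exact hS K f hc hm h1
  have B : ∀ (V : Set ℂ) (f : ℂ → ℂ), ROp K V → Set.MapsTo f V K.T →
      (∀ x ∈ V, ∃ A : ℂ →L[ℝ] ℂ, Function.Injective A ∧ HasFDerivWithinAt f A K.T x) →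
      ROp K (f '' V) ∧ (V = K.T → f '' V = K.T) := by
    intro V f hV hm hd
    refine A V f hV ?_ hm ?_
    · intro x hx
      obtain ⟨L, _, hL⟩ := hd x hx
      exact hL.continuousWithinAt.mono (FIN_sub hV)
    · intro x hx
      obtain ⟨L, hi, hL⟩ := hd x hx
      exact hD K θ f x L hθ hi hL
  obtain ⟨ε, hε, hq⟩ := hQ K θ hθ
  have C : ∀ (V : Set ℂ) (f : ℂ → ℂ), ROp K V → ContinuousOn f V → Set.MapsTo f V K.T → Set.InjOn f V →
      (∀ x ∈ V, ∃ R₀ : ℝ, 0 < R₀ ∧ AlmSim K.T f x R₀ ε) → ROp K (f '' V) ∧ (V = K.T → f '' V = K.T) := by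
    intro V f hV hc hm hi ha
    refine A V f hV hc hm fun x hx => ?_
    obtain ⟨R₀, hR₀, h1⟩ := ha x hx
    obtain ⟨r, hr, h2⟩ := FIN_ball hV hx
    refine hq f x (min R₀ r) (FIN_sub hV hx) (lt_min hR₀ hr) (FIN_mono (min_le_left _ _) h1) ?_
    refine hi.mono ?_
    rintro p ⟨hp1, hp2⟩
    exact h2 ⟨hp1, Metric.ball_subset_ball (min_le_right _ _) hp2⟩
  refine ⟨⟨θ, hθ, A⟩, B, ⟨ε, hε, C⟩, ε / 4, by positivity, ?_⟩
  intro f hc hm hi hcr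
  have h1 := hM K f (ε / 4) (by positivity) hc hi hcr
  have h2 : ROp K K.T := ⟨Set.univ, isOpen_univ, (Set.inter_univ _).symm⟩
  refine (C K.T f h2 hc hm hi fun x hx => ?_).2 rfl
  obtain ⟨R₀, hR₀, h3⟩ := h1 x hx
  refine ⟨R₀, hR₀, ?_⟩
  have e : 4 * (ε / 4) = ε := by ring
  rwa [e] at h3

end RCE
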