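import Pool.Agent.RCE.St

/-!
# RCE, [GEC]: the carpet meets a segment
-/

set_option autoImplicit false

namespace RCE

open Metric

/-- norms and components -/
private theorem GEC_comp {e z : ℂ} (he : ‖e‖ = 1) {s ε : ℝ} (h : ‖z - s * (Complex.I * e)‖ ≤ ε) :
    |(z * (starRingEnd ℂ) e).re| ≤ ε ∧ |(z * (starRingEnd ℂ) e).im - s| ≤ ε := by
  have hee : e * (starRingEnd ℂ) e = 1 := by
    rw [Complex.mul_conj, Complex.normSq_eq_norm_sq, he]; simp
  have h1 : ‖z * (starRingEnd ℂ) e - s * Complex.I‖ ≤ ε := by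
    have h2 : z * (starRingEnd ℂ) e - s * Complex.I
        = (z - s * (Complex.I * e)) * (starRingEnd ℂ) e := by
      have h3 : (z - s * (Complex.I * e)) * (starRingEnd ℂ) e
          = z * (starRingEnd ℂ) e - s * Complex.I * (e * (starRingEnd ℂ) e) := by ring
      rw [h3, hee, mul_one]
    rw [h2, norm_mul, Complex.norm_conj, he, mul_one]
    exact h
  constructor
  · have h2 := Complex.abs_re_le_norm (z * (starRingEnd ℂ) e - s * Complex.I)
    have h3 : (z * (starRingEnd ℂ) e - s * Complex.I).re = (z * (starRingEnd ℂ) e).re := by simp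
    rw [h3] at h2
    exact h2.trans h1
  · have h2 := Complex.abs_im_le_norm (z * (starRingEnd ℂ) e - s * Complex.I)
    have h3 : (z * (starRingEnd ℂ) e - s * Complex.I).im = (z * (starRingEnd ℂ) e).im - s := by simp
    rw [h3] at h2
    exact h2.trans h1

/-- **[GEC]** -/
theorem thm_GEC (hCC : St_CC) (hGEA : St_GEA) (hTF : St_TF) : St_GEC := by
  intro K q e a b ε Qp Qm he hb hba hQp hQm hp hm hε
  by_contra hno
  push Not at hno
  obtain ⟨-, -, -, hT, -⟩ := hTF K
  have hε1 : ε < (a ^ 2 - b ^ 2) / (2 * a) := lt_of_lt_of_le hε (min_le_left _ _)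
  have hε2 : ε < b := lt_of_lt_of_le hε (min_le_right _ _)
  have hcont : Continuous fun t : ℝ => q + (t : ℂ) * e := by fun_prop
  have hpre : IsPreconnected ((fun t : ℝ => q + (t : ℂ) * e) '' Set.Icc (-a) a) :=
    (isPreconnected_Icc).image _ hcont.continuousOn
  have hmem : ∀ t : ℝ, |t| ≤ a → q + (t : ℂ) * e ∈ (fun t : ℝ => q + (t : ℂ) * e) '' Set.Icc (-a) a :=
    fun t ht => ⟨t, abs_le.1 ht, rfl⟩
  have hne : ((fun t : ℝ => q + (t : ℂ) * e) '' Set.Icc (-a) a).Nonempty :=
    ⟨_, hmem 0 (by rw [abs_zero]; linarith)⟩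
  have hout : ∀ p ∈ (fun t : ℝ => q + (t : ℂ) * e) '' Set.Icc (-a) a, p ∉ K.T := by
    rintro _ ⟨t, ht, rfl⟩
    exact hno t (abs_le.2 ht)
  rcases hCC K _ hpre hne hout with ⟨j, hj⟩ | hfar
  · have h1 : ‖q + a * e - K.c j‖ < K.r j := by
      have h := hj (hmem a (by rw [abs_of_pos (by linarith)]))
      rwa [mem_ball, dist_eq_norm] at h
    have h2 : ‖q - a * e - K.c j‖ < K.r j := by
      have h := hj (hmem (-a) (by rw [abs_neg, abs_of_pos (by linarith)]))
      rw [mem_ball, dist_eq_norm] at h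
      have e1 : q + ((-a : ℝ) : ℂ) * e = q - a * e := by push_cast; ring
      rwa [e1] at h
    rcases hGEA q e (K.c j) a b (K.r j) he hb hba h1 h2 with h | h
    · have h3 : Qp ∈ ball (K.c j) (K.r j) := h (by
        rw [mem_ball, dist_eq_norm]
        exact lt_of_le_of_lt hp hε)
      rw [mem_ball, dist_eq_norm] at h3
      exact absurd ((hT Qp hQp).2 j) (not_le.2 h3)
    · have h3 : Qm ∈ ball (K.c j) (K.r j) := h (by
        rw [mem_ball, dist_eq_norm]
        exact lt_of_le_of_lt hm hε)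
      rw [mem_ball, dist_eq_norm] at h3
      exact absurd ((hT Qm hQm).2 j) (not_le.2 h3)
  · have hee : e * (starRingEnd ℂ) e = 1 := by
      rw [Complex.mul_conj, Complex.normSq_eq_norm_sq, he]; simp
    have hp' : ‖(Qp - q) - b * (Complex.I * e)‖ ≤ ε := by
      have e1 : (Qp - q) - b * (Complex.I * e) = Qp - (q + b * (Complex.I * e)) := by ring
      rw [e1]; exact hp
    have hm' : ‖(Qm - q) - ((-b : ℝ) : ℂ) * (Complex.I * e)‖ ≤ ε := by
      have e1 : (Qm - q) - ((-b : ℝ) : ℂ) * (Complex.I * e) = Qm - (q - b * (Complex.I * e)) := by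
        push_cast; ring
      rw [e1]; exact hm
    obtain ⟨p1, p2⟩ := GEC_comp he hp'
    obtain ⟨m1, m2⟩ := GEC_comp he hm'
    set αp := ((Qp - q) * (starRingEnd ℂ) e).re with hαp
    set βp := ((Qp - q) * (starRingEnd ℂ) e).im with hβp
    set αm := ((Qm - q) * (starRingEnd ℂ) e).re with hαm
    set βm := ((Qm - q) * (starRingEnd ℂ) e).im with hβm
    rw [abs_le] at p1 p2 m1 m2
    have hβp0 : 0 < βp := by linarith
    have hβm0 : βm < 0 := by linarith
    have hd : 0 < βp - βm := by linarith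
    set lam : ℝ := βp / (βp - βm) with hlam
    have hl0 : 0 ≤ lam := div_nonneg hβp0.le hd.le
    have hl1 : lam ≤ 1 := by rw [hlam, div_le_one hd]; linarith
    have hzero : (1 - lam) * βp + lam * βm = 0 := by
      rw [hlam]; field_simp; ring
    -- the point of the segment on the line
    have hconv : ((1 - lam : ℝ) : ℂ) * Qp + (lam : ℂ) * Qm ∈ closedBall K.c₀ K.r₀ := by
      have h1 : Qp ∈ closedBall K.c₀ K.r₀ := by
        rw [mem_closedBall, dist_eq_norm]; exact (hT Qp hQp).1
      have h2 : Qm ∈ closedBall K.c₀ K.r₀ := by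
        rw [mem_closedBall, dist_eq_norm]; exact (hT Qm hQm).1
      have h3 := (convex_closedBall K.c₀ K.r₀) h1 h2 (sub_nonneg.2 hl1) hl0 (by ring)
      simpa [Complex.real_smul] using h3
    have hcomp : (((1 - lam : ℝ) : ℂ) * Qp + (lam : ℂ) * Qm - q) * (starRingEnd ℂ) e
        = (((1 - lam) * αp + lam * αm : ℝ) : ℂ) := by
      have h1 : (((1 - lam : ℝ) : ℂ) * Qp + (lam : ℂ) * Qm - q) * (starRingEnd ℂ) e
          = ((1 - lam : ℝ) : ℂ) * ((Qp - q) * (starRingEnd ℂ) e)
            + (lam : ℂ) * ((Qm - q) * (starRingEnd ℂ) e) := by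
        push_cast; ring
      rw [h1]
      apply Complex.ext
      · rw [Complex.add_re, Complex.re_ofReal_mul, Complex.re_ofReal_mul, Complex.ofReal_re]
      · rw [Complex.add_im, Complex.im_ofReal_mul, Complex.im_ofReal_mul, Complex.ofReal_im]
        exact hzero
    have hpt : ((1 - lam : ℝ) : ℂ) * Qp + (lam : ℂ) * Qm
        = q + (((1 - lam) * αp + lam * αm : ℝ) : ℂ) * e := by
      rw [← hcomp]
      have h1 : q + (((1 - lam : ℝ) : ℂ) * Qp + (lam : ℂ) * Qm - q) * (starRingEnd ℂ) e * e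
          = q + (((1 - lam : ℝ) : ℂ) * Qp + (lam : ℂ) * Qm - q) * (e * (starRingEnd ℂ) e) := by
        ring
      rw [h1, hee]
      ring
    have hαb : |(1 - lam) * αp + lam * αm| ≤ a := by
      have h1 : (1 - lam) * αp + lam * αm ≤ ε := by nlinarith
      have h2 : -ε ≤ (1 - lam) * αp + lam * αm := by nlinarith
      rw [abs_le]
      constructor <;> linarith
    have h1 := hfar _ (hmem _ hαb)
    rw [← hpt] at h1
    rw [mem_closedBall, dist_eq_norm] at hconv
    exact absurd hconv (not_le.2 h1)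

end RCE
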