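import Pool.Agent.RCE.St

/-!
# RCE, module HOL: round holes everywhere and at all scales (helper26)
-/

set_option autoImplicit false

namespace RCE

open Metric

private theorem HOL_dd_le (u p q : ℂ) (h : ℝ) (hh : 0 < h) : dd u h p q ≤ ‖p - q‖ / h := by
  unfold dd
  have h1 : h ≤ √(‖p - u‖ ^ 2 + h ^ 2) := Real.le_sqrt_of_sq_le (by nlinarith [norm_nonneg (p - u)])
  have h2 : h ≤ √(‖q - u‖ ^ 2 + h ^ 2) := Real.le_sqrt_of_sq_le (by nlinarith [norm_nonneg (q - u)])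
  rw [div_le_div_iff₀ (by positivity) hh]
  have h3 : h * h ≤ √(‖p - u‖ ^ 2 + h ^ 2) * √(‖q - u‖ ^ 2 + h ^ 2) :=
    mul_le_mul h1 h2 hh.le (hh.le.trans h1)
  nlinarith [mul_le_mul_of_nonneg_left h3 (norm_nonneg (p - q))]

private theorem HOL_near (y p : ℂ) (ρ : ℝ) (hρ : 0 < ρ) (h : dd y ρ p y < 1 / 2) :
    ‖p - y‖ < ρ := by
  unfold dd at h
  have h1 : √(‖y - y‖ ^ 2 + ρ ^ 2) = ρ := by
    rw [sub_self, norm_zero]
    simp [Real.sqrt_sq hρ.le]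
  have h2 : 0 < √(‖p - y‖ ^ 2 + ρ ^ 2) := Real.sqrt_pos.2 (by positivity)
  rw [h1, div_lt_div_iff₀ (mul_pos h2 hρ) two_pos] at h
  have h3 : ‖p - y‖ * 2 < √(‖p - y‖ ^ 2 + ρ ^ 2) := by nlinarith
  have h4 := Real.sq_sqrt (show 0 ≤ ‖p - y‖ ^ 2 + ρ ^ 2 by positivity)
  have h5 : (‖p - y‖ * 2) ^ 2 < √(‖p - y‖ ^ 2 + ρ ^ 2) ^ 2 :=
    pow_lt_pow_left₀ h3 (by positivity) two_ne_zero
  rw [h4] at h5
  refine lt_of_pow_lt_pow_left₀ 2 hρ.le ?_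
  nlinarith [sq_nonneg ‖p - y‖]

private theorem HOL_far (y p : ℂ) (ρ : ℝ) (hρ : 0 < ρ) : ∃ w, ‖w - p‖ = ρ ∧ ‖w - y‖ = ‖p - y‖ + ρ := by
  by_cases h : p = y
  · refine ⟨p + ρ, ?_, ?_⟩
    · rw [add_sub_cancel_left, Complex.norm_real, Real.norm_of_nonneg hρ.le]
    · rw [h, sub_self, norm_zero, add_sub_cancel_left, Complex.norm_real,
        Real.norm_of_nonneg hρ.le, zero_add]
  · have h0 : 0 < ‖p - y‖ := norm_pos_iff.2 (sub_ne_zero.2 h)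
    have h0' : ((‖p - y‖ : ℝ) : ℂ) ≠ 0 := Complex.ofReal_ne_zero.2 h0.ne'
    refine ⟨p + ((ρ / ‖p - y‖ : ℝ) : ℂ) * (p - y), ?_, ?_⟩
    · rw [add_sub_cancel_left, norm_mul, Complex.norm_real, Real.norm_of_nonneg (by positivity)]
      field_simp
    · have e : p + ((ρ / ‖p - y‖ : ℝ) : ℂ) * (p - y) - y
          = ((1 + ρ / ‖p - y‖ : ℝ) : ℂ) * (p - y) := by
        push_cast
        ring
      rw [e, norm_mul, Complex.norm_real, Real.norm_of_nonneg (by positivity)]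
      field_simp

theorem thm_HOL (hFA : St_FA) (hUH : St_UH) (hMC : St_MC) (hSPH : St_SPH) (hTF : St_TF) :
    St_HOL := by
  intro K Γ hG
  obtain ⟨κ, hκ, hγ⟩ := hFA K Γ hG
  obtain ⟨c₁, hc₁, hi⟩ := hUH K (1 / (2 * κ)) (by positivity)
  refine ⟨min 1 (c₁ / κ), lt_min one_pos (by positivity), min_le_left _ _, ?_⟩
  intro y ρ hy hρ hρr
  obtain ⟨γ, hγΓ, hγ⟩ := hγ ⟨y, hy⟩ ρ hρ hρr
  obtain ⟨i, hi1, hi2⟩ := hi (γ ⟨y, hy⟩) (γ ⟨y, hy⟩).2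
  obtain ⟨p, ρ', hρ', m1, m2, m3⟩ := hMC K γ⁻¹ (hG.mob _ (Γ.inv_mem hγΓ)) i
  have hinv : ∀ z : K.T, γ (γ⁻¹ z) = z := fun z => γ.apply_symm_apply z
  have hB : ∀ q : K.T, ‖(q : ℂ) - γ ⟨y, hy⟩‖ < 1 / (2 * κ) → ‖((γ⁻¹ q : K.T) : ℂ) - y‖ < ρ := by
    intro q hq
    apply HOL_near y _ ρ hρ
    have h1 := (hγ (γ⁻¹ q) ⟨y, hy⟩).2
    rw [hinv] at h1
    refine lt_of_le_of_lt h1 ?_
    have h2 : κ * (1 / (2 * κ)) = 1 / 2 := by field_simp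
    rw [← h2]
    exact mul_lt_mul_of_pos_left hq (by linarith)
  have hC : ∀ w : ℂ, ‖w - p‖ = ρ' → w ∈ K.T ∧ ‖w - y‖ < ρ := by
    intro w hw
    obtain ⟨z, hz1, hz2⟩ := m2 w hw
    rw [← hz2]
    refine ⟨Subtype.coe_prop _, hB z ?_⟩
    have h1 : (z : ℂ) ∈ ball (γ ⟨y, hy⟩ : ℂ) (1 / (2 * κ)) := by
      apply hi1
      rw [mem_closedBall_iff_norm, hz1]
    exact mem_ball_iff_norm.1 h1
  have hD : closedBall p ρ' ⊆ ball y ρ := by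
    obtain ⟨w, hw1, hw2⟩ := HOL_far y p ρ' hρ'
    have h1 := (hC w hw1).2
    rw [hw2] at h1
    intro z hz
    rw [mem_closedBall_iff_norm] at hz
    rw [mem_ball_iff_norm]
    have h2 : ‖z - y‖ ≤ ‖z - p‖ + ‖p - y‖ := norm_sub_le_norm_sub_add_norm_sub _ _ _
    linarith
  refine ⟨p, ρ', ?_, hD, ?_, ?_⟩
  · have hr := K.rpos i
    have hs := (hTF K).2.1 i
    have t1 : K.c i + K.r i ∈ K.T := by
      apply hs
      rw [mem_sphere_iff_norm, add_sub_cancel_left, Complex.norm_real, Real.norm_of_nonneg hr.le]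
    have t2 : K.c i - K.r i ∈ K.T := by
      apply hs
      rw [mem_sphere_iff_norm, sub_sub_cancel_left, norm_neg, Complex.norm_real,
        Real.norm_of_nonneg hr.le]
    have h1 := (hγ (γ⁻¹ ⟨_, t1⟩) (γ⁻¹ ⟨_, t2⟩)).1
    rw [hinv, hinv] at h1
    have h2 : ‖(K.c i + K.r i : ℂ) - (K.c i - K.r i)‖ = 2 * K.r i := by
      have e : (K.c i + K.r i : ℂ) - (K.c i - K.r i) = ((2 * K.r i : ℝ) : ℂ) := by
        push_cast
        ring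
      rw [e, Complex.norm_real, Real.norm_of_nonneg (by positivity)]
    have h1' : 2 * K.r i ≤ κ * dd y ρ ((γ⁻¹ ⟨_, t1⟩ : K.T) : ℂ) ((γ⁻¹ ⟨_, t2⟩ : K.T) : ℂ) := by
      rw [← h2]
      exact h1
    have n1 := m1 ⟨_, t1⟩ (by
      show ‖(K.c i + K.r i : ℂ) - K.c i‖ = K.r i
      rw [add_sub_cancel_left, Complex.norm_real, Real.norm_of_nonneg hr.le])
    have n2 := m1 ⟨_, t2⟩ (by
      show ‖(K.c i - K.r i : ℂ) - K.c i‖ = K.r i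
      rw [sub_sub_cancel_left, norm_neg, Complex.norm_real, Real.norm_of_nonneg hr.le])
    have h3 : ‖((γ⁻¹ ⟨_, t1⟩ : K.T) : ℂ) - ((γ⁻¹ ⟨_, t2⟩ : K.T) : ℂ)‖ ≤ 2 * ρ' := by
      have h4 : ‖((γ⁻¹ ⟨_, t1⟩ : K.T) : ℂ) - ((γ⁻¹ ⟨_, t2⟩ : K.T) : ℂ)‖
          ≤ ‖((γ⁻¹ ⟨_, t1⟩ : K.T) : ℂ) - p‖ + ‖p - ((γ⁻¹ ⟨_, t2⟩ : K.T) : ℂ)‖ :=
        norm_sub_le_norm_sub_add_norm_sub _ _ _
      rw [n1, norm_sub_rev p, n2] at h4
      linarith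
    have h4 := HOL_dd_le y ((γ⁻¹ ⟨_, t1⟩ : K.T) : ℂ) ((γ⁻¹ ⟨_, t2⟩ : K.T) : ℂ) ρ hρ
    have h5 : 2 * K.r i ≤ κ * (2 * ρ' / ρ) := by
      refine h1'.trans (mul_le_mul_of_nonneg_left (h4.trans ?_) (by linarith))
      exact div_le_div_of_nonneg_right h3 hρ.le
    have h6 : c₁ / κ * ρ ≤ ρ' := by
      have hκ0 : 0 < κ := by linarith
      rw [div_mul_eq_mul_div, div_le_iff₀ hκ0]
      have h7 : κ * (2 * ρ' / ρ) = 2 * (κ * ρ') / ρ := by ring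
      rw [h7, le_div_iff₀ hρ] at h5
      nlinarith [mul_le_mul_of_nonneg_right hi2 hρ.le]
    exact (mul_le_mul_of_nonneg_right (min_le_right _ _) hρ.le).trans h6
  · intro w hw
    exact (hC w (mem_sphere_iff_norm.1 hw)).1
  · rcases m3 with m3 | m3
    · exact m3
    · exfalso
      obtain ⟨z, hz, hzy⟩ := hSPH K y ρ hy hρ hρr
      have h1 := hD (mem_closedBall_iff_norm.2 (m3 z hz))
      rw [mem_ball_iff_norm, hzy] at h1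
      exact lt_irrefl _ h1

end RCE
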