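import Pool.Agent.RCE.St

/-!
# RCE, module IMZ: image of a configuration under a map which is almost a similarity, and one more point
-/

set_option autoImplicit false

namespace RCE

private lemma IMZ_sqrt (a b : ℝ) (ha : 0 ≤ a) (hb : 0 ≤ b) : √(a ^ 2 + b ^ 2) ≤ a + b := by
  rw [Real.sqrt_le_left (by positivity)]
  nlinarith [mul_nonneg ha hb]

private lemma IMZ_sim (u x y : ℂ) (h Λ : ℝ) (A : ℂ →ₗ[ℝ] ℂ) (hh : 0 < h) (hΛ : 0 < Λ) (hA : ∀ w, ‖A w‖ = Λ * ‖w‖)
    (p q : ℂ) : dd (y + A (u - x)) (Λ * h) (y + A (p - x)) (y + A (q - x)) = dd u h p q := by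
  have e1 : y + A (p - x) - (y + A (q - x)) = A (p - q) := by
    have : p - q = (p - x) - (q - x) := by ring
    rw [this, map_sub A (p - x) (q - x)]; ring
  have e2 : ∀ p : ℂ, y + A (p - x) - (y + A (u - x)) = A (p - u) := by
    intro p
    have : p - u = (p - x) - (u - x) := by ring
    rw [this, map_sub A (p - x) (u - x)]; ring
  have e3 : ∀ p : ℂ, √(‖y + A (p - x) - (y + A (u - x))‖ ^ 2 + (Λ * h) ^ 2) = Λ * √(‖p - u‖ ^ 2 + h ^ 2) := by
    intro p
    rw [e2, hA]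
    have : (Λ * ‖p - u‖) ^ 2 + (Λ * h) ^ 2 = Λ ^ 2 * (‖p - u‖ ^ 2 + h ^ 2) := by ring
    rw [this, Real.sqrt_mul (by positivity), Real.sqrt_sq hΛ.le]
  unfold dd
  rw [e3, e3, e1, hA]
  have p1 : 0 < √(‖p - u‖ ^ 2 + h ^ 2) := Real.sqrt_pos.mpr (by positivity)
  have p2 : 0 < √(‖q - u‖ ^ 2 + h ^ 2) := Real.sqrt_pos.mpr (by positivity)
  rw [div_eq_div_iff (by positivity) (by positivity)]
  ring

theorem thm_IMZ (hDT : St_DT) : St_IMZ := by
  intro κ W hκ hW
  have hκ0 : 0 < κ := by linarith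
  have hW0 : 0 < W := by linarith
  refine ⟨1 / (κ * (1 + 2 * κ) * (1 + 2 * W * (1 + 2 * κ))), by positivity, ?_⟩
  intro x R ε θ Λ u' h' A f F z hR hε hθ hΛ hh' hA hF h1 h2 h3 h4 h5 h6
  have hh'' : 0 < Λ * h' := by positivity
  refine ⟨f x + A (u' - x), Λ * h', hh'', ?_, ?_⟩
  · intro p hp q hq
    obtain ⟨D1, D2⟩ := hDT (f x + A (u' - x)) (Λ * h') hh''
    have key : ∀ p ∈ F, dd (f x + A (u' - x)) (Λ * h') (f p) (f x + A (p - x)) ≤ θ * κ / ε := by
      intro p hp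
      refine (D1 _ _).2.2.1.trans ?_
      have e1 : f p - (f x + A (p - x)) = f p - f x - A (p - x) := by ring
      rw [e1, div_le_div_iff₀ hh'' hε]
      have t1 := hF p hp
      have t2 : θ * Λ * R * ε ≤ θ * κ * (Λ * h') := by
        have : θ * Λ * (ε * R) ≤ θ * Λ * (κ * h') := mul_le_mul_of_nonneg_left h1 (by positivity)
        nlinarith
      calc ‖f p - f x - A (p - x)‖ * ε ≤ θ * Λ * R * ε := mul_le_mul_of_nonneg_right t1 hε.le
        _ ≤ _ := t2
    have s0 := IMZ_sim u' x (f x) h' Λ A hh' hΛ hA p q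
    have s1 := key p hp
    have s2 := key q hq
    have s3 := D2 (f x + A (p - x)) (f p) (f x + A (q - x))
    have s4 := D2 (f p) (f q) (f x + A (q - x))
    have s5 := (D1 (f x + A (p - x)) (f p)).2.1
    have s6 : 2 * θ * κ / ε = θ * κ / ε + θ * κ / ε := by ring
    rw [s6]
    linarith
  · intro p hp
    set S : ℝ := ε * (Λ * R) with hS
    have hS0 : 0 < S := by positivity
    have q1 : S ≤ κ * (Λ * h') := by
      have : Λ * (ε * R) ≤ Λ * (κ * h') := mul_le_mul_of_nonneg_left h1 hΛ.le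
      nlinarith
    have q2 : Λ * h' ≤ κ * S := by
      have : Λ * h' ≤ Λ * (κ * (ε * R)) := mul_le_mul_of_nonneg_left h2 hΛ.le
      nlinarith
    have q3 : ‖A (u' - x)‖ ≤ κ * S := by
      rw [hA]
      have : Λ * ‖u' - x‖ ≤ Λ * (κ * (ε * R)) := mul_le_mul_of_nonneg_left h3 hΛ.le
      nlinarith
    have q4 : ‖z - (f x + A (u' - x))‖ ≤ (1 + κ) * S := by
      have : z - (f x + A (u' - x)) = (z - f x) - A (u' - x) := by ring
      rw [this]
      have := norm_sub_le (z - f x) (A (u' - x))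
      linarith
    have q5 : S ≤ 2 * W * ‖z - f p‖ := by
      have t := h6 p hp
      rw [norm_sub_rev z (f p)]
      have : W * (‖z - f x‖ / 2) ≤ W * ‖f p - z‖ := mul_le_mul_of_nonneg_left t hW0.le
      linarith
    have hE0 : 0 < ‖z - f p‖ := by
      by_contra hn
      have : ‖z - f p‖ ≤ 0 := not_lt.mp hn
      nlinarith
    have q6 : ‖f p - (f x + A (u' - x))‖ ≤ ‖z - f p‖ + (1 + κ) * S := by
      have : f p - (f x + A (u' - x)) = -(z - f p) + (z - (f x + A (u' - x))) := by ring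
      rw [this]
      have := norm_add_le (-(z - f p)) (z - (f x + A (u' - x)))
      rw [norm_neg] at this
      linarith
    have r1 : √(‖z - (f x + A (u' - x))‖ ^ 2 + (Λ * h') ^ 2) ≤ (1 + 2 * κ) * S := by
      refine (IMZ_sqrt _ _ (norm_nonneg _) hh''.le).trans ?_
      linarith
    have r2 : √(‖f p - (f x + A (u' - x))‖ ^ 2 + (Λ * h') ^ 2) ≤ ‖z - f p‖ * (1 + 2 * W * (1 + 2 * κ)) := by
      refine (IMZ_sqrt _ _ (norm_nonneg _) hh''.le).trans ?_
      have : (1 + 2 * κ) * S ≤ (1 + 2 * κ) * (2 * W * ‖z - f p‖) := mul_le_mul_of_nonneg_left q5 (by positivity)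
      linarith
    have p1 : 0 < √(‖z - (f x + A (u' - x))‖ ^ 2 + (Λ * h') ^ 2) := Real.sqrt_pos.mpr (by positivity)
    have p2 : 0 < √(‖f p - (f x + A (u' - x))‖ ^ 2 + (Λ * h') ^ 2) := Real.sqrt_pos.mpr (by positivity)
    unfold dd
    rw [div_le_div_iff₀ (by positivity) (by positivity), one_mul]
    calc √(‖z - (f x + A (u' - x))‖ ^ 2 + (Λ * h') ^ 2) * √(‖f p - (f x + A (u' - x))‖ ^ 2 + (Λ * h') ^ 2)
        ≤ ((1 + 2 * κ) * S) * (‖z - f p‖ * (1 + 2 * W * (1 + 2 * κ))) := mul_le_mul r1 r2 p2.le (by positivity)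
      _ = S * (‖z - f p‖ * ((1 + 2 * κ) * (1 + 2 * W * (1 + 2 * κ)))) := by ring
      _ ≤ (κ * (Λ * h')) * (‖z - f p‖ * ((1 + 2 * κ) * (1 + 2 * W * (1 + 2 * κ)))) :=
          mul_le_mul_of_nonneg_right q1 (by positivity)
      _ = _ := by ring

end RCE
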