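import Pool.Agent.RCE.St

/-!
# RCE: module ITR, porous sets are small
-/

set_option autoImplicit false

namespace RCE

open Metric

private theorem ITR_card {E : Set ℂ} {s : ℝ} {N : ℕ} (hs : 0 < s)
    (hN : ∀ (p : ℂ) (s : ℝ) (F : Finset ℂ), 0 < s → Sep s F → (∀ q ∈ F, ‖q - p‖ ≤ 1 * s) → F.card ≤ N)
    (X F : Finset ℂ) (hF : (F : Set ℂ) ⊆ E) (hsep : Sep s F) (hX : ∀ p ∈ F, ∃ x ∈ X, ‖p - x‖ < s) :
    F.card ≤ N * cE X E (2 * s) := by
  classical
  have hg : ∀ p : ℂ, ∃ x : ℂ, p ∈ F → x ∈ X ∧ ‖p - x‖ < s := by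
    intro p
    by_cases hp : p ∈ F
    · obtain ⟨x, hx, hpx⟩ := hX p hp
      exact ⟨x, fun _ => ⟨hx, hpx⟩⟩
    · exact ⟨0, fun h => absurd h hp⟩
  choose g hg using hg
  unfold cE
  refine Finset.card_le_mul_card_image_of_maps_to (f := g) ?_ N ?_
  · intro p hp
    rw [Finset.mem_filter]
    refine ⟨(hg p hp).1, p, hF hp, ?_⟩
    rw [norm_sub_rev]
    linarith [(hg p hp).2]
  · intro x _
    refine hN x s _ hs ?_ ?_
    · intro p hp q hq hpq
      exact hsep p (Finset.mem_filter.1 hp).1 q (Finset.mem_filter.1 hq).1 hpq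
    · intro q hq
      obtain ⟨h1, h2⟩ := Finset.mem_filter.1 hq
      rw [one_mul, ← h2]
      exact (hg q h1).2.le

private theorem ITR_le (X : Finset ℂ) (E : Set ℂ) (ρ : ℝ) : cE X E ρ ≤ X.card := by
  classical
  unfold cE
  exact Finset.card_filter_le _ _

theorem thm_ITR (hSTP : St_STP) (hNNB : St_NNB) (hPK : St_PK) (hCLS : St_CLS) (hDBL : St_DBL) :
    St_ITR := by
  intro K Γ hΓ κ ε t₁ hκ hκ1 hε ht₁
  obtain ⟨c, hc, hstp⟩ := hSTP K Γ hΓ κ hκ hκ1
  obtain ⟨N, hN⟩ := hPK 1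
  obtain ⟨C, hC, hcls⟩ := hCLS K Γ hΓ
  obtain ⟨C₃, hC₃, hdbl⟩ := hDBL 3 (by norm_num)
  have hk0 : 0 < κ / 4 := by positivity
  have hk1 : κ / 4 < 1 := by linarith
  -- the choice of `J`
  obtain ⟨J, hJ1, hJ2⟩ : ∃ J : ℕ, N * C₃ * C ≤ ε * (1 + c) ^ J ∧ (κ / 4) ^ J < t₁ := by
    have h1 : Filter.Tendsto (fun J : ℕ => (1 + c) ^ J) Filter.atTop Filter.atTop :=
      tendsto_pow_atTop_atTop_of_one_lt (by linarith)
    have h2 : Filter.Tendsto (fun J : ℕ => (κ / 4) ^ J) Filter.atTop (nhds 0) :=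
      tendsto_pow_atTop_nhds_zero_of_lt_one hk0.le hk1
    obtain ⟨J, hJa, hJb⟩ := ((h1.eventually_ge_atTop (N * C₃ * C / ε)).and
      (h2.eventually (gt_mem_nhds ht₁))).exists
    refine ⟨J, ?_, hJb⟩
    rw [div_le_iff₀ hε] at hJa
    linarith
  have hpJ : 0 < (κ / 4) ^ J := by positivity
  have hpJ1 : (κ / 4) ^ J ≤ 1 := pow_le_one₀ hk0.le hk1.le
  refine ⟨(κ / 4) ^ J / 5, by positivity, by linarith, by linarith, ?_⟩
  intro y r E hy hr hr3 hE hol
  obtain ⟨s, hs⟩ : ∃ s, s = (κ / 4) ^ J / 5 * r := ⟨_, rfl⟩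
  have hs0 : 0 < s := by rw [hs]; positivity
  rw [← hs]
  have hbT : ∀ ρ : ℝ, Bornology.IsBounded (K.T ∩ ball y ρ) := fun ρ =>
    isBounded_ball.subset Set.inter_subset_right
  have hbE : Bornology.IsBounded E := (hbT r).subset hE
  obtain ⟨X, hX1, hX2, hX3, hX4⟩ := (hNNB (K.T ∩ ball y (3 * r)) s (hbT _) hs0).2
  have hMx : Mx K y r s X := by
    refine ⟨hy, hs0, hr, hr3, fun x hx => ?_, hX2, fun p hp hpy => ?_⟩
    · have := hX1 hx
      exact ⟨this.1, mem_ball_iff_norm.1 this.2⟩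
    · exact hX4 p ⟨hp, mem_ball_iff_norm.2 hpy⟩
  -- the induction over the scales
  have hstep : ∀ j : ℕ, j ≤ J →
      (1 + c) ^ j * (cE X E (2 * (r / 5 * (κ / 4) ^ j)) : ℝ) ≤ X.card := by
    intro j
    induction j with
    | zero =>
      intro _
      rw [pow_zero, one_mul]
      exact_mod_cast ITR_le X E _
    | succ j ih =>
      intro hj
      have hpj : 0 < (κ / 4) ^ j := by positivity
      have hpj1 : (κ / 4) ^ j ≤ 1 := pow_le_one₀ hk0.le hk1.le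
      have hle : (κ / 4) ^ J ≤ (κ / 4) ^ (j + 1) := pow_le_pow_of_le_one hk0.le hk1.le hj
      have hle' : (κ / 4) ^ J ≤ (κ / 4) ^ j := pow_le_pow_of_le_one hk0.le hk1.le (by omega)
      have h1 := hstp y r s X E (r / 5 * (κ / 4) ^ j) hMx hE (by positivity)
        (by nlinarith) (by
          rw [hs]
          have : 4 * ((κ / 4) ^ J / 5 * r) ≤ 4 * ((κ / 4) ^ (j + 1) / 5 * r) := by gcongr
          refine this.trans (le_of_eq ?_)
          ring)
        (fun e he => hol _ (by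
          have : (κ / 4) ^ J / 5 * r ≤ (κ / 4) ^ j / 5 * r := by gcongr
          refine this.trans (le_of_eq ?_)
          ring) (by nlinarith) e he)
      have e1 : κ * (r / 5 * (κ / 4) ^ j) / 2 = 2 * (r / 5 * (κ / 4) ^ (j + 1)) := by ring
      rw [e1] at h1
      refine le_trans ?_ (ih (by omega))
      calc (1 + c) ^ (j + 1) * (cE X E (2 * (r / 5 * (κ / 4) ^ (j + 1))) : ℝ)
          = (1 + c) ^ j * ((1 + c) * (cE X E (2 * (r / 5 * (κ / 4) ^ (j + 1))) : ℝ)) := by ring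
        _ ≤ _ := by gcongr
  have h2s : 2 * (r / 5 * (κ / 4) ^ J) = 2 * s := by rw [hs]; ring
  have hJ := hstep J le_rfl
  rw [h2s] at hJ
  -- the number of separated points of `E`
  have hNE : (NN E s : ℝ) ≤ N * cE X E (2 * s) := by
    obtain ⟨F, hF1, hF2, hF3, _⟩ := (hNNB E s hbE hs0).2
    rw [← hF3]
    exact_mod_cast ITR_card hs0 hN X F hF1 hF2 fun p hp => by
      have hpE := hE (hF1 hp)
      refine hX4 p ⟨hpE.1, ?_⟩
      have := mem_ball_iff_norm.1 hpE.2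
      exact mem_ball_iff_norm.2 (by linarith)
  -- the number of the points of `X`
  have hXc : (X.card : ℝ) ≤ C₃ * (C * NN (K.T ∩ ball y r) s) := by
    rw [hX3]
    refine (hdbl _ s (hbT _) hs0).trans ?_
    have h1 := hcls y y (3 * r) r ((κ / 4) ^ J / 5) hy hy (by linarith) hr3 hr (by linarith)
      (by positivity)
    have e1 : (κ / 4) ^ J / 5 * (3 * r) = 3 * s := by rw [hs]; ring
    rw [e1, ← hs] at h1
    gcongr
  have hcJ : 0 < (1 + c) ^ J := by positivity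
  have hfin : (1 + c) ^ J * (NN E s : ℝ) ≤ (1 + c) ^ J * (ε * NN (K.T ∩ ball y r) s) := by
    calc (1 + c) ^ J * (NN E s : ℝ) ≤ (1 + c) ^ J * (N * cE X E (2 * s)) := by gcongr
      _ = N * ((1 + c) ^ J * cE X E (2 * s)) := by ring
      _ ≤ N * (C₃ * (C * NN (K.T ∩ ball y r) s)) := by
        have := hJ.trans hXc
        gcongr
      _ = (N * C₃ * C) * NN (K.T ∩ ball y r) s := by ring
      _ ≤ (ε * (1 + c) ^ J) * NN (K.T ∩ ball y r) s := by gcongr
      _ = _ := by ring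
  exact le_of_mul_le_mul_left hfin hcJ

end RCE
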