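import Pool.Agent.RCE.St

/-! Module KEY of the campaign RCE. -/

set_option autoImplicit false

namespace RCE

open Metric

theorem KEY_near {T : Set ℂ} {f : ℂ → ℂ} {x : ℂ} {R : ℝ} {A : ℂ →ₗ[ℝ] ℂ} {a b : ℝ}
    (h : Near T f x R A a) (hab : a ≤ b) : Near T f x R A b :=
  fun p hp hx => (h p hp hx).trans hab

theorem KEY_lin (A : ℂ →ₗ[ℝ] ℂ) (v e : ℂ) (L μ : ℝ) (hs : Svd A v e L μ) (hμ : μ ≠ 0) :
    ∃ A₀ : ℂ →ₗ[ℝ] ℂ, (∀ w, ‖A₀ w‖ = L * ‖w‖) ∧ ∀ w, ‖A w - A₀ w‖ ≤ (L - |μ|) * ‖w‖ := by
  obtain ⟨hv, he, hL, h1, h2⟩ := hs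
  have hv0 : v ≠ 0 := by
    intro h; rw [h, norm_zero] at hv; exact zero_ne_one hv
  have hL0 : 0 ≤ L := (abs_nonneg μ).trans hL
  have hqn : ∀ w : ℂ, ‖w / v‖ = ‖w‖ := fun w => by rw [norm_div, hv, div_one]
  have hA : ∀ w : ℂ, A w = ((w / v).re : ℂ) * (L * e) + ((w / v).im : ℂ) * (μ * (Complex.I * e)) := by
    intro w
    have hw : w = (w / v).re • v + (w / v).im • (Complex.I * v) := by
      rw [Complex.real_smul, Complex.real_smul]
      calc w = (w / v) * v := by field_simp
        _ = (((w / v).re : ℂ) + ((w / v).im : ℂ) * Complex.I) * v := by rw [Complex.re_add_im]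
        _ = _ := by ring
    calc A w = A ((w / v).re • v + (w / v).im • (Complex.I * v)) := congrArg A hw
      _ = _ := by
        rw [map_add, map_smul, map_smul, h1, h2, Complex.real_smul, Complex.real_smul]
  rcases lt_or_gt_of_ne hμ with hneg | hpos
  · refine ⟨{ toFun := fun w => (L * e) * (starRingEnd ℂ) (w / v)
              map_add' := fun a b => by rw [add_div, map_add, mul_add]
              map_smul' := fun r a => by
                rw [RingHom.id_apply, Complex.real_smul, Complex.real_smul, mul_div_assoc, map_mul,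
                  Complex.conj_ofReal]
                ring }, ?_, ?_⟩
    · intro w
      show ‖(L * e) * (starRingEnd ℂ) (w / v)‖ = L * ‖w‖
      rw [norm_mul, norm_mul, he, Complex.norm_conj, hqn, Complex.norm_real, Real.norm_eq_abs,
        abs_of_nonneg hL0, mul_one]
    · intro w
      show ‖A w - (L * e) * (starRingEnd ℂ) (w / v)‖ ≤ (L - |μ|) * ‖w‖
      have hcq : ∀ q : ℂ, (starRingEnd ℂ) q = (q.re : ℂ) - (q.im : ℂ) * Complex.I := by
        intro q
        apply Complex.ext <;> simp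
      have hc := hcq (w / v)
      have h3 : A w - (L * e) * (starRingEnd ℂ) (w / v) =
          ((w / v).im * (μ + L) : ℝ) * (Complex.I * e) := by
        rw [hA w, hc]; push_cast; ring
      rw [h3, norm_mul, norm_mul, he, Complex.norm_I, Complex.norm_real, Real.norm_eq_abs, abs_mul,
        abs_of_neg hneg]
      rw [abs_of_neg hneg] at hL
      rw [abs_of_nonneg (show 0 ≤ μ + L by linarith)]
      have h4 : |(w / v).im| ≤ ‖w‖ := by rw [← hqn w]; exact Complex.abs_im_le_norm _
      have h5 : 0 ≤ μ + L := by linarith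
      nlinarith [mul_le_mul_of_nonneg_right h4 h5]
  · refine ⟨{ toFun := fun w => (L * e) * (w / v)
              map_add' := fun a b => by rw [add_div, mul_add]
              map_smul' := fun r a => by
                rw [RingHom.id_apply, Complex.real_smul, Complex.real_smul, mul_div_assoc]
                ring }, ?_, ?_⟩
    · intro w
      show ‖(L * e) * (w / v)‖ = L * ‖w‖
      rw [norm_mul, norm_mul, he, hqn, Complex.norm_real, Real.norm_eq_abs,
        abs_of_nonneg hL0, mul_one]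
    · intro w
      show ‖A w - (L * e) * (w / v)‖ ≤ (L - |μ|) * ‖w‖
      have hc : w / v = ((w / v).re : ℂ) + ((w / v).im : ℂ) * Complex.I :=
        (Complex.re_add_im _).symm
      have h3 : A w - (L * e) * (w / v) =
          ((w / v).im * (μ - L) : ℝ) * (Complex.I * e) := by
        rw [hA w]
        calc _ = ((w / v).re : ℂ) * (L * e) + ((w / v).im : ℂ) * (μ * (Complex.I * e)) -
            (L * e) * (((w / v).re : ℂ) + ((w / v).im : ℂ) * Complex.I) := by rw [← hc]
          _ = _ := by push_cast; ring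
      rw [h3, norm_mul, norm_mul, he, Complex.norm_I, Complex.norm_real, Real.norm_eq_abs, abs_mul,
        abs_of_pos hpos]
      rw [abs_of_pos hpos] at hL
      rw [abs_of_nonpos (show μ - L ≤ 0 by linarith)]
      have h4 : |(w / v).im| ≤ ‖w‖ := by rw [← hqn w]; exact Complex.abs_im_le_norm _
      have h5 : 0 ≤ L - μ := by linarith
      nlinarith [mul_le_mul_of_nonneg_right h4 h5]

theorem thm_KEY (hCNF : St_CNF) (hVV : St_VV) (hSV : St_SV) : St_KEY := by
  intro K Γ hG M hM
  have hM2 : 1 ≤ M ^ 2 := one_le_pow₀ hM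
  obtain ⟨ε, θ₀, hε, hθ₀, hC⟩ := hCNF K Γ hG (8 * M ^ 2) (by linarith)
  have hε₁ : 0 < min 1 (θ₀ / 2) := lt_min one_pos (by linarith)
  obtain ⟨θ₁, hθ₁, hV⟩ := hVV K Γ hG (min 1 (θ₀ / 2)) M hε₁ (min_le_left _ _) hM
  refine ⟨ε, min (1 / 8) (min (θ₀ / 2) θ₁), hε,
    lt_min (by norm_num) (lt_min (by linarith) hθ₁), min_le_left _ _, ?_⟩
  intro x R l A f z hx hz hR hRr h3 hD hmap hN hz1 hz2 hz3
  obtain ⟨v, e, L, μ, hs⟩ := hSV.1 A
  obtain ⟨hv, he, hL, h1, h2⟩ := id hs
  obtain ⟨hl, hD⟩ := hD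
  have hμl : l ≤ |μ| := by
    have h4 := (hD (Complex.I * v)).1
    rw [h2, norm_mul, norm_mul, norm_mul, Complex.norm_I, hv, he, Complex.norm_real,
      Real.norm_eq_abs] at h4
    linarith
  have hμ0 : 0 < |μ| := hl.trans_le hμl
  have hL0 : 0 < L := hμ0.trans_le hL
  have hLM : L ≤ M * l := by
    have h4 := (hD v).2
    rw [h1, norm_mul, hv, he, Complex.norm_real, Real.norm_eq_abs, abs_of_pos hL0] at h4
    linarith
  have hμ : μ ≠ 0 := abs_pos.mp hμ0
  have hlR : 0 < l * R := mul_pos hl hR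
  have hM0 : 0 < M := by linarith
  rcases le_or_gt ((1 + min 1 (θ₀ / 2)) * |μ|) L with hc | hc
  · refine hV R x f A v e L μ hx hR hRr ?_ hmap hs hμ hc ?_ (KEY_near hN ?_)
    · have h5 : |μ| ≤ M * l := hL.trans hLM
      have h6 : 3 * M * |μ| * R ≤ 3 * M * (M * l) * R := by
        apply mul_le_mul_of_nonneg_right _ hR.le
        exact mul_le_mul_of_nonneg_left h5 (by linarith)
      nlinarith
    · exact hLM.trans (mul_le_mul_of_nonneg_left hμl hM0.le)
    · apply mul_le_mul_of_nonneg_right _ hR.le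
      have h5 : min (1 / 8) (min (θ₀ / 2) θ₁) ≤ θ₁ := (min_le_right _ _).trans (min_le_right _ _)
      exact mul_le_mul h5 hμl hl.le hθ₁.le
  · obtain ⟨A₀, hA₀, hA₁⟩ := KEY_lin A v e L μ hs hμ
    have hlL : l ≤ L := hμl.trans hL
    refine hC x R L A₀ f z hx hz hR hRr hL0 hA₀ hmap ?_ ?_ ?_ hz3
    · intro p hp hpx
      have h5 := hN p hp hpx
      have h6 := hA₁ (p - x)
      have h7 : f p - f x - A₀ (p - x) = (f p - f x - A (p - x)) + (A (p - x) - A₀ (p - x)) := by
        ring
      have h8 : (L - |μ|) * ‖p - x‖ ≤ (L - |μ|) * R :=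
        mul_le_mul_of_nonneg_left hpx.le (by linarith)
      have h9 : (L - |μ|) * R ≤ (θ₀ / 2) * L * R := by
        apply mul_le_mul_of_nonneg_right _ hR.le
        have h10 : min 1 (θ₀ / 2) * |μ| ≤ (θ₀ / 2) * L :=
          mul_le_mul (min_le_right _ _) hL hμ0.le (by linarith)
        linarith
      have h11 : min (1 / 8) (min (θ₀ / 2) θ₁) * l * R ≤ (θ₀ / 2) * L * R := by
        apply mul_le_mul_of_nonneg_right _ hR.le
        have h5 : min (1 / 8) (min (θ₀ / 2) θ₁) ≤ θ₀ / 2 := (min_le_right _ _).trans (min_le_left _ _)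
        exact mul_le_mul h5 hlL hl.le (by linarith)
      rw [h7]
      refine (norm_add_le _ _).trans ?_
      linarith
    · have h5 : L * R ≤ M * (l * R) := by
        have := mul_le_mul_of_nonneg_right hLM hR.le
        linarith
      have h6 : ε * (L * R) ≤ ε * (M * (l * R)) := mul_le_mul_of_nonneg_left h5 hε.le
      have h7 : M * (ε * (l * R)) ≤ M * (8 * M * ‖z - f x‖) :=
        mul_le_mul_of_nonneg_left hz1 hM0.le
      nlinarith
    · have h5 : l * R ≤ L * R := mul_le_mul_of_nonneg_right hlL hR.le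
      exact hz2.trans (mul_le_mul_of_nonneg_left h5 hε.le)

end RCE
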