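import Pool.Agent.RCE.St

/-!
# RCE, module LA: three points seen from a viewpoint (offer 16415, helper81)
-/

set_option autoImplicit false

namespace RCE

open Metric

private theorem LA_mul {u : ℂ} {h b : ℝ} {p q : ℂ} (hh : 0 < h) (hd : b ≤ dd u h p q) :
    b * (√(‖p - u‖ ^ 2 + h ^ 2) * √(‖q - u‖ ^ 2 + h ^ 2)) ≤ h * ‖p - q‖ := by
  have h1 : 0 < √(‖p - u‖ ^ 2 + h ^ 2) := Real.sqrt_pos.2 (by positivity)
  have h2 : 0 < √(‖q - u‖ ^ 2 + h ^ 2) := Real.sqrt_pos.2 (by positivity)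
  unfold dd at hd
  rwa [le_div_iff₀ (mul_pos h1 h2)] at hd

private theorem LA_sq {a h : ℝ} (ha : 0 ≤ a) (hh : 0 < h) : a ≤ √(a ^ 2 + h ^ 2) ∧ h ≤ √(a ^ 2 + h ^ 2) := by
  constructor
  · exact Real.le_sqrt_of_sq_le (by nlinarith)
  · exact Real.le_sqrt_of_sq_le (by nlinarith)

private theorem LA_one {u : ℂ} {h b D : ℝ} {p q : ℂ} (hh : 0 < h) (hb : 0 < b) (hD : ‖p - q‖ ≤ D)
    (hd : b ≤ dd u h p q) : h ≤ D / b ∧ ‖p - u‖ ≤ D / b ∧ ‖q - u‖ ≤ D / b := by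
  have h0 := LA_mul hh hd
  obtain ⟨h1, h2⟩ := LA_sq (norm_nonneg (p - u)) hh
  obtain ⟨h3, h4⟩ := LA_sq (norm_nonneg (q - u)) hh
  generalize √(‖p - u‖ ^ 2 + h ^ 2) = P at *
  generalize √(‖q - u‖ ^ 2 + h ^ 2) = Q at *
  have hP : 0 < P := lt_of_lt_of_le hh h2
  have hQ : 0 < Q := lt_of_lt_of_le hh h4
  have h5 : b * (P * Q) ≤ h * D := le_trans h0 (mul_le_mul_of_nonneg_left hD hh.le)
  have h6 : P * b ≤ D := by
    have h7 : b * (P * h) ≤ b * (P * Q) :=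
      mul_le_mul_of_nonneg_left (mul_le_mul_of_nonneg_left h4 hP.le) hb.le
    have h8 : h * (P * b) ≤ h * D := by linarith
    exact le_of_mul_le_mul_left h8 hh
  have h9 : Q * b ≤ D := by
    have h7 : b * (h * Q) ≤ b * (P * Q) :=
      mul_le_mul_of_nonneg_left (mul_le_mul_of_nonneg_right h2 hQ.le) hb.le
    have h8 : h * (Q * b) ≤ h * D := by linarith
    exact le_of_mul_le_mul_left h8 hh
  rw [← le_div_iff₀ hb] at h6 h9
  exact ⟨le_trans h2 h6, le_trans h1 h6, le_trans h3 h9⟩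

private theorem LA_two {u : ℂ} {h b D δ : ℝ} {p q : ℂ} (hh : 0 < h) (hb : 0 < b) (hδ : 0 < δ)
    (hδD : δ ≤ D) (hD : ‖p - q‖ ≤ D) (hd : b ≤ dd u h p q) (hp : δ / 2 ≤ ‖p - u‖)
    (hq : δ / 2 ≤ ‖q - u‖) : b * δ ^ 2 / (4 * D) ≤ h := by
  have h0 := LA_mul hh hd
  obtain ⟨h1, -⟩ := LA_sq (norm_nonneg (p - u)) hh
  obtain ⟨h3, -⟩ := LA_sq (norm_nonneg (q - u)) hh
  generalize √(‖p - u‖ ^ 2 + h ^ 2) = P at *
  generalize √(‖q - u‖ ^ 2 + h ^ 2) = Q at *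
  have h5 : b * (P * Q) ≤ h * D := le_trans h0 (mul_le_mul_of_nonneg_left hD hh.le)
  have h6 : δ / 2 * (δ / 2) ≤ P * Q :=
    mul_le_mul (le_trans hp h1) (le_trans hq h3) (by linarith) (by linarith)
  have h7 : b * (δ / 2 * (δ / 2)) ≤ b * (P * Q) := mul_le_mul_of_nonneg_left h6 hb.le
  rw [div_le_iff₀ (by linarith)]
  have h8 : b * (δ / 2 * (δ / 2)) = b * δ ^ 2 / 4 := by ring
  have h9 : h * (4 * D) = 4 * (h * D) := by ring
  linarith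

theorem thm_LA : St_LA := by
  intro u h δ D b p₁ p₂ p₃ hh hδ hb d12 d23 d13 D12 D23 D13 b12 b23 b13
  have hδD : δ ≤ D := le_trans d12 D12
  obtain ⟨h1, h2, h3⟩ := LA_one hh hb D12 b12
  obtain ⟨-, -, h4⟩ := LA_one hh hb D13 b13
  have htri : ∀ p q : ℂ, δ ≤ ‖p - q‖ → ‖p - u‖ < δ / 2 → δ / 2 ≤ ‖q - u‖ := by
    intro p q hpq hp
    have h5 : p - q = (p - u) - (q - u) := by ring
    have h6 := norm_sub_le (p - u) (q - u)
    rw [← h5] at h6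
    linarith
  refine ⟨h1, h2, h3, h4, ?_⟩
  by_cases c1 : ‖p₁ - u‖ < δ / 2
  · exact LA_two hh hb hδ hδD D23 b23 (htri _ _ d12 c1) (htri _ _ d13 c1)
  · by_cases c2 : ‖p₂ - u‖ < δ / 2
    · exact LA_two hh hb hδ hδD D13 b13 (not_lt.1 c1) (htri _ _ d23 c2)
    · exact LA_two hh hb hδ hδD D12 b12 (not_lt.1 c1) (not_lt.1 c2)

end RCE
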