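import Pool.Agent.RCE.St

/-!
# RCE: module LCF, a frontier point nearby
-/

set_option autoImplicit false

namespace RCE

open Metric

/-- the point with parameter `t` on the segment -/
private noncomputable def LCFw (z e : ℂ) (t : ℝ) : ℂ := z + (t : ℂ) * (e - z)

private lemma LCFw_cont (z e : ℂ) : Continuous (LCFw z e) := by
  unfold LCFw
  fun_prop

private lemma LCFw_norm (z e : ℂ) {t : ℝ} (ht : 0 ≤ t) : ‖LCFw z e t - z‖ = t * ‖e - z‖ := by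
  unfold LCFw
  rw [add_sub_cancel_left, norm_mul, Complex.norm_real, Real.norm_of_nonneg ht]

private lemma LCFw_sub (z e : ℂ) {a b : ℝ} (h : a ≤ b) :
    ‖LCFw z e a - LCFw z e b‖ = (b - a) * ‖e - z‖ := by
  have h1 : LCFw z e a - LCFw z e b = ((a - b : ℝ) : ℂ) * (e - z) := by
    unfold LCFw
    push_cast
    ring
  rw [h1, norm_mul, Complex.norm_real, Real.norm_of_nonpos (by linarith)]
  ring

private lemma LCFw_mid (z e : ℂ) (a b : ℝ) :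
    (LCFw z e a + LCFw z e b) / 2 = LCFw z e ((a + b) / 2) := by
  unfold LCFw
  push_cast
  ring

/-- [LCF] a frontier point nearby -/
theorem thm_LCF (hARC : St_ARC) (hCC : St_CC) (hTF : St_TF) : St_LCF := by
  intro K E hE hET z hz hzE e₁ he₁
  by_contra hcon
  have hno : ∀ y ∈ E, ‖y - z‖ ≤ ‖e₁ - z‖ → y ∉ closure (K.T \ E) := by
    intro y hy h1 h2
    exact hcon ⟨y, hy, h2, h1⟩
  obtain ⟨hTc, hsph, -, hT1, -⟩ := hTF K
  set d := ‖e₁ - z‖ with hd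
  have hd0 : 0 ≤ d := norm_nonneg _
  set A : Set ℂ := E ∩ closedBall z d with hA
  set B : Set ℂ := (K.T ∩ closedBall z d) \ E with hB
  have hAc : IsClosed A := hE.inter isClosed_closedBall
  have hBc : IsClosed B := by
    refine isClosed_of_closure_subset fun y hy => ?_
    have h1 : y ∈ K.T ∩ closedBall z d := by
      have h2 : IsClosed (K.T ∩ closedBall z d) := hTc.isClosed.inter isClosed_closedBall
      exact h2.closure_subset_iff.2 (fun p hp => hp.1) hy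
    refine ⟨h1, fun hyE => ?_⟩
    have h4 : B ⊆ K.T \ E := fun p hp => ⟨hp.1.1, hp.2⟩
    refine hno y hyE ?_ (closure_mono h4 hy)
    have h3 := h1.2
    rwa [mem_closedBall, dist_eq_norm] at h3
  have hAT : A ⊆ K.T := fun p hp => hET hp.1
  have hBT : B ⊆ K.T := fun p hp => hp.1.1
  -- the parameters
  have hwc := LCFw_cont z e₁
  have hw0 : LCFw z e₁ 0 = z := by simp [LCFw]
  have hw1 : LCFw z e₁ 1 = e₁ := by simp [LCFw]
  have hGA : IsCompact (Set.Icc (0 : ℝ) 1 ∩ LCFw z e₁ ⁻¹' A) :=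
    isCompact_Icc.inter_right (hAc.preimage hwc)
  have hGAn : (Set.Icc (0 : ℝ) 1 ∩ LCFw z e₁ ⁻¹' A).Nonempty := by
    refine ⟨1, ⟨zero_le_one, le_rfl⟩, ?_⟩
    show LCFw z e₁ 1 ∈ A
    rw [hw1]
    exact ⟨he₁, by rw [mem_closedBall, dist_eq_norm]⟩
  obtain ⟨b₁, hb₁, hbmin⟩ := hGA.exists_isLeast hGAn
  have hb0 : 0 ≤ b₁ := hb₁.1.1
  have hb1 : b₁ ≤ 1 := hb₁.1.2
  have hGB : IsCompact (Set.Icc (0 : ℝ) b₁ ∩ LCFw z e₁ ⁻¹' B) :=
    isCompact_Icc.inter_right (hBc.preimage hwc)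
  have hGBn : (Set.Icc (0 : ℝ) b₁ ∩ LCFw z e₁ ⁻¹' B).Nonempty := by
    refine ⟨0, ⟨le_rfl, hb0⟩, ?_⟩
    show LCFw z e₁ 0 ∈ B
    rw [hw0]
    exact ⟨⟨hz, mem_closedBall_self hd0⟩, hzE⟩
  obtain ⟨a₁, ha₁, hamax⟩ := hGB.exists_isGreatest hGBn
  have ha0 : 0 ≤ a₁ := ha₁.1.1
  have hsA : LCFw z e₁ b₁ ∈ A := hb₁.2
  have hsB : LCFw z e₁ a₁ ∈ B := ha₁.2
  have hab : a₁ < b₁ := by
    refine lt_of_le_of_ne ha₁.1.2 fun h => ?_
    rw [h] at hsB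
    exact hsB.2 hsA.1
  have hout : ∀ t, a₁ < t → t < b₁ → LCFw z e₁ t ∉ K.T := by
    intro t h1 h2 hT
    have ht0 : 0 ≤ t := ha0.trans h1.le
    have hball : LCFw z e₁ t ∈ closedBall z d := by
      rw [mem_closedBall, dist_eq_norm, LCFw_norm z e₁ ht0]
      have : t ≤ 1 := h2.le.trans hb1
      nlinarith
    by_cases hE' : LCFw z e₁ t ∈ E
    · have := hbmin (show t ∈ Set.Icc (0 : ℝ) 1 ∩ LCFw z e₁ ⁻¹' A from
        ⟨⟨ht0, h2.le.trans hb1⟩, ⟨hE', hball⟩⟩)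
      linarith
    · have := hamax (show t ∈ Set.Icc (0 : ℝ) b₁ ∩ LCFw z e₁ ⁻¹' B from
        ⟨⟨ht0, h2.le⟩, ⟨⟨hT, hball⟩, hE'⟩⟩)
      linarith
  -- the open segment
  have hmid : (a₁ + b₁) / 2 ∈ Set.Ioo a₁ b₁ := ⟨by linarith, by linarith⟩
  have hS := hCC K (LCFw z e₁ '' Set.Ioo a₁ b₁) (isPreconnected_Ioo.image _ hwc.continuousOn)
    ⟨_, (a₁ + b₁) / 2, hmid, rfl⟩ (by
      rintro p ⟨t, ht, rfl⟩
      exact hout t ht.1 ht.2)
  have hclos : ∀ t ∈ Set.Icc a₁ b₁, LCFw z e₁ t ∈ closure (LCFw z e₁ '' Set.Ioo a₁ b₁) := by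
    intro t ht
    rw [← closure_Ioo hab.ne] at ht
    exact image_closure_subset_closure_image hwc ⟨t, ht, rfl⟩
  rcases hS with ⟨i, hi⟩ | hout2
  · have hcb : ∀ t ∈ Set.Icc a₁ b₁, ‖LCFw z e₁ t - K.c i‖ ≤ K.r i := by
      intro t ht
      have h1 := closure_mono hi (hclos t ht)
      have h2 := closure_ball_subset_closedBall h1
      rwa [mem_closedBall, dist_eq_norm] at h2
    have h1 : ‖LCFw z e₁ a₁ - K.c i‖ = K.r i :=
      le_antisymm (hcb a₁ ⟨le_rfl, hab.le⟩) ((hT1 _ (hBT hsB)).2 i)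
    have h2 : ‖LCFw z e₁ b₁ - K.c i‖ = K.r i :=
      le_antisymm (hcb b₁ ⟨hab.le, le_rfl⟩) ((hT1 _ (hAT hsA)).2 i)
    obtain ⟨J, hJ, hsJ, heJ, hJw⟩ := hARC (K.c i) (K.r i) _ _ (K.rpos i) h1 h2
    have hJAB : J ⊆ A ∪ B := by
      intro w hw
      obtain ⟨h3, h4⟩ := hJw w hw
      have hwT : w ∈ K.T := hsph i (by rw [mem_sphere, dist_eq_norm]; exact h3)
      have hwb : w ∈ closedBall z d := by
        rw [mem_closedBall, dist_eq_norm]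
        rw [LCFw_mid, LCFw_sub z e₁ hab.le] at h4
        have h5 := LCFw_norm z e₁ (t := (a₁ + b₁) / 2) (by linarith)
        have h6 : ‖w - z‖ ≤ ‖w - LCFw z e₁ ((a₁ + b₁) / 2)‖ + ‖LCFw z e₁ ((a₁ + b₁) / 2) - z‖ := by
          have := norm_add_le (w - LCFw z e₁ ((a₁ + b₁) / 2)) (LCFw z e₁ ((a₁ + b₁) / 2) - z)
          rwa [sub_add_sub_cancel] at this
        rw [h5] at h6
        have h7 : b₁ * d ≤ d := by nlinarith
        have h8 : (b₁ - a₁) * ‖e₁ - z‖ / 2 + (a₁ + b₁) / 2 * ‖e₁ - z‖ = b₁ * d := by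
          rw [hd]
          ring
        linarith
      by_cases hwE : w ∈ E
      · exact Or.inl ⟨hwE, hwb⟩
      · exact Or.inr ⟨⟨hwT, hwb⟩, hwE⟩
    obtain ⟨w, -, hwA, hwB⟩ := isPreconnected_closed_iff.1 hJ A B hAc hBc hJAB
      ⟨_, heJ, hsA⟩ ⟨_, hsJ, hsB⟩
    exact hwB.2 hwA.1
  · have h1 := hout2 _ ⟨(a₁ + b₁) / 2, hmid, rfl⟩
    have h2 : ‖LCFw z e₁ a₁ - K.c₀‖ ≤ K.r₀ := (hT1 _ (hBT hsB)).1
    have h3 : ‖LCFw z e₁ b₁ - K.c₀‖ ≤ K.r₀ := (hT1 _ (hAT hsA)).1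
    rw [← LCFw_mid] at h1
    have h4 : (LCFw z e₁ a₁ + LCFw z e₁ b₁) / 2 - K.c₀ =
        (LCFw z e₁ a₁ - K.c₀) / 2 + (LCFw z e₁ b₁ - K.c₀) / 2 := by ring
    have h5 := norm_add_le ((LCFw z e₁ a₁ - K.c₀) / 2) ((LCFw z e₁ b₁ - K.c₀) / 2)
    rw [← h4, norm_div, norm_div] at h5
    have h6 : ‖(2 : ℂ)‖ = 2 := by simp
    rw [h6] at h5
    linarith

end RCE
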