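import Pool.Agent.RCE.St

/-!
# RCE, module MC: image of a boundary circle under a Moebius map (helper26)
-/

set_option autoImplicit false

namespace RCE

open Metric

private theorem MC_ns (ζ D c : ℂ) (r : ℝ) :
    Complex.normSq (ζ * (starRingEnd ℂ) D + (r : ℂ) ^ 2 * (starRingEnd ℂ) c)
      - r ^ 2 * Complex.normSq (c * ζ + D)
      = (Complex.normSq ζ - r ^ 2) * (Complex.normSq D - r ^ 2 * Complex.normSq c) := by
  simp only [Complex.normSq_apply, pow_two, Complex.add_re, Complex.add_im, Complex.mul_re,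
    Complex.mul_im, Complex.conj_re, Complex.conj_im, Complex.ofReal_re, Complex.ofReal_im]
  ring

private theorem MC_alg (a b c d c₁ z w : ℂ) (r Δ : ℝ) (hdet : a * d - b * c = 1)
    (hΔ : Δ = Complex.normSq (d + c * c₁) - r ^ 2 * Complex.normSq c)
    (hw : w * (c * z + d) = a * z + b) :
    (w * Δ - ((starRingEnd ℂ) (d + c * c₁) * (b + c₁ * a) - (r : ℂ) ^ 2 * (starRingEnd ℂ) c * a))
      * (c * z + d) = (z - c₁) * (starRingEnd ℂ) (d + c * c₁) + (r : ℂ) ^ 2 * (starRingEnd ℂ) c := by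
  have h1 : (Δ : ℂ) = (d + c * c₁) * (starRingEnd ℂ) (d + c * c₁)
      - (r : ℂ) ^ 2 * (c * (starRingEnd ℂ) c) := by
    rw [Complex.mul_conj, Complex.mul_conj, hΔ]
    push_cast
    ring
  rw [h1]
  generalize (starRingEnd ℂ) (d + c * c₁) = E
  generalize (starRingEnd ℂ) c = F
  linear_combination ((d + c * c₁) * E - (r : ℂ) ^ 2 * (c * F)) * hw
    + ((z - c₁) * E + (r : ℂ) ^ 2 * F) * hdet

private theorem MC_key (a b c d c₁ z w : ℂ) (r Δ : ℝ) (hdet : a * d - b * c = 1)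
    (hΔ : Δ = Complex.normSq (d + c * c₁) - r ^ 2 * Complex.normSq c) (h0 : Δ ≠ 0)
    (hw : w * (c * z + d) = a * z + b) :
    (‖w - ((starRingEnd ℂ) (d + c * c₁) * (b + c₁ * a)
      - (r : ℂ) ^ 2 * (starRingEnd ℂ) c * a) / Δ‖ ^ 2 - (r / |Δ|) ^ 2)
      * (Δ * Complex.normSq (c * z + d)) = ‖z - c₁‖ ^ 2 - r ^ 2 := by
  have h1 := MC_alg a b c d c₁ z w r Δ hdet hΔ hw
  generalize hq : (starRingEnd ℂ) (d + c * c₁) * (b + c₁ * a)
      - (r : ℂ) ^ 2 * (starRingEnd ℂ) c * a = q at h1 ⊢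
  have h0' : (Δ : ℂ) ≠ 0 := Complex.ofReal_ne_zero.2 h0
  have h2 : w - q / Δ = (w * Δ - q) / Δ := by
    field_simp
  have h3 : Complex.normSq (w * Δ - q) * Complex.normSq (c * z + d)
      - r ^ 2 * Complex.normSq (c * z + d) = (Complex.normSq (z - c₁) - r ^ 2) * Δ := by
    rw [← Complex.normSq_mul, h1, hΔ, ← MC_ns]
    congr 3
    ring
  rw [← Complex.normSq_eq_norm_sq, ← Complex.normSq_eq_norm_sq, h2, Complex.normSq_div,
    Complex.normSq_ofReal, div_pow, sq_abs]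
  have h4 : (Complex.normSq (w * Δ - q) / (Δ * Δ) - r ^ 2 / Δ ^ 2)
      * (Δ * Complex.normSq (c * z + d))
      = (Complex.normSq (w * Δ - q) * Complex.normSq (c * z + d)
      - r ^ 2 * Complex.normSq (c * z + d)) / Δ := by
    field_simp
  rw [h4, h3]
  field_simp

private theorem MC_core (hTF : St_TF) (K : Cp) (g : Equiv.Perm K.T) (σ : ℂ → ℂ)
    (hσ : ∀ z, σ (σ z) = z) (hσn : ∀ z w, ‖σ z - σ w‖ = ‖z - w‖) (a b c d : ℂ)
    (hdet : a * d - b * c = 1)
    (hg : ∀ z : K.T, c * σ z + d ≠ 0 ∧ (g z : ℂ) = (a * σ z + b) / (c * σ z + d)) (i : ℕ) :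
    ∃ (p : ℂ) (ρ : ℝ), 0 < ρ ∧
  (∀ z : K.T, ‖(z : ℂ) - K.c i‖ = K.r i → ‖(g z : ℂ) - p‖ = ρ) ∧
  (∀ w : ℂ, ‖w - p‖ = ρ → ∃ z : K.T, ‖(z : ℂ) - K.c i‖ = K.r i ∧ (g z : ℂ) = w) ∧
  ((∀ z ∈ K.T, ρ ≤ ‖z - p‖) ∨ ∀ z ∈ K.T, ‖z - p‖ ≤ ρ) := by
  obtain ⟨_, hsph, _, hT1, _⟩ := hTF K
  obtain ⟨c₁, hc₁⟩ : ∃ c₁, c₁ = σ (K.c i) := ⟨_, rfl⟩
  have hr := K.rpos i
  obtain ⟨Δ, hΔ⟩ : ∃ Δ : ℝ, Δ = Complex.normSq (d + c * c₁) - K.r i ^ 2 * Complex.normSq c :=
    ⟨_, rfl⟩
  have hdist : ∀ z : ℂ, ‖σ z - c₁‖ = ‖z - K.c i‖ := fun z => by rw [hc₁]; exact hσn _ _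
  have hdist' : ∀ z : ℂ, ‖z - c₁‖ = ‖σ z - K.c i‖ := fun z => by
    rw [← hdist (σ z), hσ]
  have h0 : Δ ≠ 0 := by
    intro h
    rw [hΔ] at h
    by_cases hc : c = 0
    · rw [hc] at h hdet
      have hd : d ≠ 0 := by
        rintro rfl
        simp at hdet
      simp only [zero_mul, add_zero, map_zero, mul_zero, sub_zero] at h
      exact hd (Complex.normSq_eq_zero.1 h)
    · have hmem : σ (-d / c) ∈ K.T := by
        apply hsph i
        rw [mem_sphere_iff_norm, ← hdist']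
        have e1 : -d / c - c₁ = -(d + c * c₁) / c := by
          field_simp
          ring
        rw [e1, norm_div, norm_neg]
        have hc' : 0 < ‖c‖ := norm_pos_iff.2 hc
        rw [div_eq_iff hc'.ne']
        have h2 : ‖d + c * c₁‖ ^ 2 = (K.r i * ‖c‖) ^ 2 := by
          rw [Complex.normSq_eq_norm_sq, Complex.normSq_eq_norm_sq] at h
          rw [mul_pow]
          linarith
        exact (pow_left_inj₀ (norm_nonneg _) (by positivity) two_ne_zero).1 h2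
      have h2 := (hg ⟨_, hmem⟩).1
      apply h2
      show c * σ (σ (-d / c)) + d = 0
      rw [hσ]
      field_simp
      ring
  refine ⟨((starRingEnd ℂ) (d + c * c₁) * (b + c₁ * a)
      - (K.r i : ℂ) ^ 2 * (starRingEnd ℂ) c * a) / Δ, K.r i / |Δ|,
      div_pos hr (abs_pos.2 h0), ?_, ?_, ?_⟩
  · intro z hz
    obtain ⟨hz0, hgz⟩ := hg z
    have h1 := MC_key a b c d c₁ (σ z) (g z) (K.r i) Δ hdet hΔ h0
      (by rw [hgz, div_mul_cancel₀ _ hz0])
    rw [hdist, hz, sub_self] at h1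
    have hn : Complex.normSq (c * σ z + d) ≠ 0 := fun h => hz0 (Complex.normSq_eq_zero.1 h)
    have h2 := (mul_eq_zero.1 h1).resolve_right (mul_ne_zero h0 hn)
    exact (pow_left_inj₀ (norm_nonneg _) (by positivity) two_ne_zero).1 (sub_eq_zero.1 h2)
  · intro w hw
    have hne : a - c * w ≠ 0 := by
      intro h
      have ha : a = c * w := sub_eq_zero.1 h
      apply h0
      have h0' : (Δ : ℂ) ≠ 0 := Complex.ofReal_ne_zero.2 h0
      have h1 : (Δ : ℂ) = (d + c * c₁) * (starRingEnd ℂ) (d + c * c₁)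
          - (K.r i : ℂ) ^ 2 * (c * (starRingEnd ℂ) c) := by
        rw [Complex.mul_conj, Complex.mul_conj, hΔ]
        push_cast
        ring
      have h2 : (w - ((starRingEnd ℂ) (d + c * c₁) * (b + c₁ * a)
          - (K.r i : ℂ) ^ 2 * (starRingEnd ℂ) c * a) / Δ) * (c * Δ)
          = (starRingEnd ℂ) (d + c * c₁) := by
        have e1 : (w - ((starRingEnd ℂ) (d + c * c₁) * (b + c₁ * a)
          - (K.r i : ℂ) ^ 2 * (starRingEnd ℂ) c * a) / Δ) * (c * Δ)
          = w * c * Δ - ((starRingEnd ℂ) (d + c * c₁) * (b + c₁ * a)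
          - (K.r i : ℂ) ^ 2 * (starRingEnd ℂ) c * a) * c := by
          field_simp
        rw [e1, h1]
        generalize (starRingEnd ℂ) (d + c * c₁) = E
        generalize (starRingEnd ℂ) c = F
        rw [ha] at hdet ⊢
        linear_combination E * hdet
      have h3 := congrArg Complex.normSq h2
      rw [Complex.normSq_mul, Complex.normSq_mul, Complex.normSq_ofReal, Complex.normSq_conj,
        Complex.normSq_eq_norm_sq, hw, div_pow, sq_abs] at h3
      have h4 : K.r i ^ 2 / Δ ^ 2 * (Complex.normSq c * (Δ * Δ)) = K.r i ^ 2 * Complex.normSq c := by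
        field_simp
      rw [h4] at h3
      rw [hΔ, ← h3, sub_self]
    have hz1 : c * ((d * w - b) / (a - c * w)) + d = 1 / (a - c * w) := by
      rw [eq_div_iff hne, add_mul, mul_assoc, div_mul_cancel₀ _ hne]
      linear_combination hdet
    have hz2 : a * ((d * w - b) / (a - c * w)) + b = w / (a - c * w) := by
      rw [eq_div_iff hne, add_mul, mul_assoc, div_mul_cancel₀ _ hne]
      linear_combination w * hdet
    have hz0 : c * ((d * w - b) / (a - c * w)) + d ≠ 0 := by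
      rw [hz1]
      exact one_div_ne_zero hne
    have h1 := MC_key a b c d c₁ ((d * w - b) / (a - c * w)) w (K.r i) Δ hdet hΔ h0
      (by rw [hz1, hz2]; ring)
    rw [hw, sub_self, zero_mul] at h1
    have h2 : ‖(d * w - b) / (a - c * w) - c₁‖ = K.r i :=
      ((pow_left_inj₀ (norm_nonneg _) hr.le two_ne_zero).1 (sub_eq_zero.1 h1.symm))
    rw [hdist'] at h2
    have hmem : σ ((d * w - b) / (a - c * w)) ∈ K.T := by
      apply hsph i
      rw [mem_sphere_iff_norm]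
      exact h2
    refine ⟨⟨_, hmem⟩, h2, ?_⟩
    rw [(hg ⟨_, hmem⟩).2]
    show (a * σ (σ ((d * w - b) / (a - c * w))) + b) / (c * σ (σ ((d * w - b) / (a - c * w))) + d) = w
    rw [hσ, hz1, hz2, div_div_div_cancel_right₀ hne, div_one]
  · have hall : ∀ w ∈ K.T, ∃ s : ℝ, 0 < s ∧ ∃ t : ℝ, 0 ≤ t ∧
        (‖w - ((starRingEnd ℂ) (d + c * c₁) * (b + c₁ * a)
      - (K.r i : ℂ) ^ 2 * (starRingEnd ℂ) c * a) / Δ‖ ^ 2 - (K.r i / |Δ|) ^ 2) * (Δ * s) = t := by
      intro w hw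
      obtain ⟨z, hz⟩ := g.surjective ⟨w, hw⟩
      obtain ⟨hz0, hgz⟩ := hg z
      rw [hz] at hgz
      have h1 := MC_key a b c d c₁ (σ z) w (K.r i) Δ hdet hΔ h0
        (by
          show w * (c * σ z + d) = a * σ z + b
          have : w = (a * σ z + b) / (c * σ z + d) := hgz
          rw [this, div_mul_cancel₀ _ hz0])
      refine ⟨_, Complex.normSq_pos.2 hz0, _, ?_, h1⟩
      rw [hdist]
      have h2 := (hT1 z z.2).2 i
      have h3 := pow_le_pow_left₀ hr.le h2 2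
      linarith
    rcases lt_or_gt_of_ne h0 with hneg | hpos
    · right
      intro w hw
      obtain ⟨s, hs, t, ht, h1⟩ := hall w hw
      by_contra hcon
      have h2 : (K.r i / |Δ|) ^ 2 < ‖w - ((starRingEnd ℂ) (d + c * c₁) * (b + c₁ * a)
        - (K.r i : ℂ) ^ 2 * (starRingEnd ℂ) c * a) / Δ‖ ^ 2 :=
        pow_lt_pow_left₀ (not_le.1 hcon) (by positivity) two_ne_zero
      have h3 : (‖w - ((starRingEnd ℂ) (d + c * c₁) * (b + c₁ * a)
        - (K.r i : ℂ) ^ 2 * (starRingEnd ℂ) c * a) / Δ‖ ^ 2 - (K.r i / |Δ|) ^ 2) * (Δ * s) < 0 :=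
        mul_neg_of_pos_of_neg (sub_pos.2 h2) (mul_neg_of_neg_of_pos hneg hs)
      linarith
    · left
      intro w hw
      obtain ⟨s, hs, t, ht, h1⟩ := hall w hw
      by_contra hcon
      have h2 : ‖w - ((starRingEnd ℂ) (d + c * c₁) * (b + c₁ * a)
        - (K.r i : ℂ) ^ 2 * (starRingEnd ℂ) c * a) / Δ‖ ^ 2 < (K.r i / |Δ|) ^ 2 :=
        pow_lt_pow_left₀ (not_le.1 hcon) (norm_nonneg _) two_ne_zero
      have h3 : (‖w - ((starRingEnd ℂ) (d + c * c₁) * (b + c₁ * a)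
        - (K.r i : ℂ) ^ 2 * (starRingEnd ℂ) c * a) / Δ‖ ^ 2 - (K.r i / |Δ|) ^ 2) * (Δ * s) < 0 :=
        mul_neg_of_neg_of_pos (sub_neg.2 h2) (mul_pos hpos hs)
      linarith

theorem thm_MC (hTF : St_TF) : St_MC := by
  intro K g hg i
  obtain ⟨a, b, c, d, hdet, h | h⟩ := hg
  · exact MC_core hTF K g (fun z => z) (fun _ => rfl) (fun _ _ => rfl) a b c d hdet h i
  · refine MC_core hTF K g (starRingEnd ℂ) (fun z => Complex.conj_conj z) (fun z w => ?_)
      a b c d hdet h i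
    rw [← map_sub, Complex.norm_conj]

end RCE
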