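import Pool.Agent.RCE.St

/-!
# RCE MI: Moebius invariance of the distance seen from a viewpoint
-/

set_option autoImplicit false

namespace RCE

/-- the formula for the distance of the images -/
theorem mi_dist {a b c d p q : ℂ} (h1 : a * d - b * c = 1) (hp : c * p + d ≠ 0) (hq : c * q + d ≠ 0) :
    ‖(a * p + b) / (c * p + d) - (a * q + b) / (c * q + d)‖ = ‖p - q‖ / (‖c * p + d‖ * ‖c * q + d‖) := by
  have h2 : (a * p + b) / (c * p + d) - (a * q + b) / (c * q + d) =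
      (p - q) / ((c * p + d) * (c * q + d)) := by
    rw [div_sub_div _ _ hp hq]
    congr 1
    linear_combination (p - q) * h1
  rw [h2, norm_div, norm_mul]

/-- the key identity -/
theorem mi_key (e w c : ℂ) (h : ℝ) :
    Complex.normSq ((starRingEnd ℂ) e * w - (starRingEnd ℂ) c * (h : ℂ) ^ 2) + h ^ 2 * Complex.normSq (c * w + e) =
      (Complex.normSq e + Complex.normSq c * h ^ 2) * (Complex.normSq w + h ^ 2) := by
  rw [← Complex.ofReal_pow]
  simp only [Complex.normSq_apply, Complex.add_re, Complex.add_im, Complex.sub_re, Complex.sub_im,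
    Complex.mul_re, Complex.mul_im, Complex.conj_re, Complex.conj_im, Complex.ofReal_re, Complex.ofReal_im]
  ring

/-- the new viewpoint -/
theorem mi_view {a b c d : ℂ} (h1 : a * d - b * c = 1) (u : ℂ) (h : ℝ) (hh : 0 < h) :
    ∃ (u' : ℂ) (J : ℝ), 0 < J ∧ ∀ p : ℂ, c * p + d ≠ 0 →
      ‖(a * p + b) / (c * p + d) - u'‖ ^ 2 + (h / J) ^ 2 = (‖p - u‖ ^ 2 + h ^ 2) / (J * ‖c * p + d‖ ^ 2) := by
  have hJ : 0 < Complex.normSq (c * u + d) + Complex.normSq c * h ^ 2 := by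
    rcases eq_or_ne c 0 with hc | hc
    · have hd : d ≠ 0 := by
        rintro rfl
        rw [hc] at h1
        simp at h1
      rw [hc]
      simpa using Complex.normSq_pos.2 hd
    · have h2 := Complex.normSq_pos.2 hc
      have h3 := Complex.normSq_nonneg (c * u + d)
      positivity
  set J : ℝ := Complex.normSq (c * u + d) + Complex.normSq c * h ^ 2 with hJd
  have hJc : (J : ℂ) = (c * u + d) * (starRingEnd ℂ) (c * u + d) + c * (starRingEnd ℂ) c * (h : ℂ) ^ 2 := by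
    rw [Complex.mul_conj, Complex.mul_conj, hJd]
    push_cast
    ring
  refine ⟨((a * u + b) * (starRingEnd ℂ) (c * u + d) + a * (starRingEnd ℂ) c * (h : ℂ) ^ 2) / J, J, hJ, ?_⟩
  intro p hp
  have hJ0 : (J : ℂ) ≠ 0 := by exact_mod_cast hJ.ne'
  have h2 : (a * p + b) / (c * p + d) -
      ((a * u + b) * (starRingEnd ℂ) (c * u + d) + a * (starRingEnd ℂ) c * (h : ℂ) ^ 2) / J =
      ((starRingEnd ℂ) (c * u + d) * (p - u) - (starRingEnd ℂ) c * (h : ℂ) ^ 2) / ((c * p + d) * J) := by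
    rw [div_sub_div _ _ hp hJ0]
    congr 1
    rw [hJc]
    linear_combination ((starRingEnd ℂ) (c * u + d) * (p - u) - (starRingEnd ℂ) c * (h : ℂ) ^ 2) * h1
  rw [h2]
  have h3 := mi_key (c * u + d) (p - u) c h
  rw [show c * (p - u) + (c * u + d) = c * p + d by ring] at h3
  rw [← hJd] at h3
  rw [← Complex.normSq_eq_norm_sq, ← Complex.normSq_eq_norm_sq, ← Complex.normSq_eq_norm_sq, map_div₀, map_mul,
    Complex.normSq_ofReal]
  have h4 : Complex.normSq (c * p + d) ≠ 0 := (Complex.normSq_pos.2 hp).ne'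
  have h5 := hJ.ne'
  field_simp
  linear_combination h3

/-- the invariance for one Moebius map -/
theorem mi_dd {a b c d : ℂ} (h1 : a * d - b * c = 1) (u : ℂ) (h : ℝ) (hh : 0 < h) :
    ∃ (u' : ℂ) (h' : ℝ), 0 < h' ∧ ∀ p q : ℂ, c * p + d ≠ 0 → c * q + d ≠ 0 →
      dd u' h' ((a * p + b) / (c * p + d)) ((a * q + b) / (c * q + d)) = dd u h p q := by
  obtain ⟨u', J, hJ, hv⟩ := mi_view h1 u h hh
  refine ⟨u', h / J, div_pos hh hJ, fun p q hp hq => ?_⟩
  unfold dd
  rw [hv p hp, hv q hq, mi_dist h1 hp hq]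
  have hp' : 0 < ‖c * p + d‖ := norm_pos_iff.2 hp
  have hq' : 0 < ‖c * q + d‖ := norm_pos_iff.2 hq
  have hP : 0 < √(‖p - u‖ ^ 2 + h ^ 2) := Real.sqrt_pos.2 (by positivity)
  have hQ : 0 < √(‖q - u‖ ^ 2 + h ^ 2) := Real.sqrt_pos.2 (by positivity)
  have hs : 0 < √J := Real.sqrt_pos.2 hJ
  have hs2 : √J * √J = J := Real.mul_self_sqrt hJ.le
  rw [Real.sqrt_div (by positivity), Real.sqrt_div (by positivity), Real.sqrt_mul hJ.le, Real.sqrt_mul hJ.le,
    Real.sqrt_sq hp'.le, Real.sqrt_sq hq'.le]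
  generalize ‖c * p + d‖ = α at *
  generalize ‖c * q + d‖ = β at *
  generalize √(‖p - u‖ ^ 2 + h ^ 2) = P at *
  generalize √(‖q - u‖ ^ 2 + h ^ 2) = Q at *
  generalize ‖p - q‖ = x at *
  generalize √J = s at *
  rw [← hs2]
  field_simp

theorem mi_conj (u : ℂ) (h : ℝ) (p q : ℂ) :
    dd ((starRingEnd ℂ) u) h ((starRingEnd ℂ) p) ((starRingEnd ℂ) q) = dd u h p q := by
  unfold dd
  rw [← map_sub, ← map_sub, ← map_sub, Complex.norm_conj, Complex.norm_conj, Complex.norm_conj]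

theorem thm_MI : St_MI := by
  intro T g hg u h hh
  obtain ⟨a, b, c, d, h1, hm | hm⟩ := hg
  · obtain ⟨u', h', h2, h3⟩ := mi_dd h1 u h hh
    refine ⟨u', h', h2, fun p q => ?_⟩
    rw [(hm p).2, (hm q).2]
    exact h3 p q (hm p).1 (hm q).1
  · obtain ⟨u', h', h2, h3⟩ := mi_dd h1 ((starRingEnd ℂ) u) h hh
    refine ⟨u', h', h2, fun p q => ?_⟩
    rw [(hm p).2, (hm q).2, h3 _ _ (hm p).1 (hm q).1, mi_conj]

end RCE
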