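import Pool.Agent.RCE.St

/-!
# RCE, module MON: monotonicity of the greatest number of separated points
-/

set_option autoImplicit false

namespace RCE

open Metric

theorem thm_MON (hNNB : St_NNB) : St_MON := by
  intro E E' s s' hE' hsub hs hss
  obtain ⟨F, hF, hsep, hc, _⟩ := (hNNB E s' (hE'.subset hsub) (hs.trans_le hss)).2
  rw [← hc]
  exact (hNNB E' s hE' hs).1 F (hF.trans hsub) (fun p hp q hq hpq => hss.trans (hsep p hp q hq hpq))

end RCE
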