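import Pool.Agent.RCE.St

/-!
# RCE: move a configuration to a given place and scale

Helper2, for MP_d2bd1a_an (statement of helper80, `RCE.St_MOV`).
-/

set_option autoImplicit false

namespace RCE

open Metric

/-- two far points look close -/
theorem MOV_far {u q q' : ℂ} {h R κ ε : ℝ} (hh : 0 < h) (hR : 0 < R)
    (hq : R / 4 ≤ ‖q - u‖) (hq' : R / 4 ≤ ‖q' - u‖) (hhR : h ≤ κ * (ε * R)) :
    dd u h q q' ≤ 8 * κ * ε := by
  unfold dd
  set a := √(‖q - u‖ ^ 2 + h ^ 2) with ha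
  set b := √(‖q' - u‖ ^ 2 + h ^ 2) with hb
  have ha1 : ‖q - u‖ ≤ a := by
    rw [ha]
    exact Real.le_sqrt_of_sq_le (by nlinarith [sq_nonneg h])
  have hb1 : ‖q' - u‖ ≤ b := by
    rw [hb]
    exact Real.le_sqrt_of_sq_le (by nlinarith [sq_nonneg h])
  have ha2 : R / 4 ≤ a := le_trans hq ha1
  have hb2 : R / 4 ≤ b := le_trans hq' hb1
  have ha0 : 0 < a := lt_of_lt_of_le (by positivity) ha2
  have hb0 : 0 < b := lt_of_lt_of_le (by positivity) hb2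
  have h1 : ‖q - q'‖ ≤ a + b := by
    have h2 : q - q' = (q - u) - (q' - u) := by ring
    rw [h2]
    exact le_trans (norm_sub_le _ _) (add_le_add ha1 hb1)
  have h3 : R * (a + b) ≤ 8 * (a * b) := by nlinarith
  rw [div_le_iff₀ (mul_pos ha0 hb0)]
  have h4 : h * ‖q - q'‖ ≤ h * (a + b) := mul_le_mul_of_nonneg_left h1 hh.le
  have h5 : h * (a + b) ≤ κ * (ε * R) * (a + b) := mul_le_mul_of_nonneg_right hhR (by positivity)
  have hκε : 0 < κ * ε := by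
    have h6 : 0 < κ * (ε * R) := lt_of_lt_of_le hh hhR
    have h7 : κ * (ε * R) = κ * ε * R := by ring
    rw [h7] at h6
    exact (mul_pos_iff_of_pos_right hR).1 h6
  have h8 : κ * ε * (R * (a + b)) ≤ κ * ε * (8 * (a * b)) := mul_le_mul_of_nonneg_left h3 hκε.le
  nlinarith

/-- [MOV] -/
theorem thm_MOV (hFB : St_FB) (hFC : St_FC) (hSPH : St_SPH) (hDT : St_DT) : St_MOV := by
  classical
  intro K Γ hG b hb
  obtain ⟨κ₁, hκ₁, hFB'⟩ := hFB K Γ hG b hb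
  obtain ⟨κ, hκ, hFC'⟩ := hFC K κ₁ hκ₁
  refine ⟨κ, hκ, ?_⟩
  intro u h s b' F x R ε hbb' hs hx hR hRr hε h4 h8s h8b hCfg
  obtain ⟨hh, hFT, hSep, p₁, hp₁, p₂, hp₂, p₃, hp₃, h12, h23, h13⟩ := hCfg
  have hFT' : ∀ p ∈ F, p ∈ K.T := fun p hp => hFT hp
  have hκε : 0 < κ * ε := mul_pos (lt_of_lt_of_le one_pos hκ) hε
  have hε1 : ε ≤ 1 := by nlinarith
  have hσ : 0 < ε * R := mul_pos hε hR
  have hσr : ε * R ≤ K.r₀ := by nlinarith
  obtain ⟨γ, -, u', h', hh', hγ, hγ2⟩ := hFB' u h ⟨p₁, hFT' _ hp₁⟩ ⟨p₂, hFT' _ hp₂⟩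
    ⟨p₃, hFT' _ hp₃⟩ hh (le_trans hbb' h12) (le_trans hbb' h23) (le_trans hbb' h13) ⟨x, hx⟩
    (ε * R) hσ hσr
  obtain ⟨hc1, hc2, hc3⟩ := hFC' x (ε * R) u' h' hx hσ hσr hh'
    (fun p hp q hq => hγ2 ⟨p, hp⟩ ⟨q, hq⟩)
  obtain ⟨hD1, hD2⟩ := hDT u' h' hh'
  obtain ⟨hE1, hE2⟩ := hDT u h hh
  -- a point at distance `R / 2`
  obtain ⟨ω, hω, hωx⟩ := hSPH K x (R / 2) hx (by positivity) (by linarith [K.r₀pos])
  -- far points
  have hfar : ∀ q : ℂ, R / 2 ≤ ‖q - x‖ → R / 4 ≤ ‖q - u'‖ := by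
    intro q hq
    have h1 : q - x = (q - u') + (u' - x) := by ring
    have h2 : ‖q - x‖ ≤ ‖q - u'‖ + ‖u' - x‖ := by
      rw [h1]
      exact norm_add_le _ _
    have h3 : κ * (ε * R) ≤ R / 4 := by nlinarith
    linarith
  have hfar2 : ∀ q q' : ℂ, R / 2 ≤ ‖q - x‖ → R / 2 ≤ ‖q' - x‖ → dd u' h' q q' ≤ 8 * κ * ε :=
    fun q q' hq hq' => MOV_far hh' hR (hfar q hq) (hfar q' hq') hc2
  -- the map
  let φ : ℂ → ℂ := fun p => if hp : p ∈ K.T then (γ ⟨p, hp⟩ : ℂ) else p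
  have hφT : ∀ p ∈ F, φ p ∈ K.T := by
    intro p hp
    have e : φ p = (γ ⟨p, hFT' p hp⟩ : ℂ) := dif_pos (hFT' p hp)
    rw [e]
    exact (γ ⟨p, hFT' p hp⟩).2
  have hφd : ∀ p ∈ F, ∀ q ∈ F, dd u' h' (φ p) (φ q) = dd u h p q := by
    intro p hp q hq
    have e1 : φ p = (γ ⟨p, hFT' p hp⟩ : ℂ) := dif_pos (hFT' p hp)
    have e2 : φ q = (γ ⟨q, hFT' q hq⟩ : ℂ) := dif_pos (hFT' q hq)
    rw [e1, e2]
    exact hγ ⟨p, hFT' p hp⟩ ⟨q, hFT' q hq⟩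
  let ψ : ℂ → ℂ := fun q => if R / 2 ≤ ‖q - x‖ then ω else q
  have hψT : ∀ q ∈ K.T, ψ q ∈ K.T ∧ ‖ψ q - x‖ < R := by
    intro q hq
    by_cases hf : R / 2 ≤ ‖q - x‖
    · have e : ψ q = ω := if_pos hf
      rw [e]
      exact ⟨hω, by rw [hωx]; linarith⟩
    · have e : ψ q = q := if_neg hf
      rw [e]
      push Not at hf
      exact ⟨hq, by linarith⟩
  have hωf : R / 2 ≤ ‖ω - x‖ := hωx.ge
  -- the estimate
  have key : ∀ p ∈ F, ∀ q ∈ F, p ≠ q →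
      dd u h p q - 8 * κ * ε ≤ dd u' h' (ψ (φ p)) (ψ (φ q)) := by
    intro p hp q hq hpq
    have h0 := hφd p hp q hq
    by_cases hfp : R / 2 ≤ ‖φ p - x‖
    · by_cases hfq : R / 2 ≤ ‖φ q - x‖
      · exfalso
        have h1 := hSep p hp q hq hpq
        have h2 := hfar2 _ _ hfp hfq
        linarith
      · have e1 : ψ (φ p) = ω := if_pos hfp
        have e2 : ψ (φ q) = φ q := if_neg hfq
        rw [e1, e2]
        have h1 := hD2 (φ p) ω (φ q)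
        have h2 := hfar2 _ _ hfp hωf
        linarith
    · by_cases hfq : R / 2 ≤ ‖φ q - x‖
      · have e1 : ψ (φ p) = φ p := if_neg hfp
        have e2 : ψ (φ q) = ω := if_pos hfq
        rw [e1, e2]
        have h1 := hD2 (φ p) ω (φ q)
        have h2 := hfar2 _ _ hωf hfq
        linarith
      · have e1 : ψ (φ p) = φ p := if_neg hfp
        have e2 : ψ (φ q) = φ q := if_neg hfq
        rw [e1, e2]
        linarith
  have hne : ∀ p ∈ F, ∀ q ∈ F, b' ≤ dd u h p q → p ≠ q := by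
    intro p _ q _ hd
    have h1 : 0 < dd u h p q := by linarith
    exact ((hE1 p q).2.2.2).1 h1
  refine ⟨u', h', F.image fun p => ψ (φ p), ?_, ?_, ⟨hh', ?_, ?_, ?_⟩, hc1, hc2, hc3⟩
  · apply Finset.card_image_of_injOn
    intro p hp q hq hpq
    by_contra hne'
    have h1 := key p hp q hq hne'
    have h2 := hSep p hp q hq hne'
    have h3 : 0 < dd u' h' (ψ (φ p)) (ψ (φ q)) := by linarith
    exact ((hD1 _ _).2.2.2).1 h3 hpq
  · intro q hq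
    obtain ⟨p, hp, rfl⟩ := Finset.mem_image.1 hq
    exact (hψT _ (hφT p hp)).2
  · intro q hq
    obtain ⟨p, hp, rfl⟩ := Finset.mem_image.1 (Finset.mem_coe.1 hq)
    exact (hψT _ (hφT p hp)).1
  · intro q hq q' hq' hqq
    obtain ⟨p, hp, rfl⟩ := Finset.mem_image.1 hq
    obtain ⟨p', hp', rfl⟩ := Finset.mem_image.1 hq'
    have hpp : p ≠ p' := by
      rintro rfl
      exact hqq rfl
    have h1 := key p hp p' hp' hpp
    have h2 := hSep p hp p' hp' hpp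
    linarith
  · refine ⟨_, Finset.mem_image_of_mem _ hp₁, _, Finset.mem_image_of_mem _ hp₂, _,
      Finset.mem_image_of_mem _ hp₃, ?_, ?_, ?_⟩
    · have h1 := key p₁ hp₁ p₂ hp₂ (hne p₁ hp₁ p₂ hp₂ h12)
      linarith
    · have h1 := key p₂ hp₂ p₃ hp₃ (hne p₂ hp₂ p₃ hp₃ h23)
      linarith
    · have h1 := key p₁ hp₁ p₃ hp₃ (hne p₁ hp₁ p₃ hp₃ h13)
      linarith

end RCE
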