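import Pool.Agent.RCE.St

/-!
# RCE: NF

No common fixed point, uniformly.
-/

set_option autoImplicit false

namespace RCE

open Metric

open Classical in
/-- [NF] no common fixed point, uniformly -/
theorem thm_NF (hTF : St_TF) (hBL : St_BL) : St_NF := by
  intro K Γ hG
  have hcomp : IsCompact K.T := (hTF K).1
  haveI : CompactSpace K.T := isCompact_iff_compactSpace.mp hcomp
  have main : ∃ η : ℝ, 0 < η ∧ ∃ B : Finset (Equiv.Perm K.T),
      (∀ g ∈ B, g ∈ Γ) ∧ ∀ p ∈ (Set.univ : Set K.T), ∃ g ∈ B, η ≤ ‖(g p : ℂ) - p‖ := by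
    refine IsCompact.induction_on (p := fun S : Set K.T => ∃ η : ℝ, 0 < η ∧
      ∃ B : Finset (Equiv.Perm K.T),
      (∀ g ∈ B, g ∈ Γ) ∧ ∀ p ∈ S, ∃ g ∈ B, η ≤ ‖(g p : ℂ) - p‖) isCompact_univ ?_ ?_ ?_ ?_
    · exact ⟨1, one_pos, ∅, by simp, by simp⟩
    · rintro S S' hSS ⟨η, hη, B, hB, h⟩
      exact ⟨η, hη, B, hB, fun p hp => h p (hSS hp)⟩
    · rintro S S' ⟨η, hη, B, hB, h⟩ ⟨η', hη', B', hB', h'⟩
      refine ⟨min η η', lt_min hη hη', B ∪ B', ?_, ?_⟩
      · intro g hg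
        rcases Finset.mem_union.mp hg with hg | hg
        · exact hB g hg
        · exact hB' g hg
      · rintro p (hp | hp)
        · obtain ⟨g, hg, hgp⟩ := h p hp
          exact ⟨g, Finset.mem_union_left _ hg, (min_le_left _ _).trans hgp⟩
        · obtain ⟨g, hg, hgp⟩ := h' p hp
          exact ⟨g, Finset.mem_union_right _ hg, (min_le_right _ _).trans hgp⟩
    · intro p _
      obtain ⟨g, hg, hgp⟩ := hG.nfx p
      obtain ⟨L, hL, hLip⟩ := hBL K g (hG.mob g hg)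
      have hδ : 0 < ‖(g p : ℂ) - p‖ := by
        rw [norm_pos_iff, sub_ne_zero]
        exact fun h => hgp (Subtype.ext h)
      have hL0 : 0 < 2 * (L + 1) := by linarith
      refine ⟨ball p (‖(g p : ℂ) - p‖ / (2 * (L + 1))), ?_, ‖(g p : ℂ) - p‖ / 2, by positivity,
        {g}, ?_, ?_⟩
      · exact mem_nhdsWithin_of_mem_nhds (ball_mem_nhds p (by positivity))
      · intro g' hg'
        rw [Finset.mem_singleton.mp hg']; exact hg
      · intro q hq
        refine ⟨g, Finset.mem_singleton_self g, ?_⟩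
        rw [mem_ball, Subtype.dist_eq, dist_eq_norm, lt_div_iff₀ hL0] at hq
        have h1 := (hLip p q).2
        have h2 : ‖(g p : ℂ) - p‖ ≤ ‖(g p : ℂ) - g q‖ + ‖(g q : ℂ) - q‖ + ‖(q : ℂ) - p‖ := by
          have e : (g p : ℂ) - p = ((g p : ℂ) - g q) + ((g q : ℂ) - q) + ((q : ℂ) - p) := by ring
          calc ‖(g p : ℂ) - p‖ = ‖((g p : ℂ) - g q) + ((g q : ℂ) - q) + ((q : ℂ) - p)‖ := by
                rw [← e]
            _ ≤ _ := norm_add₃_le
        rw [norm_sub_rev (p : ℂ) q] at h1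
        nlinarith
  obtain ⟨η, hη, B, hB, h⟩ := main
  exact ⟨η, hη, B, hB, fun p => h p (Set.mem_univ p)⟩

end RCE
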