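import Pool.Agent.RCE.St

/-!
# RCE, module NNB: greatest separated sets
-/

set_option autoImplicit false

namespace RCE

open Metric

theorem thm_NNB (hPK : St_PK) : St_NNB := by
  classical
  intro E s hE hs
  obtain ⟨R, hR⟩ := (Metric.isBounded_iff_subset_closedBall (0 : ℂ)).1 hE
  obtain ⟨N, hN⟩ := hPK (R / s)
  have hcard : ∀ F : Finset ℂ, (F : Set ℂ) ⊆ E → Sep s F → F.card ≤ N := by
    intro F hF hsep
    apply hN 0 s F hs hsep
    intro q hq
    have h1 := hR (hF hq)
    rw [mem_closedBall, dist_eq_norm] at h1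
    rw [div_mul_cancel₀ _ hs.ne']
    exact h1
  have hbdd : BddAbove {n : ℕ | ∃ F : Finset ℂ, (F : Set ℂ) ⊆ E ∧ Sep s F ∧ F.card = n} := by
    refine ⟨N, ?_⟩
    rintro n ⟨F, hF, hsep, rfl⟩
    exact hcard F hF hsep
  have hne : {n : ℕ | ∃ F : Finset ℂ, (F : Set ℂ) ⊆ E ∧ Sep s F ∧ F.card = n}.Nonempty :=
    ⟨0, ∅, by simp, by intro p hp; simp at hp, by simp⟩
  have hle : ∀ F : Finset ℂ, (F : Set ℂ) ⊆ E → Sep s F → F.card ≤ NN E s := fun F hF hsep =>
    le_csSup hbdd ⟨F, hF, hsep, rfl⟩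
  refine ⟨hle, ?_⟩
  obtain ⟨F, hF, hsep, hc⟩ := Nat.sSup_mem hne hbdd
  refine ⟨F, hF, hsep, hc, ?_⟩
  intro p hp
  by_contra hcon
  push Not at hcon
  have hpF : p ∉ F := by
    intro hpF
    have := hcon p hpF
    simp at this
    linarith
  have h1 := hle (insert p F) (by
    intro q hq
    rw [Finset.coe_insert] at hq
    rcases hq with rfl | hq
    · exact hp
    · exact hF hq) (by
    intro a ha b hb hab
    rw [Finset.mem_insert] at ha hb
    rcases ha with rfl | ha
    · rcases hb with rfl | hb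
      · exact absurd rfl hab
      · exact hcon b hb
    · rcases hb with rfl | hb
      · rw [norm_sub_rev]
        exact hcon a ha
      · exact hsep a ha b hb hab)
  rw [Finset.card_insert_of_notMem hpF] at h1
  have h2 : F.card = NN E s := hc
  omega

end RCE
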