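import Pool.Agent.RCE.St

/-!
# RCE: frontier points with good access (Baire)
-/

set_option autoImplicit false

namespace RCE

open Metric

private def NTBG (K : Cp) (E F : Set ℂ) (n : ℕ) : Set F :=
  {y | ∃ z ∈ K.T \ E, ‖z - y‖ < 1 / ((n : ℝ) + 1) ∧ ‖z - y‖ / 2 < infDist z E}

private theorem NTB_open (K : Cp) (E F : Set ℂ) (n : ℕ) : IsOpen (NTBG K E F n) := by
  have h : NTBG K E F n = ⋃ z ∈ K.T \ E,
      {y : F | ‖z - (y : ℂ)‖ < 1 / ((n : ℝ) + 1) ∧ ‖z - (y : ℂ)‖ / 2 < infDist z E} := by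
    ext y
    simp only [NTBG, Set.mem_ofPred_eq, Set.mem_iUnion, exists_prop]
  rw [h]
  refine isOpen_biUnion fun z _ => ?_
  have hc : Continuous fun y : F => ‖z - (y : ℂ)‖ :=
    (continuous_const.sub continuous_subtype_val).norm
  exact (isOpen_lt hc continuous_const).inter (isOpen_lt (hc.div_const 2) continuous_const)

private theorem NTB_dense (hLCF : St_LCF) (K : Cp) (E : Set ℂ) (hE : IsCompact E) (hET : E ⊆ K.T)
    (n : ℕ) : Dense (NTBG K E (E ∩ closure (K.T \ E)) n) := by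
  rw [Metric.dense_iff]
  intro y₁ r hr
  have hn : (0 : ℝ) < 1 / ((n : ℝ) + 1) := by positivity
  have hm : 0 < min r (1 / ((n : ℝ) + 1)) / 2 := by
    have := lt_min hr hn
    linarith
  obtain ⟨z, hz, hzd⟩ := Metric.mem_closure_iff.mp y₁.2.2 _ hm
  obtain ⟨e₁, he₁, hed⟩ := hE.exists_infDist_eq_dist ⟨y₁, y₁.2.1⟩ z
  obtain ⟨y, hyE, hyc, hyd⟩ := hLCF K E hE.isClosed hET z hz.1 hz.2 e₁ he₁
  have h1 : infDist z E ≤ dist z y₁ := infDist_le_dist_of_mem y₁.2.1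
  have h2 : ‖e₁ - z‖ = infDist z E := by
    rw [hed, dist_comm, dist_eq_norm]
  have h3 : 0 < ‖y - z‖ := by
    rw [norm_pos_iff, sub_ne_zero]
    rintro rfl
    exact hz.2 hyE
  have h4 : ‖z - y‖ = ‖y - z‖ := norm_sub_rev _ _
  have h5 : dist (y₁ : ℂ) z = dist z y₁ := dist_comm _ _
  have h6 : dist y (y₁ : ℂ) ≤ dist y z + dist z y₁ := dist_triangle _ _ _
  have h7 : dist y z = ‖y - z‖ := dist_eq_norm _ _
  have h8 := min_le_left r (1 / ((n : ℝ) + 1))
  have h9 := min_le_right r (1 / ((n : ℝ) + 1))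
  refine ⟨⟨y, hyE, hyc⟩, ?_, z, hz, ?_, ?_⟩
  · show dist y (y₁ : ℂ) < r
    linarith
  · show ‖z - y‖ < _
    linarith
  · show ‖z - y‖ / 2 < _
    linarith

/-- NTB: frontier points with good access -/
theorem thm_NTB (hLCF : St_LCF) : St_NTB := by
  intro K E hE hET y₀ hy₀ hcl η hη
  have hF : IsCompact (E ∩ closure (K.T \ E)) := hE.inter_right isClosed_closure
  have : CompactSpace (E ∩ closure (K.T \ E) : Set ℂ) := isCompact_iff_compactSpace.mp hF
  have hd := dense_iInter_of_isOpen_nat (NTB_open K E (E ∩ closure (K.T \ E)))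
    (NTB_dense hLCF K E hE hET)
  obtain ⟨y, hyb, hyG⟩ := Metric.dense_iff.mp hd ⟨y₀, hy₀, hcl⟩ η hη
  have hyd : dist (y : ℂ) y₀ < η := hyb
  refine ⟨y, y.2.1, by rwa [← dist_eq_norm], ?_⟩
  intro ρ hρ
  obtain ⟨n, hn⟩ := exists_nat_one_div_lt hρ
  obtain ⟨z, hz, h1, h2⟩ := Set.mem_iInter.mp hyG n
  refine ⟨z, hz.1, ?_, h1.trans hn, ?_⟩
  · rintro rfl
    exact hz.2 y.2.1
  · intro e he
    have h3 : infDist z E ≤ dist z e := infDist_le_dist_of_mem he
    have h4 : dist z e = ‖e - z‖ := by rw [dist_comm, dist_eq_norm]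
    linarith

end RCE
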