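import Pool.Agent.RCE.St

/-!
# RCE: almost affine maps of round group carpets are open (`thm_OPN`)
-/

set_option autoImplicit false

namespace RCE

open Metric

private theorem OPN_ne {K : Cp} {f : ℂ → ℂ} {x₀ p : ℂ} {A : ℂ →ₗ[ℝ] ℂ} {l M θ : ℝ} (hp : p ∈ K.T)
    (hne : p ≠ x₀) (hA : Dist A l M) (hθ : θ ≤ 1 / 8)
    (hN : Near K.T f x₀ (2 * ‖p - x₀‖) A (θ * l * (2 * ‖p - x₀‖))) : f p ≠ f x₀ := by
  intro heq
  have h0 : 0 < ‖p - x₀‖ := norm_pos_iff.2 (sub_ne_zero.2 hne)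
  have h1 := hN p hp (by linarith)
  rw [heq, sub_self, zero_sub, norm_neg] at h1
  have h2 := (hA.2 (p - x₀)).1
  have h3 : 0 < l * ‖p - x₀‖ := mul_pos hA.1 h0
  nlinarith

theorem thm_OPN (hKEY : St_KEY) (hWIN : St_WIN) (hNTB : St_NTB) (hTF : St_TF) : St_OPN := by
  intro K Γ hG
  have hT : IsCompact K.T := (hTF K).1
  choose εf θf hε hθ hθ8 hkey using fun M : ℝ => hKEY K Γ hG (max M 1) (le_max_right M 1)
  refine ⟨θf, hθ, ?_⟩
  intro V f hV hf hmaps haff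
  -- it is enough to find small balls
  suffices hmain : ∀ x₀ ∈ V, ∃ η : ℝ, 0 < η ∧ K.T ∩ ball (f x₀) η ⊆ f '' V by
    choose! η hη hsub using hmain
    refine ⟨⋃ x₀ ∈ V, ball (f x₀) (η x₀), isOpen_biUnion fun _ _ => isOpen_ball, ?_⟩
    apply Set.Subset.antisymm
    · rintro _ ⟨x, hx, rfl⟩
      exact ⟨hmaps hx, Set.mem_biUnion hx (mem_ball_self (hη x hx))⟩
    · rintro w ⟨hwT, hw⟩
      obtain ⟨x₀, hx₀, hw⟩ := Set.mem_iUnion₂.1 hw
      exact hsub x₀ hx₀ ⟨hwT, hw⟩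
  intro x₀ hx₀
  by_contra hno
  push Not at hno
  obtain ⟨O, hO, hVO⟩ := hV
  have hVT : V ⊆ K.T := hVO ▸ Set.inter_subset_left
  have hx₀O : x₀ ∈ O := (hVO ▸ hx₀ : x₀ ∈ K.T ∩ O).2
  obtain ⟨M₀, hM₀, R₀, hR₀, haff₀⟩ := haff x₀ hx₀
  obtain ⟨r₁, hr₁, hr₁O⟩ := Metric.isOpen_iff.1 hO x₀ hx₀O
  -- the radius
  obtain ⟨r, hr, hrR, hrO⟩ : ∃ r : ℝ, 0 < r ∧ 2 * r < R₀ ∧ closedBall x₀ r ⊆ O := by
    refine ⟨min (R₀ / 4) (r₁ / 2), lt_min (by positivity) (by positivity), ?_, ?_⟩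
    · have := min_le_left (R₀ / 4) (r₁ / 2)
      linarith
    · refine (closedBall_subset_ball ?_).trans hr₁O
      have := min_le_right (R₀ / 4) (r₁ / 2)
      linarith
  set V' : Set ℂ := K.T ∩ closedBall x₀ r with hV'
  have hV'V : V' ⊆ V := by
    rw [hVO]
    exact fun p hp => ⟨hp.1, hrO hp.2⟩
  have hV'c : IsCompact V' := hT.inter_right isClosed_closedBall
  have hx₀V' : x₀ ∈ V' := ⟨hVT hx₀, mem_closedBall_self hr.le⟩
  have hfV' : ContinuousOn f V' := hf.mono hV'V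
  have hEc : IsCompact (f '' V') := hV'c.image_of_continuousOn hfV'
  have hET : f '' V' ⊆ K.T := by
    rintro _ ⟨p, hp, rfl⟩
    exact hmaps (hV'V hp)
  have hcl : f x₀ ∈ closure (K.T \ f '' V') := by
    rw [Metric.mem_closure_iff]
    intro δ hδ
    obtain ⟨w, hw, hwn⟩ := Set.not_subset.1 (hno δ hδ)
    refine ⟨w, ⟨hw.1, fun hc => hwn (Set.image_mono hV'V hc)⟩, ?_⟩
    rw [dist_comm]
    exact hw.2
  -- the far part of the image
  obtain ⟨η, hη, hfar⟩ : ∃ η : ℝ, 0 < η ∧ ∀ p ∈ V', r / 2 ≤ ‖p - x₀‖ → η ≤ ‖f p - f x₀‖ := by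
    have hC : IsCompact (V' ∩ {p : ℂ | r / 2 ≤ ‖p - x₀‖}) :=
      hV'c.inter_right (isClosed_le continuous_const (by fun_prop))
    rcases (V' ∩ {p : ℂ | r / 2 ≤ ‖p - x₀‖}).eq_empty_or_nonempty with h | h
    · refine ⟨1, one_pos, fun p hp hp2 => ?_⟩
      exact absurd (show p ∈ V' ∩ {p : ℂ | r / 2 ≤ ‖p - x₀‖} from ⟨hp, hp2⟩)
        (by rw [h]; exact Set.notMem_empty p)
    · have hcont : ContinuousOn (fun p => ‖f p - f x₀‖) (V' ∩ {p : ℂ | r / 2 ≤ ‖p - x₀‖}) :=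
        ((hfV'.mono Set.inter_subset_left).sub continuousOn_const).norm
      obtain ⟨q, hq, hmin⟩ := hC.exists_isMinOn h hcont
      refine ⟨‖f q - f x₀‖, ?_, fun p hp hp2 => hmin ⟨hp, hp2⟩⟩
      have hq2 : r / 2 ≤ ‖q - x₀‖ := hq.2
      have hqne : q ≠ x₀ := by
        rintro rfl
        rw [sub_self, norm_zero] at hq2
        linarith
      have hqr : ‖q - x₀‖ ≤ r := by
        have := hq.1.2
        rwa [mem_closedBall, dist_eq_norm] at this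
      obtain ⟨A, l, hA, hN⟩ := haff₀ (2 * ‖q - x₀‖) (by linarith) (by linarith)
      exact norm_pos_iff.2 (sub_ne_zero.2 (OPN_ne hq.1.1 hqne hA (hθ8 M₀) hN))
  obtain ⟨y, hy, hyη, hyz⟩ := hNTB K (f '' V') hEc hET (f x₀) ⟨x₀, hx₀V', rfl⟩ hcl η hη
  obtain ⟨x, hxV', rfl⟩ := hy
  have hxr : ‖x - x₀‖ < r / 2 := by
    by_contra hc
    exact absurd hyη (not_lt.2 (hfar x hxV' (not_lt.1 hc)))
  have hxV : x ∈ V := hV'V hxV'
  obtain ⟨M, hM, R₀', hR₀', haffx⟩ := haff x hxV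
  have hmax : max M 1 = M := max_eq_left hM
  have hkM := hkey M
  rw [hmax] at hkM
  have hM0 : 0 < M := by linarith
  set R₁ : ℝ := min (R₀' / 2) (min (r / 2) K.r₀) with hR₁
  have hR₁0 : 0 < R₁ := lt_min (by positivity) (lt_min (by positivity) K.r₀pos)
  have hR₁a : R₁ ≤ R₀' / 2 := min_le_left _ _
  have hR₁b : R₁ ≤ r / 2 := (min_le_right _ _).trans (min_le_left _ _)
  have hR₁c : R₁ ≤ K.r₀ := (min_le_right _ _).trans (min_le_right _ _)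
  have hxO : x ∈ O := (hVO ▸ hxV : x ∈ K.T ∩ O).2
  have hcx : ContinuousWithinAt f K.T x := by
    have h1 : ContinuousWithinAt f (K.T ∩ O) x := hVO ▸ hf x hxV
    exact (continuousWithinAt_inter (hO.mem_nhds hxO)).1 h1
  obtain ⟨d₀, hd₀, hwin⟩ := hWIN K x f M (θf M) R₁ (hVT hxV) hM (hθ M).le (hθ8 M) hR₁0 hR₁c
    (fun R hR hR' => haffx R hR (by linarith)) hcx (εf M) (K.r₀ / (3 * M ^ 2)) (hε M)
    (div_pos K.r₀pos (by positivity))
  obtain ⟨z, hzT, hzne, hzd, hze⟩ := hyz d₀ hd₀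
  have hd : 0 < ‖z - f x‖ := norm_pos_iff.2 (sub_ne_zero.2 hzne)
  obtain ⟨R, l, A, hR, hRR₁, hA, hN, hlR, hw1, hw2⟩ := hwin ‖z - f x‖ hd hzd
  have hin : ∀ p ∈ K.T, ‖p - x‖ < R → p ∈ V' := by
    intro p hp hpR
    refine ⟨hp, ?_⟩
    rw [mem_closedBall, dist_eq_norm]
    have h1 : p - x₀ = (p - x) + (x - x₀) := by ring
    rw [h1]
    refine (norm_add_le _ _).trans ?_
    linarith
  refine hkM x R l A f z (hVT hxV) hzT hR (hRR₁.trans hR₁c) ?_ hA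
    (fun p hp hpR => hmaps (hV'V (hin p hp hpR))) hN hw1 hw2
    (fun p hp hpR => hze (f p) ⟨p, hin p hp hpR, rfl⟩)
  rw [le_div_iff₀ (by positivity)] at hlR
  linarith

end RCE
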