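import Pool.Agent.RCE.St

/-!
# RCE, module PK: packing
-/

set_option autoImplicit false

namespace RCE

open Metric

private theorem PK_abs {a k s : ℝ} (hs : 0 < s) (h : |a| ≤ k * s) : ⌊-(2 * k)⌋ ≤ ⌊2 * a / s⌋ ∧ ⌊2 * a / s⌋ ≤ ⌊2 * k⌋ := by
  have h1 := abs_le.1 h
  constructor
  · apply Int.floor_le_floor
    rw [le_div_iff₀ hs]
    nlinarith [h1.1]
  · apply Int.floor_le_floor
    rw [div_le_iff₀ hs]
    nlinarith [h1.2]

private theorem PK_close {a b s : ℝ} (hs : 0 < s) (h : ⌊2 * a / s⌋ = ⌊2 * b / s⌋) : |a - b| < s / 2 := by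
  have h1 := Int.abs_sub_lt_one_of_floor_eq_floor h
  have h2 : 2 * a / s - 2 * b / s = 2 * (a - b) / s := by ring
  rw [h2, abs_div, abs_mul, abs_of_pos hs, abs_two, div_lt_one hs] at h1
  linarith

theorem thm_PK : St_PK := by
  intro k
  refine ⟨(Finset.Icc ⌊-(2 * k)⌋ ⌊2 * k⌋ ×ˢ Finset.Icc ⌊-(2 * k)⌋ ⌊2 * k⌋).card, ?_⟩
  intro p s F hs hF hk
  apply Finset.card_le_card_of_injOn (fun q : ℂ => (⌊2 * (q - p).re / s⌋, ⌊2 * (q - p).im / s⌋))
  · intro q hq
    have h1 := hk q hq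
    have h2 := PK_abs hs ((Complex.abs_re_le_norm (q - p)).trans h1)
    have h3 := PK_abs hs ((Complex.abs_im_le_norm (q - p)).trans h1)
    simp only [Finset.coe_product, Set.mem_prod, Finset.coe_Icc, Set.mem_Icc]
    exact ⟨h2, h3⟩
  · intro q hq q' hq' h
    by_contra hne
    simp only [Prod.mk.injEq] at h
    have h1 := PK_close hs h.1
    have h2 := PK_close hs h.2
    have h3 := hF q hq q' hq' hne
    have h4 : ‖q - q'‖ ≤ |(q - q').re| + |(q - q').im| := Complex.norm_le_abs_re_add_abs_im _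
    have h5 : (q - q').re = (q - p).re - (q' - p).re := by simp
    have h6 : (q - q').im = (q - p).im - (q' - p).im := by simp
    rw [h5, h6] at h4
    linarith

end RCE
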