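import Pool.Agent.RCE.St

/-!
# RCE: module POR (the image of an almost affine map, which is not conformal, has holes)
-/

set_option autoImplicit false

namespace RCE

open Metric

theorem thm_POR (hHOL : St_HOL) (hSV : St_SV) (hGEC : St_GEC) : St_POR := by
  intro K Γ hΓ
  obtain ⟨c, hc0, hc1, hH⟩ := hHOL K Γ hΓ
  refine ⟨c, hc0, hc1, ?_⟩
  intro ε₁ M θ R x f A v e L μ hε0 hε1 hM hθ _ hR0 hRr hf hsvd hμ hL1 hL2 hnear y ρ hyT hyx hρ0 hρR hθR
  obtain ⟨p, r', hr', hball, hsph, hfar⟩ := hH y ρ hyT hρ0 (by linarith)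
  have hSV2 := hSV.2 A v e L μ hsvd
  obtain ⟨hv, he, -, hAv, hAiv⟩ := hsvd
  have hμ0 : 0 < |μ| := abs_pos.2 hμ
  have hL0 : 0 < L := by nlinarith
  have hr0 : 0 < r' := lt_of_lt_of_le (mul_pos hc0 hρ0) hr'
  have hp0 : ‖p - y‖ < ρ := by
    have h := hball (mem_closedBall_self hr0.le)
    rwa [mem_ball, dist_eq_norm] at h
  -- the points of the circle
  have hiv : ‖Complex.I * v‖ = 1 := by rw [norm_mul, Complex.norm_I, hv, one_mul]
  have hpt : ∀ s : ℝ, |s| = r' → ‖(p + (s : ℂ) * (Complex.I * v)) - y‖ < ρ ∧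
      p + (s : ℂ) * (Complex.I * v) ∈ K.T := by
    intro s hs
    have h1 : ‖(p + (s : ℂ) * (Complex.I * v)) - p‖ = r' := by
      rw [add_sub_cancel_left, norm_mul, hiv, mul_one, Complex.norm_real, Real.norm_eq_abs, hs]
    constructor
    · have h := hball (a := p + (s : ℂ) * (Complex.I * v)) (by
        rw [mem_closedBall, dist_eq_norm, h1])
      rwa [mem_ball, dist_eq_norm] at h
    · refine hsph ?_
      rw [mem_sphere, dist_eq_norm, h1]
  have hr1 : r' < ρ := by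
    have h1 := (hpt r' (abs_of_pos hr0)).1
    have h2 := (hpt (-r') (by rw [abs_neg, abs_of_pos hr0])).1
    have h3 : ‖((2 * r' : ℝ) : ℂ) * (Complex.I * v)‖ = 2 * r' := by
      rw [norm_mul, hiv, mul_one, Complex.norm_real, Real.norm_eq_abs, abs_of_pos (by linarith)]
    have h4 : ((2 * r' : ℝ) : ℂ) * (Complex.I * v) =
        ((p + (r' : ℂ) * (Complex.I * v)) - y) - ((p + ((-r' : ℝ) : ℂ) * (Complex.I * v)) - y) := by
      push_cast
      ring
    have h5 := norm_sub_le ((p + (r' : ℂ) * (Complex.I * v)) - y) ((p + ((-r' : ℝ) : ℂ) * (Complex.I * v)) - y)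
    rw [← h4, h3] at h5
    linarith
  obtain ⟨q, hq⟩ : ∃ q : ℂ, q = f x + A (p - x) := ⟨_, rfl⟩
  have hε : θ * |μ| * R ≤ ε₁ * (r' * |μ|) / 16 := by
    have h1 : 16 * θ * R ≤ ε₁ * r' := by
      have : c * ε₁ * ρ = ε₁ * (c * ρ) := by ring
      have h2 : ε₁ * (c * ρ) ≤ ε₁ * r' := mul_le_mul_of_nonneg_left hr' hε0.le
      linarith
    have h2 : (16 * θ * R) * |μ| ≤ (ε₁ * r') * |μ| := mul_le_mul_of_nonneg_right h1 hμ0.le
    have h3 : (16 * θ * R) * |μ| = 16 * (θ * |μ| * R) := by ring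
    have h4 : (ε₁ * r') * |μ| = ε₁ * (r' * |μ|) := by ring
    rw [h3, h4] at h2
    linarith
  have hb0 : 0 < r' * |μ| := mul_pos hr0 hμ0
  have hQ : ∀ s : ℝ, |s| = r' → ∃ Q ∈ K.T,
      ‖Q - (q + ((s * μ : ℝ) : ℂ) * (Complex.I * e))‖ ≤ θ * |μ| * R := by
    intro s hs
    obtain ⟨h1, h2⟩ := hpt s hs
    have h3 : ‖(p + (s : ℂ) * (Complex.I * v)) - x‖ < R := by
      have h4 : (p + (s : ℂ) * (Complex.I * v)) - x = ((p + (s : ℂ) * (Complex.I * v)) - y) + (y - x) := by ring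
      rw [h4]
      have h5 := norm_add_le ((p + (s : ℂ) * (Complex.I * v)) - y) (y - x)
      linarith
    refine ⟨f (p + (s : ℂ) * (Complex.I * v)), hf _ h2 h3, ?_⟩
    have h4 := hnear _ h2 h3
    have h5 : A ((p + (s : ℂ) * (Complex.I * v)) - x) = A (p - x) + ((s * μ : ℝ) : ℂ) * (Complex.I * e) := by
      have h6 : (p + (s : ℂ) * (Complex.I * v)) - x = (p - x) + s • (Complex.I * v) := by
        rw [Complex.real_smul]
        ring
      rw [h6, map_add, map_smul, hAiv, Complex.real_smul]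
      push_cast
      ring
    rw [h5] at h4
    have h7 : f (p + (s : ℂ) * (Complex.I * v)) - (q + ((s * μ : ℝ) : ℂ) * (Complex.I * e)) =
        f (p + (s : ℂ) * (Complex.I * v)) - f x - (A (p - x) + ((s * μ : ℝ) : ℂ) * (Complex.I * e)) := by
      rw [hq]
      ring
    rw [h7]
    exact h4
  have hσ : |r' * |μ| / μ| = r' := by
    rw [abs_div, abs_of_pos hb0]
    field_simp
  have hσ2 : r' * |μ| / μ * μ = r' * |μ| := by field_simp
  obtain ⟨Qp, hQpT, hQp⟩ := hQ (r' * |μ| / μ) hσ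
  obtain ⟨Qm, hQmT, hQm⟩ := hQ (-(r' * |μ| / μ)) (by rw [abs_neg, hσ])
  rw [hσ2] at hQp
  have hm : -(r' * |μ| / μ) * μ = -(r' * |μ|) := by rw [neg_mul, hσ2]
  rw [hm] at hQm
  have hab : (1 + ε₁) * (r' * |μ|) ≤ r' * L := by
    have h1 := mul_le_mul_of_nonneg_left hL1 hr0.le
    have h2 : r' * ((1 + ε₁) * |μ|) = (1 + ε₁) * (r' * |μ|) := by ring
    linarith
  have hεb : 0 < ε₁ * (r' * |μ|) := mul_pos hε0 hb0
  have hεb1 : ε₁ * (r' * |μ|) ≤ r' * |μ| := by
    have := mul_le_mul_of_nonneg_right hε1 hb0.le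
    linarith
  have hba : r' * |μ| < (r' * L + r' * |μ|) / 2 := by linarith
  have hmin : θ * |μ| * R < min ((((r' * L + r' * |μ|) / 2) ^ 2 - (r' * |μ|) ^ 2) / (2 * ((r' * L + r' * |μ|) / 2)))
      (r' * |μ|) := by
    refine lt_min ?_ ?_
    · rw [lt_div_iff₀ (by linarith)]
      have h1 : θ * |μ| * R < ((r' * L + r' * |μ|) / 2 - r' * |μ|) / 2 := by linarith
      have h2 : 0 < (r' * L + r' * |μ|) / 2 := by linarith
      nlinarith [mul_lt_mul_of_pos_right h1 (show (0 : ℝ) < 2 * ((r' * L + r' * |μ|) / 2) by linarith),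
        mul_pos hb0 (show (0 : ℝ) < (r' * L + r' * |μ|) / 2 - r' * |μ| by linarith)]
    · linarith
  obtain ⟨t, ht, hτ⟩ := hGEC K q e ((r' * L + r' * |μ|) / 2) (r' * |μ|) (θ * |μ| * R) Qp Qm he hb0 hba hQpT hQmT
    hQp (by
      have h1 : q - ((r' * |μ| : ℝ) : ℂ) * (Complex.I * e) = q + ((-(r' * |μ|) : ℝ) : ℂ) * (Complex.I * e) := by
        push_cast
        ring
      rw [h1]
      exact hQm) hmin
  have hte : ‖(t : ℂ) * e‖ = |t| := by rw [norm_mul, he, mul_one, Complex.norm_real, Real.norm_eq_abs]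
  refine ⟨q + t * e, hτ, ?_, ?_⟩
  · have h1 : q + (t : ℂ) * e - f y = (A (p - y) + (t : ℂ) * e) - (f y - f x - A (y - x)) := by
      have h2 : A (p - x) = A (p - y) + A (y - x) := by
        rw [← map_add]
        congr 1
        ring
      rw [hq, h2]
      ring
    rw [h1]
    have h2 := norm_sub_le (A (p - y) + (t : ℂ) * e) (f y - f x - A (y - x))
    have h3 := norm_add_le (A (p - y)) ((t : ℂ) * e)
    have h4 := (hSV2 (p - y)).2
    have h5 := hnear y hyT (by linarith)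
    have h6 : L * ‖p - y‖ ≤ M * |μ| * ρ :=
      mul_le_mul hL2 hp0.le (norm_nonneg _) (by positivity)
    have h7 : (r' * L + r' * |μ|) / 2 ≤ M * |μ| * ρ := by
      have h8 : r' * |μ| ≤ r' * L := by linarith
      have h9 : r' * L ≤ ρ * (M * |μ|) := mul_le_mul hr1.le hL2 hL0.le hρ0.le
      linarith
    have h10 : r' * |μ| ≤ M * |μ| * ρ := by
      have h8 : r' * |μ| ≤ r' * L := by linarith
      have h9 : r' * L ≤ ρ * (M * |μ|) := mul_le_mul hr1.le hL2 hL0.le hρ0.le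
      linarith
    linarith
  · intro p' hp'T hp'
    obtain ⟨w, hw⟩ : ∃ w : ℂ, w = p' - p - (t / L) • v := ⟨_, rfl⟩
    have hAw : A w = A (p' - x) - A (p - x) - (t : ℂ) * e := by
      have h1 : w = (p' - x) - (p - x) - (t / L) • v := by
        rw [hw]
        ring
      rw [h1, map_sub, map_sub, map_smul, hAv, Complex.real_smul]
      congr 1
      rw [← mul_assoc, ← Complex.ofReal_mul, div_mul_cancel₀ _ hL0.ne']
    have h1 : A w = (f p' - (q + (t : ℂ) * e)) - (f p' - f x - A (p' - x)) := by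
      rw [hAw, hq]
      ring
    have h2 := norm_sub_le (f p' - (q + (t : ℂ) * e)) (f p' - f x - A (p' - x))
    rw [← h1] at h2
    have h3 := hnear p' hp'T hp'
    have h4 := (hSV2 w).1
    have h5 : r' * ε₁ / 4 ≤ ‖w‖ := by
      have h6 : ‖(t / L) • v‖ = |t| / L := by
        rw [norm_smul, hv, mul_one, Real.norm_eq_abs, abs_div, abs_of_pos hL0]
      have h7 := hfar p' hp'T
      have h8 : ‖p' - p‖ ≤ ‖w‖ + ‖(t / L) • v‖ := by
        have h9 : p' - p = w + (t / L) • v := by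
          rw [hw]
          ring
        calc ‖p' - p‖ = ‖w + (t / L) • v‖ := by rw [← h9]
          _ ≤ ‖w‖ + ‖(t / L) • v‖ := norm_add_le _ _
      rw [h6] at h8
      have h10 : |t| / L ≤ r' * (1 - ε₁ / 4) := by
        rw [div_le_iff₀ hL0]
        have h11 : |μ| ≤ L * (1 - ε₁ / 2) := by
          have h12 : (1 + ε₁) * |μ| * (1 - ε₁ / 2) ≤ L * (1 - ε₁ / 2) :=
            mul_le_mul_of_nonneg_right hL1 (by linarith)
          have h13 : 0 ≤ |μ| * (ε₁ * (1 - ε₁)) := mul_nonneg hμ0.le (mul_nonneg hε0.le (by linarith))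
          nlinarith
        have h14 : r' * |μ| ≤ r' * (L * (1 - ε₁ / 2)) := mul_le_mul_of_nonneg_left h11 hr0.le
        have h15 : r' * (1 - ε₁ / 4) * L = (r' * L + r' * (L * (1 - ε₁ / 2))) / 2 := by ring
        rw [h15]
        linarith
      linarith
    have h16 : |μ| * (r' * ε₁ / 4) ≤ |μ| * ‖w‖ := mul_le_mul_of_nonneg_left h5 hμ0.le
    have h17 : c * ε₁ * |μ| * ρ ≤ ε₁ * (r' * |μ|) := by
      have h18 : (ε₁ * |μ|) * (c * ρ) ≤ (ε₁ * |μ|) * r' := mul_le_mul_of_nonneg_left hr' (by positivity)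
      have h19 : (ε₁ * |μ|) * (c * ρ) = c * ε₁ * |μ| * ρ := by ring
      have h20 : (ε₁ * |μ|) * r' = ε₁ * (r' * |μ|) := by ring
      linarith
    have h21 : |μ| * (r' * ε₁ / 4) = ε₁ * (r' * |μ|) / 4 := by ring
    linarith

end RCE
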