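import Pool.Agent.RCE.St

/-!
# RCE PS: pigeonhole for configurations
-/

set_option autoImplicit false

namespace RCE

open Metric

theorem thm_PS (hCH : St_CH) : St_PS := by
  intro K a b ha hb hex
  by_contra hno
  have hno' : ∀ t₁ t₂ : ℝ, 1 / 2 ≤ t₂ → t₂ < t₁ → t₁ ≤ 1 → ∀ (u : ℂ) (h : ℝ) (F : Finset ℂ),
      Cfg K u h (t₁ * a) (t₁ * b) F → ∃ (u' : ℂ) (h' : ℝ) (F' : Finset ℂ),
      Cfg K u' h' (t₂ * a) (t₂ * b) F' ∧ F.card < F'.card := by
    intro t₁ t₂ h1 h2 h3 u h F hF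
    by_contra hc
    apply hno
    refine ⟨t₁, t₂, h1, h2, h3, u, h, F, hF, ?_⟩
    intro u' h' F' hF'
    by_contra hlt
    exact hc ⟨u', h', F', hF', not_le.mp hlt⟩
  obtain ⟨N, hN⟩ := hCH (a / 2) (by positivity)
  have hm : (0 : ℝ) < 2 * ((N : ℝ) + 1) := by positivity
  have key : ∀ k : ℕ, k ≤ N + 1 → ∃ (u : ℂ) (h : ℝ) (F : Finset ℂ),
      Cfg K u h ((1 - (k : ℝ) / (2 * ((N : ℝ) + 1))) * a) ((1 - (k : ℝ) / (2 * ((N : ℝ) + 1))) * b) F ∧
        k ≤ F.card := by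
    intro k
    induction k with
    | zero =>
      intro _
      obtain ⟨u, h, F, hF⟩ := hex
      refine ⟨u, h, F, ?_, Nat.zero_le _⟩
      simpa using hF
    | succ k ih =>
      intro hk
      obtain ⟨u, h, F, hF, hc⟩ := ih (by omega)
      have hkN : ((k + 1 : ℕ) : ℝ) ≤ (N : ℝ) + 1 := by exact_mod_cast hk
      have h1 : 1 / 2 ≤ 1 - ((k + 1 : ℕ) : ℝ) / (2 * ((N : ℝ) + 1)) := by
        have : ((k + 1 : ℕ) : ℝ) / (2 * ((N : ℝ) + 1)) ≤ 1 / 2 := by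
          rw [div_le_iff₀ hm]
          linarith
        linarith
      have h2 : 1 - ((k + 1 : ℕ) : ℝ) / (2 * ((N : ℝ) + 1)) < 1 - (k : ℝ) / (2 * ((N : ℝ) + 1)) := by
        have : (k : ℝ) / (2 * ((N : ℝ) + 1)) < ((k + 1 : ℕ) : ℝ) / (2 * ((N : ℝ) + 1)) := by
          apply div_lt_div_of_pos_right _ hm
          push_cast
          linarith
        linarith
      have h3 : 1 - (k : ℝ) / (2 * ((N : ℝ) + 1)) ≤ 1 := by
        have : 0 ≤ (k : ℝ) / (2 * ((N : ℝ) + 1)) := by positivity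
        linarith
      obtain ⟨u', h', F', hF', hlt⟩ := hno' _ _ h1 h2 h3 u h F hF
      exact ⟨u', h', F', hF', by omega⟩
  obtain ⟨u, h, F, hF, hc⟩ := key (N + 1) le_rfl
  have hhalf : 1 - ((N + 1 : ℕ) : ℝ) / (2 * ((N : ℝ) + 1)) = 1 / 2 := by
    push_cast
    field_simp
    ring
  rw [hhalf] at hF
  have hle := hN u h F hF.1 (by
    have h3 := hF.2.2.1
    intro p hp q hq hpq
    have := h3 p hp q hq hpq
    linarith)
  omega

end RCE
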