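import Pool.Agent.RCE.St

/-!
# RCE, module QSL: almost similarities are almost affine
-/

set_option autoImplicit false

namespace RCE

open Metric

theorem thm_QSL (hALM : St_ALM) (hSTB : St_STB) : St_QSL := by
  intro K θ hθ
  obtain ⟨ε', hε', hstb⟩ := hSTB (θ 1) (hθ 1)
  refine ⟨min (1 / 100) (ε' / 40), lt_min (by norm_num) (by positivity), ?_⟩
  intro f x R₀ hx hR₀ hsim hinj
  refine ⟨1, le_refl 1, min R₀ K.r₀, lt_min hR₀ K.r₀pos, ?_⟩
  intro R hR hRlt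
  have h1 : R < R₀ := lt_of_lt_of_le hRlt (min_le_left _ _)
  have h2 : R ≤ K.r₀ := (lt_of_lt_of_le hRlt (min_le_right _ _)).le
  have hε : 0 < min (1 / 100) (ε' / 40) := lt_min (by norm_num) (by positivity)
  obtain ⟨p₁, hp₁, hp₁x, Λ, hΛ, hb⟩ := hALM K x f R₀ _ R hx hε (min_le_left _ _) hsim hinj hR h1 h2
  have hle : 40 * min (1 / 100) (ε' / 40) * (Λ * R) ≤ ε' * (Λ * R) := by
    apply mul_le_mul_of_nonneg_right _ (by positivity)
    have := min_le_right (1 / 100) (ε' / 40)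
    linarith
  obtain ⟨A, hA, hAn⟩ := hstb {p | p ∈ K.T ∧ ‖p - x‖ < R} x p₁ R Λ f hR hΛ ⟨hx, by simpa using hR⟩
    ⟨hp₁, by rw [hp₁x]; linarith⟩ hp₁x (fun p hp => hp.2)
    (fun p hp q hq => (hb p hp.1 q hq.1 hp.2 hq.2).trans hle)
  refine ⟨A, Λ, ⟨hΛ, fun v => ⟨(hA v).ge, by rw [hA v, one_mul]⟩⟩, ?_⟩
  intro p hp hpx
  have h := hAn p ⟨hp, hpx⟩
  rw [← mul_assoc] at h
  exact h

end RCE
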