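import Pool.Agent.RCE.St

/-!
# RCE: the carpet meets every small circle with centre in it (module SPH)
-/

set_option autoImplicit false

namespace RCE

open Metric

private lemma SPH_pt (c₀ y : ℂ) (r σ : ℝ) (h1 : ‖y - c₀‖ ≤ r) (h2 : 0 < σ) (h3 : σ ≤ r) :
    ∃ z : ℂ, ‖z - y‖ = σ ∧ ‖z - c₀‖ ≤ r := by
  by_cases hy : y = c₀
  · refine ⟨y + (σ : ℂ), ?_, ?_⟩
    · rw [add_sub_cancel_left, Complex.norm_real, Real.norm_of_nonneg h2.le]
    · rw [hy, add_sub_cancel_left, Complex.norm_real, Real.norm_of_nonneg h2.le]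
      exact h3
  · have h0 : 0 < ‖y - c₀‖ := norm_pos_iff.mpr (sub_ne_zero.mpr hy)
    refine ⟨y - ((σ / ‖y - c₀‖ : ℝ) : ℂ) * (y - c₀), ?_, ?_⟩
    · rw [sub_sub_cancel_left, norm_neg, norm_mul, Complex.norm_real, Real.norm_of_nonneg (by positivity)]
      field_simp
    · have e : y - ((σ / ‖y - c₀‖ : ℝ) : ℂ) * (y - c₀) - c₀ = ((1 - σ / ‖y - c₀‖ : ℝ) : ℂ) * (y - c₀) := by
        push_cast
        ring
      rw [e, norm_mul, Complex.norm_real, Real.norm_eq_abs]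
      have e2 : |1 - σ / ‖y - c₀‖| * ‖y - c₀‖ = |‖y - c₀‖ - σ| := by
        have : ‖y - c₀‖ - σ = (1 - σ / ‖y - c₀‖) * ‖y - c₀‖ := by field_simp
        rw [this, abs_mul, abs_of_pos h0]
      rw [e2, abs_le]
      constructor <;> linarith

theorem thm_SPH (hCC : St_CC) (hTF : St_TF) : St_SPH := by
  intro K y σ hy hσ hσr
  by_contra hcon
  push Not at hcon
  obtain ⟨-, -, -, hT, -⟩ := hTF K
  obtain ⟨hy1, hy2⟩ := hT y hy
  have hconn : IsPreconnected (sphere y σ) := by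
    apply isPreconnected_sphere
    rw [Complex.rank_real_complex]
    norm_num
  obtain ⟨z, hz1, hz2⟩ := SPH_pt K.c₀ y K.r₀ σ hy1 hσ hσr
  have hzs : z ∈ sphere y σ := by rw [Metric.mem_sphere, dist_eq_norm]; exact hz1
  have hd : ∀ p ∈ sphere y σ, p ∉ K.T := by
    intro p hp hpT
    rw [Metric.mem_sphere, dist_eq_norm] at hp
    exact hcon p hpT hp
  rcases hCC K (sphere y σ) hconn ⟨z, hzs⟩ hd with ⟨i, hi⟩ | h
  · have hz' : y - (z - y) ∈ sphere y σ := by
      rw [Metric.mem_sphere, dist_eq_norm, sub_sub_cancel_left, norm_neg]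
      exact hz1
    have h1 := hi hzs
    have h2 := hi hz'
    rw [Metric.mem_ball, dist_eq_norm] at h1 h2
    have h3 := hy2 i
    have e : y - K.c i = (1 / 2 : ℂ) * ((z - K.c i) + (y - (z - y) - K.c i)) := by ring
    have h4 : ‖y - K.c i‖ ≤ (1 / 2) * (‖z - K.c i‖ + ‖y - (z - y) - K.c i‖) := by
      rw [e, norm_mul]
      have e2 : ‖(1 / 2 : ℂ)‖ = 1 / 2 := by norm_num
      rw [e2]
      exact mul_le_mul_of_nonneg_left (norm_add_le _ _) (by norm_num)
    linarith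
  · exact absurd hz2 (not_le.mpr (h z hzs))

end RCE
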