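import Pool.Agent.RCE.St

/-!
# RCE, module SRJ: a map of the carpet with relatively open image is onto
-/

set_option autoImplicit false

namespace RCE

open Metric

theorem thm_SRJ (hLCF : St_LCF) (hTF : St_TF) : St_SRJ := by
  intro K f hf hm hop
  obtain ⟨O, hO, hE⟩ := hop
  have hcomp : IsCompact (f '' K.T) := (hTF K).1.image_of_continuousOn hf
  have hsub : f '' K.T ⊆ K.T := by
    rintro _ ⟨z, hz, rfl⟩
    exact hm hz
  by_contra hne
  have hex : ∃ z ∈ K.T, z ∉ f '' K.T := by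
    by_contra hcon
    push Not at hcon
    exact hne (Set.Subset.antisymm hsub hcon)
  obtain ⟨z, hz, hzE⟩ := hex
  obtain ⟨y, hy, hyc, _⟩ := hLCF K (f '' K.T) hcomp.isClosed hsub z hz hzE (f z) ⟨z, hz, rfl⟩
  have hyO : y ∈ O := by
    have h := hy
    rw [hE] at h
    exact h.2
  obtain ⟨w, hwO, hw⟩ := mem_closure_iff.1 hyc O hO hyO
  apply hw.2
  rw [hE]
  exact ⟨hw.1, hwO⟩

end RCE
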