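import Pool.Agent.RCE.St

/-!
# RCE, STB: plane maps that almost preserve distances (helper94)
-/

set_option autoImplicit false

namespace RCE

open Metric

private theorem STB_sq {a b e K : ℝ} (ha : 0 ≤ a) (hb : 0 ≤ b) (h : |a - b| ≤ e)
    (hK : a + b ≤ K) : |a ^ 2 - b ^ 2| ≤ K * e := by
  have e1 : a ^ 2 - b ^ 2 = (a - b) * (a + b) := by ring
  rw [e1, abs_mul, abs_of_nonneg (add_nonneg ha hb), mul_comm]
  exact mul_le_mul hK h (abs_nonneg _) (le_trans (add_nonneg ha hb) hK)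

private theorem STB_nsq (z : ℂ) : ‖z‖ ^ 2 = z.re ^ 2 + z.im ^ 2 := by
  rw [Complex.sq_norm, Complex.normSq_apply]
  ring

private theorem STB_ri (z : ℂ) : ‖z‖ ≤ |z.re| + |z.im| := Complex.norm_le_abs_re_add_abs_im z

/-- one point: the coordinates -/
private theorem STB_one {e c : ℝ} (he : 0 ≤ e) (he1 : e ≤ 1) (hc : 0 ≤ c) (hc1 : |c - 1 / 2| ≤ e)
    {p w : ℂ} (hp : ‖p‖ < 1) (h1 : |‖w‖ - ‖p‖| ≤ e) (h2 : |‖w - c‖ - ‖p - (1 / 2 : ℂ)‖| ≤ e) :
    ‖w‖ ≤ 2 ∧ |w.re - p.re| ≤ 14 * e ∧ |w.im ^ 2 - p.im ^ 2| ≤ 45 * e := by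
  have hw : ‖w‖ ≤ 2 := by
    have := (abs_le.1 h1).2
    linarith
  have hcc : c ≤ 3 / 2 := by
    have := (abs_le.1 hc1).2
    linarith
  have hcn : ‖(c : ℂ)‖ = c := by rw [Complex.norm_real, Real.norm_eq_abs, abs_of_nonneg hc]
  have hwc : ‖w - c‖ ≤ 7 / 2 := by
    refine (norm_sub_le _ _).trans ?_
    rw [hcn]
    linarith
  have hhalf : ‖(1 / 2 : ℂ)‖ = 1 / 2 := by norm_num
  have hpc : ‖p - (1 / 2 : ℂ)‖ ≤ 3 / 2 := by
    refine (norm_sub_le _ _).trans ?_
    rw [hhalf]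
    linarith
  have E1 := STB_sq (K := 3) (norm_nonneg w) (norm_nonneg p) h1 (by linarith)
  have E2 := STB_sq (K := 5) (norm_nonneg (w - c)) (norm_nonneg (p - (1 / 2 : ℂ))) h2
    (by linarith)
  have hc2 : |c ^ 2 - (1 / 2) ^ 2| ≤ 2 * e :=
    STB_sq (K := 2) hc (by norm_num) hc1 (by linarith)
  rw [STB_nsq, STB_nsq] at E1 E2
  have r1 : (w - (c : ℂ)).re = w.re - c := by simp
  have r2 : (w - (c : ℂ)).im = w.im := by simp
  have r3 : (p - (1 / 2 : ℂ)).re = p.re - 1 / 2 := by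
    rw [Complex.sub_re]
    norm_num
  have r4 : (p - (1 / 2 : ℂ)).im = p.im := by
    rw [Complex.sub_im]
    norm_num
  rw [r1, r2, r3, r4] at E2
  have hwre : |w.re| ≤ 2 := (Complex.abs_re_le_norm w).trans hw
  have hpre : |p.re| ≤ 1 := (Complex.abs_re_le_norm p).trans hp.le
  have E3 : |(2 * c - 1) * w.re| ≤ 4 * e := by
    rw [abs_mul]
    have h3 : |2 * c - 1| ≤ 2 * e := by
      have e3 : 2 * c - 1 = 2 * (c - 1 / 2) := by ring
      rw [e3, abs_mul, abs_of_pos (by norm_num : (0 : ℝ) < 2)]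
      linarith
    calc |2 * c - 1| * |w.re| ≤ (2 * e) * 2 :=
          mul_le_mul h3 hwre (abs_nonneg _) (by linarith)
      _ = 4 * e := by ring
  rw [abs_le] at E1 E2 hc2 E3
  have hre : |w.re - p.re| ≤ 14 * e := by
    rw [abs_le]
    constructor <;> linarith [E1.1, E1.2, E2.1, E2.2, hc2.1, hc2.2, E3.1, E3.2]
  refine ⟨hw, hre, ?_⟩
  have E4 : |(w.re - p.re) * (w.re + p.re)| ≤ 42 * e := by
    rw [abs_mul]
    have h4 : |w.re + p.re| ≤ 3 := by
      refine (abs_add_le _ _).trans ?_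
      linarith
    calc |w.re - p.re| * |w.re + p.re| ≤ (14 * e) * 3 :=
          mul_le_mul hre h4 (abs_nonneg _) (by linarith)
      _ = 42 * e := by ring
  rw [abs_le] at E4 ⊢
  constructor <;> linarith [E1.1, E1.2, E4.1, E4.2]

/-- the normalized statement -/
private theorem STB_norm {δ : ℝ} (hδ : 0 < δ) (hδ1 : δ ≤ 1) {S : Set ℂ} {g : ℂ → ℂ} {c : ℝ}
    (hc : 0 ≤ c) (h0 : (0 : ℂ) ∈ S) (h1 : (1 / 2 : ℂ) ∈ S) (g0 : g 0 = 0) (g1 : g (1 / 2) = c)
    (hS : ∀ p ∈ S, ‖p‖ < 1)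
    (hd : ∀ p ∈ S, ∀ q ∈ S, |‖g p - g q‖ - ‖p - q‖| ≤ δ ^ 3 / 4000) :
    (∀ p ∈ S, ‖g p - p‖ ≤ 2 * δ) ∨ (∀ p ∈ S, ‖g p - (starRingEnd ℂ) p‖ ≤ 2 * δ) := by
  obtain ⟨e, he⟩ : ∃ e : ℝ, e = δ ^ 3 / 4000 := ⟨_, rfl⟩
  rw [← he] at hd
  have hδ3 : 0 < δ ^ 3 := pow_pos hδ 3
  have he0 : 0 < e := by rw [he]; positivity
  have hδ2 : δ ^ 2 ≤ δ := by nlinarith
  have hδ33 : δ ^ 3 ≤ δ := by nlinarith
  have he1 : e ≤ 1 := by rw [he]; linarith
  have heδ : 14 * e ≤ δ := by rw [he]; linarith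
  have hc1 : |c - 1 / 2| ≤ e := by
    have h := hd _ h1 _ h0
    rw [g0, g1, sub_zero, sub_zero, Complex.norm_real, Real.norm_eq_abs, abs_of_nonneg hc] at h
    have hhalf : ‖(1 / 2 : ℂ)‖ = 1 / 2 := by norm_num
    rwa [hhalf] at h
  have key : ∀ p ∈ S, ‖g p‖ ≤ 2 ∧ |(g p).re - p.re| ≤ 14 * e ∧
      |(g p).im ^ 2 - p.im ^ 2| ≤ 45 * e := by
    intro p hp
    have h2 := hd p hp 0 h0
    rw [g0, sub_zero, sub_zero] at h2
    have h3 := hd p hp _ h1
    rw [g1] at h3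
    exact STB_one he0.le he1 hc hc1 (hS p hp) h2 h3
  by_contra hcon
  rw [not_or] at hcon
  obtain ⟨hA, hB⟩ := hcon
  -- two points
  obtain ⟨p, hp, hpd⟩ : ∃ p ∈ S, δ < |(g p).im - p.im| := by
    by_contra hne
    push Not at hne
    apply hA
    intro p hp
    refine (STB_ri _).trans ?_
    rw [Complex.sub_re, Complex.sub_im]
    have := (key p hp).2.1
    have := hne p hp
    linarith
  obtain ⟨q, hq, hqd⟩ : ∃ q ∈ S, δ < |(g q).im + q.im| := by
    by_contra hne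
    push Not at hne
    apply hB
    intro q hq
    refine (STB_ri _).trans ?_
    rw [Complex.sub_re, Complex.sub_im, Complex.conj_re, Complex.conj_im, sub_neg_eq_add]
    have := (key q hq).2.1
    have := hne q hq
    linarith
  obtain ⟨hp2, hpre, hpim⟩ := key p hp
  obtain ⟨hq2, hqre, hqim⟩ := key q hq
  have hpS := hS p hp
  have hqS := hS q hq
  have hps : |(g p).im + p.im| ≤ 45 * e / δ := by
    rw [le_div_iff₀ hδ]
    calc |(g p).im + p.im| * δ ≤ |(g p).im + p.im| * |(g p).im - p.im| :=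
          mul_le_mul_of_nonneg_left hpd.le (abs_nonneg _)
      _ = |(g p).im ^ 2 - p.im ^ 2| := by
          rw [← abs_mul]
          congr 1
          ring
      _ ≤ 45 * e := hpim
  have hqs : |(g q).im - q.im| ≤ 45 * e / δ := by
    rw [le_div_iff₀ hδ]
    calc |(g q).im - q.im| * δ ≤ |(g q).im - q.im| * |(g q).im + q.im| :=
          mul_le_mul_of_nonneg_left hqd.le (abs_nonneg _)
      _ = |(g q).im ^ 2 - q.im ^ 2| := by
          rw [← abs_mul]
          congr 1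
          ring
      _ ≤ 45 * e := hqim
  have hpq := STB_sq (K := 6) (norm_nonneg (g p - g q)) (norm_nonneg (p - q))
    (hd p hp q hq) (by
      have h5 := norm_sub_le (g p) (g q)
      have h6 := norm_sub_le p q
      linarith)
  rw [STB_nsq, STB_nsq] at hpq
  simp only [Complex.sub_re, Complex.sub_im] at hpq
  have e7 : |((g p).re - (g q).re - (p.re - q.re)) * ((g p).re - (g q).re + (p.re - q.re))|
      ≤ 168 * e := by
    rw [abs_mul]
    have h8 : |(g p).re - (g q).re - (p.re - q.re)| ≤ 28 * e := by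
      rw [abs_le] at hpre hqre ⊢
      constructor <;> linarith [hpre.1, hpre.2, hqre.1, hqre.2]
    have h9 : |(g p).re - (g q).re + (p.re - q.re)| ≤ 6 := by
      have a1 := abs_le.1 ((Complex.abs_re_le_norm (g p)).trans hp2)
      have a2 := abs_le.1 ((Complex.abs_re_le_norm (g q)).trans hq2)
      have a3 := abs_le.1 ((Complex.abs_re_le_norm p).trans hpS.le)
      have a4 := abs_le.1 ((Complex.abs_re_le_norm q).trans hqS.le)
      rw [abs_le]
      constructor <;> linarith [a1.1, a1.2, a2.1, a2.2, a3.1, a3.2, a4.1, a4.2]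
    calc _ ≤ (28 * e) * 6 := mul_le_mul h8 h9 (abs_nonneg _) (by linarith)
      _ = 168 * e := by ring
  have e8 : |(g p).im * (g q).im - p.im * q.im| ≤ 132 * e := by
    rw [abs_le] at hpq e7 hpim hqim ⊢
    constructor <;> linarith [hpq.1, hpq.2, e7.1, e7.2, hpim.1, hpim.2, hqim.1, hqim.2]
  have e9 : |((g p).im + p.im) * (g q).im| ≤ 45 * e / δ * 2 := by
    rw [abs_mul]
    exact mul_le_mul hps ((Complex.abs_im_le_norm _).trans hq2) (abs_nonneg _) (by positivity)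
  have e10 : |p.im * ((g q).im - q.im)| ≤ 1 * (45 * e / δ) := by
    rw [abs_mul]
    exact mul_le_mul ((Complex.abs_im_le_norm _).trans hpS.le) hqs (abs_nonneg _) zero_le_one
  have hη : 45 * e / δ = 45 / 4000 * δ ^ 2 := by
    rw [he]
    field_simp
  rw [hη] at hps hqs e9 e10
  have e11 : |2 * (p.im * q.im)| ≤ 132 * e + 3 * (45 / 4000 * δ ^ 2) := by
    rw [abs_le] at e8 e9 e10 ⊢
    constructor <;> linarith [e8.1, e8.2, e9.1, e9.2, e10.1, e10.2]
  have e12 : δ / 4 ≤ |p.im| := by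
    have h := abs_sub ((g p).im + p.im) (2 * p.im)
    have h' : (g p).im + p.im - 2 * p.im = (g p).im - p.im := by ring
    rw [h', abs_mul, abs_of_pos (by norm_num : (0 : ℝ) < 2)] at h
    linarith
  have e13 : δ / 4 ≤ |q.im| := by
    have h := abs_add_le ((g q).im - q.im) (2 * q.im)
    have h' : (g q).im - q.im + 2 * q.im = (g q).im + q.im := by ring
    rw [h', abs_mul, abs_of_pos (by norm_num : (0 : ℝ) < 2)] at h
    linarith
  have e14 : δ / 4 * (δ / 4) ≤ |p.im| * |q.im| := mul_le_mul e12 e13 (by positivity) (abs_nonneg _)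
  rw [abs_mul, abs_mul, abs_of_pos (by norm_num : (0 : ℝ) < 2)] at e11
  have e15 : e ≤ δ ^ 2 / 4000 := by
    rw [he]
    have : δ ^ 3 ≤ δ ^ 2 := by nlinarith
    linarith
  nlinarith

private theorem STB_unit (y : ℂ) : ∃ b : ℂ, ‖b‖ = 1 ∧ y = b * ‖y‖ := by
  by_cases h : y = 0
  · exact ⟨1, norm_one, by rw [h]; simp⟩
  · have h2 : (‖y‖ : ℂ) ≠ 0 := by
      rw [Complex.ofReal_ne_zero]
      exact norm_ne_zero_iff.2 h
    refine ⟨y / ‖y‖, ?_, ?_⟩
    · rw [norm_div, Complex.norm_real, norm_norm, div_self (norm_ne_zero_iff.2 h)]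
    · rw [div_mul_cancel₀ _ h2]

theorem thm_STB : St_STB := by
  intro θ hθ
  obtain ⟨δ, hδ⟩ : ∃ δ : ℝ, δ = min θ 1 / 2 := ⟨_, rfl⟩
  have hδ0 : 0 < δ := by
    rw [hδ]
    have := lt_min hθ one_pos
    linarith
  have hδ1 : δ ≤ 1 := by
    rw [hδ]
    have := min_le_right θ 1
    linarith
  have hδθ : 2 * δ ≤ θ := by
    rw [hδ]
    have := min_le_left θ 1
    linarith
  refine ⟨δ ^ 3 / 4000, by positivity, ?_⟩
  intro S x p₁ R Λ f hR hΛ hx hp₁ hn hS hd
  have hRc : (R : ℂ) ≠ 0 := Complex.ofReal_ne_zero.2 hR.ne'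
  have hΛc : (Λ : ℂ) ≠ 0 := Complex.ofReal_ne_zero.2 hΛ.ne'
  have nR : ‖(R : ℂ)‖ = R := by rw [Complex.norm_real, Real.norm_eq_abs, abs_of_pos hR]
  have nΛ : ‖(Λ : ℂ)‖ = Λ := by rw [Complex.norm_real, Real.norm_eq_abs, abs_of_pos hΛ]
  -- the rotation of the source
  obtain ⟨a, ha⟩ : ∃ a : ℂ, a = (p₁ - x) / (R / 2) := ⟨_, rfl⟩
  have na : ‖a‖ = 1 := by
    rw [ha, norm_div, hn, norm_div, nR]
    have h2 : ‖(2 : ℂ)‖ = 2 := by norm_num
    rw [h2, div_self (by positivity)]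
  have ha0 : a ≠ 0 := by
    intro h
    rw [h, norm_zero] at na
    exact zero_ne_one na
  -- the rotation of the target
  obtain ⟨b, nb, hb⟩ := STB_unit ((f p₁ - f x) / (Λ * R))
  have hb0 : b ≠ 0 := by
    intro h
    rw [h, norm_zero] at nb
    exact zero_ne_one nb
  have hden : (Λ : ℂ) * R * b ≠ 0 := mul_ne_zero (mul_ne_zero hΛc hRc) hb0
  have nden : ‖(Λ : ℂ) * R * b‖ = Λ * R := by rw [norm_mul, norm_mul, nΛ, nR, nb, mul_one]
  obtain ⟨g, hg⟩ : ∃ g : ℂ → ℂ, ∀ w, g w = (f (x + R * a * w) - f x) / (Λ * R * b) :=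
    ⟨_, fun _ => rfl⟩
  have hxh : x + R * a * (1 / 2) = p₁ := by
    rw [ha]
    field_simp
    ring
  have hx0 : x + R * a * 0 = x := by ring
  have hgn : ∀ p q : ℂ, ‖g p - g q‖ = ‖f (x + R * a * p) - f (x + R * a * q)‖ / (Λ * R) := by
    intro p q
    rw [hg, hg, ← sub_div, sub_sub_sub_cancel_right, norm_div, nden]
  have hpn : ∀ p q : ℂ, ‖(x + R * a * p) - (x + R * a * q)‖ = R * ‖p - q‖ := by
    intro p q
    rw [add_sub_add_left_eq_sub, ← mul_sub, norm_mul, norm_mul, nR, na, mul_one]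
  have hback : ∀ p : ℂ, x + R * a * ((p - x) / (R * a)) = p := by
    intro p
    rw [mul_div_cancel₀ _ (mul_ne_zero hRc ha0)]
    ring
  have hmain := STB_norm (δ := δ) (c := ‖(f p₁ - f x) / (Λ * R)‖)
    (S := {w : ℂ | x + R * a * w ∈ S}) (g := g) hδ0 hδ1 (norm_nonneg _) ?_ ?_ ?_ ?_ ?_ ?_
  · have hval : ∀ p : ℂ, f p - f x = Λ * R * b * g ((p - x) / (R * a)) := by
      intro p
      rw [hg, hback, mul_div_cancel₀ _ hden]
    rcases hmain with hmain | hmain
    · refine ⟨LinearMap.mulLeft ℝ (Λ * b * a⁻¹), ?_, ?_⟩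
      · intro w
        rw [LinearMap.mulLeft_apply, norm_mul, norm_mul, norm_mul, norm_inv, nΛ, nb, na]
        ring
      · intro p hp
        have h := hmain ((p - x) / (R * a)) (by
          show x + R * a * ((p - x) / (R * a)) ∈ S
          rw [hback]
          exact hp)
        have e1 : f p - f x - LinearMap.mulLeft ℝ (Λ * b * a⁻¹) (p - x)
            = Λ * R * b * (g ((p - x) / (R * a)) - (p - x) / (R * a)) := by
          rw [LinearMap.mulLeft_apply, hval, mul_sub]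
          field_simp
        rw [e1, norm_mul, nden]
        calc Λ * R * ‖g ((p - x) / (R * a)) - (p - x) / (R * a)‖ ≤ Λ * R * (2 * δ) :=
              mul_le_mul_of_nonneg_left h (by positivity)
          _ ≤ Λ * R * θ := mul_le_mul_of_nonneg_left hδθ (by positivity)
          _ = θ * (Λ * R) := by ring
    · refine ⟨(LinearMap.mulLeft ℝ ((Λ : ℂ) * b)).comp
        (Complex.conjAe.toLinearMap.comp (LinearMap.mulLeft ℝ a⁻¹)), ?_, ?_⟩
      · intro w
        rw [LinearMap.comp_apply, LinearMap.comp_apply, LinearMap.mulLeft_apply,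
          LinearMap.mulLeft_apply]
        show ‖(Λ : ℂ) * b * (starRingEnd ℂ) (a⁻¹ * w)‖ = Λ * ‖w‖
        rw [norm_mul, norm_mul, Complex.norm_conj, norm_mul, norm_inv, nΛ, nb, na]
        ring
      · intro p hp
        have h := hmain ((p - x) / (R * a)) (by
          show x + R * a * ((p - x) / (R * a)) ∈ S
          rw [hback]
          exact hp)
        have e1 : f p - f x - ((LinearMap.mulLeft ℝ ((Λ : ℂ) * b)).comp
            (Complex.conjAe.toLinearMap.comp (LinearMap.mulLeft ℝ a⁻¹))) (p - x)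
            = Λ * R * b * (g ((p - x) / (R * a)) - (starRingEnd ℂ) ((p - x) / (R * a))) := by
          rw [hval, mul_sub]
          congr 1
          show (Λ : ℂ) * b * (starRingEnd ℂ) (a⁻¹ * (p - x))
            = Λ * R * b * (starRingEnd ℂ) ((p - x) / (R * a))
          rw [map_mul, map_div₀, map_mul, Complex.conj_ofReal, map_inv₀]
          have hca : (starRingEnd ℂ) a ≠ 0 := (map_ne_zero _).2 ha0
          field_simp
        rw [e1, norm_mul, nden]
        calc Λ * R * ‖g ((p - x) / (R * a)) - (starRingEnd ℂ) ((p - x) / (R * a))‖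
            ≤ Λ * R * (2 * δ) := mul_le_mul_of_nonneg_left h (by positivity)
          _ ≤ Λ * R * θ := mul_le_mul_of_nonneg_left hδθ (by positivity)
          _ = θ * (Λ * R) := by ring
  · show x + R * a * 0 ∈ S
    rw [hx0]
    exact hx
  · show x + R * a * (1 / 2) ∈ S
    rw [hxh]
    exact hp₁
  · rw [hg, hx0, sub_self, zero_div]
  · rw [hg, hxh, ← div_div, div_eq_iff hb0]
    exact hb.trans (mul_comm _ _)
  · intro w hw
    have h := hS _ hw
    have h2 := hpn w 0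
    rw [hx0, sub_zero] at h2
    rw [h2] at h
    by_contra hcon
    rw [not_lt] at hcon
    nlinarith
  · intro p hp q hq
    rw [hgn]
    have h := hd _ hp _ hq
    rw [hpn] at h
    have e2 : ‖f (x + R * a * p) - f (x + R * a * q)‖ / (Λ * R) - ‖p - q‖
        = (‖f (x + R * a * p) - f (x + R * a * q)‖ - Λ * (R * ‖p - q‖)) / (Λ * R) := by
      field_simp
    rw [e2, abs_div, abs_of_pos (mul_pos hΛ hR), div_le_iff₀ (mul_pos hΛ hR)]
    exact h

end RCE
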