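import Pool.Agent.RCE.St

/-!
# RCE, module STP: porous sets, one scale

Helper74, for MP_d2bd1a_an.
-/

set_option autoImplicit false

namespace RCE

open Metric

theorem thm_STP (hXB : St_XB) (hNNB : St_NNB) : St_STP := by
  classical
  intro K Γ hG κ hκ hκ1
  obtain ⟨C, hC, hX⟩ := hXB K Γ hG κ hκ hκ1
  have hC0 : 0 < C := by linarith
  refine ⟨1 / C, by positivity, ?_⟩
  intro y r s X E ρ hMx hE hρ hρr hs hpor
  have hr : 0 < r := by linarith
  have hbd : Bornology.IsBounded E :=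
    Metric.isBounded_ball.subset (fun e he => (hE he).2)
  obtain ⟨_, F, hFE, hFs, _, hFc⟩ := hNNB E (4 * ρ) hbd (by linarith)
  choose! τ hτT hτ1 hτ2 using hpor
  have hκρ : κ * ρ ≤ ρ := by nlinarith
  have hκρ0 : 0 < κ * ρ := mul_pos hκ hρ
  have hEy : ∀ e ∈ E, e ∈ K.T ∧ ‖e - y‖ < r := fun e he =>
    ⟨(hE he).1, by simpa [dist_eq_norm] using (hE he).2⟩
  -- the first inequality
  have h1 : cE X E (κ * ρ / 2) ≤ ∑ e ∈ F, cn X e (5 * ρ) := by
    unfold cE cn
    refine le_trans (Finset.card_le_card ?_) Finset.card_biUnion_le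
    intro x hx
    rw [Finset.mem_filter] at hx
    obtain ⟨hxX, e, he, hxe⟩ := hx
    obtain ⟨q, hq, hqe⟩ := hFc e he
    rw [Finset.mem_biUnion]
    refine ⟨q, hq, ?_⟩
    rw [Finset.mem_filter]
    refine ⟨hxX, ?_⟩
    have : ‖x - q‖ ≤ ‖x - e‖ + ‖e - q‖ := by
      have := norm_add_le (x - e) (e - q)
      rwa [sub_add_sub_cancel] at this
    linarith
  have h2 : (∑ e ∈ F, cn X e (5 * ρ) : ℝ) ≤ ∑ e ∈ F, C * cn X (τ e) (κ * ρ / 2) := by
    apply Finset.sum_le_sum
    intro e he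
    have heE : e ∈ E := hFE he
    have k1 := hEy e heE
    have k2 : ‖τ e - y‖ ≤ ‖τ e - e‖ + ‖e - y‖ := by
      have := norm_add_le (τ e - e) (e - y)
      rwa [sub_add_sub_cancel] at this
    have k3 := hτ1 e heE
    exact hX y r s X hMx e (τ e) ρ k1.1 (hτT e heE) (by linarith) (by linarith) hρ hρr hs
  -- the second inequality
  have h3 : cE X E (κ * ρ / 2) + ∑ e ∈ F, cn X (τ e) (κ * ρ / 2) ≤ cE X E (2 * ρ) := by
    unfold cE cn
    have hd : (F : Set ℂ).PairwiseDisjoint fun e =>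
        X.filter fun x => ‖x - τ e‖ < κ * ρ / 2 := by
      intro e he e' he' hne
      show Disjoint (X.filter fun x => ‖x - τ e‖ < κ * ρ / 2)
        (X.filter fun x => ‖x - τ e'‖ < κ * ρ / 2)
      rw [Finset.disjoint_left]
      intro x hx hx'
      rw [Finset.mem_filter] at hx hx'
      have a1 := hFs e he e' he' hne
      have a2 := hτ1 e (hFE he)
      have a3 := hτ1 e' (hFE he')
      have a4 : ‖e - e'‖ ≤ ‖τ e - e‖ + ‖x - τ e‖ + ‖x - τ e'‖ + ‖τ e' - e'‖ := by
        have b : e - e' = -(τ e - e) + -(x - τ e) + (x - τ e') + (τ e' - e') := by ring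
        rw [b]
        refine le_trans (norm_add_le _ _) (add_le_add (le_trans (norm_add_le _ _)
          (add_le_add (le_trans (norm_add_le _ _) ?_) le_rfl)) le_rfl)
        rw [norm_neg, norm_neg]
      linarith [hx.2, hx'.2]
    rw [← Finset.card_biUnion (fun e he e' he' hne => hd he he' hne), ← Finset.card_union_of_disjoint]
    · apply Finset.card_le_card
      intro x hx
      rw [Finset.mem_union, Finset.mem_filter, Finset.mem_biUnion] at hx
      rw [Finset.mem_filter]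
      rcases hx with ⟨hxX, e, he, hxe⟩ | ⟨e, he, hx⟩
      · exact ⟨hxX, e, he, by linarith⟩
      · rw [Finset.mem_filter] at hx
        refine ⟨hx.1, e, hFE he, ?_⟩
        have a2 := hτ1 e (hFE he)
        have a4 : ‖x - e‖ ≤ ‖x - τ e‖ + ‖τ e - e‖ := by
          have := norm_add_le (x - τ e) (τ e - e)
          rwa [sub_add_sub_cancel] at this
        linarith [hx.2]
    · rw [Finset.disjoint_left]
      intro x hx hx'
      rw [Finset.mem_filter] at hx
      rw [Finset.mem_biUnion] at hx'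
      obtain ⟨_, p, hp, hxp⟩ := hx
      obtain ⟨e, he, hxe⟩ := hx'
      rw [Finset.mem_filter] at hxe
      have a1 := hτ2 e (hFE he) p hp
      have a4 : ‖p - τ e‖ ≤ ‖x - p‖ + ‖x - τ e‖ := by
        have b : p - τ e = -(x - p) + (x - τ e) := by ring
        rw [b]
        refine le_trans (norm_add_le _ _) ?_
        rw [norm_neg]
      linarith [hxe.2]
  have h1' : (cE X E (κ * ρ / 2) : ℝ) ≤ ∑ e ∈ F, (cn X e (5 * ρ) : ℝ) := by exact_mod_cast h1
  have h3' : (cE X E (κ * ρ / 2) : ℝ) + ∑ e ∈ F, (cn X (τ e) (κ * ρ / 2) : ℝ) ≤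
      cE X E (2 * ρ) := by exact_mod_cast h3
  rw [← Finset.mul_sum] at h2
  have h4 : 1 / C * (cE X E (κ * ρ / 2) : ℝ) ≤ ∑ e ∈ F, (cn X (τ e) (κ * ρ / 2) : ℝ) := by
    rw [one_div, inv_mul_le_iff₀ hC0]
    exact le_trans h1' h2
  calc (1 + 1 / C) * (cE X E (κ * ρ / 2) : ℝ) = (cE X E (κ * ρ / 2) : ℝ) +
        1 / C * (cE X E (κ * ρ / 2) : ℝ) := by ring
    _ ≤ _ := le_trans (add_le_add le_rfl h4) h3'

end RCE
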