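import Pool.Agent.RCE.St

/-!
# RCE, SV: singular values of a real linear map of the plane
-/

set_option autoImplicit false

namespace RCE

private theorem SV_form (A : ℂ →ₗ[ℝ] ℂ) (z : ℂ) :
    A z = (A 1 - Complex.I * A Complex.I) / 2 * z +
      (A 1 + Complex.I * A Complex.I) / 2 * (starRingEnd ℂ) z := by
  have h1 : z = z.re • (1 : ℂ) + z.im • Complex.I := by
    apply Complex.ext <;> simp
  have h2 : A z = (z.re : ℂ) * A 1 + (z.im : ℂ) * A Complex.I := by
    conv_lhs => rw [h1]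
    rw [map_add, map_smul, map_smul, Complex.real_smul, Complex.real_smul]
  have h3 : z = (z.re : ℂ) + (z.im : ℂ) * Complex.I := (Complex.re_add_im z).symm
  have h4 : (starRingEnd ℂ) z = (z.re : ℂ) - (z.im : ℂ) * Complex.I := by
    apply Complex.ext <;> simp
  have h5 : Complex.I * Complex.I = -1 := Complex.I_mul_I
  rw [h2, h4]
  conv_rhs => rw [h3]
  simp only [Complex.add_re, Complex.ofReal_re, Complex.mul_re, Complex.I_re, mul_zero,
    Complex.ofReal_im, Complex.I_im, mul_one, sub_self, add_zero, Complex.add_im, Complex.mul_im,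
    zero_add]
  linear_combination ((z.im : ℂ) * A Complex.I) * h5

private theorem SV_one (A : ℂ →ₗ[ℝ] ℂ) : ∃ (v e : ℂ) (L μ : ℝ), Svd A v e L μ := by
  obtain ⟨α, hα⟩ : ∃ α, α = (A 1 - Complex.I * A Complex.I) / 2 := ⟨_, rfl⟩
  obtain ⟨β, hβ⟩ : ∃ β, β = (A 1 + Complex.I * A Complex.I) / 2 := ⟨_, rfl⟩
  have hA : ∀ z, A z = α * z + β * (starRingEnd ℂ) z := by
    intro z
    rw [hα, hβ]
    exact SV_form A z
  have ha : α = ‖α‖ * Complex.exp (Complex.arg α * Complex.I) :=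
    (Complex.norm_mul_exp_arg_mul_I α).symm
  have hb : β = ‖β‖ * Complex.exp (Complex.arg β * Complex.I) :=
    (Complex.norm_mul_exp_arg_mul_I β).symm
  obtain ⟨φ, hφ⟩ : ∃ φ : ℝ, φ = Complex.arg α := ⟨_, rfl⟩
  obtain ⟨ψ, hψ⟩ : ∃ ψ : ℝ, ψ = Complex.arg β := ⟨_, rfl⟩
  rw [← hφ] at ha
  rw [← hψ] at hb
  have h1 : α * Complex.exp (((ψ - φ) / 2 : ℝ) * Complex.I) =
      ‖α‖ * Complex.exp (((φ + ψ) / 2 : ℝ) * Complex.I) := by
    conv_lhs => rw [ha]
    rw [mul_assoc, ← Complex.exp_add]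
    congr 2
    push_cast
    ring
  have h2 : β * (starRingEnd ℂ) (Complex.exp (((ψ - φ) / 2 : ℝ) * Complex.I)) =
      ‖β‖ * Complex.exp (((φ + ψ) / 2 : ℝ) * Complex.I) := by
    rw [← Complex.exp_conj, map_mul, Complex.conj_ofReal, Complex.conj_I]
    conv_lhs => rw [hb]
    rw [mul_assoc, ← Complex.exp_add]
    congr 2
    push_cast
    ring
  refine ⟨Complex.exp (((ψ - φ) / 2 : ℝ) * Complex.I), Complex.exp (((φ + ψ) / 2 : ℝ) * Complex.I),
    ‖α‖ + ‖β‖, ‖α‖ - ‖β‖, Complex.norm_exp_ofReal_mul_I _, Complex.norm_exp_ofReal_mul_I _, ?_, ?_, ?_⟩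
  · have := norm_nonneg α
    have := norm_nonneg β
    rw [abs_le]
    constructor <;> linarith
  · rw [hA, h1, h2]
    push_cast
    ring
  · rw [hA, map_mul, Complex.conj_I]
    have e1 : α * (Complex.I * Complex.exp (((ψ - φ) / 2 : ℝ) * Complex.I)) =
        Complex.I * (α * Complex.exp (((ψ - φ) / 2 : ℝ) * Complex.I)) := by ring
    have e2 : β * (-Complex.I * (starRingEnd ℂ) (Complex.exp (((ψ - φ) / 2 : ℝ) * Complex.I))) =
        -Complex.I * (β * (starRingEnd ℂ) (Complex.exp (((ψ - φ) / 2 : ℝ) * Complex.I))) := by ring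
    rw [e1, e2, h1, h2]
    push_cast
    ring

theorem thm_SV : St_SV := by
  refine ⟨SV_one, ?_⟩
  rintro A v e L μ ⟨hv, he, hμ, h1, h2⟩ w
  obtain ⟨z, hz⟩ : ∃ z : ℂ, w = z * v := by
    have hv0 : v ≠ 0 := by
      rw [← norm_ne_zero_iff, hv]
      norm_num
    exact ⟨w / v, by field_simp⟩
  have hw : ‖w‖ = ‖z‖ := by rw [hz, norm_mul, hv, mul_one]
  have h3 : w = z.re • v + z.im • (Complex.I * v) := by
    rw [hz, Complex.real_smul, Complex.real_smul]
    conv_lhs => rw [← Complex.re_add_im z]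
    ring
  have h4 : A w = (⟨z.re * L, z.im * μ⟩ : ℂ) * e := by
    have e0 : (⟨z.re * L, z.im * μ⟩ : ℂ) = (z.re * L : ℝ) + (z.im * μ : ℝ) * Complex.I := by
      apply Complex.ext <;> simp
    rw [h3, map_add, map_smul, map_smul, Complex.real_smul, Complex.real_smul, h1, h2, e0]
    push_cast
    ring
  have hL : 0 ≤ L := (abs_nonneg μ).trans hμ
  have h5 : ‖A w‖ ^ 2 = (z.re * L) ^ 2 + (z.im * μ) ^ 2 := by
    rw [h4, norm_mul, he, mul_one, Complex.sq_norm, Complex.normSq_mk]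
    ring
  have h6 : ‖w‖ ^ 2 = z.re ^ 2 + z.im ^ 2 := by
    rw [hw, Complex.sq_norm, Complex.normSq_apply]
    ring
  have h7 : μ ^ 2 ≤ L ^ 2 := by
    rw [← sq_abs μ]
    exact pow_le_pow_left₀ (abs_nonneg μ) hμ 2
  constructor
  · apply le_of_sq_le_sq _ (norm_nonneg _)
    rw [mul_pow, sq_abs, h5, h6]
    nlinarith [sq_nonneg z.re, mul_le_mul_of_nonneg_left h7 (sq_nonneg z.re)]
  · apply le_of_sq_le_sq _ (mul_nonneg hL (norm_nonneg _))
    rw [mul_pow, h5, h6]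
    nlinarith [sq_nonneg z.im, mul_le_mul_of_nonneg_left h7 (sq_nonneg z.im)]

end RCE
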