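import Pool.Agent.RCE.St

/-!
# RCE: basic facts on the carpet (module TF)
-/

set_option autoImplicit false

namespace RCE

open Metric

theorem thm_TF : St_TF := by
  intro K
  have hcl : IsClosed K.T := by
    unfold Cp.T
    exact Metric.isClosed_closedBall.sdiff (isOpen_iUnion fun i => Metric.isOpen_ball)
  refine ⟨(isCompact_closedBall K.c₀ K.r₀).of_isClosed_subset hcl Set.sdiff_subset, ?_, ?_, ?_, ?_⟩
  · intro i p hp
    rw [Metric.mem_sphere] at hp
    have h1 : p ∈ closedBall (K.c i) (K.r i) := by rw [Metric.mem_closedBall]; exact hp.le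
    refine ⟨Metric.ball_subset_closedBall (K.sub i h1), ?_⟩
    intro h2
    rw [Set.mem_iUnion] at h2
    obtain ⟨j, hj⟩ := h2
    by_cases hij : i = j
    · subst hij
      rw [Metric.mem_ball] at hj
      linarith
    · exact Set.disjoint_left.mp (K.disj i j hij) h1 (Metric.ball_subset_closedBall hj)
  · intro p hp
    rw [Metric.mem_sphere] at hp
    refine ⟨by rw [Metric.mem_closedBall]; exact hp.le, ?_⟩
    intro h2
    rw [Set.mem_iUnion] at h2
    obtain ⟨j, hj⟩ := h2
    have h3 := K.sub j (Metric.ball_subset_closedBall hj)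
    rw [Metric.mem_ball] at h3
    linarith
  · intro y hy
    refine ⟨?_, fun i => ?_⟩
    · have := hy.1
      rwa [Metric.mem_closedBall, dist_eq_norm] at this
    · by_contra h
      push Not at h
      apply hy.2
      rw [Set.mem_iUnion]
      exact ⟨i, by rw [Metric.mem_ball, dist_eq_norm]; exact h⟩
  · intro y h1 h2
    refine ⟨by rw [Metric.mem_closedBall, dist_eq_norm]; exact h1, ?_⟩
    intro h3
    rw [Set.mem_iUnion] at h3
    obtain ⟨j, hj⟩ := h3
    rw [Metric.mem_ball, dist_eq_norm] at hj
    exact absurd (h2 j) (not_le.mpr hj)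

end RCE
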