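import Pool.Agent.RCE.St

/-!
# RCE, module TR3: three points of the carpet near `y` at scale `σ`
-/

set_option autoImplicit false

namespace RCE

open Metric

private theorem TR3_aux (σ d A B a b : ℝ) (hσ : 0 < σ) (hA : 0 < A) (hB : 0 < B) (hAa : A ≤ (a * σ) ^ 2) (hBb : B ≤ (b * σ) ^ 2)
    (ha : 0 < a) (hb : 0 < b) (hd : a * b * σ ≤ 10 * d) : 1 / 10 ≤ σ * d / (√A * √B) := by
  have h1 : 0 < √A := Real.sqrt_pos.2 hA
  have h2 : 0 < √B := Real.sqrt_pos.2 hB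
  have h3 : √A ≤ a * σ := by
    rw [← Real.sqrt_sq (by positivity : 0 ≤ a * σ)]
    exact Real.sqrt_le_sqrt hAa
  have h4 : √B ≤ b * σ := by
    rw [← Real.sqrt_sq (by positivity : 0 ≤ b * σ)]
    exact Real.sqrt_le_sqrt hBb
  rw [le_div_iff₀ (mul_pos h1 h2)]
  have h5 : √A * √B ≤ (a * σ) * (b * σ) := mul_le_mul h3 h4 h2.le (by positivity)
  have h6 : σ * (a * b * σ) ≤ σ * (10 * d) := mul_le_mul_of_nonneg_left hd hσ.le
  nlinarith [h5, h6]

theorem thm_TR3 (hSPH : St_SPH) : St_TR3 := by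
  intro K y σ hy hσ hr
  obtain ⟨z₁, hz₁, h1⟩ := hSPH K y σ hy hσ hr
  obtain ⟨z₂, hz₂, h2⟩ := hSPH K y (σ / 4) hy (by positivity) (by linarith)
  have h1' : ‖y - z₁‖ = σ := by rw [norm_sub_rev]; exact h1
  have h2' : ‖y - z₂‖ = σ / 4 := by rw [norm_sub_rev]; exact h2
  have h3 : ‖z₁ - z₂‖ ≤ σ + σ / 4 := by
    have h := norm_sub_le_norm_sub_add_norm_sub z₁ y z₂
    rw [h1, h2'] at h
    exact h
  have h4 : σ - σ / 4 ≤ ‖z₁ - z₂‖ := by
    have h := norm_sub_le_norm_sub_add_norm_sub z₁ z₂ y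
    rw [h1, h2] at h
    linarith
  have h0 : ‖y - y‖ = 0 := by simp
  have hs2 : 0 < σ ^ 2 := by positivity
  refine ⟨z₁, hz₁, z₂, hz₂, by rw [h1']; linarith, by linarith, by rw [h2'], by rw [h1']; linarith, by linarith,
    by rw [h2']; linarith, ?_, ?_, ?_⟩
  · unfold dd
    rw [h1', h0, h1]
    exact TR3_aux σ σ _ _ 1 2 hσ (by nlinarith) (by nlinarith) (by nlinarith) (by nlinarith) one_pos two_pos (by linarith)
  · unfold dd
    rw [h1, h2]
    exact TR3_aux σ _ _ _ 2 2 hσ (by nlinarith) (by nlinarith) (by nlinarith) (by nlinarith) two_pos two_pos (by linarith)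
  · unfold dd
    rw [h2', h0, h2]
    exact TR3_aux σ (σ / 4) _ _ 1 2 hσ (by nlinarith) (by nlinarith) (by nlinarith) (by nlinarith) one_pos two_pos (by linarith)

end RCE
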