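import Pool.Agent.RCE.St

/-!
# RCE: module UH (holes of a definite size)
-/

set_option autoImplicit false

namespace RCE

open Metric

theorem thm_UH (hUHA : St_UHA) (hTF : St_TF) : St_UH := by
  intro K η hη
  refine (hTF K).1.induction_on
    (p := fun S => ∃ c : ℝ, 0 < c ∧ ∀ y ∈ S, ∃ i, closedBall (K.c i) (K.r i) ⊆ ball y η ∧ c ≤ K.r i) ?_ ?_ ?_ ?_
  · exact ⟨1, one_pos, fun y hy => absurd hy (Set.notMem_empty y)⟩
  · rintro S S' hS ⟨c, hc, h⟩
    exact ⟨c, hc, fun y hy => h y (hS hy)⟩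
  · rintro S S' ⟨c, hc, h⟩ ⟨c', hc', h'⟩
    refine ⟨min c c', lt_min hc hc', ?_⟩
    rintro y (hy | hy)
    · obtain ⟨i, h1, h2⟩ := h y hy
      exact ⟨i, h1, (min_le_left _ _).trans h2⟩
    · obtain ⟨i, h1, h2⟩ := h' y hy
      exact ⟨i, h1, (min_le_right _ _).trans h2⟩
  · intro x hx
    obtain ⟨i, hi⟩ := hUHA K x (η / 2) hx (half_pos hη)
    refine ⟨ball x (η / 2), mem_nhdsWithin_of_mem_nhds (ball_mem_nhds x (half_pos hη)), K.r i, K.rpos i, ?_⟩
    intro y hy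
    refine ⟨i, fun z hz => ?_, le_rfl⟩
    have h1 := mem_ball.1 (hi hz)
    have h2 := mem_ball'.1 hy
    have h3 := dist_triangle z x y
    rw [mem_ball]
    linarith

end RCE
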