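import Pool.Agent.RCE.St

/-!
# RCE: module UHA, a hole in every ball
-/

set_option autoImplicit false

namespace RCE

open Metric

private lemma UHA_sep (K : Cp) (i j : ℕ) (h : i ≠ j) : K.r i < ‖K.c j - K.c i‖ := by
  by_contra hcon
  have h1 : K.c j ∈ closedBall (K.c i) (K.r i) := by
    rw [mem_closedBall, dist_eq_norm]
    exact not_lt.1 hcon
  have h2 : K.c j ∈ closedBall (K.c j) (K.r j) := mem_closedBall_self (K.rpos j).le
  exact Set.disjoint_left.1 (K.disj i j h) h1 h2

private lemma UHA_fin (hPK : St_PK) (K : Cp) (ε : ℝ) (hε : 0 < ε) :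
    {i : ℕ | ε ≤ K.r i}.Finite := by
  obtain ⟨N, hN⟩ := hPK (K.r₀ / ε)
  by_contra hinf
  have hinf' : {i : ℕ | ε ≤ K.r i}.Infinite := hinf
  obtain ⟨t, ht, htc⟩ := hinf'.exists_subset_card_eq (N + 1)
  have hcard : (t.image K.c).card = t.card := by
    apply Finset.card_image_of_injOn
    intro i hi j hj hij
    by_contra hne
    have h1 := UHA_sep K i j hne
    have h2 : K.c i = K.c j := hij
    rw [h2, sub_self, norm_zero] at h1
    exact absurd (K.rpos i) (not_lt.2 h1.le)
  have h3 := hN K.c₀ ε (t.image K.c) hε ?_ ?_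
  · omega
  · intro p hp q hq hpq
    obtain ⟨i, hi, rfl⟩ := Finset.mem_image.1 hp
    obtain ⟨j, hj, rfl⟩ := Finset.mem_image.1 hq
    have hne : j ≠ i := by
      rintro rfl
      exact hpq rfl
    have h4 : ε ≤ K.r j := ht hj
    exact h4.trans (UHA_sep K j i hne).le
  · intro q hq
    obtain ⟨i, hi, rfl⟩ := Finset.mem_image.1 hq
    rw [div_mul_cancel₀ _ hε.ne']
    have h5 : K.c i ∈ ball K.c₀ K.r₀ := K.sub i (mem_closedBall_self (K.rpos i).le)
    rw [mem_ball, dist_eq_norm] at h5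
    exact h5.le

theorem thm_UHA (hPK : St_PK) : St_UHA := by
  intro K y η hy hη
  by_contra hcon
  push Not at hcon
  have hbig : ∀ i z, z ∈ ball (K.c i) (K.r i) → z ∈ ball y (η / 2) → η / 4 ≤ K.r i := by
    intro i z hz1 hz2
    by_contra hlt
    apply hcon i
    intro w hw
    rw [mem_ball] at hz1 hz2 ⊢
    rw [mem_closedBall] at hw
    have h1 : dist w y ≤ dist w (K.c i) + dist (K.c i) y := dist_triangle _ _ _
    have h2 : dist (K.c i) y ≤ dist (K.c i) z + dist z y := dist_triangle _ _ _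
    have h3 : dist (K.c i) z = dist z (K.c i) := dist_comm _ _
    have h4 : K.r i < η / 4 := not_le.1 hlt
    linarith
  have hS := UHA_fin hPK K (η / 4) (by linarith)
  set S : Set ℕ := {i : ℕ | η / 4 ≤ K.r i} with hSdef
  have hclosed : ∀ S' : Set ℕ, S' ⊆ S → IsClosed (⋃ i ∈ S', closedBall (K.c i) (K.r i)) := by
    intro S' hS'
    exact (hS.subset hS').isClosed_biUnion fun i _ => isClosed_closedBall
  set U : Set ℂ := ball y (η / 2) ∩ ball K.c₀ K.r₀ with hU
  have hUopen : IsOpen U := isOpen_ball.inter isOpen_ball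
  have hyc : y ∈ closedBall K.c₀ K.r₀ := hy.1
  -- the open set is empty
  have hcov : U ⊆ ⋃ i ∈ S, closedBall (K.c i) (K.r i) := by
    have hO : IsOpen (U \ ⋃ i ∈ S, closedBall (K.c i) (K.r i)) :=
      hUopen.sdiff (hclosed S (le_refl S))
    have hOT : U \ (⋃ i ∈ S, closedBall (K.c i) (K.r i)) ⊆
        closedBall K.c₀ K.r₀ \ ⋃ i, ball (K.c i) (K.r i) := by
      intro p hp
      refine ⟨ball_subset_closedBall hp.1.2, ?_⟩
      intro hmem
      obtain ⟨i, hi⟩ := Set.mem_iUnion.1 hmem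
      have hiS : i ∈ S := hbig i p hi hp.1.1
      exact hp.2 (Set.mem_biUnion hiS (ball_subset_closedBall hi))
    have hsub := interior_maximal hOT hO
    rw [K.int] at hsub
    intro p hp
    by_contra hnot
    exact hsub ⟨hp, hnot⟩
  -- `y` is in the closure
  have hyU : y ∈ closure U := by
    have h1 : y ∈ closure (ball K.c₀ K.r₀) := by
      rw [closure_ball _ K.r₀pos.ne']
      exact hyc
    have h2 := isOpen_ball.inter_closure (s := ball y (η / 2)) (t := ball K.c₀ K.r₀)
      ⟨mem_ball_self (by linarith), h1⟩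
    exact h2
  have hUne : U.Nonempty := closure_nonempty_iff.1 ⟨y, hyU⟩
  have hUconn : IsPreconnected U :=
    ((convex_ball y (η / 2)).inter (convex_ball K.c₀ K.r₀)).isPreconnected
  obtain ⟨p, hp⟩ := hUne
  obtain ⟨j, hjS, hpj⟩ := Set.mem_iUnion₂.1 (hcov hp)
  have hUj : U ⊆ closedBall (K.c j) (K.r j) := by
    intro q hq
    by_contra hqn
    have hcl2 := hclosed (S \ {j}) Set.sdiff_subset
    have hcov2 : U ⊆ closedBall (K.c j) (K.r j) ∪ ⋃ i ∈ S \ {j}, closedBall (K.c i) (K.r i) := by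
      intro x hx
      obtain ⟨i, hiS, hxi⟩ := Set.mem_iUnion₂.1 (hcov hx)
      by_cases hij : i = j
      · left
        rw [← hij]
        exact hxi
      · right
        exact Set.mem_biUnion (show i ∈ S \ {j} from ⟨hiS, hij⟩) hxi
    have hq2 : q ∈ ⋃ i ∈ S \ {j}, closedBall (K.c i) (K.r i) := by
      rcases hcov2 hq with h | h
      · exact absurd h hqn
      · exact h
    obtain ⟨x, hx, hx1, hx2⟩ := isPreconnected_closed_iff.1 hUconn _ _ isClosed_closedBall hcl2
      hcov2 ⟨p, hp, hpj⟩ ⟨q, hq, hq2⟩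
    obtain ⟨i, hi, hxi⟩ := Set.mem_iUnion₂.1 hx2
    have hij : j ≠ i := fun h => hi.2 h.symm
    exact Set.disjoint_left.1 (K.disj j i hij) hx1 hxi
  have hyj : y ∈ closedBall (K.c j) (K.r j) := closure_minimal hUj isClosed_closedBall hyU
  have hy0 : y ∈ ball K.c₀ K.r₀ := K.sub j hyj
  have hyin : y ∈ interior (closedBall (K.c j) (K.r j)) :=
    interior_maximal hUj hUopen ⟨mem_ball_self (by linarith), hy0⟩
  rw [interior_closedBall _ (K.rpos j).ne'] at hyin
  exact hy.2 (Set.mem_iUnion.2 ⟨j, hyin⟩)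

end RCE
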