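import Pool.Agent.RCE.St

/-!
# RCE, module VV: no non conformal affine behaviour (offer 16387, helper81)
-/

set_option autoImplicit false

namespace RCE

open Metric

/-- the image of the small part of the carpet -/
private theorem VV_dist {T : Set ℂ} {f : ℂ → ℂ} {x : ℂ} {R err l : ℝ} {A : ℂ →ₗ[ℝ] ℂ}
    (hN : Near T f x R A err) (hl : ∀ w, l * ‖w‖ ≤ ‖A w‖) {p q : ℂ} (hp : p ∈ T) (hq : q ∈ T)
    (hpx : ‖p - x‖ < R) (hqx : ‖q - x‖ < R) : l * ‖p - q‖ - 2 * err ≤ ‖f p - f q‖ := by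
  have h1 := hN p hp hpx
  have h2 := hN q hq hqx
  have h3 := hl (p - q)
  have h4 : A (p - q) = (f p - f q) - (f p - f x - A (p - x)) + (f q - f x - A (q - x)) := by
    have : p - q = (p - x) - (q - x) := by ring
    rw [this, map_sub]
    ring
  have h5 : ‖A (p - q)‖ ≤ ‖f p - f q‖ + ‖f p - f x - A (p - x)‖ + ‖f q - f x - A (q - x)‖ := by
    rw [h4]
    refine le_trans (norm_add_le _ _) ?_
    have := norm_sub_le (f p - f q) (f p - f x - A (p - x))
    linarith
  linarith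

theorem thm_VV (hPOR : St_POR) (hITR : St_ITR) (hCLS : St_CLS) (hNNB : St_NNB) (hDBL : St_DBL)
    (hSV : St_SV) : St_VV := by
  intro K Γ hG ε₁ M hε₁ hε₁1 hM
  obtain ⟨c, hc, hc1, hpor⟩ := hPOR K Γ hG
  obtain ⟨C, hC, hcls⟩ := hCLS K Γ hG
  obtain ⟨C₂, hC₂, hdbl⟩ := hDBL (4 * M) (by linarith)
  have hM0 : 0 < M := by linarith
  have hC0 : 0 < C := by linarith
  have hC₂0 : 0 < C₂ := by linarith
  have hκ : 0 < c * ε₁ / (24 * M) := by positivity
  have hκ1 : c * ε₁ / (24 * M) ≤ 1 := by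
    rw [div_le_one (by positivity)]
    have : c * ε₁ ≤ 1 * 1 := mul_le_mul hc1 hε₁1 hε₁.le (by norm_num)
    linarith
  obtain ⟨t₀, ht₀, ht₀1, -, hitr⟩ := hITR K Γ hG (c * ε₁ / (24 * M)) (1 / (2 * C * C₂)) 1 hκ hκ1
    (by positivity) (by norm_num)
  refine ⟨min (c * ε₁ * t₀ / 48) (t₀ / 4), lt_min (by positivity) (by positivity), ?_⟩
  intro R x f A v e L μ hx hR hRr h3M hf hsvd hμ hεL hLM hnear
  have hθ1 : min (c * ε₁ * t₀ / 48) (t₀ / 4) ≤ c * ε₁ * t₀ / 48 := min_le_left _ _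
  have hθ2 : min (c * ε₁ * t₀ / 48) (t₀ / 4) ≤ t₀ / 4 := min_le_right _ _
  have hθ0 : 0 < min (c * ε₁ * t₀ / 48) (t₀ / 4) := lt_min (by positivity) (by positivity)
  have hpor' := hpor ε₁ M (min (c * ε₁ * t₀ / 48) (t₀ / 4)) R x f A v e L μ hε₁ hε₁1 hM hθ0.le hx hR
    hRr hf hsvd hμ hεL hLM hnear
  generalize min (c * ε₁ * t₀ / 48) (t₀ / 4) = θ at *
  have hsv := hSV.2 A v e L μ hsvd
  have hl : 0 < |μ| := abs_pos.2 hμ
  generalize |μ| = l at *
  have hL0 : 0 < L := by nlinarith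
  have hr : 0 < M * l * R := by positivity
  have h3r : 3 * (M * l * R) ≤ K.r₀ := by linarith
  have hfx : f x ∈ K.T := hf x hx (by rw [sub_self, norm_zero]; exact hR)
  have hlR : 0 < l * R := mul_pos hl hR
  have hθlR : θ * l * R ≤ t₀ / 4 * (l * R) := by
    rw [mul_assoc]
    exact mul_le_mul_of_nonneg_right hθ2 hlR.le
  have hMlR : l * R ≤ M * l * R := by
    rw [mul_assoc]
    have := mul_le_mul_of_nonneg_right hM hlR.le
    linarith
  have hE : f '' (K.T ∩ ball x (R / 2)) ⊆ K.T ∩ ball (f x) (M * l * R) := by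
    rintro _ ⟨y, ⟨hy, hyx⟩, rfl⟩
    rw [mem_ball, dist_eq_norm] at hyx
    refine ⟨hf y hy (by linarith), ?_⟩
    rw [mem_ball, dist_eq_norm]
    have h1 := hnear y hy (by linarith)
    have h2 := (hsv (y - x)).2
    have h3 : ‖f y - f x‖ ≤ ‖f y - f x - A (y - x)‖ + ‖A (y - x)‖ := by
      have := norm_add_le (f y - f x - A (y - x)) (A (y - x))
      rwa [sub_add_cancel] at this
    have h4 : L * ‖y - x‖ < L * (R / 2) := mul_lt_mul_of_pos_left hyx hL0
    have h5 : L * (R / 2) ≤ M * l * (R / 2) := mul_le_mul_of_nonneg_right hLM (by linarith)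
    have h6 : t₀ / 4 * (l * R) ≤ 1 / 4 * (l * R) := mul_le_mul_of_nonneg_right (by linarith) hlR.le
    have h7 : M * l * (R / 2) = M * l * R / 2 := by ring
    linarith
  have hEb : Bornology.IsBounded (f '' (K.T ∩ ball x (R / 2))) :=
    isBounded_ball.subset (hE.trans Set.inter_subset_right)
  have hit := hitr (f x) (M * l * R) (f '' (K.T ∩ ball x (R / 2))) hfx hr h3r hE (by
    rintro ρ' h1 h2 _ ⟨y, ⟨hy, hyx⟩, rfl⟩
    rw [mem_ball, dist_eq_norm] at hyx
    have h3Ml : 0 < 3 * M * l := by positivity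
    have h3 : ρ' / (3 * M * l) ≤ R / 3 := by
      rw [div_le_div_iff₀ h3Ml (by norm_num)]
      calc ρ' * 3 ≤ (M * l * R) * 3 := by linarith
        _ = R * (3 * M * l) := by ring
    have h4 : t₀ * R / 3 ≤ ρ' / (3 * M * l) := by
      rw [div_le_div_iff₀ (by norm_num) h3Ml]
      calc t₀ * R * (3 * M * l) = (t₀ * (M * l * R)) * 3 := by ring
        _ ≤ ρ' * 3 := by linarith
    have hρ : 0 < ρ' / (3 * M * l) := lt_of_lt_of_le (by positivity) h4
    obtain ⟨τ, hτ, hτ1, hτ2⟩ := hpor' y (ρ' / (3 * M * l)) hy hyx hρ (by linarith) (by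
      calc 16 * θ * R ≤ 16 * (c * ε₁ * t₀ / 48) * R := by
            refine mul_le_mul_of_nonneg_right ?_ hR.le
            linarith
        _ = c * ε₁ * (t₀ * R / 3) := by ring
        _ ≤ c * ε₁ * (ρ' / (3 * M * l)) := mul_le_mul_of_nonneg_left h4 (by positivity))
    refine ⟨τ, hτ, ?_, ?_⟩
    · calc ‖τ - f y‖ ≤ 3 * M * l * (ρ' / (3 * M * l)) := hτ1
        _ = ρ' := by field_simp
    · rintro _ ⟨p, ⟨hp, hpx⟩, rfl⟩
      rw [mem_ball, dist_eq_norm] at hpx
      calc c * ε₁ / (24 * M) * ρ' = c * ε₁ * l * (ρ' / (3 * M * l)) / 8 := by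
            field_simp
            ring
        _ ≤ ‖f p - τ‖ := hτ2 p hp (by linarith))
  have ht₀r : 0 < t₀ * (M * l * R) := by positivity
  have hZ : (1 : ℝ) ≤ (NN (K.T ∩ ball (f x) (M * l * R)) (t₀ * (M * l * R)) : ℝ) := by
    have h1 := (hNNB (K.T ∩ ball (f x) (M * l * R)) (t₀ * (M * l * R))
      (isBounded_ball.subset Set.inter_subset_right) ht₀r).1 {f x} (by
        intro p hp
        rw [Finset.coe_singleton, Set.mem_singleton_iff] at hp
        rw [hp]
        exact ⟨hfx, mem_ball_self hr⟩) (by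
        intro p hp q hq hpq
        rw [Finset.mem_singleton] at hp hq
        exact absurd (hp.trans hq.symm) hpq)
    rw [Finset.card_singleton] at h1
    exact_mod_cast h1
  have hs : 0 < 4 * t₀ * M * (R / 2) := by positivity
  have hF : (NN (K.T ∩ ball x (R / 2)) (4 * t₀ * M * (R / 2)) : ℝ) ≤
      NN (f '' (K.T ∩ ball x (R / 2))) (t₀ * (M * l * R)) := by
    obtain ⟨F, hFs, hFsep, hFc, -⟩ := (hNNB (K.T ∩ ball x (R / 2)) (4 * t₀ * M * (R / 2))
      (isBounded_ball.subset Set.inter_subset_right) hs).2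
    have hsep : ∀ p ∈ F, ∀ q ∈ F, p ≠ q → t₀ * (M * l * R) ≤ ‖f p - f q‖ := by
      intro p hp q hq hpq
      have h1 := hFs hp
      have h2 := hFs hq
      have h3 := h1.2
      have h4 := h2.2
      rw [mem_ball, dist_eq_norm] at h3 h4
      have h5 := VV_dist hnear (fun w => (hsv w).1) h1.1 h2.1 (by linarith) (by linarith)
      have h6 := hFsep p hp q hq hpq
      have h7 : l * (4 * t₀ * M * (R / 2)) ≤ l * ‖p - q‖ := mul_le_mul_of_nonneg_left h6 hl.le
      have h8 : l * (4 * t₀ * M * (R / 2)) = 2 * (t₀ * (M * l * R)) := by ring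
      have h9 : t₀ / 4 * (l * R) ≤ t₀ / 4 * (M * l * R) := mul_le_mul_of_nonneg_left hMlR (by positivity)
      linarith
    have hinj : Set.InjOn f (F : Set ℂ) := by
      intro p hp q hq hpq
      by_contra hne
      have h1 := hsep p hp q hq hne
      rw [hpq, sub_self, norm_zero] at h1
      linarith
    have h1 := (hNNB (f '' (K.T ∩ ball x (R / 2))) (t₀ * (M * l * R)) hEb ht₀r).1 (F.image f) (by
        rw [Finset.coe_image]
        exact Set.image_mono hFs) (by
        intro p hp q hq hpq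
        obtain ⟨p', hp', rfl⟩ := Finset.mem_image.1 hp
        obtain ⟨q', hq', rfl⟩ := Finset.mem_image.1 hq
        exact hsep p' hp' q' hq' (fun h => hpq (by rw [h])))
    rw [Finset.card_image_of_injOn hinj, hFc] at h1
    exact_mod_cast h1
  have hcl := hcls (f x) x (M * l * R) (R / 2) (4 * t₀ * M) hfx hx hr (by linarith) (by linarith)
    (by linarith) (by positivity)
  have hdb := hdbl (K.T ∩ ball (f x) (M * l * R)) (t₀ * (M * l * R))
    (isBounded_ball.subset Set.inter_subset_right) ht₀r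
  have e1 : 4 * M * (t₀ * (M * l * R)) = 4 * t₀ * M * (M * l * R) := by ring
  rw [e1] at hdb
  generalize (NN (K.T ∩ ball (f x) (M * l * R)) (t₀ * (M * l * R)) : ℝ) = Z at *
  generalize (NN (K.T ∩ ball (f x) (M * l * R)) (4 * t₀ * M * (M * l * R)) : ℝ) = Z1 at *
  generalize (NN (K.T ∩ ball x (R / 2)) (4 * t₀ * M * (R / 2)) : ℝ) = Z2 at *
  generalize (NN (f '' (K.T ∩ ball x (R / 2))) (t₀ * (M * l * R)) : ℝ) = Z3 at *
  have h1 : Z ≤ C₂ * (C * (1 / (2 * C * C₂) * Z)) := by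
    calc Z ≤ C₂ * Z1 := hdb
      _ ≤ C₂ * (C * Z2) := mul_le_mul_of_nonneg_left hcl hC₂0.le
      _ ≤ C₂ * (C * (1 / (2 * C * C₂) * Z)) := by
          refine mul_le_mul_of_nonneg_left (mul_le_mul_of_nonneg_left ?_ hC0.le) hC₂0.le
          linarith
  have h2 : C₂ * (C * (1 / (2 * C * C₂) * Z)) = Z / 2 := by
    field_simp
  rw [h2] at h1
  linarith

end RCE
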