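import Pool.Agent.RCE.St

/-!
# RCE, module WIN: choice of the scale
-/

set_option autoImplicit false

namespace RCE

open Metric

private theorem WIN_low {T : Set ℂ} {f : ℂ → ℂ} {x p : ℂ} {R l M θ : ℝ} {A : ℂ →ₗ[ℝ] ℂ}
    (hR : 0 < R) (hθ : θ ≤ 1 / 8) (hA : Dist A l M) (hN : Near T f x R A (θ * l * R))
    (hp : p ∈ T) (hpx : ‖p - x‖ = R / 4) : l * R / 8 ≤ ‖f p - f x‖ := by
  have h1 := hN p hp (by rw [hpx]; linarith)
  have h2 := (hA.2 (p - x)).1
  rw [hpx] at h2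
  have h3 : ‖A (p - x)‖ ≤ ‖f p - f x‖ + ‖f p - f x - A (p - x)‖ := by
    have := norm_sub_le (f p - f x) (f p - f x - A (p - x))
    rwa [sub_sub_cancel] at this
  have h4 : θ * l * R ≤ 1 / 8 * (l * R) := by
    have := mul_le_mul_of_nonneg_right hθ (mul_pos hA.1 hR).le
    linarith
  linarith

private theorem WIN_up {T : Set ℂ} {f : ℂ → ℂ} {x p : ℂ} {R l M θ : ℝ} {A : ℂ →ₗ[ℝ] ℂ}
    (hR : 0 < R) (hM : 1 ≤ M) (hθ : θ ≤ 1 / 8) (hA : Dist A l M)
    (hN : Near T f x R A (θ * l * R))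
    (hp : p ∈ T) (hpx : ‖p - x‖ = R / 2) : ‖f p - f x‖ ≤ M * (l * R) := by
  have h1 := hN p hp (by rw [hpx]; linarith)
  have h2 := (hA.2 (p - x)).2
  rw [hpx] at h2
  have h3 : ‖f p - f x‖ ≤ ‖f p - f x - A (p - x)‖ + ‖A (p - x)‖ := by
    have := norm_add_le (f p - f x - A (p - x)) (A (p - x))
    rwa [sub_add_cancel] at this
  have h0 := mul_pos hA.1 hR
  have h4 : θ * l * R ≤ 1 / 8 * (l * R) := by
    have := mul_le_mul_of_nonneg_right hθ h0.le
    linarith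
  have h5 : l * R ≤ M * (l * R) := by
    have := mul_le_mul_of_nonneg_right hM h0.le
    linarith
  have h6 : M * l * (R / 2) = M * (l * R) / 2 := by ring
  linarith

theorem thm_WIN (hSPH : St_SPH) : St_WIN := by
  intro K x f M θ R₁ hx hM hθ0 hθ hR₁ hRr hN hc ε₂ η hε hη
  have hRk : ∀ k : ℕ, 0 < R₁ / 2 ^ k := fun k => by positivity
  have hRk1 : ∀ k : ℕ, R₁ / 2 ^ k ≤ R₁ := fun k => div_le_self hR₁.le (one_le_pow₀ one_le_two)
  choose A l hA hNk using fun k : ℕ => hN (R₁ / 2 ^ k) (hRk k) (hRk1 k)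
  obtain ⟨t, ht⟩ : ∃ t : ℕ → ℝ, ∀ k, t k = l k * (R₁ / 2 ^ k) := ⟨_, fun k => rfl⟩
  have htp : ∀ k, 0 < t k := fun k => by
    rw [ht k]
    exact mul_pos (hA k).1 (hRk k)
  -- points at the distance `R_k / 4`
  choose p hpT hpx using fun k : ℕ => hSPH K x (R₁ / 2 ^ k / 4) hx
    (by have := hRk k; linarith) (by have := hRk k; have := hRk1 k; linarith)
  have hlow : ∀ k, t k / 8 ≤ ‖f (p k) - f x‖ := fun k => by
    rw [ht k]
    exact WIN_low (hRk k) hθ (hA k) (hNk k) (hpT k) (hpx k)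
  have hstep : ∀ k, t k ≤ 8 * M * t (k + 1) := fun k => by
    have h1 := hlow k
    have h2 : ‖f (p k) - f x‖ ≤ M * (l (k + 1) * (R₁ / 2 ^ (k + 1))) := by
      refine WIN_up (hRk (k + 1)) hM hθ (hA (k + 1)) (hNk (k + 1)) (hpT k) ?_
      rw [hpx k, pow_succ]
      field_simp
      norm_num
    rw [← ht (k + 1)] at h2
    linarith
  have hsmall : ∀ δ : ℝ, 0 < δ → ∃ k, t k < δ := by
    intro δ hδ
    rw [Metric.continuousWithinAt_iff] at hc
    obtain ⟨ρ, hρ, hcρ⟩ := hc (δ / 8) (by positivity)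
    obtain ⟨k, hk⟩ := exists_pow_lt_of_lt_one (div_pos hρ hR₁) (by norm_num : (1 / 2 : ℝ) < 1)
    refine ⟨k, ?_⟩
    have h1 : R₁ / 2 ^ k < ρ := by
      rw [one_div, inv_pow, lt_div_iff₀ hR₁] at hk
      have e : R₁ / 2 ^ k = (2 ^ k)⁻¹ * R₁ := by
        rw [div_eq_mul_inv, mul_comm]
      rw [e]
      exact hk
    have h2 := hcρ (hpT k) (by
      rw [dist_eq_norm, hpx k]
      have := hRk k
      linarith)
    rw [dist_eq_norm] at h2
    have h3 := hlow k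
    linarith
  refine ⟨min (ε₂ * t 0) (ε₂ * η / (8 * M)), lt_min (mul_pos hε (htp 0)) (by positivity), ?_⟩
  intro d hd hd0
  have hex : ∃ k, ε₂ * t k < d := by
    obtain ⟨k, hk⟩ := hsmall (d / ε₂) (div_pos hd hε)
    exact ⟨k, by rw [lt_div_iff₀ hε] at hk; linarith⟩
  classical
  obtain ⟨m, hm, hmin⟩ : ∃ m, ε₂ * t m < d ∧ ∀ k < m, ¬ ε₂ * t k < d :=
    ⟨Nat.find hex, Nat.find_spec hex, fun k hk => Nat.find_min hex hk⟩
  have hm0 : m ≠ 0 := by
    intro h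
    rw [h] at hm
    exact absurd hm (not_lt.2 (le_trans hd0.le (min_le_left _ _)))
  obtain ⟨k, rfl⟩ := Nat.exists_eq_succ_of_ne_zero hm0
  have h1 : d ≤ ε₂ * t k := not_lt.1 (hmin k (Nat.lt_succ_self k))
  have h2 : ε₂ * t k ≤ 8 * M * d := by
    have h3 := mul_le_mul_of_nonneg_left (hstep k) hε.le
    have h4 : 8 * M * (ε₂ * t (k + 1)) ≤ 8 * M * d :=
      mul_le_mul_of_nonneg_left hm.le (by positivity)
    have e : ε₂ * (8 * M * t (k + 1)) = 8 * M * (ε₂ * t (k + 1)) := by ring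
    rw [e] at h3
    exact h3.trans h4
  have h5 : t k ≤ η := by
    have h6 : d * (8 * M) < ε₂ * η := by
      have := lt_of_lt_of_le hd0 (min_le_right _ _)
      rwa [lt_div_iff₀ (by positivity)] at this
    have h7 : ε₂ * t k ≤ ε₂ * η := by linarith
    exact le_of_mul_le_mul_left h7 hε
  refine ⟨R₁ / 2 ^ k, l k, A k, hRk k, hRk1 k, hA k, hNk k, ?_, ?_, ?_⟩
  · rw [← ht k]
    exact h5
  · rw [← ht k]
    exact h2
  · rw [← ht k]
    exact h1

end RCE
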