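import Pool.Agent.RCE.St

/-!
# RCE: module XB (helper61): a maximal separated set is uniformly distributed
-/

set_option autoImplicit false

namespace RCE

open Metric

theorem XB_bdd (K : Cp) (hTF : St_TF) (z : ℂ) (ρ : ℝ) : Bornology.IsBounded (K.T ∩ ball z ρ) :=
  ((hTF K).1.isBounded).subset Set.inter_subset_left

/-- step (1) -/
theorem XB_one (K : Cp) (hTF : St_TF) (hNNB : St_NNB) (y : ℂ) (r s : ℝ) (X : Finset ℂ)
    (hX : Mx K y r s X) (z : ℂ) (ρ : ℝ) : cn X z ρ ≤ NN (K.T ∩ ball z ρ) s := by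
  classical
  obtain ⟨_, hs, _, _, hXT, hsep, _⟩ := hX
  have h := (hNNB (K.T ∩ ball z ρ) s (XB_bdd K hTF z ρ) hs).1 (X.filter fun x => ‖x - z‖ < ρ) ?_ ?_
  · unfold cn
    refine le_trans (le_of_eq ?_) h
    congr
  · intro x hx
    rw [Finset.mem_coe, Finset.mem_filter] at hx
    refine ⟨(hXT x hx.1).1, ?_⟩
    rw [mem_ball, dist_eq_norm]
    exact hx.2
  · intro p hp q hq hpq
    rw [Finset.mem_filter] at hp hq
    exact hsep p hp.1 q hq.1 hpq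

/-- step (2) -/
theorem XB_two (K : Cp) (hTF : St_TF) (hNNB : St_NNB) (N : ℕ)
    (hN : ∀ (p : ℂ) (s : ℝ) (F : Finset ℂ), 0 < s → Sep s F → (∀ q ∈ F, ‖q - p‖ ≤ 1 * s) → F.card ≤ N)
    (y : ℂ) (r s : ℝ) (X : Finset ℂ) (hX : Mx K y r s X) (z : ℂ) (σ : ℝ) (hz : ‖z - y‖ < 2 * r)
    (hσ : σ ≤ r) (hs : s ≤ σ) : NN (K.T ∩ ball z σ) s ≤ N * cn X z (2 * σ) := by
  classical
  obtain ⟨_, hs0, hr, _, hXT, hsep, hmax⟩ := hX
  obtain ⟨F, hFE, hFs, hFc, _⟩ := (hNNB (K.T ∩ ball z σ) s (XB_bdd K hTF z σ) hs0).2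
  rw [← hFc]
  have hch : ∀ p ∈ F, ∃ x ∈ X, ‖p - x‖ < s := by
    intro p hp
    obtain ⟨hpT, hpb⟩ := hFE hp
    rw [mem_ball, dist_eq_norm] at hpb
    apply hmax p hpT
    have : ‖p - y‖ ≤ ‖p - z‖ + ‖z - y‖ := by
      have := norm_add_le (p - z) (z - y)
      simpa using this
    linarith
  choose! g hgX hg using hch
  have h1 : F.card ≤ N * (F.image g).card := by
    apply Finset.card_le_mul_card_image
    intro x _
    apply hN x s _ hs0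
    · intro p hp q hq hpq
      rw [Finset.mem_filter] at hp hq
      exact hFs p hp.1 q hq.1 hpq
    · intro q hq
      rw [Finset.mem_filter] at hq
      rw [← hq.2, one_mul]
      exact (hg q hq.1).le
  refine h1.trans (Nat.mul_le_mul_left N ?_)
  unfold cn
  refine (Finset.card_le_card (t := X.filter fun x => ‖x - z‖ < 2 * σ) ?_).trans (le_of_eq ?_)
  · intro x hx
    rw [Finset.mem_image] at hx
    obtain ⟨p, hp, rfl⟩ := hx
    rw [Finset.mem_filter]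
    refine ⟨hgX p hp, ?_⟩
    obtain ⟨_, hpb⟩ := hFE hp
    rw [mem_ball, dist_eq_norm] at hpb
    have h2 : ‖g p - z‖ ≤ ‖g p - p‖ + ‖p - z‖ := by
      have := norm_add_le (g p - p) (p - z)
      simpa using this
    have h3 := hg p hp
    rw [norm_sub_rev] at h3
    linarith
  · congr

theorem thm_XB (hCLS : St_CLS) (hNNB : St_NNB) (hDBL : St_DBL) (hPK : St_PK) (_hMON : St_MON)
    (hTF : St_TF) : St_XB := by
  intro K Γ hG κ hκ hκ1
  obtain ⟨C, hC, hcls⟩ := hCLS K Γ hG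
  have hk : (1 : ℝ) ≤ 20 / κ := by
    rw [le_div_iff₀ hκ]
    linarith
  obtain ⟨C₂, hC₂, hdbl⟩ := hDBL (20 / κ) hk
  obtain ⟨N, hN⟩ := hPK 1
  refine ⟨C₂ * C * (N + 1), ?_, ?_⟩
  · have h0 : (0 : ℝ) ≤ N := Nat.cast_nonneg N
    have h1 : 1 ≤ C₂ * C := one_le_mul_of_one_le_of_one_le hC₂ hC
    nlinarith
  intro y r s X hX z z' ρ hz hz' hzy hzy' hρ hρr hsρ
  have hs0 : 0 < s := hX.2.1
  have hr : 0 < r := hX.2.2.1
  have hr0 : 3 * r ≤ K.r₀ := hX.2.2.2.1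
  have hκρ : κ * ρ ≤ ρ := by nlinarith
  have hκρ0 : 0 < κ * ρ := mul_pos hκ hρ
  have e1 : (cn X z (5 * ρ) : ℝ) ≤ NN (K.T ∩ ball z (5 * ρ)) s := by
    exact_mod_cast XB_one K hTF hNNB y r s X hX z (5 * ρ)
  have e2 := hdbl (K.T ∩ ball z (5 * ρ)) s (XB_bdd K hTF z (5 * ρ)) hs0
  have e3 := hcls z z' (5 * ρ) (κ * ρ / 4) (4 * s / (κ * ρ)) hz hz' (by linarith) (by linarith)
    (by linarith) (by linarith) (by positivity)
  have t1 : 4 * s / (κ * ρ) * (5 * ρ) = 20 / κ * s := by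
    field_simp
    ring
  have t2 : 4 * s / (κ * ρ) * (κ * ρ / 4) = s := by
    field_simp
  rw [t1, t2] at e3
  have e4 : (NN (K.T ∩ ball z' (κ * ρ / 4)) s : ℝ) ≤ N * cn X z' (κ * ρ / 2) := by
    have h := XB_two K hTF hNNB N hN y r s X hX z' (κ * ρ / 4) hzy' (by linarith) (by linarith)
    rw [show 2 * (κ * ρ / 4) = κ * ρ / 2 by ring] at h
    exact_mod_cast h
  have hcn : (0 : ℝ) ≤ cn X z' (κ * ρ / 2) := Nat.cast_nonneg _
  have h2 : (0 : ℝ) ≤ C₂ := by linarith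
  have hC0 : (0 : ℝ) ≤ C := by linarith
  calc (cn X z (5 * ρ) : ℝ) ≤ NN (K.T ∩ ball z (5 * ρ)) s := e1
    _ ≤ C₂ * NN (K.T ∩ ball z (5 * ρ)) (20 / κ * s) := e2
    _ ≤ C₂ * (C * NN (K.T ∩ ball z' (κ * ρ / 4)) s) := mul_le_mul_of_nonneg_left e3 h2
    _ ≤ C₂ * (C * (N * cn X z' (κ * ρ / 2))) :=
      mul_le_mul_of_nonneg_left (mul_le_mul_of_nonneg_left e4 hC0) h2
    _ ≤ C₂ * C * (N + 1) * cn X z' (κ * ρ / 2) := by
      have : 0 ≤ C₂ * C * cn X z' (κ * ρ / 2) := by positivity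
      nlinarith

end RCE
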