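import Pool.Agent.RCE.ALM
import Pool.Agent.RCE.ARC
import Pool.Agent.RCE.BL
import Pool.Agent.RCE.BS
import Pool.Agent.RCE.BSA
import Pool.Agent.RCE.CC
import Pool.Agent.RCE.CH
import Pool.Agent.RCE.CLS
import Pool.Agent.RCE.CMP
import Pool.Agent.RCE.CNF
import Pool.Agent.RCE.DBL
import Pool.Agent.RCE.DIF
import Pool.Agent.RCE.DT
import Pool.Agent.RCE.EX
import Pool.Agent.RCE.FA
import Pool.Agent.RCE.FB
import Pool.Agent.RCE.FC
import Pool.Agent.RCE.FIN
import Pool.Agent.RCE.GEA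
import Pool.Agent.RCE.GEC
import Pool.Agent.RCE.HOL
import Pool.Agent.RCE.IMZ
import Pool.Agent.RCE.ITR
import Pool.Agent.RCE.KEY
import Pool.Agent.RCE.LA
import Pool.Agent.RCE.LCF
import Pool.Agent.RCE.MC
import Pool.Agent.RCE.MI
import Pool.Agent.RCE.MON
import Pool.Agent.RCE.MOV
import Pool.Agent.RCE.NF
import Pool.Agent.RCE.NNB
import Pool.Agent.RCE.NTB
import Pool.Agent.RCE.OPN
import Pool.Agent.RCE.PK
import Pool.Agent.RCE.POR
import Pool.Agent.RCE.PS
import Pool.Agent.RCE.QMC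
import Pool.Agent.RCE.QSL
import Pool.Agent.RCE.SPH
import Pool.Agent.RCE.SRJ
import Pool.Agent.RCE.STB
import Pool.Agent.RCE.STP
import Pool.Agent.RCE.SV
import Pool.Agent.RCE.TF
import Pool.Agent.RCE.TR3
import Pool.Agent.RCE.UH
import Pool.Agent.RCE.UHA
import Pool.Agent.RCE.VV
import Pool.Agent.RCE.WIN
import Pool.Agent.RCE.XB

/-!
# RCE: assembly of the modules
-/

set_option autoImplicit false

namespace RCE

theorem all_SPH : St_SPH := thm_SPH thm_CC thm_TF
theorem all_NNB : St_NNB := thm_NNB thm_PK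
theorem all_MON : St_MON := thm_MON all_NNB
theorem all_DBL : St_DBL := thm_DBL all_NNB thm_PK
theorem all_TR3 : St_TR3 := thm_TR3 all_SPH
theorem all_UH : St_UH := thm_UH (thm_UHA thm_PK) thm_TF
theorem all_CMP : St_CMP := thm_CMP thm_LA thm_TF
theorem all_FA : St_FA := thm_FA all_TR3 thm_MI all_CMP
theorem all_FB : St_FB := thm_FB all_FA thm_MI all_CMP thm_DT
theorem all_FC : St_FC := thm_FC all_TR3 thm_LA
theorem all_BL : St_BL := thm_BL thm_TF
theorem all_BSA : St_BSA := thm_BSA (thm_NF thm_TF all_BL) (thm_EX all_FA) thm_TF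
theorem all_BS : St_BS := thm_BS all_BSA all_BL all_NNB all_DBL thm_TF
theorem all_CLS : St_CLS := thm_CLS all_FA all_BS all_NNB all_DBL
theorem all_HOL : St_HOL := thm_HOL all_FA all_UH (thm_MC thm_TF) all_SPH thm_TF
theorem all_GEC : St_GEC := thm_GEC thm_CC thm_GEA thm_TF
theorem all_POR : St_POR := thm_POR all_HOL thm_SV all_GEC
theorem all_XB : St_XB := thm_XB all_CLS all_NNB all_DBL thm_PK all_MON thm_TF
theorem all_STP : St_STP := thm_STP all_XB all_NNB
theorem all_ITR : St_ITR := thm_ITR all_STP all_NNB thm_PK all_CLS all_DBL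
theorem all_VV : St_VV := thm_VV all_POR all_ITR all_CLS all_NNB all_DBL thm_SV
theorem all_PS : St_PS := thm_PS (thm_CH thm_PK)
theorem all_MOV : St_MOV := thm_MOV all_FB all_FC all_SPH thm_DT
theorem all_CNF : St_CNF := thm_CNF all_PS all_MOV (thm_IMZ thm_DT) all_TR3 thm_DT
theorem all_KEY : St_KEY := thm_KEY all_CNF all_VV thm_SV
theorem all_LCF : St_LCF := thm_LCF thm_ARC thm_CC thm_TF
theorem all_OPN : St_OPN := thm_OPN all_KEY (thm_WIN all_SPH) (thm_NTB all_LCF) thm_TF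
theorem all_SRJ : St_SRJ := thm_SRJ all_LCF thm_TF
theorem all_QSL : St_QSL := thm_QSL (thm_ALM all_SPH) thm_STB
theorem main : Main := thm_FIN all_OPN all_SRJ thm_DIF all_QSL (thm_QMC all_SPH) thm_TF

end RCE
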