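import Mathlib

/-!
# RCE: self maps of round group carpets (MP_d2bd1a_an). Definitions

`Cp` is a round carpet in the plane: a closed disc minus infinitely many open discs with pairwise disjoint closures inside the
open disc, with empty interior; the set is `K.T`. `Grp K Γ`: a group of Moebius (or anti Moebius) bijections of the carpet, cocompact
on triples, without common fixed point. `dd u h` is the distance on the sphere seen from the point `(u, h)` of the upper half space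
(half of the chordal distance).
-/

set_option autoImplicit false

namespace RCE

open Metric

/-- a round carpet: the data -/
structure Cp where
  c₀ : ℂ
  r₀ : ℝ
  c : ℕ → ℂ
  r : ℕ → ℝ
  r₀pos : 0 < r₀
  rpos : ∀ i, 0 < r i
  sub : ∀ i, closedBall (c i) (r i) ⊆ ball c₀ r₀
  disj : ∀ i j, i ≠ j → Disjoint (closedBall (c i) (r i)) (closedBall (c j) (r j))
  int : interior (closedBall c₀ r₀ \ ⋃ i, ball (c i) (r i)) = ∅

/-- a round carpet: the set -/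
def Cp.T (K : Cp) : Set ℂ := closedBall K.c₀ K.r₀ \ ⋃ i, ball (K.c i) (K.r i)

/-- Moebius or anti Moebius, no pole on `T` -/
def IsMob (T : Set ℂ) (g : Equiv.Perm T) : Prop := ∃ a b c d : ℂ, a * d - b * c = 1 ∧
  ((∀ z : T, c * z + d ≠ 0 ∧ (g z : ℂ) = (a * z + b) / (c * z + d)) ∨
   (∀ z : T, c * (starRingEnd ℂ) (z : ℂ) + d ≠ 0 ∧
      (g z : ℂ) = (a * (starRingEnd ℂ) (z : ℂ) + b) / (c * (starRingEnd ℂ) (z : ℂ) + d)))

/-- a group of Moebius and anti Moebius bijections of the carpet, cocompact on triples, without common fixed point -/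
structure Grp (K : Cp) (Γ : Subgroup (Equiv.Perm K.T)) : Prop where
  mob : ∀ g ∈ Γ, IsMob K.T g
  coc : ∃ δ : ℝ, 0 < δ ∧ ∀ x y z : K.T, x ≠ y → y ≠ z → x ≠ z → ∃ g ∈ Γ,
    δ ≤ ‖(g x : ℂ) - g y‖ ∧ δ ≤ ‖(g y : ℂ) - g z‖ ∧ δ ≤ ‖(g x : ℂ) - g z‖
  nfx : ∀ x : K.T, ∃ g ∈ Γ, g x ≠ x

/-- half of the chordal distance of `p` and `q` seen from `(u, h)` -/
noncomputable def dd (u : ℂ) (h : ℝ) (p q : ℂ) : ℝ := h * ‖p - q‖ / (√(‖p - u‖ ^ 2 + h ^ 2) * √(‖q - u‖ ^ 2 + h ^ 2))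

/-- separated finite sets -/
def Sep (s : ℝ) (F : Finset ℂ) : Prop := ∀ p ∈ F, ∀ q ∈ F, p ≠ q → s ≤ ‖p - q‖

/-- finite sets separated as seen from `(u, h)` -/
def DSep (u : ℂ) (h s : ℝ) (F : Finset ℂ) : Prop := ∀ p ∈ F, ∀ q ∈ F, p ≠ q → s ≤ dd u h p q

/-- the greatest number of `s`-separated points of `E` -/
noncomputable def NN (E : Set ℂ) (s : ℝ) : ℕ := sSup {n : ℕ | ∃ F : Finset ℂ, (F : Set ℂ) ⊆ E ∧ Sep s F ∧ F.card = n}

/-- a configuration: `F` in the carpet, `s`-separated as seen from `(u, h)`, with three points at mutual distance at least `b` -/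
def Cfg (K : Cp) (u : ℂ) (h s b : ℝ) (F : Finset ℂ) : Prop := 0 < h ∧ (F : Set ℂ) ⊆ K.T ∧ DSep u h s F ∧
  ∃ p₁ ∈ F, ∃ p₂ ∈ F, ∃ p₃ ∈ F, b ≤ dd u h p₁ p₂ ∧ b ≤ dd u h p₂ p₃ ∧ b ≤ dd u h p₁ p₃

/-- the data of a singular value decomposition of the real linear map `A` -/
def Svd (A : ℂ →ₗ[ℝ] ℂ) (v e : ℂ) (L μ : ℝ) : Prop := ‖v‖ = 1 ∧ ‖e‖ = 1 ∧ |μ| ≤ L ∧ A v = L * e ∧ A (Complex.I * v) = μ * (Complex.I * e)

/-- `f` is up to `θ l R` the affine map with linear part `A` on the part of `T` in the ball with centre `x` and radius `R` -/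
def Near (T : Set ℂ) (f : ℂ → ℂ) (x : ℂ) (R : ℝ) (A : ℂ →ₗ[ℝ] ℂ) (err : ℝ) : Prop :=
  ∀ p ∈ T, ‖p - x‖ < R → ‖f p - f x - A (p - x)‖ ≤ err

/-- the distortion of `A` is at most `M`, lower bound `l` -/
def Dist (A : ℂ →ₗ[ℝ] ℂ) (l M : ℝ) : Prop := 0 < l ∧ ∀ v, l * ‖v‖ ≤ ‖A v‖ ∧ ‖A v‖ ≤ M * l * ‖v‖

/-- absolute cross ratio -/
noncomputable def cr (a b c d : ℂ) : ℝ := ‖a - b‖ * ‖c - d‖ / (‖a - c‖ * ‖b - d‖)

/-- `f` is almost a similarity near `x`: ratios of distances change by at most `ε` -/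
def AlmSim (T : Set ℂ) (f : ℂ → ℂ) (x : ℂ) (R ε : ℝ) : Prop :=
  ∀ a ∈ T, ∀ b ∈ T, ∀ c ∈ T, ‖a - x‖ < R → ‖b - x‖ < R → ‖c - x‖ < R → ‖a - b‖ ≤ ‖a - c‖ →
    |‖f a - f b‖ * ‖a - c‖ - ‖f a - f c‖ * ‖a - b‖| ≤ ε * (‖a - c‖ * ‖f a - f c‖)

end RCE
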