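import Pool.Agent.RCE.St

/-!
# RCE, module GAF: maps whose distances are almost those of an affine map are almost affine
-/

set_option autoImplicit false

namespace RCE

open Metric

/-- near `x` and at all small scales, the distances of the images of points of the carpet are up to `θ M l R` those of the images
under a real linear map `A` with `l |v| ≤ |A v| ≤ M l |v|` -/
def GAff (K : Cp) (θ : ℝ → ℝ) (f : ℂ → ℂ) (x : ℂ) : Prop := ∃ M : ℝ, 1 ≤ M ∧ ∃ R₀ : ℝ, 0 < R₀ ∧ ∀ R : ℝ, 0 < R → R < R₀ →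
  ∃ (A : ℂ →ₗ[ℝ] ℂ) (l : ℝ), Dist A l M ∧ ∀ p ∈ K.T, ∀ q ∈ K.T, ‖p - x‖ < R → ‖q - x‖ < R →
    |‖f p - f q‖ - ‖A (p - q)‖| ≤ θ M * l * R

/-- `Dist` gives an equivalence -/
private theorem GAF_equiv {A : ℂ →ₗ[ℝ] ℂ} {l M : ℝ} (hA : Dist A l M) : ∃ e : ℂ ≃ₗ[ℝ] ℂ, ∀ v, e v = A v := by
  have hinj : Function.Injective A := by
    rw [← LinearMap.ker_eq_bot, LinearMap.ker_eq_bot']
    intro v hv
    have h := (hA.2 v).1
    rw [hv, norm_zero] at h
    have h0 : ‖v‖ ≤ 0 := by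
      by_contra hcon
      push Not at hcon
      have := mul_pos hA.1 hcon
      linarith
    exact norm_le_zero_iff.1 h0
  exact ⟨LinearEquiv.ofInjectiveEndo A hinj, fun v => rfl⟩

/-- ellipses around points of the carpet meet the carpet -/
theorem GAF_ell (hCC : St_CC) (hTF : St_TF) (K : Cp) (y : ℂ) (σ l M : ℝ) (A : ℂ →ₗ[ℝ] ℂ) (hy : y ∈ K.T) (hσ : 0 < σ)
    (hA : Dist A l M) (hσl : σ ≤ l * K.r₀) : ∃ p ∈ K.T, ‖A (p - y)‖ = σ := by
  obtain ⟨e, he⟩ := GAF_equiv hA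
  by_contra hcon
  push Not at hcon
  have hl := hA.1
  -- the ellipse
  set S : Set ℂ := (fun w => y + e.symm w) '' sphere (0 : ℂ) σ with hS
  have hSc : IsPreconnected S := by
    apply IsPreconnected.image
    · exact isPreconnected_sphere (by rw [Complex.rank_real_complex]; exact Nat.one_lt_ofNat) 0 σ
    · exact (continuous_const.add (LinearMap.continuous_of_finiteDimensional e.symm.toLinearMap)).continuousOn
  have hmem : ∀ p, p ∈ S ↔ ‖A (p - y)‖ = σ := by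
    intro p
    constructor
    · rintro ⟨w, hw, rfl⟩
      rw [mem_sphere_zero_iff_norm] at hw
      have h1 : A (y + e.symm w - y) = w := by
        rw [add_sub_cancel_left, ← he, LinearEquiv.apply_symm_apply]
      rw [h1, hw]
    · intro hp
      refine ⟨A (p - y), ?_, ?_⟩
      · rw [mem_sphere_zero_iff_norm]
        exact hp
      · show y + e.symm (A (p - y)) = p
        rw [← he, LinearEquiv.symm_apply_apply]
        ring
  have hSn : S.Nonempty := by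
    refine ⟨y + e.symm (σ : ℂ), (σ : ℂ), ?_, rfl⟩
    rw [mem_sphere_zero_iff_norm, Complex.norm_real, Real.norm_of_nonneg hσ.le]
  have hST : ∀ p ∈ S, p ∉ K.T := fun p hp hpT => hcon p hpT ((hmem p).1 hp)
  rcases hCC K S hSc hSn hST with ⟨i, hi⟩ | hout
  · -- inside of a hole
    have h1 : y + e.symm (σ : ℂ) ∈ S := ⟨(σ : ℂ), by
      rw [mem_sphere_zero_iff_norm, Complex.norm_real, Real.norm_of_nonneg hσ.le], rfl⟩
    have h2 : y + e.symm (-(σ : ℂ)) ∈ S := ⟨-(σ : ℂ), by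
      rw [mem_sphere_zero_iff_norm, norm_neg, Complex.norm_real, Real.norm_of_nonneg hσ.le], rfl⟩
    have h3 := hi h1
    have h4 := hi h2
    rw [mem_ball, dist_eq_norm] at h3 h4
    have h5 : K.r i ≤ ‖y - K.c i‖ := ((hTF K).2.2.2.1 y hy).2 i
    have h6 : (2 : ℂ) * (y - K.c i) = (y + e.symm (σ : ℂ) - K.c i) + (y + e.symm (-(σ : ℂ)) - K.c i) := by
      rw [map_neg]
      ring
    have h7 : ‖(2 : ℂ) * (y - K.c i)‖ ≤ ‖y + e.symm (σ : ℂ) - K.c i‖ + ‖y + e.symm (-(σ : ℂ)) - K.c i‖ := by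
      rw [h6]
      exact norm_add_le _ _
    rw [norm_mul, Complex.norm_ofNat] at h7
    linarith
  · -- outside of the disc
    have hyr : ‖y - K.c₀‖ ≤ K.r₀ := ((hTF K).2.2.2.1 y hy).1
    by_cases hyc : y = K.c₀
    · obtain ⟨p, hp⟩ := hSn
      have h1 := hout p hp
      have h2 := (hmem p).1 hp
      have h3 := (hA.2 (p - y)).1
      rw [h2, hyc] at h3
      have h4 : l * K.r₀ < l * ‖p - K.c₀‖ := mul_lt_mul_of_pos_left h1 hl
      linarith
    · have hu : 0 < ‖K.c₀ - y‖ := norm_pos_iff.2 (sub_ne_zero.2 fun h => hyc h.symm)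
      have hAu : 0 < ‖A (K.c₀ - y)‖ := lt_of_lt_of_le (mul_pos hl hu) (hA.2 _).1
      set t : ℝ := σ / ‖A (K.c₀ - y)‖ with ht
      have ht0 : 0 < t := div_pos hσ hAu
      have hp : y + t • (K.c₀ - y) ∈ S := by
        rw [hmem, add_sub_cancel_left, map_smul, norm_smul, Real.norm_of_nonneg ht0.le, ht, div_mul_cancel₀ _ hAu.ne']
      have h1 := hout _ hp
      have h2 : y + t • (K.c₀ - y) - K.c₀ = (t - 1) • (K.c₀ - y) := by
        rw [sub_smul, one_smul]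
        ring
      rw [h2, norm_smul, Real.norm_eq_abs] at h1
      have hu' : ‖K.c₀ - y‖ ≤ K.r₀ := by
        rw [norm_sub_rev]
        exact hyr
      have h3 : t * ‖K.c₀ - y‖ ≤ K.r₀ := by
        have h4 : l * ‖K.c₀ - y‖ ≤ ‖A (K.c₀ - y)‖ := (hA.2 _).1
        have h5 : t * (l * ‖K.c₀ - y‖) ≤ σ := by
          calc t * (l * ‖K.c₀ - y‖) ≤ t * ‖A (K.c₀ - y)‖ := mul_le_mul_of_nonneg_left h4 ht0.le
            _ = σ := by rw [ht, div_mul_cancel₀ _ hAu.ne']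
        have h6 : l * (t * ‖K.c₀ - y‖) ≤ l * K.r₀ := by linarith [h5, hσl]
        exact le_of_mul_le_mul_left h6 hl
      rcases le_total t 1 with h | h
      · rw [abs_of_nonpos (by linarith)] at h1
        have h7 : -(t - 1) * ‖K.c₀ - y‖ ≤ 1 * ‖K.c₀ - y‖ := mul_le_mul_of_nonneg_right (by linarith) hu.le
        linarith
      · rw [abs_of_nonneg (by linarith)] at h1
        have h7 : (t - 1) * ‖K.c₀ - y‖ ≤ t * ‖K.c₀ - y‖ := mul_le_mul_of_nonneg_right (by linarith) hu.le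
        linarith

theorem GAF_one (hSTB : St_STB) (hCC : St_CC) (hTF : St_TF) (M θ : ℝ) (hM : 1 ≤ M) (hθ : 0 < θ) : ∃ ε : ℝ, 0 < ε ∧
    ∀ (K : Cp) (f : ℂ → ℂ) (x : ℂ) (R l : ℝ) (A : ℂ →ₗ[ℝ] ℂ), x ∈ K.T → 0 < R → M * R ≤ K.r₀ → Dist A l M →
    (∀ p ∈ K.T, ∀ q ∈ K.T, ‖p - x‖ < M * R → ‖q - x‖ < M * R → |‖f p - f q‖ - ‖A (p - q)‖| ≤ ε * l * (M * R)) →
    ∃ B : ℂ →ₗ[ℝ] ℂ, Dist B l M ∧ Near K.T f x R B (θ * l * R) := by
  have hM0 : 0 < M := by linarith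
  obtain ⟨ε, hε, hstb⟩ := hSTB (θ / M) (div_pos hθ hM0)
  refine ⟨ε, hε, ?_⟩
  intro K f x R l A hx hR hMR hA hd
  obtain ⟨e, he⟩ := GAF_equiv hA
  have hl := hA.1
  have hMR0 : 0 < M * R := mul_pos hM0 hR
  have hlR : 0 < l * (M * R) := mul_pos hl hMR0
  obtain ⟨p₁, hp₁, hp₁A⟩ := GAF_ell hCC hTF K x (l * (M * R) / 2) l M A hx (by positivity) hA
    (by
      have h1 : l * (M * R) ≤ l * K.r₀ := mul_le_mul_of_nonneg_left hMR hl.le
      linarith)
  have hp₁x : ‖p₁ - x‖ < M * R := by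
    have h1 := (hA.2 (p₁ - x)).1
    rw [hp₁A] at h1
    have h2 : l * ‖p₁ - x‖ < l * (M * R) := by linarith
    exact lt_of_mul_lt_mul_left h2 hl.le
  obtain ⟨B₀, hB₀, hB₀n⟩ := hstb {w | ∃ p ∈ K.T, ‖p - x‖ < M * R ∧ A (p - x) = w ∧ ‖w‖ < l * (M * R)} 0 (A (p₁ - x))
    (l * (M * R)) 1 (fun w => f (x + e.symm w)) hlR one_pos
    ⟨x, hx, by simpa using hMR0, by simp, by simpa using hlR⟩
    ⟨p₁, hp₁, hp₁x, rfl, by rw [hp₁A]; linarith⟩
    (by rw [sub_zero, hp₁A])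
    (by
      rintro w ⟨p, hp, hpx, hw, hwn⟩
      rw [sub_zero]
      exact hwn)
    (by
      rintro w ⟨p, hp, hpx, rfl, hwn⟩ w' ⟨q, hq, hqx, rfl, hwn'⟩
      have h1 : x + e.symm (A (p - x)) = p := by
        rw [← he, LinearEquiv.symm_apply_apply]
        ring
      have h2 : x + e.symm (A (q - x)) = q := by
        rw [← he, LinearEquiv.symm_apply_apply]
        ring
      show |‖f (x + e.symm (A (p - x))) - f (x + e.symm (A (q - x)))‖ - 1 * ‖A (p - x) - A (q - x)‖| ≤ ε * (1 * (l * (M * R)))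
      rw [h1, h2, ← map_sub, one_mul, one_mul, show p - x - (q - x) = p - q by ring, ← mul_assoc]
      exact hd p hp q hq hpx hqx)
  refine ⟨B₀ ∘ₗ A, ⟨hl, fun v => ?_⟩, ?_⟩
  · rw [LinearMap.comp_apply, hB₀, one_mul]
    exact hA.2 v
  · intro p hp hpR
    have h1 : ‖A (p - x)‖ < l * (M * R) := by
      refine lt_of_le_of_lt (hA.2 (p - x)).2 ?_
      have h2 : M * l * ‖p - x‖ < M * l * R := mul_lt_mul_of_pos_left hpR (mul_pos hM0 hl)
      linarith
    have hMR' : R ≤ M * R := by nlinarith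
    have h3 := hB₀n (A (p - x)) ⟨p, hp, by linarith, rfl, h1⟩
    have h4 : x + e.symm (A (p - x)) = p := by
      rw [← he, LinearEquiv.symm_apply_apply]
      ring
    have h5 : x + e.symm (0 : ℂ) = x := by simp
    have h6 : ‖f (x + e.symm (A (p - x))) - f (x + e.symm 0) - B₀ (A (p - x) - 0)‖ ≤ θ / M * (1 * (l * (M * R))) := h3
    rw [h4, h5, sub_zero] at h6
    rw [LinearMap.comp_apply]
    refine h6.trans (le_of_eq ?_)
    field_simp

theorem thm_GAF (hSTB : St_STB) (hCC : St_CC) (hTF : St_TF) (K : Cp) (θ : ℝ → ℝ) (hθ : ∀ M, 0 < θ M) :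
    ∃ θ' : ℝ → ℝ, (∀ M, 0 < θ' M) ∧ ∀ (f : ℂ → ℂ) (x : ℂ), x ∈ K.T → GAff K θ' f x → AAff K θ f x := by
  choose εf hε h using fun M : ℝ => GAF_one hSTB hCC hTF (max M 1) (θ (max M 1)) (le_max_right M 1) (hθ _)
  refine ⟨εf, hε, ?_⟩
  rintro f x hx ⟨M, hM, R₀, hR₀, hG⟩
  have hmax : max M 1 = M := max_eq_left hM
  have hM0 : 0 < M := by linarith
  have hh := h M
  rw [hmax] at hh
  refine ⟨M, hM, min (R₀ / M) (K.r₀ / M), lt_min (div_pos hR₀ hM0) (div_pos K.r₀pos hM0), ?_⟩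
  intro R hR hRlt
  have h1 : M * R < R₀ := by
    have := lt_of_lt_of_le hRlt (min_le_left _ _)
    rw [lt_div_iff₀ hM0] at this
    linarith
  have h2 : M * R ≤ K.r₀ := by
    have := (lt_of_lt_of_le hRlt (min_le_right _ _)).le
    rw [le_div_iff₀ hM0] at this
    linarith
  obtain ⟨A, l, hA, hd⟩ := hG (M * R) (mul_pos hM0 hR) h1
  obtain ⟨B, hB, hN⟩ := hh K f x R l A hx hR h2 hA hd
  exact ⟨B, l, hB, hN⟩

end RCE
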