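import Pool.Agent.RCE.St

/-!
# RCE GEA: a disc which contains two points
-/

set_option autoImplicit false

namespace RCE

open Metric

private lemma GEA_aux (x y a b ρ : ℝ) (hb : 0 < b) (hab : b < a) (hy : 0 ≤ y) (hρ : 0 < ρ)
    (h1 : (a - x) ^ 2 + y ^ 2 < ρ ^ 2) (h2 : (a + x) ^ 2 + y ^ 2 < ρ ^ 2) (Q : ℝ) (hQ : 0 ≤ Q)
    (hQ2 : Q ^ 2 = x ^ 2 + (b - y) ^ 2) : Q + min ((a ^ 2 - b ^ 2) / (2 * a)) b ≤ ρ := by
  have ha : 0 < a := hb.trans hab
  set m := min ((a ^ 2 - b ^ 2) / (2 * a)) b with hm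
  have hm1 : m ≤ (a ^ 2 - b ^ 2) / (2 * a) := min_le_left _ _
  have hm2 : m ≤ b := min_le_right _ _
  have hm0 : 0 ≤ m := by
    apply le_min _ hb.le
    apply div_nonneg _ (by positivity)
    nlinarith
  have hm1' : 2 * a * m ≤ a ^ 2 - b ^ 2 := by
    have := mul_le_mul_of_nonneg_left hm1 (by positivity : (0 : ℝ) ≤ 2 * a)
    have h3 : 2 * a * ((a ^ 2 - b ^ 2) / (2 * a)) = a ^ 2 - b ^ 2 := by field_simp
    linarith
  have hax : 0 ≤ |x| := abs_nonneg x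
  set P := √((|x| + a) ^ 2 + y ^ 2) with hP
  have hP0 : 0 ≤ P := Real.sqrt_nonneg _
  have hP2 : P ^ 2 = (|x| + a) ^ 2 + y ^ 2 := Real.sq_sqrt (by positivity)
  have hPρ : P < ρ := by
    rw [hP, Real.sqrt_lt' hρ]
    rcases abs_cases x with ⟨hx, _⟩ | ⟨hx, _⟩
    · rw [hx]; nlinarith
    · rw [hx]; nlinarith
  have hPle : P ≤ a + |x| + y := by
    rw [hP]
    apply Real.sqrt_le_iff.mpr
    constructor
    · positivity
    · nlinarith [mul_nonneg ha.le hy, mul_nonneg hax hy]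
  have hx2 : |x| ^ 2 = x ^ 2 := sq_abs x
  have hdiff : P ^ 2 - Q ^ 2 = a ^ 2 - b ^ 2 + 2 * a * |x| + 2 * b * y := by
    rw [hP2, hQ2]
    nlinarith
  have hdiff2 : 2 * m * P ≤ P ^ 2 - Q ^ 2 := by
    rw [hdiff]
    have e1 : 2 * m * P ≤ 2 * m * (a + |x| + y) := by
      apply mul_le_mul_of_nonneg_left hPle (by positivity)
    have e2 : m * |x| ≤ a * |x| := mul_le_mul_of_nonneg_right (hm2.trans hab.le) hax
    have e3 : m * y ≤ b * y := mul_le_mul_of_nonneg_right hm2 hy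
    nlinarith
  have hQP : Q ≤ P := by
    have : 0 ≤ 2 * m * P := by positivity
    nlinarith
  have hPpos : 0 < P := by
    rw [hP]
    apply Real.sqrt_pos.mpr
    positivity
  have hfin : Q + m ≤ P := by
    by_contra hc
    have hc' : P < Q + m := not_le.mp hc
    nlinarith
  linarith

private lemma GEA_aux2 (ζ : ℂ) (a b ρ : ℝ) (hb : 0 < b) (hab : b < a) (hy : 0 ≤ ζ.im)
    (h1 : ‖(a : ℂ) - ζ‖ < ρ) (h2 : ‖-(a : ℂ) - ζ‖ < ρ) :
    ‖(b : ℂ) * Complex.I - ζ‖ + min ((a ^ 2 - b ^ 2) / (2 * a)) b ≤ ρ := by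
  have hρ : 0 < ρ := (norm_nonneg _).trans_lt h1
  have e1 : ‖(a : ℂ) - ζ‖ ^ 2 = (a - ζ.re) ^ 2 + ζ.im ^ 2 := by
    rw [← Complex.normSq_eq_norm_sq, Complex.normSq_apply]
    simp
    ring
  have e2 : ‖-(a : ℂ) - ζ‖ ^ 2 = (a + ζ.re) ^ 2 + ζ.im ^ 2 := by
    rw [← Complex.normSq_eq_norm_sq, Complex.normSq_apply]
    simp
    ring
  have e3 : ‖(b : ℂ) * Complex.I - ζ‖ ^ 2 = ζ.re ^ 2 + (b - ζ.im) ^ 2 := by
    rw [← Complex.normSq_eq_norm_sq, Complex.normSq_apply]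
    simp
    ring
  apply GEA_aux ζ.re ζ.im a b ρ hb hab hy hρ _ _ _ (norm_nonneg _) e3
  · rw [← e1]
    exact pow_lt_pow_left₀ h1 (norm_nonneg _) (by norm_num)
  · rw [← e2]
    exact pow_lt_pow_left₀ h2 (norm_nonneg _) (by norm_num)

private lemma GEA_ball (c w : ℂ) (m ρ : ℝ) (h : ‖c - w‖ + m ≤ ρ) : ball c m ⊆ ball w ρ := by
  apply ball_subset_ball'
  rw [dist_eq_norm]
  linarith

theorem thm_GEA : St_GEA := by
  intro q e w a b ρ he hb hab h1 h2
  have hee : (starRingEnd ℂ) e * e = 1 := by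
    rw [← Complex.normSq_eq_conj_mul_self, Complex.normSq_eq_norm_sq, he]
    simp
  set ζ : ℂ := (w - q) * (starRingEnd ℂ) e with hζ
  have hw : w = q + ζ * e := by
    rw [hζ, mul_assoc, hee]
    ring
  have hn : ∀ c : ℂ, ‖q + c * e - w‖ = ‖c - ζ‖ := by
    intro c
    have : q + c * e - w = (c - ζ) * e := by
      rw [hw]; ring
    rw [this, norm_mul, he, mul_one]
  have h1' : ‖(a : ℂ) - ζ‖ < ρ := by
    rw [← hn]; exact h1
  have h2' : ‖-(a : ℂ) - ζ‖ < ρ := by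
    rw [← hn]
    have : q + -(a : ℂ) * e - w = q - a * e - w := by ring
    rw [this]; exact h2
  rcases le_total 0 ζ.im with hy | hy
  · left
    apply GEA_ball
    have : q + (b : ℂ) * (Complex.I * e) - w = q + (b * Complex.I) * e - w := by ring
    rw [this, hn]
    exact GEA_aux2 ζ a b ρ hb hab hy h1' h2'
  · right
    apply GEA_ball
    have : q - (b : ℂ) * (Complex.I * e) - w = q + (-(b * Complex.I)) * e - w := by ring
    rw [this, hn]
    have hc : ∀ c : ℂ, ‖c - (starRingEnd ℂ) ζ‖ = ‖(starRingEnd ℂ) c - ζ‖ := by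
      intro c
      rw [← Complex.norm_conj]
      simp
    have := GEA_aux2 ((starRingEnd ℂ) ζ) a b ρ hb hab (by simpa using hy)
      (by rw [hc]; simpa using h1') (by rw [hc]; simpa using h2')
    rw [hc] at this
    simpa using this

end RCE
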