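import Pool.Agent.RCE.Defs

/-!
# RCE: statements of the modules

Every `St_X` is the statement of the module `X`; its proof is in the docstring, with the modules it uses after the word `from`.
A module proves `theorem thm_X (h1 : St_A) (h2 : St_B) ... : St_X` (drop unused hypotheses).

Conventions: `T = K.T`, `r₀ = K.r₀`, `dd u h p q = h |p - q| / (√(|p-u|² + h²) √(|q-u|² + h²))`. Remember `√(|p-u|² + h²) ≥ h` and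
`≥ |p - u|`, `≤ |p - u| + h`.

Theorem (see `FIN`): a map of an open part of `T` to `T`, which is at each point and all small scales close to an affine map of distortion
`≤ M` (up to a constant `θ(M)`), is open; so a map `T → T` with invertible derivatives is onto, and an embedding `T → T` which changes
cross ratios by at most `ε(T)` is onto.
-/

set_option autoImplicit false

namespace RCE

open Metric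

open Classical in
/-- number of points of `X` in the ball -/
noncomputable def cn (X : Finset ℂ) (z : ℂ) (ρ : ℝ) : ℕ := (X.filter fun x => ‖x - z‖ < ρ).card

open Classical in
/-- number of points of `X` at distance less than `ρ` from `E` -/
noncomputable def cE (X : Finset ℂ) (E : Set ℂ) (ρ : ℝ) : ℕ := (X.filter fun x => ∃ e ∈ E, ‖x - e‖ < ρ).card

/-- `X` is a maximal `s`-separated subset of `T ∩ ball y (3 r)` -/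
def Mx (K : Cp) (y : ℂ) (r s : ℝ) (X : Finset ℂ) : Prop :=
  y ∈ K.T ∧ 0 < s ∧ 0 < r ∧ 3 * r ≤ K.r₀ ∧ (∀ x ∈ X, x ∈ K.T ∧ ‖x - y‖ < 3 * r) ∧ Sep s X ∧
  ∀ p ∈ K.T, ‖p - y‖ < 3 * r → ∃ x ∈ X, ‖p - x‖ < s

/-! ## The carpet -/

/-- [TF] PROOF. Definition of `K.T`; the closed balls are disjoint and inside of the open ball `ball c₀ r₀`; `T` is closed and bounded. -/
def St_TF : Prop := ∀ K : Cp, IsCompact K.T ∧ (∀ i, sphere (K.c i) (K.r i) ⊆ K.T) ∧ sphere K.c₀ K.r₀ ⊆ K.T ∧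
  (∀ y ∈ K.T, ‖y - K.c₀‖ ≤ K.r₀ ∧ ∀ i, K.r i ≤ ‖y - K.c i‖) ∧
  (∀ y, ‖y - K.c₀‖ ≤ K.r₀ → (∀ i, K.r i ≤ ‖y - K.c i‖) → y ∈ K.T)

/-- [CC] (a connected set outside of `T` is in one complementary component) PROOF. The complement of `T` is the union of the pairwise
disjoint open sets `(closedBall c₀ r₀)ᶜ` and `ball (c i) (r i)`. If `S` meets one of them, the union of the others is open too, so `S` is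
inside of the one (`IsPreconnected.subset_left_of_subset_union`). -/
def St_CC : Prop := ∀ (K : Cp) (S : Set ℂ), IsPreconnected S → S.Nonempty → (∀ p ∈ S, p ∉ K.T) →
  (∃ i, S ⊆ ball (K.c i) (K.r i)) ∨ (∀ p ∈ S, K.r₀ < ‖p - K.c₀‖)

/-- [SPH] from CC, TF. PROOF. Otherwise the circle `S = sphere y σ` (connected, `isConnected_sphere`) is as in CC. If `S ⊆ ball (c i) (r i)`
then `y`, the midpoint of two antipodal points of `S`, is in this ball, against `y ∈ T`. But `S` contains a point `z` of `closedBall c₀ r₀`: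
any point if `y = c₀`, and `z = y - σ (y - c₀) / |y - c₀|` otherwise, `|z - c₀| = | |y - c₀| - σ | ≤ r₀`. -/
def St_SPH : Prop := ∀ (K : Cp) (y : ℂ) (σ : ℝ), y ∈ K.T → 0 < σ → σ ≤ K.r₀ → ∃ z ∈ K.T, ‖z - y‖ = σ

/-- [TR3] from SPH. PROOF. `|z₁ - y| = σ`, `|z₂ - y| = σ / 4`: `dd y σ y z₁ = 1 / √2`, `dd y σ y z₂ = 1 / √17`,
`dd y σ z₁ z₂ ≥ (3/4) / (√2 · √17 / 4)`. -/
def St_TR3 : Prop := ∀ (K : Cp) (y : ℂ) (σ : ℝ), y ∈ K.T → 0 < σ → σ ≤ K.r₀ → ∃ z₁ ∈ K.T, ∃ z₂ ∈ K.T,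
  σ / 4 ≤ ‖y - z₁‖ ∧ σ / 4 ≤ ‖z₁ - z₂‖ ∧ σ / 4 ≤ ‖y - z₂‖ ∧ ‖y - z₁‖ ≤ 2 * σ ∧ ‖z₁ - z₂‖ ≤ 2 * σ ∧ ‖y - z₂‖ ≤ 2 * σ ∧
  1 / 10 ≤ dd y σ y z₁ ∧ 1 / 10 ≤ dd y σ z₁ z₂ ∧ 1 / 10 ≤ dd y σ y z₂

/-- [UHA] from TF, PK. PROOF. Only finitely many `i` have `r i ≥ η / 4` (their centres are `η / 4`-separated in a bounded set). Suppose no
`closedBall (c i) (r i)` is in `ball y η`. Every `i` with `ball (c i) (r i)` meeting `ball y (η / 2)` then has `2 (r i) ≥ η / 2`. So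
`O = ball y (η / 2) ∩ ball c₀ r₀` minus the finitely many closed balls `closedBall (c i) (r i)`, `r i ≥ η / 4`, is an open subset of `T`, so
empty. `ball y (η / 2) ∩ ball c₀ r₀` is convex and not empty (`|y - c₀| ≤ r₀`), and it is covered by finitely many disjoint closed balls,
so it is inside of one `closedBall (c j) (r j)` (connected). `y` is in its closure, so `y ∈ closedBall (c j) (r j) ⊆ ball c₀ r₀`; so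
`y` is an interior point of `ball y (η / 2) ∩ ball c₀ r₀ ⊆ closedBall (c j) (r j)`, so `y ∈ ball (c j) (r j)`, against `y ∈ T`. -/
def St_UHA : Prop := ∀ (K : Cp) (y : ℂ) (η : ℝ), y ∈ K.T → 0 < η → ∃ i, closedBall (K.c i) (K.r i) ⊆ ball y η

/-- [UH] from UHA, TF. PROOF. `T` is covered by finitely many `ball y_k (η / 2)`, `y_k ∈ T`; UHA for `y_k`, `η / 2`; `c` = the smallest radius. -/
def St_UH : Prop := ∀ (K : Cp) (η : ℝ), 0 < η → ∃ c : ℝ, 0 < c ∧ ∀ y ∈ K.T, ∃ i, closedBall (K.c i) (K.r i) ⊆ ball y η ∧ c ≤ K.r i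

/-! ## Separated sets -/

/-- [PK] (packing) PROOF. `q ↦ (⌊2 re (q - p) / s⌋, ⌊2 im (q - p) / s⌋)` is injective on `F` (squares of side `s / 2` have diameter `< s`) with
values in a finite set which depends on `k` only. -/
def St_PK : Prop := ∀ k : ℝ, ∃ N : ℕ, ∀ (p : ℂ) (s : ℝ) (F : Finset ℂ), 0 < s → Sep s F → (∀ q ∈ F, ‖q - p‖ ≤ k * s) → F.card ≤ N

/-- [NNB] from PK. PROOF. By PK the cardinalities of the `s`-separated subsets of `E` are bounded; `Nat.sSup_mem`. If `p ∈ E` had distance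
`≥ s` from all points of a greatest `F`, then `insert p F` would be greater. -/
def St_NNB : Prop := ∀ (E : Set ℂ) (s : ℝ), Bornology.IsBounded E → 0 < s →
  (∀ F : Finset ℂ, (F : Set ℂ) ⊆ E → Sep s F → F.card ≤ NN E s) ∧
  ∃ F : Finset ℂ, (F : Set ℂ) ⊆ E ∧ Sep s F ∧ F.card = NN E s ∧ ∀ p ∈ E, ∃ q ∈ F, ‖p - q‖ < s

/-- [MON] from NNB. PROOF. An `s'`-separated subset of `E` is an `s`-separated subset of `E'`. -/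
def St_MON : Prop := ∀ (E E' : Set ℂ) (s s' : ℝ), Bornology.IsBounded E' → E ⊆ E' → 0 < s → s ≤ s' → NN E s' ≤ NN E' s

/-- [DBL] from NNB, PK. PROOF. `C = N(k)` of PK (and `1`). `G` greatest `k s`-separated subset of `E`, `F` greatest `s`-separated one. Each
`f ∈ F` has some `g ∈ G` with `|f - g| < k s`, and each `g` serves at most `N(k)` of them. -/
def St_DBL : Prop := ∀ k : ℝ, 1 ≤ k → ∃ C : ℝ, 1 ≤ C ∧ ∀ (E : Set ℂ) (s : ℝ), Bornology.IsBounded E → 0 < s →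
  (NN E s : ℝ) ≤ C * NN E (k * s)

/-! ## Viewpoints -/

/-- [DT] PROOF. The triangle inequality: `EuclideanGeometry.mul_dist_le_mul_dist_add_mul_dist` (Ptolemy) in a space of dimension three
(`WithLp 2 (ℂ × ℝ)` or `EuclideanSpace ℝ (Fin 3)`) for the points `p, q, r` of the plane and `o = (u, h)`:
`|p - r| |q - o| ≤ |p - q| |r - o| + |q - r| |p - o|`, `|x - o| = √(|x - u|² + h²)`; divide by `|p - o| |q - o| |r - o|` and multiply by `h`. -/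
def St_DT : Prop := ∀ (u : ℂ) (h : ℝ), 0 < h → (∀ p q : ℂ, 0 ≤ dd u h p q ∧ dd u h p q = dd u h q p ∧ dd u h p q ≤ ‖p - q‖ / h ∧
    (0 < dd u h p q ↔ p ≠ q)) ∧
  (∀ p q r : ℂ, dd u h p r ≤ dd u h p q + dd u h q r)

/-- [CH] from PK. PROOF. The points of `F` with `|p - u| ≤ h`: `s ≤ dd ≤ |p - q| / h`, so they are `s h`-separated in `closedBall u h`: at
most `N(1/s)`. The points with `|p - u| > h`: put `ι p = u + h² (p - u) / |p - u|²`; `|ι p - ι q| = h² |p - q| / (|p - u| |q - u|) ≥ h dd u h p q ≥ s h`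
and `|ι p - u| < h`, so again at most `N(1/s)`. -/
def St_CH : Prop := ∀ s : ℝ, 0 < s → ∃ N : ℕ, ∀ (u : ℂ) (h : ℝ) (F : Finset ℂ), 0 < h → DSep u h s F → F.card ≤ N

/-- [MI] (Moebius invariance) PROOF. For `g z = (a z + b) / (c z + d)`: `h' = h / J`, `J = |c u + d|² + |c|² h²`,
`u' = ((a u + b) conj (c u + d) + a conj c h²) / J`. Then `|g p - g q| = |p - q| / (|c p + d| |c q + d|)` and
`|g p - u'|² + h'² = (|p - u|² + h²) / (J |c p + d|²)` (both use `a d - b c = 1`). For `g z = m (conj z)` use `dd (conj u) h (conj p) (conj q) =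
dd u h p q` first. -/
def St_MI : Prop := ∀ (T : Set ℂ) (g : Equiv.Perm T), IsMob T g → ∀ (u : ℂ) (h : ℝ), 0 < h → ∃ (u' : ℂ) (h' : ℝ), 0 < h' ∧
  ∀ p q : T, dd u' h' (g p) (g q) = dd u h p q

/-- [BL] from TF. PROOF. `|g p - g q| = |p - q| / (|c p + d| |c q + d|)` (with `conj` in the second case) and `|c z + d|` has a positive
minimum and a maximum on the compact set `T`. (If `T` is empty there is nothing to prove.) -/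
def St_BL : Prop := ∀ (K : Cp) (g : Equiv.Perm K.T), IsMob K.T g → ∃ L : ℝ, 1 ≤ L ∧ ∀ p q : K.T,
  ‖(p : ℂ) - q‖ ≤ L * ‖(g p : ℂ) - g q‖ ∧ ‖(g p : ℂ) - g q‖ ≤ L * ‖(p : ℂ) - q‖

/-- [MC] (image of a boundary circle) from TF. PROOF. Let `c₁ = K.c i`, `r₁ = K.r i`, `g z = (a z + b) / (c z + d)` on `T`,
`Δ = |d + c c₁|² - r₁² |c|²`. `Δ ≠ 0`: for `c = 0` clear, otherwise the pole `-d / c` is not on the circle, which is in `T`. Put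
`p = (conj (d + c c₁) (b + c₁ a) - r₁² conj c a) / Δ`, `ρ = r₁ / |Δ|`. For `c z + d ≠ 0`, `w = (a z + b) / (c z + d)`:
`|w - p|² - ρ² = (|z - c₁|² - r₁²) / (Δ |c z + d|²)`. For `z ∈ T` the right side has the sign of `Δ` or is `0`: this gives the first claim and the
last one (`g` is onto `T`). If `|w - p| = ρ` then `a - c w ≠ 0` (for `w = a / c`: `|w - p|² - ρ² = 1 / (Δ |c|²)`), `z = (d w - b) / (a - c w)`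
satisfies `c z + d = 1 / (a - c w) ≠ 0`, `w = (a z + b) / (c z + d)`, so `|z - c₁| = r₁`, `z ∈ T` and `g z = w`. For anti Moebius `g` replace `c₁`
by `conj c₁` and `z` by `conj z`. -/
def St_MC : Prop := ∀ (K : Cp) (g : Equiv.Perm K.T), IsMob K.T g → ∀ i : ℕ, ∃ (p : ℂ) (ρ : ℝ), 0 < ρ ∧
  (∀ z : K.T, ‖(z : ℂ) - K.c i‖ = K.r i → ‖(g z : ℂ) - p‖ = ρ) ∧
  (∀ w : ℂ, ‖w - p‖ = ρ → ∃ z : K.T, ‖(z : ℂ) - K.c i‖ = K.r i ∧ (g z : ℂ) = w) ∧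
  ((∀ z ∈ K.T, ρ ≤ ‖z - p‖) ∨ ∀ z ∈ K.T, ‖z - p‖ ≤ ρ)

/-- [LA] (three points) PROOF. `b ≤ dd u h p q ≤ |p - q| / √(|q - u|² + h²) ≤ D / √(|q - u|² + h²)`, so `h ≤ D / b` and `|q - u| ≤ D / b` for each of
the three points. At most one of them has `|p - u| < δ / 2`; for the two others `b ≤ h D / ((δ/2) (δ/2))`. -/
def St_LA : Prop := ∀ (u : ℂ) (h δ D b : ℝ) (p₁ p₂ p₃ : ℂ), 0 < h → 0 < δ → 0 < b → δ ≤ ‖p₁ - p₂‖ → δ ≤ ‖p₂ - p₃‖ → δ ≤ ‖p₁ - p₃‖ →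
  ‖p₁ - p₂‖ ≤ D → ‖p₂ - p₃‖ ≤ D → ‖p₁ - p₃‖ ≤ D → b ≤ dd u h p₁ p₂ → b ≤ dd u h p₂ p₃ → b ≤ dd u h p₁ p₃ →
  h ≤ D / b ∧ ‖p₁ - u‖ ≤ D / b ∧ ‖p₂ - u‖ ≤ D / b ∧ ‖p₃ - u‖ ≤ D / b ∧ b * δ ^ 2 / (4 * D) ≤ h

/-- [CMP] from LA, TF. PROOF. LA with `D = 2 r₀`: for `p ∈ T`: `√(|p - u|² + h²) ≤ |p - p₁| + |p₁ - u| + h ≤ 2 r₀ + 4 r₀ / b =: B`, and
`h ≥ b δ² / (8 r₀)`. So `dd ≥ h |p - q| / B²` and `dd ≤ |p - q| / h`. -/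
def St_CMP : Prop := ∀ (K : Cp) (δ b : ℝ), 0 < δ → 0 < b → ∃ κ : ℝ, 1 ≤ κ ∧ ∀ (u : ℂ) (h : ℝ) (p₁ p₂ p₃ : ℂ), 0 < h →
  p₁ ∈ K.T → p₂ ∈ K.T → p₃ ∈ K.T → δ ≤ ‖p₁ - p₂‖ → δ ≤ ‖p₂ - p₃‖ → δ ≤ ‖p₁ - p₃‖ →
  b ≤ dd u h p₁ p₂ → b ≤ dd u h p₂ p₃ → b ≤ dd u h p₁ p₃ →
  ∀ p ∈ K.T, ∀ q ∈ K.T, ‖p - q‖ ≤ κ * dd u h p q ∧ dd u h p q ≤ κ * ‖p - q‖

/-- [FA] (normalisation) from TR3, MI, CMP, DT. PROOF. `y, z₁, z₂` of TR3 are different points of `T`; by `coc` some `γ ∈ Γ` maps them to `δ`-separated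
points. `(u', h')` of MI for `γ`, `(y, σ)`: `dd u' h' (γ p) (γ q) = dd y σ p q`; CMP for `(u', h')` and the images of the three points, `b = 1/10`. -/
def St_FA : Prop := ∀ (K : Cp) (Γ : Subgroup (Equiv.Perm K.T)), Grp K Γ → ∃ κ : ℝ, 1 ≤ κ ∧ ∀ (y : K.T) (σ : ℝ), 0 < σ → σ ≤ K.r₀ →
  ∃ γ ∈ Γ, ∀ p q : K.T, ‖(γ p : ℂ) - γ q‖ ≤ κ * dd y σ p q ∧ dd y σ p q ≤ κ * ‖(γ p : ℂ) - γ q‖

/-- [FB] (moving a viewpoint) from FA, MI, CMP, DT. PROOF. By `coc` some `γ₁ ∈ Γ` makes the three points `δ`-separated (they are different,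
`b > 0`), `(u₁, h₁)` of MI: `dd u₁ h₁ (γ₁ p) (γ₁ q) = dd u h p q`, and CMP: `|p - q| ≤ κ₁ dd u₁ h₁ p q` on `T`. `γ₂` of FA for `(x, σ)`. Put `γ = γ₂⁻¹ γ₁` and
`(u', h')` of MI for `γ₂⁻¹`, `(u₁, h₁)`: `dd u' h' (γ₂⁻¹ p) (γ₂⁻¹ q) = dd u₁ h₁ p q`. So `dd u' h' (γ p) (γ q) = dd u₁ h₁ (γ₁ p) (γ₁ q) = dd u h p q`, and
`dd x σ p q ≤ κ₂ |γ₂ p - γ₂ q| ≤ κ₂ κ₁ dd u₁ h₁ (γ₂ p) (γ₂ q) = κ₂ κ₁ dd u' h' p q`. -/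
def St_FB : Prop := ∀ (K : Cp) (Γ : Subgroup (Equiv.Perm K.T)), Grp K Γ → ∀ b : ℝ, 0 < b → ∃ κ : ℝ, 1 ≤ κ ∧
  ∀ (u : ℂ) (h : ℝ) (p₁ p₂ p₃ : K.T), 0 < h → b ≤ dd u h p₁ p₂ → b ≤ dd u h p₂ p₃ → b ≤ dd u h p₁ p₃ →
  ∀ (x : K.T) (σ : ℝ), 0 < σ → σ ≤ K.r₀ → ∃ γ ∈ Γ, ∃ (u' : ℂ) (h' : ℝ), 0 < h' ∧
    (∀ p q : K.T, dd u' h' (γ p) (γ q) = dd u h p q) ∧ ∀ p q : K.T, dd x σ p q ≤ κ * dd u' h' p q

/-- [FC] from TR3, LA. PROOF. LA for `x, z₁, z₂` of TR3, `δ = σ / 4`, `D = 2 σ`, `b = 1 / (10 κ)`: `h' ≤ 20 κ σ`, `|u' - x| ≤ 20 κ σ`,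
`h' ≥ b (σ/4)² / (8 σ) = σ / (1280 κ)`. -/
def St_FC : Prop := ∀ (K : Cp) (κ : ℝ), 1 ≤ κ → ∃ κ' : ℝ, 1 ≤ κ' ∧ ∀ (x : ℂ) (σ : ℝ) (u' : ℂ) (h' : ℝ), x ∈ K.T → 0 < σ → σ ≤ K.r₀ →
  0 < h' → (∀ p ∈ K.T, ∀ q ∈ K.T, dd x σ p q ≤ κ * dd u' h' p q) → σ ≤ κ' * h' ∧ h' ≤ κ' * σ ∧ ‖u' - x‖ ≤ κ' * σ

/-! ## Uniform counting -/

/-- [NF] from TF, BL. PROOF. For `p ∈ T` take `g_p ∈ Γ` with `g_p p ≠ p` (`nfx`); by continuity (BL) `|g_p q - q| ≥ |g_p p - p| / 2` for `q` near `p`;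
finitely many of these neighbourhoods cover `T`. -/
def St_NF : Prop := ∀ (K : Cp) (Γ : Subgroup (Equiv.Perm K.T)), Grp K Γ → ∃ η : ℝ, 0 < η ∧ ∃ B : Finset (Equiv.Perm K.T),
  (∀ g ∈ B, g ∈ Γ) ∧ ∀ p : K.T, ∃ g ∈ B, η ≤ ‖(g p : ℂ) - p‖

/-- [EX] from FA, TF. PROOF. Take `σ ≤ r₀` with `κ 2 r₀ σ / η² ≤ τ` and `γ` of FA for `(z, σ)`. If `|p - z| ≥ η` and `|q - z| ≥ η` (`p, q ∈ T`) then
`|γ p - γ q| ≤ κ dd z σ p q ≤ κ σ |p - q| / η² ≤ τ`. Put `g = γ⁻¹`. If some `q₀ ∈ T` has `|q₀ - z| ≥ η` take `e = γ q₀`: if `|g p - z| ≥ η` then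
`|p - e| = |γ (g p) - γ q₀| ≤ τ`. If there is no such `q₀` all `|g p - z| < η`. -/
def St_EX : Prop := ∀ (K : Cp) (Γ : Subgroup (Equiv.Perm K.T)), Grp K Γ → ∀ (η τ : ℝ) (z : K.T), 0 < η → 0 < τ →
  ∃ g ∈ Γ, ∃ e : ℂ, ∀ p : K.T, τ < ‖(p : ℂ) - e‖ → ‖(g p : ℂ) - z‖ < η

/-- [BSA] from NF, EX, TF. PROOF. `η₁`, `B₁` of NF, a finite set of `z_k ∈ T` such that each `z ∈ T` has some `|z - z_k| < η / 2`, `g_k, e_k` of EX for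
`η / 2`, `τ = η₁ / 3`, `z_k`. `B = {g_k} ∪ {g_k β : β ∈ B₁}`. If `|p - e_k| > τ` use `g_k`. Otherwise `|β p - e_k| ≥ |β p - p| - |p - e_k| ≥ η₁ - τ > τ` for some
`β ∈ B₁`: use `g_k β`. -/
def St_BSA : Prop := ∀ (K : Cp) (Γ : Subgroup (Equiv.Perm K.T)), Grp K Γ → ∀ η : ℝ, 0 < η → ∃ B : Finset (Equiv.Perm K.T),
  (∀ g ∈ B, g ∈ Γ) ∧ ∀ z p : K.T, ∃ g ∈ B, ‖(g p : ℂ) - z‖ < η

/-- [BS] from BSA, BL, NNB, DBL, MON, TF. PROOF. `B` of BSA, `L` = the greatest constant of BL for `g ∈ B`. Let `F ⊆ T` be `s`-separated, `|F| = NN T s`. `F` is the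
union of `F_g = {p ∈ F : |g p - z| < η}`, `g ∈ B`; `g` is injective and `g F_g` is `s / L`-separated in `T ∩ ball z η`. So
`NN T s ≤ |B| NN (T ∩ ball z η) (s / L) ≤ |B| C_L NN (T ∩ ball z η) s` (DBL for `k = L`). -/
def St_BS : Prop := ∀ (K : Cp) (Γ : Subgroup (Equiv.Perm K.T)), Grp K Γ → ∀ η : ℝ, 0 < η → ∃ C : ℝ, 1 ≤ C ∧
  ∀ (z : ℂ) (s : ℝ), z ∈ K.T → 0 < s → (NN K.T s : ℝ) ≤ C * NN (K.T ∩ ball z η) s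

/-- [CLS] from FA, BS, NNB, DBL, MON, TF. PROOF. `κ` of FA, `η₁ = 1 / (2 κ)`. (1) `NN (T ∩ ball y r) (t r) ≤ NN T (t / (2 κ))`: `γ` of FA for `(y, r)`; for
`p, q ∈ T ∩ ball y r` with `|p - q| ≥ t r`: `dd y r p q ≥ r (t r) / (2 r²) = t / 2`, so `|γ p - γ q| ≥ t / (2 κ)`. (2)
`NN (T ∩ ball (γ z) η₁) (κ t) ≤ NN (T ∩ ball z r') (t r')`: `γ` of FA for `(z, r')`; if `q ∈ T`, `|q - γ z| < η₁`, `p = γ⁻¹ q`, then `dd z r' p z ≤ κ |q - γ z| < 1/2`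
and `dd z r' p z = |p - z| / √(|p - z|² + r'²)`, so `|p - z| < r'`; and `|q₁ - q₂| ≤ κ dd z r' p₁ p₂ ≤ κ |p₁ - p₂| / r'`. (3) BS for `η₁` at `γ z` and DBL for
`k = 2 κ²`: `NN T (t / (2 κ)) ≤ C NN T (κ t) ≤ C C' NN (T ∩ ball (γ z) η₁) (κ t)`. -/
def St_CLS : Prop := ∀ (K : Cp) (Γ : Subgroup (Equiv.Perm K.T)), Grp K Γ → ∃ C : ℝ, 1 ≤ C ∧
  ∀ (y z : ℂ) (r r' t : ℝ), y ∈ K.T → z ∈ K.T → 0 < r → r ≤ K.r₀ → 0 < r' → r' ≤ K.r₀ → 0 < t →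
  (NN (K.T ∩ ball y r) (t * r) : ℝ) ≤ C * NN (K.T ∩ ball z r') (t * r')

/-- [HOL] (round holes everywhere and at all scales) from FA, UH, MC, SPH, TF. PROOF. `κ` of FA, `γ` for `(y, ρ)`, `η₁ = 1 / (2 κ)`; as in CLS (2): `q ∈ T`,
`|q - γ y| < η₁` imply `|γ⁻¹ q - y| < ρ`. UH for `η₁` at `γ y`: a closed ball `closedBall (c i) (r i) ⊆ ball (γ y) η₁`, `r i ≥ c₁`. MC for `γ⁻¹`, `i`: `p, ρ'`. The circle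
`sphere p ρ'` is the image of the circle `i`, so it is in `T` and in `ball y ρ`; so `closedBall p ρ' ⊆ ball y ρ` (the point of the circle farthest from
`y` has distance `|p - y| + ρ'`). Two antipodal points `z₁, z₂` of the circle `i` have `2 c₁ ≤ 2 r i = |z₁ - z₂| ≤ κ dd y ρ (γ⁻¹ z₁) (γ⁻¹ z₂) ≤ κ |γ⁻¹ z₁ - γ⁻¹ z₂| / ρ ≤
2 κ ρ' / ρ`: `ρ' ≥ c₁ ρ / κ`. Some `z ∈ T` has `|z - y| = ρ` (SPH), so `T` is not in `closedBall p ρ'` and MC gives `ρ' ≤ |z - p|` for `z ∈ T`. `c = min 1 (c₁ / κ)`. -/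
def St_HOL : Prop := ∀ (K : Cp) (Γ : Subgroup (Equiv.Perm K.T)), Grp K Γ → ∃ c : ℝ, 0 < c ∧ c ≤ 1 ∧
  ∀ (y : ℂ) (ρ : ℝ), y ∈ K.T → 0 < ρ → ρ ≤ K.r₀ → ∃ (p : ℂ) (ρ' : ℝ), c * ρ ≤ ρ' ∧ closedBall p ρ' ⊆ ball y ρ ∧ sphere p ρ' ⊆ K.T ∧
    ∀ z ∈ K.T, ρ' ≤ ‖z - p‖

/-! ## The non conformal case -/

/-- [GEA] PROOF. Let `q = 0`, `e = 1` (a motion), `w = x + i y`, and `y ≥ 0` (otherwise the second alternative by symmetry). `ρ > √((|x| + a)² + y²) =: P` and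
`Q := |w - i b| = √(x² + (y - b)²) ≤ P` (as `b² - 2 b y ≤ a²`). `P - Q = (P² - Q²) / (P + Q) ≥ (a² - b² + 2 a |x| + 2 b y) / (2 (a + |x| + y)) ≥ min ((a² - b²) / (2 a)) (min a b)`. -/
def St_GEA : Prop := ∀ (q e w : ℂ) (a b ρ : ℝ), ‖e‖ = 1 → 0 < b → b < a → ‖q + a * e - w‖ < ρ → ‖q - a * e - w‖ < ρ →
  (ball (q + b * (Complex.I * e)) (min ((a ^ 2 - b ^ 2) / (2 * a)) b) ⊆ ball w ρ) ∨
  (ball (q - b * (Complex.I * e)) (min ((a ^ 2 - b ^ 2) / (2 * a)) b) ⊆ ball w ρ)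

/-- [SV] (singular values) PROOF. `A z = α z + β conj z` with `α = (A 1 - i A i) / 2`, `β = (A 1 + i A i) / 2`. Write `α = |α| exp (i φ)`, `β = |β| exp (i ψ)`; `v = exp (i (ψ - φ) / 2)`,
`e = exp (i (φ + ψ) / 2)`: `A v = (|α| + |β|) e`, `A (i v) = (|α| - |β|) i e`. Second part: `w = (x + i y) v`, `|A w|² = x² L² + y² μ²`. -/
def St_SV : Prop := (∀ A : ℂ →ₗ[ℝ] ℂ, ∃ (v e : ℂ) (L μ : ℝ), Svd A v e L μ) ∧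
  ∀ (A : ℂ →ₗ[ℝ] ℂ) (v e : ℂ) (L μ : ℝ), Svd A v e L μ → ∀ w, |μ| * ‖w‖ ≤ ‖A w‖ ∧ ‖A w‖ ≤ L * ‖w‖

/-- [GEC] from CC, GEA, TF. PROOF. Suppose the segment `S = {q + t e : |t| ≤ a}` does not meet `T`; it is connected: CC. If `S ⊆ ball (c j) (r j)`, GEA gives `Qp` or `Qm` in
this ball (`ε < min ..`), but they are in `T`. If `S` is outside of `closedBall c₀ r₀`: the segment from `Qp` to `Qm` is in `closedBall c₀ r₀`; the component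
along `i e` relative to `q` is `≥ b - ε > 0` at `Qp` and `≤ -b + ε < 0` at `Qm`, so some point `m` of it is `q + t e` with real `t`, and `|t| ≤ ε < b < a` (the components
along `e` of `Qp - q`, `Qm - q` are at most `ε` in absolute value); `m ∈ S`, a contradiction. -/
def St_GEC : Prop := ∀ (K : Cp) (q e : ℂ) (a b ε : ℝ) (Qp Qm : ℂ), ‖e‖ = 1 → 0 < b → b < a → Qp ∈ K.T → Qm ∈ K.T →
  ‖Qp - (q + b * (Complex.I * e))‖ ≤ ε → ‖Qm - (q - b * (Complex.I * e))‖ ≤ ε → ε < min ((a ^ 2 - b ^ 2) / (2 * a)) b →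
  ∃ t : ℝ, |t| ≤ a ∧ q + t * e ∈ K.T

/-- [POR] (the image has holes) from HOL, SV, GEC. PROOF. `c` of HOL; HOL for `(y, ρ)`: `p`, `ρ' =: r'`, `c ρ ≤ r' < ρ`; `ball y ρ ⊆ ball x R`. Put `q = f x + A (p - x)`,
`a = r' L`, `b = r' |μ|`, `a' = (a + b) / 2`, `ε = θ |μ| R ≤ ε₁ b / 16`. The points `P± = p ± r' (i v)` of the circle are in `T ∩ ball x R`; `f (P±)` is within `ε` of
`q ± r' μ (i e)`: for `Qp, Qm` take `f (P+), f (P-)` (exchanged if `μ < 0`). GEC for `a'`, `b`: `(a'² - b²) / (2 a') ≥ (a' - b) / 2 = (a - b) / 4 ≥ ε₁ b / 4 > ε` and `b > ε`. It gives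
`τ = q + t e ∈ T`, `|t| ≤ a'`. For `p' ∈ T ∩ ball x R`: `|p' - p| ≥ r'` and `A (p' - p) - t e = A (p' - p - (t / L) v)`, so `|f p' - τ| ≥ |μ| (r' - a' / L) - ε = b (a - b) / (2 a) - ε ≥
ε₁ b / 4 - ε ≥ ε₁ b / 8 ≥ c ε₁ |μ| ρ / 8` (`(a - b) / a ≥ ε₁ / (1 + ε₁) ≥ ε₁ / 2`). `|τ - f y| ≤ a' + L |p - y| + ε ≤ 3 M |μ| ρ`. -/
def St_POR : Prop := ∀ (K : Cp) (Γ : Subgroup (Equiv.Perm K.T)), Grp K Γ → ∃ c : ℝ, 0 < c ∧ c ≤ 1 ∧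
  ∀ (ε₁ M θ R : ℝ) (x : ℂ) (f : ℂ → ℂ) (A : ℂ →ₗ[ℝ] ℂ) (v e : ℂ) (L μ : ℝ), 0 < ε₁ → ε₁ ≤ 1 → 1 ≤ M → 0 ≤ θ → x ∈ K.T → 0 < R → R ≤ K.r₀ →
  (∀ p ∈ K.T, ‖p - x‖ < R → f p ∈ K.T) → Svd A v e L μ → μ ≠ 0 → (1 + ε₁) * |μ| ≤ L → L ≤ M * |μ| → Near K.T f x R A (θ * |μ| * R) →
  ∀ (y : ℂ) (ρ : ℝ), y ∈ K.T → ‖y - x‖ < R / 2 → 0 < ρ → ρ ≤ R / 2 → 16 * θ * R ≤ c * ε₁ * ρ →
  ∃ τ ∈ K.T, ‖τ - f y‖ ≤ 3 * M * |μ| * ρ ∧ ∀ p ∈ K.T, ‖p - x‖ < R → c * ε₁ * |μ| * ρ / 8 ≤ ‖f p - τ‖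

/-- [XB] (a maximal separated set is uniformly distributed) from CLS, NNB, DBL, PK, MON, TF. PROOF. (1) `cn X z (5ρ) ≤ NN (T ∩ ball z (5ρ)) s`. (2)
`NN (T ∩ ball z' (κρ/4)) s ≤ N cn X z' (κρ/2)`, `N = N(1)` of PK: each point of a separated subset of `T ∩ ball z' (κρ/4) ⊆ ball y (3r)` has some `x ∈ X` at distance `< s ≤ κρ/4`, and
each `x` serves at most `N`. (3) CLS with `t = 4 s / (κ ρ)`: `NN (T ∩ ball z (5ρ)) (20 s / κ) ≤ C NN (T ∩ ball z' (κρ/4)) s`; DBL for `k = 20 / κ`. (`5 ρ ≤ r ≤ r₀`.) -/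
def St_XB : Prop := ∀ (K : Cp) (Γ : Subgroup (Equiv.Perm K.T)), Grp K Γ → ∀ κ : ℝ, 0 < κ → κ ≤ 1 → ∃ C : ℝ, 1 ≤ C ∧
  ∀ (y : ℂ) (r s : ℝ) (X : Finset ℂ), Mx K y r s X → ∀ (z z' : ℂ) (ρ : ℝ), z ∈ K.T → z' ∈ K.T → ‖z - y‖ < 2 * r → ‖z' - y‖ < 2 * r →
  0 < ρ → 5 * ρ ≤ r → 4 * s ≤ κ * ρ → (cn X z (5 * ρ) : ℝ) ≤ C * cn X z' (κ * ρ / 2)

/-- [STP] (one scale) from XB, NNB. PROOF. `c = 1 / C`. Let `e_1, ..., e_k` be a greatest `4ρ`-separated subset of `E` (NNB), `τ_i ∈ T` the hole of `e_i`. If `|x - e| < κρ/2`, `e ∈ E`, then `|e - e_i| < 4ρ`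
for some `i`, so `|x - e_i| < 5ρ`: `cE X E (κρ/2) ≤ ∑ cn X e_i (5ρ) ≤ C ∑ cn X τ_i (κρ/2)`. The points `x ∈ X` with `|x - τ_i| < κρ/2` have distance `≥ κρ/2` from `E` and distance `< 2ρ` from `e_i`,
and these sets are disjoint for different `i` (they are in the disjoint balls `ball e_i (2ρ)`): `cE X E (2ρ) ≥ cE X E (κρ/2) + ∑ cn X τ_i (κρ/2)`. (`|e_i - y| < r`, `|τ_i - y| < r + ρ ≤ 2 r`.) -/
def St_STP : Prop := ∀ (K : Cp) (Γ : Subgroup (Equiv.Perm K.T)), Grp K Γ → ∀ κ : ℝ, 0 < κ → κ ≤ 1 → ∃ c : ℝ, 0 < c ∧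
  ∀ (y : ℂ) (r s : ℝ) (X : Finset ℂ) (E : Set ℂ) (ρ : ℝ), Mx K y r s X → E ⊆ K.T ∩ ball y r → 0 < ρ → 5 * ρ ≤ r → 4 * s ≤ κ * ρ →
  (∀ e ∈ E, ∃ τ ∈ K.T, ‖τ - e‖ ≤ ρ ∧ ∀ p ∈ E, κ * ρ ≤ ‖p - τ‖) → (1 + c) * (cE X E (κ * ρ / 2) : ℝ) ≤ cE X E (2 * ρ)

/-- [ITR] (porous sets are small) from STP, NNB, PK, CLS, DBL, MON, TF. PROOF. `ρ_j = (r/5) (κ/4)^j`, `t₀ = (1/5) (κ/4)^J`, `s = t₀ r = ρ_J`, `X` a greatest `s`-separated subset of `T ∩ ball y (3r)` (`Mx`). STP at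
`ρ_j`, `j < J` (`4 s ≤ κ ρ_j`, `t₀ r ≤ ρ_j ≤ r`, `κ ρ_j / 2 = 2 ρ_{j+1}`): `(1 + c)^J cE X E (2 ρ_J) ≤ cE X E (2 ρ_0) ≤ |X|`. `NN E s ≤ N cE X E (2 s)` (each point of an `s`-separated subset of `E` has some `x ∈ X` at distance
`< s`, each `x` serves at most `N = N(1)` of PK). `|X| ≤ NN (T ∩ ball y (3r)) s ≤ C₃ NN (T ∩ ball y (3r)) (3 s) ≤ C₃ C NN (T ∩ ball y r) s` (DBL, CLS with `t = t₀`). Take `J` with `N C₃ C (1 + c)^{-J} ≤ ε`, `(κ/4)^J < t₁`. -/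
def St_ITR : Prop := ∀ (K : Cp) (Γ : Subgroup (Equiv.Perm K.T)), Grp K Γ → ∀ κ ε t₁ : ℝ, 0 < κ → κ ≤ 1 → 0 < ε → 0 < t₁ →
  ∃ t₀ : ℝ, 0 < t₀ ∧ t₀ < t₁ ∧ t₀ ≤ 1 ∧ ∀ (y : ℂ) (r : ℝ) (E : Set ℂ), y ∈ K.T → 0 < r → 3 * r ≤ K.r₀ → E ⊆ K.T ∩ ball y r →
  (∀ ρ : ℝ, t₀ * r ≤ ρ → ρ ≤ r → ∀ e ∈ E, ∃ τ ∈ K.T, ‖τ - e‖ ≤ ρ ∧ ∀ p ∈ E, κ * ρ ≤ ‖p - τ‖) →
  (NN E (t₀ * r) : ℝ) ≤ ε * NN (K.T ∩ ball y r) (t₀ * r)

/-- [VV] (no non conformal affine behaviour) from POR, ITR, CLS, NNB, DBL, MON, SV, TF. PROOF. `c` of POR, `κ = c ε₁ / (24 M)`, `C` of CLS, `C₂` of DBL for `4 M`, `ε = 1 / (2 C C₂)`, `t₀` of ITR (`t₁ = 1`),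
`θ = min (c ε₁ t₀ / 48) (t₀ / 4)`. Let `l = |μ|`, `r = M l R`, `E = f '' (T ∩ ball x (R/2)) ⊆ T ∩ ball (f x) r` (`|f y - f x| < L R / 2 + θ l R`, SV). Holes: for `t₀ r ≤ ρ' ≤ r` use POR with `ρ = ρ' / (3 M l) ∈ [t₀ R / 3, R / 3]`
(`16 θ R ≤ c ε₁ ρ`): `|τ - e| ≤ ρ'`, `|p - τ| ≥ c ε₁ l ρ / 8 = κ ρ'`. ITR: `NN E (t₀ r) ≤ ε Z`, `Z = NN (T ∩ ball (f x) r) (t₀ r) ≥ 1`. A greatest `2 t₀ M R`-separated set in `T ∩ ball x (R/2)` has an image in `E` which is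
`t₀ r`-separated (`l 2 t₀ M R - 2 θ l R ≥ t₀ M l R`), so `NN E (t₀ r) ≥ NN (T ∩ ball x (R/2)) (4 t₀ M (R/2))`. CLS with `t = 4 t₀ M` and DBL: `Z ≤ C₂ NN (T ∩ ball (f x) r) (4 M t₀ r) ≤ C₂ C NN (T ∩ ball x (R/2)) (4 t₀ M (R/2)) ≤
C₂ C ε Z = Z / 2`, a contradiction. -/
def St_VV : Prop := ∀ (K : Cp) (Γ : Subgroup (Equiv.Perm K.T)), Grp K Γ → ∀ ε₁ M : ℝ, 0 < ε₁ → ε₁ ≤ 1 → 1 ≤ M → ∃ θ : ℝ, 0 < θ ∧
  ∀ (R : ℝ) (x : ℂ) (f : ℂ → ℂ) (A : ℂ →ₗ[ℝ] ℂ) (v e : ℂ) (L μ : ℝ), x ∈ K.T → 0 < R → R ≤ K.r₀ → 3 * M * |μ| * R ≤ K.r₀ →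
  (∀ p ∈ K.T, ‖p - x‖ < R → f p ∈ K.T) → Svd A v e L μ → μ ≠ 0 → (1 + ε₁) * |μ| ≤ L → L ≤ M * |μ| → Near K.T f x R A (θ * |μ| * R) → False

/-! ## The conformal case -/

/-- [PS] from CH. PROOF. For `t ∈ [1/2, 1]` let `n(t)` be the greatest cardinality of a configuration for `(t a, t b)` (bounded by CH for `a / 2`; `≥` the given one). `n` is antitone. Take `m > n(1/2)` and the numbers
`t = 1 - k / (2 m)`, `k ≤ m`: two consecutive ones have the same `n`. -/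
def St_PS : Prop := ∀ (K : Cp) (a b : ℝ), 0 < a → 0 < b → (∃ (u : ℂ) (h : ℝ) (F : Finset ℂ), Cfg K u h a b F) →
  ∃ t₁ t₂ : ℝ, 1 / 2 ≤ t₂ ∧ t₂ < t₁ ∧ t₁ ≤ 1 ∧ ∃ (u : ℂ) (h : ℝ) (F : Finset ℂ), Cfg K u h (t₁ * a) (t₁ * b) F ∧
    ∀ (u' : ℂ) (h' : ℝ) (F' : Finset ℂ), Cfg K u' h' (t₂ * a) (t₂ * b) F' → F'.card ≤ F.card

/-- [MOV] (move a configuration to a given place and scale) from FB, FC, SPH, DT. PROOF. FB for `b`, FC: with `σ = ε R` there are `γ`, `u'`, `h'` with `dd u' h' (γ p) (γ q) = dd u h p q` and the three bounds (`κ` the constant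
of FC). `F₁ = γ F` is `s`-separated for `dd u' h'`. If `q, q'` are far (`|q - x| ≥ R / 2`, so `|q - u'| ≥ R / 4`) then `dd u' h' q q' ≤ h' |q - q'| / (|q - u'| |q' - u'|) ≤ h' (1 / |q - u'| + 1 / |q' - u'|) ≤ 8 κ ε < s`. So at most one point `q_f`
of `F₁` is far. If there is one, replace it by `ω ∈ T`, `|ω - x| = R / 2` (SPH), also far: `dd u' h' q_f ω ≤ 8 κ ε`; use the triangle inequality. -/
def St_MOV : Prop := ∀ (K : Cp) (Γ : Subgroup (Equiv.Perm K.T)), Grp K Γ → ∀ b : ℝ, 0 < b → ∃ κ : ℝ, 1 ≤ κ ∧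
  ∀ (u : ℂ) (h s b' : ℝ) (F : Finset ℂ) (x : ℂ) (R ε : ℝ), b ≤ b' → 0 < s → x ∈ K.T → 0 < R → R ≤ K.r₀ → 0 < ε → 4 * κ * ε ≤ 1 → 8 * κ * ε < s →
  8 * κ * ε < b' → Cfg K u h s b' F → ∃ (u' : ℂ) (h' : ℝ) (F' : Finset ℂ), F'.card = F.card ∧ (∀ p ∈ F', ‖p - x‖ < R) ∧
    Cfg K u' h' (s - 8 * κ * ε) (b' - 8 * κ * ε) F' ∧ ε * R ≤ κ * h' ∧ h' ≤ κ * (ε * R) ∧ ‖u' - x‖ ≤ κ * (ε * R)

/-- [IMZ] (image of a configuration under a map which is almost a similarity, and one more point) from DT. PROOF. `u'' = f x + A (u' - x)`, `h'' = Λ h'`. With `α p = f x + A (p - x)`: `dd u'' h'' (α p) (α q) = dd u' h' p q`, and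
`dd u'' h'' (f p) (α p) ≤ |f p - α p| / h'' ≤ θ R / h' ≤ θ κ / ε`. With `S = ε Λ R`: `h'' ≥ S / κ`, `|z - u''| + h'' ≤ (1 + 2 κ) S`, and for `e = f p`: `|e - z| ≥ S / (2 W)`, `|e - u''| + h'' ≤ |e - z| + (1 + 2 κ) S ≤ |e - z| (1 + 2 W (1 + 2 κ))`. So
`dd u'' h'' z e ≥ a := 1 / (κ (1 + 2 κ) (1 + 2 W (1 + 2 κ)))`. -/
def St_IMZ : Prop := ∀ κ W : ℝ, 1 ≤ κ → 1 ≤ W → ∃ a : ℝ, 0 < a ∧
  ∀ (x : ℂ) (R ε θ Λ : ℝ) (u' : ℂ) (h' : ℝ) (A : ℂ →ₗ[ℝ] ℂ) (f : ℂ → ℂ) (F : Finset ℂ) (z : ℂ), 0 < R → 0 < ε → 0 ≤ θ → 0 < Λ → 0 < h' →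
  (∀ w, ‖A w‖ = Λ * ‖w‖) → (∀ p ∈ F, ‖f p - f x - A (p - x)‖ ≤ θ * Λ * R) → ε * R ≤ κ * h' → h' ≤ κ * (ε * R) → ‖u' - x‖ ≤ κ * (ε * R) →
  ε * (Λ * R) ≤ W * ‖z - f x‖ → ‖z - f x‖ ≤ ε * (Λ * R) → (∀ p ∈ F, ‖z - f x‖ / 2 ≤ ‖f p - z‖) →
  ∃ (u'' : ℂ) (h'' : ℝ), 0 < h'' ∧ (∀ p ∈ F, ∀ q ∈ F, dd u' h' p q - 2 * θ * κ / ε ≤ dd u'' h'' (f p) (f q)) ∧ ∀ p ∈ F, a ≤ dd u'' h'' z (f p)

/-- [CNF] (conformal case) from PS, MOV, IMZ, TR3, DT, TF. PROOF. `κ` of MOV for `b = 1/20`, `a'` of IMZ for `κ`, `W`, `a = min (1/10) a'`, `b = 1/10`. The three points of TR3 at some `y ∈ T`, `σ = r₀`, are a configuration for `(a, b)`: PS gives `t₁, t₂` and `F`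
(for `(t₁ a, t₁ b)`) with the greatest cardinality even for `(t₂ a, t₂ b)`. `ε = (t₁ - t₂) a / (32 κ)` (so `4 κ ε ≤ 1`, `8 κ ε ≤ (t₁ - t₂) a / 4`), `θ = (t₁ - t₂) a ε / (8 κ)` (so `2 θ κ / ε = (t₁ - t₂) a / 4`). MOV: `F'`; IMZ:
`F'' = f F' ∪ {z}` is in `T`, its points have mutual distances `≥ t₁ a - (t₁ - t₂) a / 2 ≥ t₂ a` resp. `≥ a ≥ t₂ a` (so `f` is injective on `F'` and `z ∉ f F'`), the three points `≥ t₁ b - (t₁ - t₂) a / 2 ≥ t₂ b` (`a ≤ b`). `|F''| = |F| + 1`, a contradiction. -/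
def St_CNF : Prop := ∀ (K : Cp) (Γ : Subgroup (Equiv.Perm K.T)), Grp K Γ → ∀ W : ℝ, 1 ≤ W → ∃ ε θ : ℝ, 0 < ε ∧ 0 < θ ∧
  ∀ (x : ℂ) (R Λ : ℝ) (A : ℂ →ₗ[ℝ] ℂ) (f : ℂ → ℂ) (z : ℂ), x ∈ K.T → z ∈ K.T → 0 < R → R ≤ K.r₀ → 0 < Λ → (∀ w, ‖A w‖ = Λ * ‖w‖) →
  (∀ p ∈ K.T, ‖p - x‖ < R → f p ∈ K.T) → Near K.T f x R A (θ * Λ * R) → ε * (Λ * R) ≤ W * ‖z - f x‖ → ‖z - f x‖ ≤ ε * (Λ * R) →
  (∀ p ∈ K.T, ‖p - x‖ < R → ‖z - f x‖ / 2 ≤ ‖f p - z‖) → False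

/-- [KEY] from CNF, VV, SV. PROOF. CNF for `W = 8 M²`: `ε, θ₀`; `ε₁ = min 1 (θ₀ / 2)`; VV for `ε₁`, `M`: `θ₁`; `θ = min (1/8) (min (θ₀ / 2) θ₁)`. Singular values `v, e, L, μ` of `A`: `l ≤ |μ| ≤ L ≤ M l`. If `(1 + ε₁) |μ| ≤ L`: VV
(`3 M |μ| R ≤ 3 M² l R ≤ r₀`, `θ l R ≤ θ₁ |μ| R`). Otherwise let `A₀` be the real linear map with `A₀ v = L e`, `A₀ (i v) = (μ / |μ|) L (i e)` (`A₀ w = L e w / v` or `L e conj (w / v)`): `|A₀ w| = L |w|`, `|A w - A₀ w| ≤ (L - |μ|) |w| ≤ ε₁ |μ| |w|`, and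
`θ l R + ε₁ |μ| R ≤ θ₀ L R`: CNF with `Λ = L` (`ε L R ≤ ε M l R ≤ 8 M² |z - f x|`, `|z - f x| ≤ ε l R ≤ ε L R`). -/
def St_KEY : Prop := ∀ (K : Cp) (Γ : Subgroup (Equiv.Perm K.T)), Grp K Γ → ∀ M : ℝ, 1 ≤ M → ∃ ε θ : ℝ, 0 < ε ∧ 0 < θ ∧ θ ≤ 1 / 8 ∧
  ∀ (x : ℂ) (R l : ℝ) (A : ℂ →ₗ[ℝ] ℂ) (f : ℂ → ℂ) (z : ℂ), x ∈ K.T → z ∈ K.T → 0 < R → R ≤ K.r₀ → 3 * M ^ 2 * (l * R) ≤ K.r₀ → Dist A l M →
  (∀ p ∈ K.T, ‖p - x‖ < R → f p ∈ K.T) → Near K.T f x R A (θ * l * R) → ε * (l * R) ≤ 8 * M * ‖z - f x‖ → ‖z - f x‖ ≤ ε * (l * R) →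
  (∀ p ∈ K.T, ‖p - x‖ < R → ‖z - f x‖ / 2 ≤ ‖f p - z‖) → False

/-! ## Frontier points -/

/-- [ARC] (the shorter arc) PROOF. Let `m = (s + e) / 2`, `h = (e - s) / 2`, `ℓ = |h|`; `m - c` is orthogonal to `h`, `|m - c|² = r² - ℓ²`. If `ℓ = 0` take `J = {s}`. Let `n` be a unit vector orthogonal to `h` with `m - c = |m - c| n`. `J` is the image of `[-1, 1]` under the
continuous map `w(t) = m + t h + (√(r² - t² ℓ²) - |m - c|) n`: `|w(t) - c|² = t² ℓ² + (r² - t² ℓ²) = r²`, `w(±1) = m ± h`, and `|w(t) - m|² = t² ℓ² + (√(|m-c|² + (1 - t²) ℓ²) - |m - c|)² ≤ t² ℓ² + (1 - t²) ℓ² = ℓ²` (`√(x² + y²) - x ≤ y`). -/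
def St_ARC : Prop := ∀ (c : ℂ) (r : ℝ) (s e : ℂ), 0 < r → ‖s - c‖ = r → ‖e - c‖ = r → ∃ J : Set ℂ, IsPreconnected J ∧ s ∈ J ∧ e ∈ J ∧
  ∀ w ∈ J, ‖w - c‖ = r ∧ ‖w - (s + e) / 2‖ ≤ ‖s - e‖ / 2

/-- [LCF] (a frontier point nearby) from ARC, CC, TF. PROOF. Let `d = |e₁ - z|`, `T₁ = T ∩ closedBall z d`, and suppose there is no such `y`. Then `A = T₁ ∩ E` and `B = T₁ \ E` are closed (a limit in `E` of points of `B` would be such a `y`), disjoint. `w(t) = z + t (e₁ - z)`,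
`G = {t ∈ [0, 1] : w(t) ∈ T}` closed, `0, 1 ∈ G`; `w(0) ∈ B`, `w(1) ∈ A`. `b₁` = the least `t ∈ G` with `w(t) ∈ A`, `a₁` = the greatest `t ∈ G`, `t ≤ b₁`, with `w(t) ∈ B`. `a₁ < b₁` and `w(t) ∉ T` for `a₁ < t < b₁`; so by CC the open segment is in one
`ball (c i) (r i)` (it is in the convex set `closedBall c₀ r₀`). So `w(a₁), w(b₁)` are in the closed ball and in `T`, so on its circle. `J` of ARC joins them inside of the circle `⊆ T` and `J ⊆ closedBall z d` (the ball with diameter `[w(a₁), w(b₁)]`, a part of the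
radius `[z, e₁]`). `J ⊆ A ∪ B` is connected and meets both: a contradiction. -/
def St_LCF : Prop := ∀ (K : Cp) (E : Set ℂ), IsClosed E → E ⊆ K.T → ∀ z ∈ K.T, z ∉ E → ∀ e₁ ∈ E, ∃ y ∈ E, y ∈ closure (K.T \ E) ∧ ‖y - z‖ ≤ ‖e₁ - z‖

/-- [NTB] (frontier points with good access, Baire) from LCF, TF. PROOF. `F = E ∩ closure (T \ E)` compact, `y₀ ∈ F`. Suppose no `y ∈ F ∩ ball y₀ η` has the property. `F_n = {y ∈ F : ∀ z ∈ T, |z - y| < 1 / (n+1) → infDist z E ≤ |z - y| / 2}` is closed, and the union of the `F_n`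
contains `F ∩ ball y₀ η`. Baire (the space `F ∩ ball y₀ η` is locally compact): there are `y₁ ∈ F`, `|y₁ - y₀| < η`, `ρ₁ > 0`, `n` with `F ∩ ball y₁ ρ₁ ⊆ F_n`. Take `z ∈ T \ E` with `|z - y₁| < min ρ₁ (1 / (n+1)) / 2`, `e₁ ∈ E` with `|e₁ - z| = infDist z E = d > 0`, `d ≤ |y₁ - z|`, and `y` of LCF:
`y ∈ F`, `|y - z| ≤ d`. `|y - y₁| < ρ₁`, so `y ∈ F_n` and `d ≤ |z - y| / 2 ≤ d / 2`, a contradiction. -/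
def St_NTB : Prop := ∀ (K : Cp) (E : Set ℂ), IsCompact E → E ⊆ K.T → ∀ y₀ ∈ E, y₀ ∈ closure (K.T \ E) → ∀ η : ℝ, 0 < η →
  ∃ y ∈ E, ‖y - y₀‖ < η ∧ ∀ ρ : ℝ, 0 < ρ → ∃ z ∈ K.T, z ≠ y ∧ ‖z - y‖ < ρ ∧ ∀ e ∈ E, ‖z - y‖ / 2 ≤ ‖e - z‖

/-- [WIN] (choice of the scale) from SPH. PROOF. `R_k = R₁ / 2^k` with `A_k, l_k`. Let `p ∈ T`, `|p - x| = R_k / 4` (SPH): `|f p - f x| ≥ l_k R_k / 4 - θ l_k R_k ≥ l_k R_k / 8` and, at the scale `R_{k+1}`, `|f p - f x| ≤ M l_{k+1} R_{k+1} / 2 + θ l_{k+1} R_{k+1} ≤ M l_{k+1} R_{k+1}`. So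
`l_k R_k ≤ 8 M l_{k+1} R_{k+1}`, and `l_k R_k → 0` by continuity of `f` at `x`. `d₀ = min (ε₂ l_0 R_0) (ε₂ η / (8 M))`; for `d < d₀` take the first `k` with `ε₂ l_{k+1} R_{k+1} < d`; then `d ≤ ε₂ l_k R_k ≤ 8 M ε₂ l_{k+1} R_{k+1} ≤ 8 M d` and `l_k R_k ≤ 8 M d / ε₂ ≤ η`. -/
def St_WIN : Prop := ∀ (K : Cp) (x : ℂ) (f : ℂ → ℂ) (M θ R₁ : ℝ), x ∈ K.T → 1 ≤ M → 0 ≤ θ → θ ≤ 1 / 8 → 0 < R₁ → R₁ ≤ K.r₀ →
  (∀ R : ℝ, 0 < R → R ≤ R₁ → ∃ (A : ℂ →ₗ[ℝ] ℂ) (l : ℝ), Dist A l M ∧ Near K.T f x R A (θ * l * R)) → ContinuousWithinAt f K.T x →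
  ∀ ε₂ η : ℝ, 0 < ε₂ → 0 < η → ∃ d₀ : ℝ, 0 < d₀ ∧ ∀ d : ℝ, 0 < d → d < d₀ → ∃ (R l : ℝ) (A : ℂ →ₗ[ℝ] ℂ), 0 < R ∧ R ≤ R₁ ∧ Dist A l M ∧
    Near K.T f x R A (θ * l * R) ∧ l * R ≤ η ∧ ε₂ * (l * R) ≤ 8 * M * d ∧ d ≤ ε₂ * (l * R)

/-- the hypothesis of the main theorem: `f` is almost affine at `x` -/
def AAff (K : Cp) (θ : ℝ → ℝ) (f : ℂ → ℂ) (x : ℂ) : Prop := ∃ M : ℝ, 1 ≤ M ∧ ∃ R₀ : ℝ, 0 < R₀ ∧ ∀ R : ℝ, 0 < R → R < R₀ →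
  ∃ (A : ℂ →ₗ[ℝ] ℂ) (l : ℝ), Dist A l M ∧ Near K.T f x R A (θ M * l * R)

/-- relatively open subsets of the carpet -/
def ROp (K : Cp) (V : Set ℂ) : Prop := ∃ O : Set ℂ, IsOpen O ∧ V = K.T ∩ O

/-- [OPN] (openness) from KEY, WIN, NTB, TF. PROOF. `θ M`, `ε(M)` = those of KEY for `max M 1`. It is enough: for `x₀ ∈ V` some `η > 0` with `T ∩ ball (f x₀) η ⊆ f '' V`. Suppose not. `V = T ∩ O`; take `r > 0`, `2 r < R₀` (`R₀` of `x₀`) with `closedBall x₀ r ⊆ O`; `V' = T ∩ closedBall x₀ r`,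
`E = f '' V'` compact, `f x₀ ∈ closure (T \ E)`. For `p ∈ V'`, `p ≠ x₀`: with `R = 2 |p - x₀|`: `|f p - f x₀| ≥ l |p - x₀| - (1/8) l R > 0`. So the compact set `f '' {p ∈ V' : |p - x₀| ≥ r / 2}` has a distance `η > 0` from `f x₀`. NTB at `y₀ = f x₀`: `y = f x`, `x ∈ V'`, `|x - x₀| < r / 2`.
Let `M, R₀'` be those of `x`, `R₁ = min (R₀' / 2) (min (r / 2) r₀)`. WIN at `x` with `ε₂ = ε(M)`, `η := r₀ / (3 M²)`: `d₀`. NTB: `z ∈ T`, `z ≠ y`, `d = |z - y| < d₀`, `|z - y| / 2 ≤ |e - z|` for `e ∈ E`. WIN gives `R, l, A`, and KEY gives the contradiction (`T ∩ ball x R ⊆ V'`). -/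
def St_OPN : Prop := ∀ (K : Cp) (Γ : Subgroup (Equiv.Perm K.T)), Grp K Γ → ∃ θ : ℝ → ℝ, (∀ M, 0 < θ M) ∧
  ∀ (V : Set ℂ) (f : ℂ → ℂ), ROp K V → ContinuousOn f V → Set.MapsTo f V K.T → (∀ x ∈ V, AAff K θ f x) → ROp K (f '' V)

/-- [SRJ] from LCF, TF. PROOF. `E = f '' T = T ∩ O'` is compact and not empty. If `z ∈ T \ E`, LCF with any `e₁ ∈ E` gives `y ∈ E ∩ closure (T \ E)`; `O'` is a neighbourhood of `y`, so it contains a point of `T \ E`, but `T ∩ O' = E`. -/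
def St_SRJ : Prop := ∀ (K : Cp) (f : ℂ → ℂ), ContinuousOn f K.T → Set.MapsTo f K.T K.T → ROp K (f '' K.T) → f '' K.T = K.T

/-! ## Corollaries -/

/-- [DIF] PROOF. `A` injective: `l = min |A v|` over `|v| = 1` is positive, `|A v| ≤ M l |v|` for `M = max 1 (‖A‖ / l)`. For `θ > 0` the derivative gives `R₀` with `|f p - f x - A (p - x)| ≤ θ l |p - x|` for `p ∈ T`, `|p - x| < R₀`. -/
def St_DIF : Prop := ∀ (K : Cp) (θ : ℝ → ℝ) (f : ℂ → ℂ) (x : ℂ) (A : ℂ →L[ℝ] ℂ), (∀ M, 0 < θ M) → Function.Injective A →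
  HasFDerivWithinAt f A K.T x → AAff K θ f x

/-- [STB] (plane maps that almost preserve distances) PROOF. Let `x = 0`, `f x = 0`, `Λ = R = 1` (scale), `p₁ = 1/2` (rotate the source). `| |f p₁| - 1/2 | ≤ ε`; rotate the target so that `f p₁` is a positive real number: `|f p₁ - p₁| ≤ ε`. For `p ∈ S`: `|f p|`, `|f p - f p₁|` are
within `ε` of `|p|`, `|p - p₁|`, so `re (f p)` is within `C ε` of `re p` (`2 re (w conj p₁) = |w|² + |p₁|² - |w - p₁|²`) and `(im (f p))²` within `C ε` of `(im p)²`. So `f p` is within `C √ε` of `p` or of `conj p`. If all `|im p| ≤ ε^{1/4}` take `A = id`. Otherwise let `p₂ ∈ S`,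
`|im p₂| > ε^{1/4}`, and conjugate the target if necessary so that `|f p₂ - p₂| ≤ C √ε`. If `p ∈ S` has `|f p - conj p| ≤ C √ε` then `| |conj p - p₂|² - |p - p₂|² | = 4 |im p| |im p₂| ≤ C √ε`, so `|im p| ≤ C ε^{1/4}` and `|f p - p| ≤ C ε^{1/4}`. So `A = id` works. -/
def St_STB : Prop := ∀ θ : ℝ, 0 < θ → ∃ ε : ℝ, 0 < ε ∧ ∀ (S : Set ℂ) (x p₁ : ℂ) (R Λ : ℝ) (f : ℂ → ℂ), 0 < R → 0 < Λ → x ∈ S → p₁ ∈ S →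
  ‖p₁ - x‖ = R / 2 → (∀ p ∈ S, ‖p - x‖ < R) → (∀ p ∈ S, ∀ q ∈ S, |‖f p - f q‖ - Λ * ‖p - q‖| ≤ ε * (Λ * R)) →
  ∃ A : ℂ →ₗ[ℝ] ℂ, (∀ w, ‖A w‖ = Λ * ‖w‖) ∧ ∀ p ∈ S, ‖f p - f x - A (p - x)‖ ≤ θ * (Λ * R)

/-- [ALM] from SPH. PROOF. `p₁` of SPH, `Λ = 2 |f p₁ - f x| / R > 0`. Write `r_p = |p - x|`, `F_p = |f p - f x|`. (1) `|F_p - Λ r_p| ≤ 3 ε Λ R` and `F_p ≤ 2 Λ R`: `AlmSim` for `(x, p, p₁)` if `r_p ≤ R / 2`, for `(x, p₁, p)` otherwise. (2) For `p, q` let `r_p ≥ r_q`. If `|p - q| ≤ r_p`: `AlmSim` for `(p, q, x)`,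
divide by `r_p`: `| |f p - f q| - F_p |p - q| / r_p | ≤ ε F_p`. If `|p - q| > r_p` (`≤ 2 r_p`): `AlmSim` for `(p, x, q)`, divide by `r_p`: `|F_p |p - q| / r_p - |f p - f q| | ≤ 2 ε |f p - f q|`, so `|f p - f q| ≤ 5 Λ R`. In both cases `|F_p |p - q| / r_p - Λ |p - q| | ≤ 6 ε Λ R`. -/
def St_ALM : Prop := ∀ (K : Cp) (x : ℂ) (f : ℂ → ℂ) (R₀ ε R : ℝ), x ∈ K.T → 0 < ε → ε ≤ 1 / 100 → AlmSim K.T f x R₀ ε →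
  Set.InjOn f (K.T ∩ ball x R₀) → 0 < R → R < R₀ → R ≤ K.r₀ → ∃ p₁ ∈ K.T, ‖p₁ - x‖ = R / 2 ∧ ∃ Λ : ℝ, 0 < Λ ∧
    ∀ p ∈ K.T, ∀ q ∈ K.T, ‖p - x‖ < R → ‖q - x‖ < R → |‖f p - f q‖ - Λ * ‖p - q‖| ≤ 40 * ε * (Λ * R)

/-- [QSL] from ALM, STB. PROOF. STB for `θ 1`: `ε'`; `ε = min (1/100) (ε' / 40)`. For small `R` apply ALM and STB to `S = T ∩ ball x R`; a similarity has distortion `M = 1`, `l = Λ`. -/
def St_QSL : Prop := ∀ (K : Cp) (θ : ℝ → ℝ), (∀ M, 0 < θ M) → ∃ ε : ℝ, 0 < ε ∧ ∀ (f : ℂ → ℂ) (x : ℂ) (R₀ : ℝ), x ∈ K.T → 0 < R₀ →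
  AlmSim K.T f x R₀ ε → Set.InjOn f (K.T ∩ ball x R₀) → AAff K θ f x

/-- [QMC] from SPH. PROOF. `δ = min ε 1 / 8`, `d ∈ T` with `|d - x| = r₀`. For small `R₀` and `a, b, c ∈ T ∩ ball x R₀`: `|c - d| / |b - d|` and `|f c - f d| / |f b - f d|` are in `[1 - δ, 1 + δ]` (continuity, `f d ≠ f x`). If `|a - b| ≤ |a - c|`, `a ≠ c` (if `a = c` then `a = b` and all is `0`):
`ρ = |a - b| / |a - c| ≤ 1`, `ρ' = |f a - f b| / |f a - f c|`, `cr a b c d ≤ 1 + δ ≤ 2`, `|ρ' - ρ| ≤ ε + δ ρ' + δ ρ` and `ρ' ≤ (1 + δ + ε) / (1 - δ)`, so `|ρ' - ρ| ≤ 4 ε`; multiply by `|a - c| |f a - f c|`. -/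
def St_QMC : Prop := ∀ (K : Cp) (f : ℂ → ℂ) (ε : ℝ), 0 < ε → ContinuousOn f K.T → Set.InjOn f K.T →
  (∀ a ∈ K.T, ∀ b ∈ K.T, ∀ c ∈ K.T, ∀ d ∈ K.T, a ≠ c → b ≠ d → cr a b c d ≤ 2 → |cr (f a) (f b) (f c) (f d) - cr a b c d| ≤ ε) →
  ∀ x ∈ K.T, ∃ R₀ : ℝ, 0 < R₀ ∧ AlmSim K.T f x R₀ (4 * ε)

/-- the main theorem -/
def Main : Prop := ∀ (K : Cp) (Γ : Subgroup (Equiv.Perm K.T)), Grp K Γ →
  (∃ θ : ℝ → ℝ, (∀ M, 0 < θ M) ∧ ∀ (V : Set ℂ) (f : ℂ → ℂ), ROp K V → ContinuousOn f V → Set.MapsTo f V K.T →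
    (∀ x ∈ V, AAff K θ f x) → ROp K (f '' V) ∧ (V = K.T → f '' V = K.T)) ∧
  (∀ (V : Set ℂ) (f : ℂ → ℂ), ROp K V → Set.MapsTo f V K.T →
    (∀ x ∈ V, ∃ A : ℂ →L[ℝ] ℂ, Function.Injective A ∧ HasFDerivWithinAt f A K.T x) → ROp K (f '' V) ∧ (V = K.T → f '' V = K.T)) ∧
  (∃ ε : ℝ, 0 < ε ∧ ∀ (V : Set ℂ) (f : ℂ → ℂ), ROp K V → ContinuousOn f V → Set.MapsTo f V K.T → Set.InjOn f V →
    (∀ x ∈ V, ∃ R₀ : ℝ, 0 < R₀ ∧ AlmSim K.T f x R₀ ε) → ROp K (f '' V) ∧ (V = K.T → f '' V = K.T)) ∧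
  (∃ ε : ℝ, 0 < ε ∧ ∀ f : ℂ → ℂ, ContinuousOn f K.T → Set.MapsTo f K.T K.T → Set.InjOn f K.T →
    (∀ a ∈ K.T, ∀ b ∈ K.T, ∀ c ∈ K.T, ∀ d ∈ K.T, a ≠ c → b ≠ d → cr a b c d ≤ 2 → |cr (f a) (f b) (f c) (f d) - cr a b c d| ≤ ε) →
    f '' K.T = K.T)

/-- [FIN] from OPN, SRJ, DIF, QSL, QMC, TF. PROOF. (1) OPN and SRJ. (2) DIF and (1); differentiable maps are continuous. (3) QSL for the `θ` of (1) (injectivity on `T ∩ ball x R₀` after making `R₀` smaller, `V` is relatively open). (4) QMC with `ε / 4` and (3) for `V = T`. -/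
def St_FIN : Prop := St_OPN → St_SRJ → St_DIF → St_QSL → St_QMC → St_TF → Main

end RCE
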